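import Mathlib

set_option autoImplicit false
open MeasureTheory Set Filter Topology Matrix

noncomputable section
namespace VPL

/-- the random quadratic exponent -/
def qf (a l s0 y : ℝ) : ℝ := a * (y + l / a) ^ 2 + s0

/-- quadratic form of a matrix -/
def quad {m : ℕ} (A : Fin m → Fin m → ℝ) (x : Fin m → ℝ) : ℝ := ∑ i, ∑ j, A i j * x i * x j
/-- bilinear form of a matrix -/
def bil {m : ℕ} (A : Fin m → Fin m → ℝ) (x y : Fin m → ℝ) : ℝ := ∑ i, ∑ j, A i j * x i * y j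

/-- The class of Gaussian mixtures with the variance condition. -/
def Good (β : ℝ) (m : ℕ) (H : (Fin m → ℝ) → ℝ) : Prop :=
  ∃ (Ω : Type) (_ : MeasurableSpace Ω) (μ : Measure Ω) (A : Ω → Fin m → Fin m → ℝ) (δ C : ℝ),
    IsFiniteMeasure μ ∧ μ ≠ 0 ∧ 0 < δ ∧ (∀ i j, Measurable (fun ω => A ω i j)) ∧
    (∀ ω i j, |A ω i j| ≤ C) ∧ (∀ ω i j, A ω i j = A ω j i) ∧
    (∀ ω (x : Fin m → ℝ), δ * ∑ i, x i ^ 2 ≤ quad (A ω) x) ∧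
    (∀ x, H x = ∫ ω, Real.exp (-quad (A ω) x) ∂μ) ∧
    (∀ x ξ : Fin m → ℝ,
      (∫ ω, bil (A ω) x ξ ^ 2 * Real.exp (-quad (A ω) x) ∂μ) *
          (∫ ω, Real.exp (-quad (A ω) x) ∂μ) -
        (∫ ω, bil (A ω) x ξ * Real.exp (-quad (A ω) x) ∂μ) ^ 2 ≤
      β * (∫ ω, quad (A ω) ξ * Real.exp (-quad (A ω) x) ∂μ) *
          (∫ ω, Real.exp (-quad (A ω) x) ∂μ))

/-- Laplace transforms of bounded laws satisfying the variance condition -/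
def MixLaw (β : ℝ) (g : ℝ → ℝ) : Prop :=
  ∃ (κ : Type) (_ : MeasurableSpace κ) (P : Measure κ) (T : κ → ℝ) (M : ℝ),
    IsFiniteMeasure P ∧ P ≠ 0 ∧ Measurable T ∧ (∀ u, 0 ≤ T u) ∧ (∀ u, T u ≤ M) ∧
    (∀ s : ℝ, 0 ≤ s → g s = ∫ u, Real.exp (-(s * T u)) ∂P) ∧
    (∀ s : ℝ, 0 ≤ s →
      s * ((∫ u, T u ^ 2 * Real.exp (-(s * T u)) ∂P) * (∫ u, Real.exp (-(s * T u)) ∂P) -
        (∫ u, T u * Real.exp (-(s * T u)) ∂P) ^ 2) ≤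
      β * (∫ u, T u * Real.exp (-(s * T u)) ∂P) * (∫ u, Real.exp (-(s * T u)) ∂P))

/-- Laplace transform of a shifted, scaled, truncated Pareto law -/
def par (α M c s : ℝ) : ℝ :=
  (∫ u in (1:ℝ)..M, Real.exp (-(s * (c * (α / (1 - α) + u)))) * u ^ (-1 - α)) /
    (∫ u in (1:ℝ)..M, u ^ (-1 - α))

/-- the functional `N` -/
def NN {n N : ℕ} (v : Fin N → Fin n → ℝ) (p : ℝ) (x : Fin n → ℝ) : ℝ := ∑ j, |v j ⬝ᵥ x| ^ p

/-- the configuration spans -/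
def Spans {n N : ℕ} (v : Fin N → Fin n → ℝ) : Prop := ∀ x : Fin n → ℝ, (∀ j, v j ⬝ᵥ x = 0) → x = 0

/-- `Z` -/
def ZZ {n N : ℕ} (v : Fin N → Fin n → ℝ) (p : ℝ) : ℝ := ∫ x : Fin n → ℝ, Real.exp (-NN v p x)

/-- singular weight -/
def wt {n N : ℕ} (v : Fin N → Fin n → ℝ) (σ : Fin n → Fin N) (J : Finset (Fin n)) (p : ℝ)
    (x : Fin n → ℝ) : ℝ := ∏ j ∈ J, |v (σ j) ⬝ᵥ x| ^ (p - 2)

def GG {n N : ℕ} (v : Fin N → Fin n → ℝ) (σ : Fin n → Fin N) (J : Finset (Fin n)) (p : ℝ) : ℝ :=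
  ∫ x : Fin n → ℝ, wt v σ J p x * Real.exp (-NN v p x)

/-- `V` (up to a constant factor the polar volume) -/
def VV {n N : ℕ} (v : Fin N → Fin n → ℝ) (p : ℝ) : ℝ :=
  (∑ σ : Fin n → Fin N, (Matrix.det (Matrix.of fun j => v (σ j))) ^ 2 * GG v σ Finset.univ p) /
    (n.factorial : ℝ)

/-- scaling one vector so that `c_i = 1` becomes `1 + t` -/
def scl {n N : ℕ} (v : Fin N → Fin n → ℝ) (p : ℝ) (i : Fin N) (t : ℝ) : Fin N → Fin n → ℝ :=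
  Function.update v i ((1 + t) ^ (1 / p) • v i)

/-- perturbed integrals -/
def AA {n N : ℕ} (v : Fin N → Fin n → ℝ) (σ : Fin n → Fin N) (J : Finset (Fin n)) (p : ℝ)
    (i : Fin N) (t : ℝ) : ℝ :=
  ∫ x : Fin n → ℝ, (if i ∈ J.image σ then 1 + t else 1) * Real.exp (-(t * |v i ⬝ᵥ x| ^ p)) *
    (wt v σ J p x * Real.exp (-NN v p x))

/-- the compact set of normalised configurations -/
def KK (n N : ℕ) : Set (Fin N → Fin n → ℝ) :=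
  {v | (∀ j i, |v j i| ≤ 1) ∧ ∃ σ : Fin n → Fin N, ∀ i, v (σ i) = Pi.single i 1}

/-- the constant -/
def kap (p : ℝ) : ℝ := ZZ (fun (_ : Fin 1) (_ : Fin 1) => (1:ℝ)) p * VV (fun (_ : Fin 1) (_ : Fin 1) => (1:ℝ)) p

/-- the gradient of `N/p` -/
def grd {n N : ℕ} (v : Fin N → Fin n → ℝ) (p : ℝ) (x : Fin n → ℝ) : Fin n → ℝ :=
  ∑ j, (SignType.sign (v j ⬝ᵥ x) * |v j ⬝ᵥ x| ^ (p - 1)) • v j

end VPL
end
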