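import Mathlib
import Pool.Agent.VPL.Defs

set_option autoImplicit false
open MeasureTheory Set Filter Topology Matrix

noncomputable section
namespace VPL

section
namespace S_bl1d

theorem bl1d_ftc (f : ℝ → ℝ) (hf : Continuous f) (a y : ℝ) :
    HasDerivAt (fun u => ∫ x in a..u, f x) (f y) y :=
  intervalIntegral.integral_hasDerivAt_right (hf.intervalIntegrable _ _)
    (hf.stronglyMeasurableAtFilter _ _) hf.continuousAt

theorem bl1d_mono (f f' : ℝ → ℝ) (a : ℝ) (hf : ∀ y, HasDerivAt f (f' y) y)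
    (h0 : ∀ y, a ≤ y → 0 ≤ f' y) (y : ℝ) (hy : a ≤ y) : f a ≤ f y := by
  have h1 : MonotoneOn f (Ici a) := by
    apply monotoneOn_of_deriv_nonneg (convex_Ici a)
    · exact fun x _ => (hf x).continuousAt.continuousWithinAt
    · exact fun x _ => (hf x).differentiableAt.differentiableWithinAt
    · intro x hx
      rw [interior_Ici] at hx
      rw [(hf x).deriv]
      exact h0 x (le_of_lt hx)
  exact h1 (by simp) hy hy

/-- half line version -/
theorem bl1d_half (η η1 η2 φ φ1 : ℝ → ℝ) (y0 : ℝ)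
    (h1 : ∀ y, HasDerivAt η (η1 y) y) (h2 : ∀ y, HasDerivAt η1 (η2 y) y)
    (h2c : Continuous η2) (h2p : ∀ y, 0 < η2 y)
    (hφ : ∀ y, HasDerivAt φ (φ1 y) y) (hφc : Continuous φ1) (h0 : η1 y0 = 0)
    (hint : IntegrableOn (fun y => φ1 y ^ 2 / η2 y * Real.exp (-η y)) (Ioi y0)) :
    IntegrableOn (fun y => (φ y - φ y0) ^ 2 * Real.exp (-η y)) (Ioi y0) ∧
    ∫ y in Ioi y0, (φ y - φ y0) ^ 2 * Real.exp (-η y) ≤
      ∫ y in Ioi y0, φ1 y ^ 2 / η2 y * Real.exp (-η y) := by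
  have cη : Continuous η := continuous_iff_continuousAt.2 fun y => (h1 y).continuousAt
  have cφ : Continuous φ := continuous_iff_continuousAt.2 fun y => (hφ y).continuousAt
  have cf : Continuous (fun y => φ1 y ^ 2 / η2 y) :=
    (hφc.pow 2).div h2c (fun y => (h2p y).ne')
  have ce : Continuous (fun y => Real.exp (-η y)) := Real.continuous_exp.comp cη.neg
  have cg : Continuous (fun y => φ1 y ^ 2 / η2 y * Real.exp (-η y)) := cf.mul ce
  have cD : Continuous (fun y => (φ y - φ y0) ^ 2 * Real.exp (-η y)) :=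
    ((cφ.sub continuous_const).pow 2).mul ce
  set F : ℝ → ℝ := fun u => ∫ x in y0..u, φ1 x ^ 2 / η2 x with hF
  have dF : ∀ y, HasDerivAt F (φ1 y ^ 2 / η2 y) y := bl1d_ftc _ cf y0
  have F0 : F y0 = 0 := by simp [hF]
  have fnn : ∀ y, 0 ≤ φ1 y ^ 2 / η2 y := fun y => div_nonneg (sq_nonneg _) (h2p y).le
  have Fnn : ∀ y, y0 ≤ y → 0 ≤ F y := by
    intro y hy
    have := bl1d_mono F _ y0 dF (fun y _ => fnn y) y hy
    rwa [F0] at this
  have hCS : ∀ y, y0 ≤ y → (φ y - φ y0) ^ 2 ≤ F y * η1 y := by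
    intro y hy
    have key : ∀ t : ℝ, 0 ≤ F y - 2 * t * (φ y - φ y0) + t ^ 2 * η1 y := by
      intro t
      have d : ∀ z, HasDerivAt (fun z => F z - 2 * t * (φ z - φ y0) + t ^ 2 * η1 z)
          (φ1 z ^ 2 / η2 z - 2 * t * φ1 z + t ^ 2 * η2 z) z := by
        intro z
        exact ((dF z).sub (((hφ z).sub_const _).const_mul _)).add ((h2 z).const_mul _)
      have nn : ∀ z, y0 ≤ z → 0 ≤ φ1 z ^ 2 / η2 z - 2 * t * φ1 z + t ^ 2 * η2 z := by
        intro z _
        have hp := h2p z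
        have : φ1 z ^ 2 / η2 z - 2 * t * φ1 z + t ^ 2 * η2 z = (φ1 z - t * η2 z) ^ 2 / η2 z := by
          field_simp
          ring
        rw [this]
        exact div_nonneg (sq_nonneg _) hp.le
      have := bl1d_mono _ _ y0 d nn y hy
      simp only [F0, h0, sub_self, mul_zero, add_zero] at this
      exact this
    rcases hy.eq_or_lt with h | h
    · subst h; simp [h0]
    · have hpos : 0 < η1 y := by
        have hs : StrictMono η1 := by
          apply strictMono_of_deriv_pos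
          intro z
          rw [(h2 z).deriv]
          exact h2p z
        have := hs h
        rwa [h0] at this
      have h3 := key ((φ y - φ y0) / η1 y)
      have h4 : F y - 2 * ((φ y - φ y0) / η1 y) * (φ y - φ y0) +
          ((φ y - φ y0) / η1 y) ^ 2 * η1 y = F y - (φ y - φ y0) ^ 2 / η1 y := by
        field_simp
        ring
      rw [h4] at h3
      have h5 : (φ y - φ y0) ^ 2 / η1 y ≤ F y := by linarith
      rwa [div_le_iff₀ hpos] at h5
  have hR : ∀ R, y0 ≤ R → ∫ y in y0..R, (φ y - φ y0) ^ 2 * Real.exp (-η y) ≤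
      ∫ y in y0..R, φ1 y ^ 2 / η2 y * Real.exp (-η y) := by
    intro R hy
    have dE : ∀ y, HasDerivAt (fun y => Real.exp (-η y)) (Real.exp (-η y) * (-η1 y)) y :=
      fun y => (h1 y).neg.exp
    have d : ∀ z, HasDerivAt (fun z => (∫ y in y0..z, φ1 y ^ 2 / η2 y * Real.exp (-η y)) -
        (∫ y in y0..z, (φ y - φ y0) ^ 2 * Real.exp (-η y)) - F z * Real.exp (-η z))
        (φ1 z ^ 2 / η2 z * Real.exp (-η z) - (φ z - φ y0) ^ 2 * Real.exp (-η z) -
          (φ1 z ^ 2 / η2 z * Real.exp (-η z) + F z * (Real.exp (-η z) * (-η1 z)))) z := by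
      intro z
      exact ((bl1d_ftc _ cg y0 z).sub (bl1d_ftc _ cD y0 z)).sub ((dF z).mul (dE z))
    have nn : ∀ z, y0 ≤ z → 0 ≤ φ1 z ^ 2 / η2 z * Real.exp (-η z) -
        (φ z - φ y0) ^ 2 * Real.exp (-η z) -
          (φ1 z ^ 2 / η2 z * Real.exp (-η z) + F z * (Real.exp (-η z) * (-η1 z))) := by
      intro z hz
      have e : φ1 z ^ 2 / η2 z * Real.exp (-η z) -
        (φ z - φ y0) ^ 2 * Real.exp (-η z) -
          (φ1 z ^ 2 / η2 z * Real.exp (-η z) + F z * (Real.exp (-η z) * (-η1 z))) =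
          (F z * η1 z - (φ z - φ y0) ^ 2) * Real.exp (-η z) := by ring
      rw [e]
      exact mul_nonneg (sub_nonneg.2 (hCS z hz)) (Real.exp_nonneg _)
    have := bl1d_mono _ _ y0 d nn R hy
    simp only [intervalIntegral.integral_same, F0, zero_mul, sub_zero] at this
    have h5 : 0 ≤ F R * Real.exp (-η R) := mul_nonneg (Fnn R hy) (Real.exp_nonneg _)
    linarith
  have hbd : ∀ R, y0 ≤ R → ∫ y in y0..R, φ1 y ^ 2 / η2 y * Real.exp (-η y) ≤
      ∫ y in Ioi y0, φ1 y ^ 2 / η2 y * Real.exp (-η y) := by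
    intro R hy
    rw [intervalIntegral.integral_of_le hy]
    apply setIntegral_mono_set hint
    · exact Eventually.of_forall fun y => mul_nonneg (fnn y) (Real.exp_nonneg _)
    · exact (Ioc_subset_Ioi_self).eventuallyLE
  have hI : IntegrableOn (fun y => (φ y - φ y0) ^ 2 * Real.exp (-η y)) (Ioi y0) := by
    apply integrableOn_Ioi_of_intervalIntegral_norm_bounded (l := atTop) (b := fun R : ℝ => R)
      (∫ y in Ioi y0, φ1 y ^ 2 / η2 y * Real.exp (-η y)) y0
    · intro i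
      exact (cD.integrableOn_Icc (a := y0) (b := i)).mono_set Ioc_subset_Icc_self
    · exact tendsto_id
    · filter_upwards [eventually_ge_atTop y0] with R hR'
      have : ∀ x, ‖(φ x - φ y0) ^ 2 * Real.exp (-η x)‖ = (φ x - φ y0) ^ 2 * Real.exp (-η x) := by
        intro x
        rw [Real.norm_eq_abs, abs_of_nonneg]
        positivity
      simp only [this]
      exact (hR R hR').trans (hbd R hR')
  refine ⟨hI, ?_⟩
  have ht := intervalIntegral_tendsto_integral_Ioi (l := atTop) (b := fun R : ℝ => R) y0 hI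
    tendsto_id
  apply le_of_tendsto ht
  filter_upwards [eventually_ge_atTop y0] with R hR'
  exact (hR R hR').trans (hbd R hR')

/-- One-dimensional Brascamp-Lieb inequality (about the mode). -/
theorem bl1d (η η1 η2 φ φ1 : ℝ → ℝ) (y0 : ℝ)
    (h1 : ∀ y, HasDerivAt η (η1 y) y) (h2 : ∀ y, HasDerivAt η1 (η2 y) y)
    (h2c : Continuous η2) (h2p : ∀ y, 0 < η2 y)
    (hφ : ∀ y, HasDerivAt φ (φ1 y) y) (hφc : Continuous φ1) (h0 : η1 y0 = 0)
    (hint : Integrable (fun y => φ1 y ^ 2 / η2 y * Real.exp (-η y))) :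
    Integrable (fun y => (φ y - φ y0) ^ 2 * Real.exp (-η y)) ∧
    ∫ y, (φ y - φ y0) ^ 2 * Real.exp (-η y) ≤ ∫ y, φ1 y ^ 2 / η2 y * Real.exp (-η y) := by
  obtain ⟨r1, r2⟩ := bl1d_half η η1 η2 φ φ1 y0 h1 h2 h2c h2p hφ hφc h0 hint.integrableOn
  have hn : ∀ (f f' : ℝ → ℝ), (∀ y, HasDerivAt f (f' y) y) →
      ∀ y, HasDerivAt (fun y => f (-y)) (-f' (-y)) y := by
    intro f f' hf y
    have h := (hf (-y)).comp y (hasDerivAt_neg y)
    have e : f' (-y) * -1 = -f' (-y) := by ring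
    rw [e] at h
    exact h
  have hn2 : ∀ y, HasDerivAt (fun y => -η1 (-y)) (η2 (-y)) y := by
    intro y
    have h := (hn η1 η2 h2 y).neg
    rw [neg_neg] at h
    exact h
  have mp : MeasurePreserving (fun y : ℝ => -y) volume volume := Measure.measurePreserving_neg _
  have me : MeasurableEmbedding (fun y : ℝ => -y) := (Homeomorph.neg ℝ).measurableEmbedding
  have hint2 : Integrable (fun y => φ1 (-y) ^ 2 / η2 (-y) * Real.exp (-η (-y))) :=
    (mp.integrable_comp_emb me).2 hint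
  have hint3 : Integrable (fun y => (-φ1 (-y)) ^ 2 / η2 (-y) * Real.exp (-η (-y))) := by
    simpa only [neg_sq] using hint2
  obtain ⟨l1, l2⟩ := bl1d_half (fun y => η (-y)) (fun y => -η1 (-y)) (fun y => η2 (-y))
    (fun y => φ (-y)) (fun y => -φ1 (-y)) (-y0) (hn η η1 h1) hn2 (h2c.comp continuous_neg)
    (fun y => h2p (-y)) (hn φ φ1 hφ) (hφc.comp continuous_neg).neg (by simp [h0])
    hint3.integrableOn
  simp only [neg_neg, neg_sq] at l1 l2
  have pre : (fun y : ℝ => -y) ⁻¹' (Iic y0) = Ici (-y0) := by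
    ext y; simp
  have l3 : IntegrableOn (fun y => (φ y - φ y0) ^ 2 * Real.exp (-η y)) (Iic y0) := by
    rw [← mp.integrableOn_comp_preimage me, pre, integrableOn_Ici_iff_integrableOn_Ioi]
    exact l1
  have e1 := integral_comp_neg_Ioi (-y0) (fun y => (φ y - φ y0) ^ 2 * Real.exp (-η y))
  have e2 := integral_comp_neg_Ioi (-y0) (fun y => φ1 y ^ 2 / η2 y * Real.exp (-η y))
  rw [neg_neg] at e1 e2
  rw [e1, e2] at l2
  constructor
  · rw [← integrableOn_univ, ← Iic_union_Ioi (a := y0)]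
    exact l3.union r1
  · rw [← intervalIntegral.integral_Iic_add_Ioi l3 r1,
      ← intervalIntegral.integral_Iic_add_Ioi hint.integrableOn hint.integrableOn]
    exact add_le_add l2 r2

end S_bl1d

theorem bl1d : type_of% @S_bl1d.bl1d := @S_bl1d.bl1d
end

section
namespace S_dq

/-- derivative of a polynomially weighted exponential integral -/
theorem dq {Ω : Type} [MeasurableSpace Ω] (μ : Measure Ω) [IsFiniteMeasure μ]
    (a l s0 g0 g1 : Ω → ℝ) (δ C : ℝ) (hδ : 0 < δ)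
    (ha : Measurable a) (hl : Measurable l) (hs0 : Measurable s0)
    (hg0 : Measurable g0) (hg1 : Measurable g1)
    (haδ : ∀ ω, δ ≤ a ω) (haC : ∀ ω, a ω ≤ C) (hlC : ∀ ω, |l ω| ≤ C) (hs0C : ∀ ω, |s0 ω| ≤ C)
    (hg0C : ∀ ω, |g0 ω| ≤ C) (hg1C : ∀ ω, |g1 ω| ≤ C) (y : ℝ) :
    HasDerivAt (fun y => ∫ ω, (g0 ω + g1 ω * y) * Real.exp (-qf (a ω) (l ω) (s0 ω) y) ∂μ)
      (∫ ω, (g1 ω - (g0 ω + g1 ω * y) * (2 * (a ω * y + l ω))) *
        Real.exp (-qf (a ω) (l ω) (s0 ω) y) ∂μ) y := by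
  have hexp : ∀ ω z, Real.exp (-qf (a ω) (l ω) (s0 ω) z) ≤ Real.exp C := by
    intro ω z
    refine Real.exp_le_exp.2 ?_
    have h1 : 0 ≤ a ω * (z + l ω / a ω) ^ 2 := mul_nonneg (hδ.le.trans (haδ ω)) (sq_nonneg _)
    have h2 := (abs_le.1 (hs0C ω)).1
    unfold qf
    linarith
  have hlin : ∀ ω z, |g0 ω + g1 ω * z| ≤ C + C * |z| := by
    intro ω z
    calc |g0 ω + g1 ω * z| ≤ |g0 ω| + |g1 ω * z| := abs_add_le _ _
      _ ≤ C + C * |z| := by
        rw [abs_mul]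
        exact add_le_add (hg0C ω) (mul_le_mul_of_nonneg_right (hg1C ω) (abs_nonneg _))
  have hmq : ∀ z, Measurable (fun ω => Real.exp (-qf (a ω) (l ω) (s0 ω) z)) := by
    intro z
    unfold qf
    fun_prop
  have hs : Metric.ball y 1 ∈ 𝓝 y := Metric.ball_mem_nhds y one_pos
  refine (hasDerivAt_integral_of_dominated_loc_of_deriv_le (μ := μ)
    (F := fun z ω => (g0 ω + g1 ω * z) * Real.exp (-qf (a ω) (l ω) (s0 ω) z))
    (F' := fun z ω => (g1 ω - (g0 ω + g1 ω * z) * (2 * (a ω * z + l ω))) *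
        Real.exp (-qf (a ω) (l ω) (s0 ω) z))
    (bound := fun _ => (C + (C + C * (|y| + 1)) * (2 * (C * (|y| + 1) + C))) * Real.exp C)
    hs ?_ ?_ ?_ ?_ ?_ ?_).2
  · refine Filter.Eventually.of_forall fun z => ?_
    exact ((hg0.add (hg1.mul_const z)).mul (hmq z)).aestronglyMeasurable
  · refine Integrable.of_bound
      ((hg0.add (hg1.mul_const y)).mul (hmq y)).aestronglyMeasurable
      ((C + C * |y|) * Real.exp C) (Filter.Eventually.of_forall fun ω => ?_)
    have hC : 0 ≤ C := (abs_nonneg _).trans (hlC ω)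
    rw [Real.norm_eq_abs, abs_mul, abs_of_pos (Real.exp_pos _)]
    exact mul_le_mul (hlin ω y) (hexp ω y) (Real.exp_pos _).le (by positivity)
  · refine Measurable.aestronglyMeasurable ?_
    refine Measurable.mul ?_ (hmq y)
    fun_prop
  · refine Filter.Eventually.of_forall fun ω z hz => ?_
    have hC : 0 ≤ C := (abs_nonneg _).trans (hlC ω)
    have hz1 : |z| ≤ |y| + 1 := by
      have h1 : |z - y| < 1 := by
        rw [← Real.dist_eq]
        exact Metric.mem_ball.1 hz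
      have h2 : |z| ≤ |z - y| + |y| := by
        calc |z| = |(z - y) + y| := by rw [sub_add_cancel]
          _ ≤ _ := abs_add_le _ _
      linarith
    rw [Real.norm_eq_abs, abs_mul, abs_of_pos (Real.exp_pos _)]
    have h3 : |g0 ω + g1 ω * z| ≤ C + C * (|y| + 1) :=
      (hlin ω z).trans (by
        have := mul_le_mul_of_nonneg_left hz1 hC
        linarith)
    have ha1 : |a ω| ≤ C := by
      rw [abs_of_pos (hδ.trans_le (haδ ω))]
      exact haC ω
    have h4 : |2 * (a ω * z + l ω)| ≤ 2 * (C * (|y| + 1) + C) := by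
      rw [abs_mul, abs_two]
      refine mul_le_mul_of_nonneg_left ?_ (by norm_num)
      calc |a ω * z + l ω| ≤ |a ω * z| + |l ω| := abs_add_le _ _
        _ ≤ C * (|y| + 1) + C := by
          rw [abs_mul]
          exact add_le_add (mul_le_mul ha1 hz1 (abs_nonneg _) hC) (hlC ω)
    have h5 : |g1 ω - (g0 ω + g1 ω * z) * (2 * (a ω * z + l ω))| ≤
        C + (C + C * (|y| + 1)) * (2 * (C * (|y| + 1) + C)) := by
      calc |g1 ω - (g0 ω + g1 ω * z) * (2 * (a ω * z + l ω))| ≤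
          |g1 ω| + |(g0 ω + g1 ω * z) * (2 * (a ω * z + l ω))| := abs_sub _ _
        _ ≤ _ := by
          rw [abs_mul]
          exact add_le_add (hg1C ω) (mul_le_mul h3 h4 (abs_nonneg _) (by positivity))
    exact mul_le_mul h5 (hexp ω z) (Real.exp_pos _).le (by positivity)
  · exact integrable_const _
  · refine Filter.Eventually.of_forall fun ω z _ => ?_
    have ha0 : a ω ≠ 0 := (hδ.trans_le (haδ ω)).ne'
    have h1 : HasDerivAt (fun z => g0 ω + g1 ω * z) (g1 ω) z := by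
      simpa using ((hasDerivAt_id z).const_mul (g1 ω)).const_add (g0 ω)
    have h2 : HasDerivAt (fun z => qf (a ω) (l ω) (s0 ω) z) (2 * (a ω * z + l ω)) z := by
      have h3 : HasDerivAt (fun z => z + l ω / a ω) 1 z := (hasDerivAt_id z).add_const _
      have h4 := ((h3.pow 2).const_mul (a ω)).add_const (s0 ω)
      refine h4.congr_deriv ?_
      have h5 : a ω * (l ω / a ω) = l ω := mul_div_cancel₀ _ ha0
      simp only [Nat.cast_ofNat, Nat.add_one_sub_one, pow_one, mul_one]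
      linear_combination 2 * h5
    have h5 := h1.mul h2.neg.exp
    refine h5.congr_deriv ?_
    simp only [Pi.neg_apply]
    ring

end S_dq

theorem dq : type_of% @S_dq.dq := @S_dq.dq
end

section
namespace S_cq

/-- continuity of weighted exponential integrals (quadratic polynomial weights) -/
theorem cq {Ω : Type} [MeasurableSpace Ω] (μ : Measure Ω) [IsFiniteMeasure μ]
    (a l s0 g0 g1 g2 : Ω → ℝ) (δ C : ℝ) (hδ : 0 < δ)
    (ha : Measurable a) (hl : Measurable l) (hs0 : Measurable s0)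
    (hg0 : Measurable g0) (hg1 : Measurable g1) (hg2 : Measurable g2)
    (haδ : ∀ ω, δ ≤ a ω) (haC : ∀ ω, a ω ≤ C) (hlC : ∀ ω, |l ω| ≤ C) (hs0C : ∀ ω, |s0 ω| ≤ C)
    (hg0C : ∀ ω, |g0 ω| ≤ C) (hg1C : ∀ ω, |g1 ω| ≤ C) (hg2C : ∀ ω, |g2 ω| ≤ C) :
    Continuous (fun y : ℝ => ∫ ω, (g0 ω + g1 ω * y + g2 ω * y ^ 2) *
      Real.exp (-qf (a ω) (l ω) (s0 ω) y) ∂μ) := by
  rw [continuous_iff_continuousAt]
  intro y0
  obtain ⟨M, hM⟩ : ∃ M : ℝ, M = |y0| + 1 := ⟨_, rfl⟩
  apply continuousAt_of_dominated (bound := fun _ => (C + C * M + C * M ^ 2) * Real.exp C)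
  · refine Eventually.of_forall fun y => ?_
    apply Measurable.aestronglyMeasurable
    unfold qf
    fun_prop
  · filter_upwards [Metric.ball_mem_nhds y0 one_pos] with y hy
    refine Eventually.of_forall fun ω => ?_
    rw [Metric.mem_ball, Real.dist_eq] at hy
    have hyM : |y| ≤ M := by
      have h1 : |y| ≤ |y0| + |y - y0| := by
        have h2 := abs_add_le y0 (y - y0)
        rwa [add_sub_cancel] at h2
      rw [hM]; linarith
    have hC : 0 < C := lt_of_lt_of_le hδ ((haδ ω).trans (haC ω))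
    have hM0 : 0 ≤ M := (abs_nonneg _).trans hyM
    rw [norm_mul, Real.norm_eq_abs, Real.norm_eq_abs, Real.abs_exp]
    apply mul_le_mul _ _ (Real.exp_pos _).le (by positivity)
    · have h1 : |g0 ω + g1 ω * y + g2 ω * y ^ 2| ≤ |g0 ω| + |g1 ω| * |y| + |g2 ω| * |y| ^ 2 := by
        have h2 := abs_add_le (g0 ω + g1 ω * y) (g2 ω * y ^ 2)
        have h3 := abs_add_le (g0 ω) (g1 ω * y)
        rw [abs_mul, abs_pow] at h2
        rw [abs_mul] at h3
        linarith
      have h4 : |g1 ω| * |y| ≤ C * M := mul_le_mul (hg1C ω) hyM (abs_nonneg _) hC.le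
      have h5 : |g2 ω| * |y| ^ 2 ≤ C * M ^ 2 :=
        mul_le_mul (hg2C ω) (pow_le_pow_left₀ (abs_nonneg _) hyM 2) (by positivity) hC.le
      have h6 := hg0C ω
      linarith
    · apply Real.exp_le_exp.2
      unfold qf
      have h1 : 0 ≤ a ω * (y + l ω / a ω) ^ 2 :=
        mul_nonneg (hδ.le.trans (haδ ω)) (sq_nonneg _)
      have h2 := (abs_le.1 (hs0C ω)).1
      linarith
  · exact integrable_const _
  · refine Eventually.of_forall fun ω => ?_
    unfold qf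
    fun_prop

end S_cq

theorem cq : type_of% @S_cq.cq := @S_cq.cq
end

section
namespace S_gq

theorem gq_mom (a : ℝ) (ha : 0 < a) :
    Integrable (fun z : ℝ => z ^ 2 * Real.exp (-a * z ^ 2)) ∧
    ∫ z : ℝ, z ^ 2 * Real.exp (-a * z ^ 2) = Real.sqrt (Real.pi / a) / (2 * a) := by
  have hi2 : Integrable (fun z : ℝ => z ^ 2 * Real.exp (-a * z ^ 2)) := by
    have := integrable_rpow_mul_exp_neg_mul_sq ha (s := 2) (by norm_num)
    simpa using this
  have hi0 : Integrable (fun z : ℝ => Real.exp (-a * z ^ 2)) := integrable_exp_neg_mul_sq ha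
  have hi1 : Integrable (fun z : ℝ => z * Real.exp (-a * z ^ 2)) := integrable_mul_exp_neg_mul_sq ha
  refine ⟨hi2, ?_⟩
  have hd : ∀ z : ℝ, HasDerivAt (fun z : ℝ => z * Real.exp (-a * z ^ 2))
      (Real.exp (-a * z ^ 2) - (2 * a) * (z ^ 2 * Real.exp (-a * z ^ 2))) z := by
    intro z
    have h1 : HasDerivAt (fun z : ℝ => -a * z ^ 2) (-a * (2 * z)) z := by
      have := (hasDerivAt_pow 2 z).const_mul (-a)
      simpa using this
    have h2 := (hasDerivAt_id z).mul h1.exp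
    refine h2.congr_deriv ?_
    simp only [id, Pi.mul_apply]
    ring
  have h0 : ∫ z : ℝ, (Real.exp (-a * z ^ 2) - (2 * a) * (z ^ 2 * Real.exp (-a * z ^ 2))) = 0 :=
    integral_eq_zero_of_hasDerivAt_of_integrable hd (hi0.sub (hi2.const_mul _)) hi1
  rw [integral_sub hi0 (hi2.const_mul _), integral_const_mul, integral_gaussian] at h0
  rw [eq_div_iff (by positivity)]
  linarith

theorem gq_fix (a c s0 g0 g1 g2 : ℝ) (ha : 0 < a) :
    ∫ y : ℝ, (g0 + g1 * (y + c) + g2 * (y + c) ^ 2) * Real.exp (-(a * (y + c) ^ 2 + s0)) =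
      Real.sqrt Real.pi * ((g0 + g2 / (2 * a)) * (Real.exp (-s0) / Real.sqrt a)) := by
  rw [integral_add_right_eq_self (fun z : ℝ => (g0 + g1 * z + g2 * z ^ 2) *
    Real.exp (-(a * z ^ 2 + s0))) c]
  have hi0 : Integrable (fun z : ℝ => Real.exp (-a * z ^ 2)) := integrable_exp_neg_mul_sq ha
  have hi1 : Integrable (fun z : ℝ => z * Real.exp (-a * z ^ 2)) := integrable_mul_exp_neg_mul_sq ha
  obtain ⟨hi2, hm2⟩ := gq_mom a ha
  have h1 : ∫ z : ℝ, z * Real.exp (-a * z ^ 2) = 0 := by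
    have h := integral_neg_eq_self (fun z : ℝ => z * Real.exp (-a * z ^ 2)) volume
    have h' : ∫ z : ℝ, (-z) * Real.exp (-a * (-z) ^ 2) = - ∫ z : ℝ, z * Real.exp (-a * z ^ 2) := by
      rw [← integral_neg]
      congr 1
      ext z
      simp
    rw [h'] at h
    linarith
  have he : (fun z : ℝ => (g0 + g1 * z + g2 * z ^ 2) * Real.exp (-(a * z ^ 2 + s0))) =
      fun z : ℝ => (g0 * Real.exp (-s0)) * Real.exp (-a * z ^ 2) +
        (g1 * Real.exp (-s0)) * (z * Real.exp (-a * z ^ 2)) +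
        (g2 * Real.exp (-s0)) * (z ^ 2 * Real.exp (-a * z ^ 2)) := by
    ext z
    have : Real.exp (-(a * z ^ 2 + s0)) = Real.exp (-s0) * Real.exp (-a * z ^ 2) := by
      rw [← Real.exp_add]; congr 1; ring
    rw [this]; ring
  have hi01 : Integrable (fun z : ℝ => (g0 * Real.exp (-s0)) * Real.exp (-a * z ^ 2) +
        (g1 * Real.exp (-s0)) * (z * Real.exp (-a * z ^ 2))) :=
    (hi0.const_mul _).add (hi1.const_mul _)
  rw [he, integral_add hi01 (hi2.const_mul _),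
    integral_add (hi0.const_mul _) (hi1.const_mul _), integral_const_mul, integral_const_mul,
    integral_const_mul, h1, hm2, integral_gaussian, Real.sqrt_div Real.pi_pos.le]
  have : 0 < Real.sqrt a := Real.sqrt_pos.mpr ha
  field_simp
  ring

theorem gq_bound (a l s0 g0 g1 g2 : ℝ) (δ C : ℝ) (hδ : 0 < δ)
    (haδ : δ ≤ a) (haC : a ≤ C) (hlC : |l| ≤ C) (hs0C : |s0| ≤ C)
    (hg0C : |g0| ≤ C) (hg1C : |g1| ≤ C) (hg2C : |g2| ≤ C) (y : ℝ) :
    |(g0 + g1 * (y + l / a) + g2 * (y + l / a) ^ 2) * Real.exp (-(a * (y + l / a) ^ 2 + s0))| ≤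
      (2 * C * (1 + 2 / δ) * Real.exp (C + (δ / 2) * (C / δ) ^ 2)) * Real.exp (-(δ / 4) * y ^ 2) := by
  have hC : 0 < C := by linarith
  have ha : 0 < a := by linarith
  set z := y + l / a with hz
  have hla : |l / a| ≤ C / δ := by
    rw [abs_div, abs_of_pos ha]
    exact div_le_div₀ hC.le hlC hδ haδ
  have hla2 : (l / a) ^ 2 ≤ (C / δ) ^ 2 := by
    rw [← sq_abs (l / a)]
    exact pow_le_pow_left₀ (abs_nonneg _) hla 2
  have hy : y = z - l / a := by rw [hz]; ring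
  have hy2 : y ^ 2 ≤ 2 * z ^ 2 + 2 * (C / δ) ^ 2 := by
    have : y ^ 2 ≤ 2 * z ^ 2 + 2 * (l / a) ^ 2 := by
      rw [hy]; nlinarith [sq_nonneg (z + l / a)]
    linarith
  rw [abs_mul, abs_of_pos (Real.exp_pos _)]
  have h1 : |g0 + g1 * z + g2 * z ^ 2| ≤ 2 * C * (1 + z ^ 2) := by
    have e1 : |g0 + g1 * z + g2 * z ^ 2| ≤ |g0| + |g1| * |z| + |g2| * z ^ 2 := by
      calc |g0 + g1 * z + g2 * z ^ 2| ≤ |g0 + g1 * z| + |g2 * z ^ 2| := abs_add_le _ _
        _ ≤ |g0| + |g1 * z| + |g2 * z ^ 2| := by gcongr; exact abs_add_le _ _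
        _ = |g0| + |g1| * |z| + |g2| * z ^ 2 := by
          rw [abs_mul, abs_mul, abs_of_nonneg (sq_nonneg z)]
    have e2 : |g1| * |z| ≤ C * |z| := by gcongr
    have e3 : |g2| * z ^ 2 ≤ C * z ^ 2 := by gcongr
    have e4 : |z| ≤ 1 + z ^ 2 := by
      rw [← sq_abs z]; nlinarith [sq_nonneg (|z| - 1), abs_nonneg z]
    have e5 : C * |z| ≤ C * (1 + z ^ 2) := by gcongr
    nlinarith
  have h2 : 1 + z ^ 2 ≤ (1 + 2 / δ) * Real.exp (δ / 2 * z ^ 2) := by
    have e1 : δ / 2 * z ^ 2 + 1 ≤ Real.exp (δ / 2 * z ^ 2) := Real.add_one_le_exp _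
    have e2 : 1 ≤ Real.exp (δ / 2 * z ^ 2) := by
      have : 0 ≤ δ / 2 * z ^ 2 := by positivity
      linarith
    have e3 : z ^ 2 ≤ 2 / δ * Real.exp (δ / 2 * z ^ 2) := by
      have : z ^ 2 = 2 / δ * (δ / 2 * z ^ 2) := by field_simp
      calc z ^ 2 = 2 / δ * (δ / 2 * z ^ 2) := this
        _ ≤ 2 / δ * Real.exp (δ / 2 * z ^ 2) := by gcongr; linarith
    linarith [add_mul 1 (2 / δ) (Real.exp (δ / 2 * z ^ 2))]
  have h3 : Real.exp (-(a * z ^ 2 + s0)) ≤ Real.exp (C - δ * z ^ 2) := by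
    apply Real.exp_le_exp.mpr
    have : δ * z ^ 2 ≤ a * z ^ 2 := by gcongr
    have := (abs_le.mp hs0C).1
    linarith
  calc |g0 + g1 * z + g2 * z ^ 2| * Real.exp (-(a * z ^ 2 + s0))
      ≤ (2 * C * ((1 + 2 / δ) * Real.exp (δ / 2 * z ^ 2))) * Real.exp (C - δ * z ^ 2) := by
        apply mul_le_mul _ h3 (Real.exp_nonneg _) (by positivity)
        exact h1.trans (by gcongr)
    _ = (2 * C * (1 + 2 / δ)) * Real.exp (C - δ / 2 * z ^ 2) := by
        have : Real.exp (C - δ / 2 * z ^ 2) = Real.exp (δ / 2 * z ^ 2) * Real.exp (C - δ * z ^ 2) := by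
          rw [← Real.exp_add]; congr 1; ring
        rw [this]; ring
    _ ≤ (2 * C * (1 + 2 / δ)) * Real.exp ((C + (δ / 2) * (C / δ) ^ 2) + (-(δ / 4) * y ^ 2)) := by
        gcongr
        nlinarith [mul_le_mul_of_nonneg_left hy2 (by positivity : (0:ℝ) ≤ δ / 4)]
    _ = _ := by rw [Real.exp_add]; ring

/-- Fubini and Gaussian moments -/
theorem gq {Ω : Type} [MeasurableSpace Ω] (μ : Measure Ω) [IsFiniteMeasure μ]
    (a l s0 g0 g1 g2 : Ω → ℝ) (δ C : ℝ) (hδ : 0 < δ)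
    (ha : Measurable a) (hl : Measurable l) (hs0 : Measurable s0)
    (hg0 : Measurable g0) (hg1 : Measurable g1) (hg2 : Measurable g2)
    (haδ : ∀ ω, δ ≤ a ω) (haC : ∀ ω, a ω ≤ C) (hlC : ∀ ω, |l ω| ≤ C) (hs0C : ∀ ω, |s0 ω| ≤ C)
    (hg0C : ∀ ω, |g0 ω| ≤ C) (hg1C : ∀ ω, |g1 ω| ≤ C) (hg2C : ∀ ω, |g2 ω| ≤ C) :
    Integrable (fun y : ℝ => ∫ ω, (g0 ω + g1 ω * (y + l ω / a ω) + g2 ω * (y + l ω / a ω) ^ 2) *
      Real.exp (-qf (a ω) (l ω) (s0 ω) y) ∂μ) ∧
    ∫ y : ℝ, (∫ ω, (g0 ω + g1 ω * (y + l ω / a ω) + g2 ω * (y + l ω / a ω) ^ 2) *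
      Real.exp (-qf (a ω) (l ω) (s0 ω) y) ∂μ) =
      Real.sqrt Real.pi * ∫ ω, (g0 ω + g2 ω / (2 * a ω)) * (Real.exp (-s0 ω) / Real.sqrt (a ω)) ∂μ := by
  have hmeas : Measurable (Function.uncurry fun (y : ℝ) (ω : Ω) =>
      (g0 ω + g1 ω * (y + l ω / a ω) + g2 ω * (y + l ω / a ω) ^ 2) *
      Real.exp (-(a ω * (y + l ω / a ω) ^ 2 + s0 ω))) := by
    unfold Function.uncurry
    fun_prop
  have hint : Integrable (Function.uncurry fun (y : ℝ) (ω : Ω) =>
      (g0 ω + g1 ω * (y + l ω / a ω) + g2 ω * (y + l ω / a ω) ^ 2) *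
      Real.exp (-(a ω * (y + l ω / a ω) ^ 2 + s0 ω))) ((volume : Measure ℝ).prod μ) := by
    have hb : Integrable (fun y : ℝ => (2 * C * (1 + 2 / δ) *
        Real.exp (C + (δ / 2) * (C / δ) ^ 2)) * Real.exp (-(δ / 4) * y ^ 2)) :=
      (integrable_exp_neg_mul_sq (by positivity)).const_mul _
    refine (hb.comp_fst μ).mono' hmeas.aestronglyMeasurable ?_
    refine Filter.Eventually.of_forall ?_
    rintro ⟨y, ω⟩
    exact gq_bound (a ω) (l ω) (s0 ω) (g0 ω) (g1 ω) (g2 ω) δ C hδ (haδ ω) (haC ω) (hlC ω) (hs0C ω)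
      (hg0C ω) (hg1C ω) (hg2C ω) y
  unfold qf
  refine ⟨hint.integral_prod_left, ?_⟩
  rw [integral_integral_swap hint, ← integral_const_mul]
  congr 1
  ext ω
  exact gq_fix (a ω) (l ω / a ω) (s0 ω) (g0 ω) (g1 ω) (g2 ω) (hδ.trans_le (haδ ω))

end S_gq

theorem gq : type_of% @S_gq.gq := @S_gq.gq
end

section
namespace S_ptw

/-- pointwise algebra of the one-step lemma -/
theorem ptw (w wB wBB wL wLL wLB wa wm wc wmm β : ℝ) (hw : 0 < w) (hwa : 0 < wa) (hβ : 0 ≤ β) (hβ2 : β < 1 / 2)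
    (hyp : ∀ r : ℝ, (r ^ 2 * wLL + 2 * r * wLB + wBB) * w - (r * wL + wB) ^ 2 ≤
      β * (r ^ 2 * wa + 2 * r * wm + wc) * w)
    (hmm : ∀ r : ℝ, -wmm ≤ r ^ 2 * wa + 2 * r * wm) :
    0 < 2 * wa / w - 4 * wLL / w + 4 * wL ^ 2 / w ^ 2 ∧
    (2 - 4 * β) * (wa / w) ≤ 2 * wa / w - 4 * wLL / w + 4 * wL ^ 2 / w ^ 2 ∧
    wBB - wB ^ 2 / w + ((wm - 2 * wLB) / w + 2 * wB * wL / w ^ 2) ^ 2 /
      (2 * wa / w - 4 * wLL / w + 4 * wL ^ 2 / w ^ 2) * w ≤ β * wc + (1 / 2 - β) * wmm := by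
  have hA : (wLL * w - wL ^ 2 - β * wa * w) ≤ 0 := by
    by_contra hA
    push Not at hA
    set A := wLL * w - wL ^ 2 - β * wa * w with hAdef
    set C := wBB * w - wB ^ 2 - β * wc * w with hCdef
    have hpos : 0 < |C| / A + 1 := by positivity
    set r := Real.sqrt (|C| / A + 1) with hr
    have hr2 : r ^ 2 = |C| / A + 1 := Real.sq_sqrt hpos.le
    have h1 := hyp r
    have h2 := hyp (-r)
    have h3 : A * r ^ 2 + C ≤ 0 := by
      rw [hAdef, hCdef]
      linarith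
    rw [hr2] at h3
    have h4 : A * (|C| / A + 1) = |C| + A := by field_simp
    rw [h4] at h3
    have := neg_abs_le C
    linarith
  have hN : (2 - 4 * β) * (wa * w) ≤ 2 * wa * w - 4 * wLL * w + 4 * wL ^ 2 := by linarith
  have hN0 : 0 < (2 - 4 * β) * (wa * w) := by
    have : 0 < 2 - 4 * β := by linarith
    positivity
  have hD : 2 * wa / w - 4 * wLL / w + 4 * wL ^ 2 / w ^ 2
      = (2 * wa * w - 4 * wLL * w + 4 * wL ^ 2) / w ^ 2 := by
    field_simp
  rw [hD]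
  set N := 2 * wa * w - 4 * wLL * w + 4 * wL ^ 2 with hNdef
  have hNpos : 0 < N := lt_of_lt_of_le hN0 hN
  refine ⟨by positivity, ?_, ?_⟩
  · rw [le_div_iff₀ (by positivity)]
    have : (2 - 4 * β) * (wa / w) * w ^ 2 = (2 - 4 * β) * (wa * w) := by field_simp
    rw [this]; exact hN
  · set P := (wm - 2 * wLB) * w + 2 * wB * wL with hPdef
    have hP : ((wm - 2 * wLB) / w + 2 * wB * wL / w ^ 2) = P / w ^ 2 := by
      rw [hPdef]; field_simp
    rw [hP]
    have h1 := hyp (-2 * P / N)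
    have h2 := hmm (-2 * P / N)
    set r := -2 * P / N with hr
    have hβ' : 0 ≤ 1 / 2 - β := by linarith
    have h3 := mul_le_mul_of_nonneg_left h2 (mul_nonneg hβ' hw.le)
    have h4 : wBB * w - wB ^ 2 ≤ β * wc * w + (N / 4 * r ^ 2 + P * r) + (1 / 2 - β) * w * wmm := by
      rw [hNdef, hPdef]
      linarith
    have h5 : N / 4 * r ^ 2 + P * r = - (P ^ 2 / N) := by
      rw [hr]; field_simp; ring
    rw [h5] at h4
    have h6 : wBB - wB ^ 2 / w + (P / w ^ 2) ^ 2 / (N / w ^ 2) * w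
        = (wBB * w - wB ^ 2 + P ^ 2 / N) / w := by
      field_simp
    rw [h6, div_le_iff₀ hw]
    linarith

end S_ptw

theorem ptw : type_of% @S_ptw.ptw := @S_ptw.ptw
end

section
namespace S_onestep

/-- bounded measurable functions -/
def BM {Ω : Type} [MeasurableSpace Ω] (g : Ω → ℝ) : Prop := Measurable g ∧ ∃ C, ∀ ω, |g ω| ≤ C

section os
variable {Ω : Type} [MeasurableSpace Ω]

theorem BM.const (c : ℝ) : BM (fun _ : Ω => c) := ⟨measurable_const, |c|, fun _ => le_rfl⟩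

theorem BM.add {f g : Ω → ℝ} (hf : BM f) (hg : BM g) : BM (fun ω => f ω + g ω) := by
  obtain ⟨m1, C1, h1⟩ := hf
  obtain ⟨m2, C2, h2⟩ := hg
  exact ⟨m1.add m2, C1 + C2, fun ω => (abs_add_le _ _).trans (add_le_add (h1 ω) (h2 ω))⟩

theorem BM.mul {f g : Ω → ℝ} (hf : BM f) (hg : BM g) : BM (fun ω => f ω * g ω) := by
  obtain ⟨m1, C1, h1⟩ := hf
  obtain ⟨m2, C2, h2⟩ := hg
  exact ⟨m1.mul m2, C1 * C2, fun ω => by
    rw [abs_mul]
    exact mul_le_mul (h1 ω) (h2 ω) (abs_nonneg _) ((abs_nonneg _).trans (h1 ω))⟩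

theorem BM.sq {f : Ω → ℝ} (hf : BM f) : BM (fun ω => f ω ^ 2) := by
  have h := hf.mul hf
  simpa only [← pow_two] using h

theorem BM.div {f a : Ω → ℝ} {δ : ℝ} (hf : BM f) (ha : Measurable a) (hδ : 0 < δ)
    (haδ : ∀ ω, δ ≤ a ω) : BM (fun ω => f ω / a ω) := by
  obtain ⟨m1, C1, h1⟩ := hf
  refine ⟨m1.div ha, C1 / δ, fun ω => ?_⟩
  have h2 : 0 < a ω := lt_of_lt_of_le hδ (haδ ω)
  rw [abs_div, abs_of_pos h2]
  exact div_le_div₀ ((abs_nonneg _).trans (h1 ω)) (h1 ω) hδ (haδ ω)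

theorem BM.integrable {f : Ω → ℝ} (hf : BM f) (μ : Measure Ω) [IsFiniteMeasure μ] :
    Integrable f μ := by
  obtain ⟨m1, C1, h1⟩ := hf
  exact Integrable.of_bound m1.aestronglyMeasurable C1 (Eventually.of_forall fun ω => h1 ω)

/-- the data -/
structure OS (a l s0 : Ω → ℝ) (δ C : ℝ) : Prop where
  hδ : 0 < δ
  ha : Measurable a
  hl : Measurable l
  hs0 : Measurable s0
  haδ : ∀ ω, δ ≤ a ω
  haC : ∀ ω, a ω ≤ C
  hlC : ∀ ω, |l ω| ≤ C
  hs0C : ∀ ω, |s0 ω| ≤ C

/-- the weighted integral -/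
def oW (μ : Measure Ω) (a l s0 : Ω → ℝ) (g : Ω → ℝ → ℝ) (y : ℝ) : ℝ :=
  ∫ ω, g ω y * Real.exp (-qf (a ω) (l ω) (s0 ω) y) ∂μ

variable {a l s0 : Ω → ℝ} {δ C : ℝ}

theorem OS.E (h : OS a l s0 δ C) (y : ℝ) :
    BM (fun ω => Real.exp (-qf (a ω) (l ω) (s0 ω) y)) := by
  refine ⟨Real.measurable_exp.comp (((h.ha.mul ((measurable_const.add
    (h.hl.div h.ha)).pow_const 2)).add h.hs0).neg), Real.exp C, fun ω => ?_⟩
  rw [abs_of_pos (Real.exp_pos _)]
  apply Real.exp_le_exp.2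
  unfold qf
  have h1 := (abs_le.1 (h.hs0C ω)).1
  have h2 : 0 ≤ a ω * (y + l ω / a ω) ^ 2 :=
    mul_nonneg (h.hδ.le.trans (h.haδ ω)) (sq_nonneg _)
  linarith

theorem OS.K (h : OS a l s0 δ C) : BM (fun ω => Real.exp (-s0 ω) / Real.sqrt (a ω)) := by
  have h1 : BM (fun ω => Real.exp (-s0 ω)) := by
    refine ⟨Real.measurable_exp.comp h.hs0.neg, Real.exp C, fun ω => ?_⟩
    rw [abs_of_pos (Real.exp_pos _)]
    apply Real.exp_le_exp.2
    linarith [(abs_le.1 (h.hs0C ω)).1]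
  exact h1.div (h.ha.sqrt) (Real.sqrt_pos.2 h.hδ) fun ω => Real.sqrt_le_sqrt (h.haδ ω)

theorem oW_cont (h : OS a l s0 δ C) (μ : Measure Ω) [IsFiniteMeasure μ] {g0 g1 g2 : Ω → ℝ}
    (h0 : BM g0) (h1 : BM g1) (h2 : BM g2) {g : Ω → ℝ → ℝ}
    (hg : ∀ ω y, g ω y = g0 ω + g1 ω * y + g2 ω * y ^ 2) : Continuous (oW μ a l s0 g) := by
  obtain ⟨m0, C0, k0⟩ := h0
  obtain ⟨m1, C1, k1⟩ := h1
  obtain ⟨m2, C2, k2⟩ := h2
  have e1 : C ≤ max C (max C0 (max C1 C2)) := le_max_left _ _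
  have e2 : C0 ≤ max C (max C0 (max C1 C2)) := (le_max_left _ _).trans (le_max_right _ _)
  have e3 : C1 ≤ max C (max C0 (max C1 C2)) :=
    ((le_max_left _ _).trans (le_max_right _ _)).trans (le_max_right _ _)
  have e4 : C2 ≤ max C (max C0 (max C1 C2)) :=
    ((le_max_right _ _).trans (le_max_right _ _)).trans (le_max_right _ _)
  have := cq μ a l s0 g0 g1 g2 δ (max C (max C0 (max C1 C2))) h.hδ h.ha h.hl h.hs0 m0 m1 m2
    h.haδ (fun ω => (h.haC ω).trans e1) (fun ω => (h.hlC ω).trans e1)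
    (fun ω => (h.hs0C ω).trans e1) (fun ω => (k0 ω).trans e2) (fun ω => (k1 ω).trans e3)
    (fun ω => (k2 ω).trans e4)
  have e : oW μ a l s0 g = fun y : ℝ => ∫ ω, (g0 ω + g1 ω * y + g2 ω * y ^ 2) *
      Real.exp (-qf (a ω) (l ω) (s0 ω) y) ∂μ := by
    funext y
    unfold oW
    simp only [hg]
  rw [e]
  exact this

theorem oW_int (h : OS a l s0 δ C) (μ : Measure Ω) [IsFiniteMeasure μ] {g0 g1 g2 : Ω → ℝ}
    (h0 : BM g0) (h1 : BM g1) (h2 : BM g2) {g : Ω → ℝ → ℝ}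
    (hg : ∀ ω y, g ω y = g0 ω + g1 ω * (y + l ω / a ω) + g2 ω * (y + l ω / a ω) ^ 2) :
    Integrable (oW μ a l s0 g) ∧ ∫ y, oW μ a l s0 g y =
      Real.sqrt Real.pi * ∫ ω, (g0 ω + g2 ω / (2 * a ω)) *
        (Real.exp (-s0 ω) / Real.sqrt (a ω)) ∂μ := by
  obtain ⟨m0, C0, k0⟩ := h0
  obtain ⟨m1, C1, k1⟩ := h1
  obtain ⟨m2, C2, k2⟩ := h2
  have e1 : C ≤ max C (max C0 (max C1 C2)) := le_max_left _ _
  have e2 : C0 ≤ max C (max C0 (max C1 C2)) := (le_max_left _ _).trans (le_max_right _ _)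
  have e3 : C1 ≤ max C (max C0 (max C1 C2)) :=
    ((le_max_left _ _).trans (le_max_right _ _)).trans (le_max_right _ _)
  have e4 : C2 ≤ max C (max C0 (max C1 C2)) :=
    ((le_max_right _ _).trans (le_max_right _ _)).trans (le_max_right _ _)
  have := gq μ a l s0 g0 g1 g2 δ (max C (max C0 (max C1 C2))) h.hδ h.ha h.hl h.hs0 m0 m1 m2
    h.haδ (fun ω => (h.haC ω).trans e1) (fun ω => (h.hlC ω).trans e1)
    (fun ω => (h.hs0C ω).trans e1) (fun ω => (k0 ω).trans e2) (fun ω => (k1 ω).trans e3)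
    (fun ω => (k2 ω).trans e4)
  have e : oW μ a l s0 g = fun y : ℝ => ∫ ω, (g0 ω + g1 ω * (y + l ω / a ω) +
      g2 ω * (y + l ω / a ω) ^ 2) * Real.exp (-qf (a ω) (l ω) (s0 ω) y) ∂μ := by
    funext y
    unfold oW
    simp only [hg]
  rw [e]
  exact this

theorem oW_deriv (h : OS a l s0 δ C) (μ : Measure Ω) [IsFiniteMeasure μ] {g0 g1 : Ω → ℝ}
    (h0 : BM g0) (h1 : BM g1) {g : Ω → ℝ → ℝ} (hg : ∀ ω y, g ω y = g0 ω + g1 ω * y) (y : ℝ) :
    HasDerivAt (oW μ a l s0 g)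
      (oW μ a l s0 (fun ω y => g1 ω - g ω y * (2 * (a ω * y + l ω))) y) y := by
  obtain ⟨m0, C0, k0⟩ := h0
  obtain ⟨m1, C1, k1⟩ := h1
  have e1 : C ≤ max C (max C0 C1) := le_max_left _ _
  have e2 : C0 ≤ max C (max C0 C1) := (le_max_left _ _).trans (le_max_right _ _)
  have e3 : C1 ≤ max C (max C0 C1) := (le_max_right _ _).trans (le_max_right _ _)
  have := dq μ a l s0 g0 g1 δ (max C (max C0 C1)) h.hδ h.ha h.hl h.hs0 m0 m1
    h.haδ (fun ω => (h.haC ω).trans e1) (fun ω => (h.hlC ω).trans e1)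
    (fun ω => (h.hs0C ω).trans e1) (fun ω => (k0 ω).trans e2) (fun ω => (k1 ω).trans e3) y
  have e : oW μ a l s0 g = fun y : ℝ => ∫ ω, (g0 ω + g1 ω * y) *
      Real.exp (-qf (a ω) (l ω) (s0 ω) y) ∂μ := by
    funext y
    unfold oW
    simp only [hg]
  have e' : oW μ a l s0 (fun ω y => g1 ω - g ω y * (2 * (a ω * y + l ω))) y =
      ∫ ω, (g1 ω - (g0 ω + g1 ω * y) * (2 * (a ω * y + l ω))) *
        Real.exp (-qf (a ω) (l ω) (s0 ω) y) ∂μ := by
    unfold oW
    simp only [hg]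
  rw [e, e']
  exact this

theorem os_lin3 (μ : Measure Ω) [IsFiniteMeasure μ] {f1 f2 f3 e g : Ω → ℝ} (h1 : BM f1)
    (h2 : BM f2) (h3 : BM f3) (he : BM e) (c1 c2 c3 : ℝ)
    (hg : ∀ ω, g ω = c1 * f1 ω + c2 * f2 ω + c3 * f3 ω) :
    ∫ ω, g ω * e ω ∂μ = c1 * (∫ ω, f1 ω * e ω ∂μ) + c2 * (∫ ω, f2 ω * e ω ∂μ) +
      c3 * ∫ ω, f3 ω * e ω ∂μ := by
  have i1 := ((h1.mul he).integrable μ).const_mul c1
  have i2 := ((h2.mul he).integrable μ).const_mul c2
  have i3 := ((h3.mul he).integrable μ).const_mul c3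
  have i12 : Integrable (fun x => c1 * (f1 x * e x) + c2 * (f2 x * e x)) μ := i1.add i2
  rw [← integral_const_mul, ← integral_const_mul, ← integral_const_mul, ← integral_add i1 i2,
    ← integral_add i12 i3]
  refine integral_congr_ae (Eventually.of_forall fun ω => ?_)
  show g ω * e ω = c1 * (f1 ω * e ω) + c2 * (f2 ω * e ω) + c3 * (f3 ω * e ω)
  rw [hg]
  ring

theorem oW_lin3 (h : OS a l s0 δ C) (μ : Measure Ω) [IsFiniteMeasure μ] (y : ℝ)
    {f1 f2 f3 g : Ω → ℝ → ℝ} (h1 : BM (fun ω => f1 ω y)) (h2 : BM (fun ω => f2 ω y))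
    (h3 : BM (fun ω => f3 ω y)) (c1 c2 c3 : ℝ)
    (hg : ∀ ω, g ω y = c1 * f1 ω y + c2 * f2 ω y + c3 * f3 ω y) :
    oW μ a l s0 g y = c1 * oW μ a l s0 f1 y + c2 * oW μ a l s0 f2 y + c3 * oW μ a l s0 f3 y :=
  os_lin3 μ h1 h2 h3 (h.E y) c1 c2 c3 hg

theorem oW_nonneg (μ : Measure Ω) {g : Ω → ℝ → ℝ} (y : ℝ) (hg : ∀ ω, 0 ≤ g ω y) :
    0 ≤ oW μ a l s0 g y :=
  integral_nonneg fun ω => mul_nonneg (hg ω) (Real.exp_pos _).le

theorem os_pos (μ : Measure Ω) [IsFiniteMeasure μ] (hμ : μ ≠ 0) {e : Ω → ℝ} (he : BM e)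
    (hpos : ∀ ω, 0 < e ω) : 0 < ∫ ω, e ω ∂μ := by
  rw [integral_pos_iff_support_of_nonneg (fun ω => (hpos ω).le) (he.integrable μ)]
  have : Function.support e = univ := by
    ext ω
    simp [(hpos ω).ne']
  rw [this]
  exact Measure.measure_univ_pos.2 hμ

end os

/-- **One-step lemma.** -/
theorem onestep {Ω : Type} [MeasurableSpace Ω] (μ : Measure Ω) [IsFiniteMeasure μ] (hμ : μ ≠ 0)
    (a l m s0 s1 s2 : Ω → ℝ) (δ C β : ℝ) (hδ : 0 < δ) (hβ : 0 ≤ β) (hβ2 : β < 1 / 2)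
    (ha : Measurable a) (hl : Measurable l) (hm : Measurable m) (hs0 : Measurable s0)
    (hs1 : Measurable s1) (hs2 : Measurable s2)
    (haδ : ∀ ω, δ ≤ a ω) (haC : ∀ ω, a ω ≤ C) (hlC : ∀ ω, |l ω| ≤ C) (hmC : ∀ ω, |m ω| ≤ C)
    (hs0C : ∀ ω, |s0 ω| ≤ C) (hs1C : ∀ ω, |s1 ω| ≤ C) (hs2C : ∀ ω, |s2 ω| ≤ C)
    (hyp : ∀ y r : ℝ,
      (∫ ω, (r * (a ω * y + l ω) + (m ω * y + l ω * m ω / a ω + s1 ω)) ^ 2 *
          Real.exp (-qf (a ω) (l ω) (s0 ω) y) ∂μ) * (∫ ω, Real.exp (-qf (a ω) (l ω) (s0 ω) y) ∂μ) -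
        (∫ ω, (r * (a ω * y + l ω) + (m ω * y + l ω * m ω / a ω + s1 ω)) *
          Real.exp (-qf (a ω) (l ω) (s0 ω) y) ∂μ) ^ 2 ≤
      β * (∫ ω, (a ω * r ^ 2 + 2 * m ω * r + (m ω ^ 2 / a ω + s2 ω)) *
          Real.exp (-qf (a ω) (l ω) (s0 ω) y) ∂μ) * (∫ ω, Real.exp (-qf (a ω) (l ω) (s0 ω) y) ∂μ)) :
    (∫ ω, s1 ω ^ 2 * (Real.exp (-s0 ω) / Real.sqrt (a ω)) ∂μ) *
        (∫ ω, Real.exp (-s0 ω) / Real.sqrt (a ω) ∂μ) -
      (∫ ω, s1 ω * (Real.exp (-s0 ω) / Real.sqrt (a ω)) ∂μ) ^ 2 ≤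
    β * (∫ ω, s2 ω * (Real.exp (-s0 ω) / Real.sqrt (a ω)) ∂μ) *
        (∫ ω, Real.exp (-s0 ω) / Real.sqrt (a ω) ∂μ) := by
  have hOS : OS a l s0 δ C := ⟨hδ, ha, hl, hs0, haδ, haC, hlC, hs0C⟩
  have bA : BM a := ⟨ha, C, fun ω => by
    rw [abs_of_pos (lt_of_lt_of_le hδ (haδ ω))]; exact haC ω⟩
  have bL : BM l := ⟨hl, C, hlC⟩
  have bM : BM m := ⟨hm, C, hmC⟩
  have b1 : BM s1 := ⟨hs1, C, hs1C⟩
  have b2 : BM s2 := ⟨hs2, C, hs2C⟩
  have apos : ∀ ω, 0 < a ω := fun ω => lt_of_lt_of_le hδ (haδ ω)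
  have bmm : BM (fun ω => m ω ^ 2 / a ω) := bM.sq.div ha hδ haδ
  have blm : BM (fun ω => l ω * m ω / a ω) := (bL.mul bM).div ha hδ haδ
  have bb0 : BM (fun ω => l ω * m ω / a ω + s1 ω) := blm.add b1
  have bc : BM (fun ω => m ω ^ 2 / a ω + s2 ω) := bmm.add b2
  have zero : BM (fun _ : Ω => (0 : ℝ)) := BM.const 0
  have one : BM (fun _ : Ω => (1 : ℝ)) := BM.const 1
  -- the functions
  let gE : Ω → ℝ → ℝ := fun _ _ => 1
  let gL : Ω → ℝ → ℝ := fun ω y => a ω * y + l ω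
  let gLL : Ω → ℝ → ℝ := fun ω y => (a ω * y + l ω) ^ 2
  let gB : Ω → ℝ → ℝ := fun ω y => m ω * y + l ω * m ω / a ω + s1 ω
  let gBB : Ω → ℝ → ℝ := fun ω y => (m ω * y + l ω * m ω / a ω + s1 ω) ^ 2
  let gLB : Ω → ℝ → ℝ := fun ω y => (a ω * y + l ω) * (m ω * y + l ω * m ω / a ω + s1 ω)
  let gA : Ω → ℝ → ℝ := fun ω _ => a ω
  let gM : Ω → ℝ → ℝ := fun ω _ => m ω
  let gC : Ω → ℝ → ℝ := fun ω _ => m ω ^ 2 / a ω + s2 ω
  let gMM : Ω → ℝ → ℝ := fun ω _ => m ω ^ 2 / a ω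
  have bgL : ∀ y, BM (fun ω => gL ω y) := fun y => (bA.mul (BM.const y)).add bL
  have bgB : ∀ y, BM (fun ω => gB ω y) := fun y => ((bM.mul (BM.const y)).add blm).add b1
  have bgLL : ∀ y, BM (fun ω => gLL ω y) := fun y => (bgL y).sq
  have bgBB : ∀ y, BM (fun ω => gBB ω y) := fun y => (bgB y).sq
  have bgLB : ∀ y, BM (fun ω => gLB ω y) := fun y => (bgL y).mul (bgB y)
  set W : (Ω → ℝ → ℝ) → ℝ → ℝ := oW μ a l s0 with hW
  -- continuity
  have cE : Continuous (W gE) := oW_cont hOS μ one zero zero (fun ω y => by simp [gE])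
  have cL : Continuous (W gL) := oW_cont hOS μ bL bA zero (fun ω y => by simp only [gL]; ring)
  have cLL : Continuous (W gLL) := oW_cont hOS μ bL.sq ((BM.const 2).mul (bA.mul bL)) bA.sq
    (fun ω y => by simp only [gLL]; ring)
  have cB : Continuous (W gB) := oW_cont hOS μ bb0 bM zero (fun ω y => by simp only [gB]; ring)
  have cBB : Continuous (W gBB) := oW_cont hOS μ bb0.sq ((BM.const 2).mul (bM.mul bb0)) bM.sq
    (fun ω y => by simp only [gBB]; ring)
  have cLB : Continuous (W gLB) := oW_cont hOS μ (bL.mul bb0) ((bA.mul bb0).add (bL.mul bM))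
    (bA.mul bM) (fun ω y => by simp only [gLB]; ring)
  have cA : Continuous (W gA) := oW_cont hOS μ bA zero zero (fun ω y => by simp [gA])
  have cM : Continuous (W gM) := oW_cont hOS μ bM zero zero (fun ω y => by simp [gM])
  -- positivity
  have pE : ∀ y, 0 < W gE y := by
    intro y
    have := os_pos μ hμ (hOS.E y) (fun ω => Real.exp_pos _)
    simpa only [hW, oW, gE, one_mul] using this
  have pA : ∀ y, 0 < W gA y := by
    intro y
    exact os_pos μ hμ (bA.mul (hOS.E y)) (fun ω => mul_pos (apos ω) (Real.exp_pos _))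
  have hE1 : ∀ y, W gE y = ∫ ω, Real.exp (-qf (a ω) (l ω) (s0 ω) y) ∂μ := by
    intro y
    simp only [hW, oW, gE, one_mul]
  -- the hypothesis
  have H : ∀ y r : ℝ, (r ^ 2 * W gLL y + 2 * r * W gLB y + W gBB y) * W gE y -
      (r * W gL y + W gB y) ^ 2 ≤ β * (r ^ 2 * W gA y + 2 * r * W gM y + W gC y) * W gE y := by
    intro y r
    have h := hyp y r
    have e1 : (∫ ω, (r * (a ω * y + l ω) + (m ω * y + l ω * m ω / a ω + s1 ω)) ^ 2 *
        Real.exp (-qf (a ω) (l ω) (s0 ω) y) ∂μ) =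
        r ^ 2 * W gLL y + 2 * r * W gLB y + 1 * W gBB y :=
      oW_lin3 hOS μ y (g := fun ω y => (r * (a ω * y + l ω) +
        (m ω * y + l ω * m ω / a ω + s1 ω)) ^ 2) (bgLL y) (bgLB y) (bgBB y) (r ^ 2) (2 * r) 1
        (fun ω => by simp only [gLL, gLB, gBB]; ring)
    have e2 : (∫ ω, (r * (a ω * y + l ω) + (m ω * y + l ω * m ω / a ω + s1 ω)) *
        Real.exp (-qf (a ω) (l ω) (s0 ω) y) ∂μ) = r * W gL y + 1 * W gB y + 0 * W gB y :=
      oW_lin3 hOS μ y (g := fun ω y => (r * (a ω * y + l ω) +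
        (m ω * y + l ω * m ω / a ω + s1 ω))) (bgL y) (bgB y) (bgB y) r 1 0
        (fun ω => by simp only [gL, gB]; ring)
    have e3 : (∫ ω, (a ω * r ^ 2 + 2 * m ω * r + (m ω ^ 2 / a ω + s2 ω)) *
        Real.exp (-qf (a ω) (l ω) (s0 ω) y) ∂μ) = r ^ 2 * W gA y + 2 * r * W gM y + 1 * W gC y :=
      oW_lin3 hOS μ y (g := fun ω _ => (a ω * r ^ 2 + 2 * m ω * r + (m ω ^ 2 / a ω + s2 ω)))
        bA bM bc (r ^ 2) (2 * r) 1 (fun ω => by simp only [gA, gM, gC]; ring)
    rw [e1, e2, e3, ← hE1 y, one_mul, one_mul, one_mul, zero_mul, add_zero] at h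
    exact h
  have Hm : ∀ y r : ℝ, -W gMM y ≤ r ^ 2 * W gA y + 2 * r * W gM y := by
    intro y r
    have e3 : W (fun ω _ => a ω * r ^ 2 + 2 * m ω * r + m ω ^ 2 / a ω) y =
        r ^ 2 * W gA y + 2 * r * W gM y + 1 * W gMM y :=
      oW_lin3 hOS μ y bA bM bmm (r ^ 2) (2 * r) 1 (fun ω => by simp only [gA, gM, gMM]; ring)
    have e4 : 0 ≤ W (fun ω _ => a ω * r ^ 2 + 2 * m ω * r + m ω ^ 2 / a ω) y := by
      refine oW_nonneg μ y fun ω => ?_
      have h1 := apos ω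
      have h2 : a ω * r ^ 2 + 2 * m ω * r + m ω ^ 2 / a ω = (a ω * r + m ω) ^ 2 / a ω := by
        field_simp
        ring
      rw [h2]
      positivity
    linarith
  have Hcs : ∀ y, W gB y ^ 2 / W gE y ≤ W gBB y := by
    intro y
    have hw := pE y
    set c := W gB y / W gE y with hc
    have e3 : W (fun ω y => (gB ω y - c) ^ 2) y =
        1 * W gBB y + (-2 * c) * W gB y + c ^ 2 * W gE y :=
      oW_lin3 hOS μ y (bgBB y) (bgB y) one 1 (-2 * c) (c ^ 2)
        (fun ω => by simp only [gBB, gB, gE]; ring)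
    have e4 : 0 ≤ W (fun ω y => (gB ω y - c) ^ 2) y := oW_nonneg μ y fun ω => sq_nonneg _
    have e5 : W gB y ^ 2 / W gE y = c * W gB y := by rw [hc]; field_simp
    have e6 : c ^ 2 * W gE y = c * W gB y := by rw [hc]; field_simp
    rw [e5]
    linarith
  have HP := fun y => ptw (W gE y) (W gB y) (W gBB y) (W gL y) (W gLL y) (W gLB y) (W gA y)
    (W gM y) (W gC y) (W gMM y) β (pE y) (pA y) hβ hβ2 (H y) (Hm y)
  -- derivatives
  have dE : ∀ y, HasDerivAt (W gE) (-2 * W gL y) y := by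
    intro y
    have h1 := oW_deriv hOS μ one zero (g := gE) (fun ω y => by simp [gE]) y
    refine h1.congr_deriv ?_
    have := oW_lin3 hOS μ y (f1 := gL) (f2 := gL) (f3 := gL)
      (g := fun ω y => (0 : ℝ) - gE ω y * (2 * (a ω * y + l ω))) (bgL y) (bgL y) (bgL y) (-2) 0 0
      (fun ω => by simp only [gE, gL]; ring)
    rw [this]
    show _ = -2 * oW μ a l s0 gL y
    ring
  have dL : ∀ y, HasDerivAt (W gL) (W gA y - 2 * W gLL y) y := by
    intro y
    have h1 := oW_deriv hOS μ bL bA (g := gL) (fun ω y => by simp only [gL]; ring) y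
    refine h1.congr_deriv ?_
    have := oW_lin3 hOS μ y (f1 := gA) (f2 := gLL) (f3 := gLL)
      (g := fun ω y => a ω - gL ω y * (2 * (a ω * y + l ω))) bA (bgLL y) (bgLL y) 1 (-2) 0
      (fun ω => by simp only [gA, gLL, gL]; ring)
    rw [this]
    show _ = oW μ a l s0 gA y - 2 * oW μ a l s0 gLL y
    ring
  have dB : ∀ y, HasDerivAt (W gB) (W gM y - 2 * W gLB y) y := by
    intro y
    have h1 := oW_deriv hOS μ bb0 bM (g := gB) (fun ω y => by simp only [gB]; ring) y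
    refine h1.congr_deriv ?_
    have := oW_lin3 hOS μ y (f1 := gM) (f2 := gLB) (f3 := gLB)
      (g := fun ω y => m ω - gB ω y * (2 * (a ω * y + l ω))) bM (bgLB y) (bgLB y) 1 (-2) 0
      (fun ω => by simp only [gM, gLB, gB]; ring)
    rw [this]
    show _ = oW μ a l s0 gM y - 2 * oW μ a l s0 gLB y
    ring
  -- the objects of the Brascamp-Lieb inequality
  let η : ℝ → ℝ := fun y => -Real.log (W gE y)
  let η1 : ℝ → ℝ := fun y => 2 * W gL y / W gE y
  let η2 : ℝ → ℝ := fun y => 2 * W gA y / W gE y - 4 * W gLL y / W gE y +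
    4 * W gL y ^ 2 / W gE y ^ 2
  let φ : ℝ → ℝ := fun y => W gB y / W gE y
  let φ1 : ℝ → ℝ := fun y => (W gM y - 2 * W gLB y) / W gE y + 2 * W gB y * W gL y / W gE y ^ 2
  have hexp : ∀ y, Real.exp (-η y) = W gE y := by
    intro y
    simp only [η, neg_neg]
    exact Real.exp_log (pE y)
  have hη : ∀ y, HasDerivAt η (η1 y) y := by
    intro y
    have hw := (pE y).ne'
    have h1 := ((dE y).log hw).neg
    refine h1.congr_deriv ?_
    simp only [η1]
    ring
  have hη1 : ∀ y, HasDerivAt η1 (η2 y) y := by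
    intro y
    have hw := (pE y).ne'
    have h1 := ((dL y).const_mul 2).div (dE y) hw
    refine h1.congr_deriv ?_
    simp only [η2]
    field_simp
    ring
  have hφ : ∀ y, HasDerivAt φ (φ1 y) y := by
    intro y
    have hw := (pE y).ne'
    have h1 := (dB y).div (dE y) hw
    refine h1.congr_deriv ?_
    simp only [φ1]
    field_simp
    ring
  have cη2 : Continuous η2 := by
    have hne : ∀ y, W gE y ≠ 0 := fun y => (pE y).ne'
    exact (((continuous_const.mul cA).div cE hne).sub ((continuous_const.mul cLL).div cE hne)).add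
      ((continuous_const.mul (cL.pow 2)).div (cE.pow 2) fun y => pow_ne_zero 2 (hne y))
  have cφ : Continuous φ := cB.div cE fun y => (pE y).ne'
  have cφ1 : Continuous φ1 := by
    have hne : ∀ y, W gE y ≠ 0 := fun y => (pE y).ne'
    exact ((cM.sub (continuous_const.mul cLB)).div cE hne).add
      (((continuous_const.mul cB).mul cL).div (cE.pow 2) fun y => pow_ne_zero 2 (hne y))
  have pη2 : ∀ y, 0 < η2 y := fun y => (HP y).1
  -- the mode
  have hne : Nonempty Ω := by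
    by_contra hcon
    rw [not_nonempty_iff] at hcon
    exact hμ (Measure.eq_zero_of_isEmpty μ)
  have hC : 0 < C := by
    obtain ⟨ω⟩ := hne
    exact lt_of_lt_of_le (apos ω) (haC ω)
  obtain ⟨y0, hy0⟩ : ∃ y0, W gL y0 = 0 := by
    have h1 : W gL (-(C / δ)) ≤ 0 := by
      have : 0 ≤ W (fun ω y => -gL ω y) (-(C / δ)) := by
        refine oW_nonneg μ _ fun ω => ?_
        simp only [gL]
        have h2 := (abs_le.1 (hlC ω)).2
        have h3 : C ≤ a ω * (C / δ) := by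
          rw [mul_div_assoc', le_div_iff₀ hδ]
          nlinarith [haδ ω]
        linarith
      have e := oW_lin3 hOS μ (-(C / δ)) (f1 := gL) (f2 := gL) (f3 := gL)
        (g := fun ω y => -gL ω y) (bgL _) (bgL _) (bgL _) (-1) 0 0 (fun ω => by ring)
      have e' : W (fun ω y => -gL ω y) (-(C / δ)) = -1 * W gL (-(C / δ)) +
        0 * W gL (-(C / δ)) + 0 * W gL (-(C / δ)) := e
      linarith
    have h2 : 0 ≤ W gL (C / δ) := by
      refine oW_nonneg μ _ fun ω => ?_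
      simp only [gL]
      have h2 := (abs_le.1 (hlC ω)).1
      have h3 : C ≤ a ω * (C / δ) := by
        rw [mul_div_assoc', le_div_iff₀ hδ]
        nlinarith [haδ ω]
      linarith
    have h3 : -(C / δ) ≤ C / δ := by
      have : 0 < C / δ := div_pos hC hδ
      linarith
    obtain ⟨y0, _, hy0⟩ := intermediate_value_Icc h3 cL.continuousOn ⟨h1, h2⟩
    exact ⟨y0, hy0⟩
  have hη10 : η1 y0 = 0 := by simp only [η1, hy0, mul_zero, zero_div]
  -- integrals in y
  have zlm : ∀ ω y, m ω * y + l ω * m ω / a ω + s1 ω = s1 ω + m ω * (y + l ω / a ω) := by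
    intro ω y
    have := (apos ω).ne'
    field_simp
    ring
  have iE := oW_int hOS μ one zero zero (g := gE) (fun ω y => by simp [gE])
  have iB := oW_int hOS μ b1 bM zero (g := gB) (fun ω y => by simp only [gB]; rw [zlm]; ring)
  have iBB := oW_int hOS μ b1.sq ((BM.const 2).mul (bM.mul b1)) bM.sq (g := gBB)
    (fun ω y => by simp only [gBB]; rw [zlm]; ring)
  have iC := oW_int hOS μ bc zero zero (g := gC) (fun ω y => by simp [gC])
  have iMM := oW_int hOS μ bmm zero zero (g := gMM) (fun ω y => by simp [gMM])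
  have hG : Integrable (fun y => β * W gC y + (1 / 2 - β) * W gMM y) :=
    (iC.1.const_mul β).add (iMM.1.const_mul _)
  have hint : Integrable (fun y => φ1 y ^ 2 / η2 y * Real.exp (-η y)) := by
    simp only [hexp]
    refine hG.mono' ?_ (Eventually.of_forall fun y => ?_)
    · exact (((cφ1.pow 2).div cη2 fun y => (pη2 y).ne').mul cE).aestronglyMeasurable
    · have h1 : 0 ≤ φ1 y ^ 2 / η2 y * W gE y :=
        mul_nonneg (div_nonneg (sq_nonneg _) (pη2 y).le) (pE y).le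
      rw [Real.norm_eq_abs, abs_of_nonneg h1]
      have h2 : W gBB y - W gB y ^ 2 / W gE y + φ1 y ^ 2 / η2 y * W gE y ≤
        β * W gC y + (1 / 2 - β) * W gMM y := (HP y).2.2
      have h3 := Hcs y
      linarith
  obtain ⟨j1, j2⟩ := bl1d η η1 η2 φ φ1 y0 hη hη1 cη2 pη2 hφ cφ1 hη10 hint
  simp only [hexp] at j1 j2 hint
  -- integrability of wB^2/w
  have hB2 : Integrable (fun y => W gB y ^ 2 / W gE y) := by
    refine iBB.1.mono' ?_ (Eventually.of_forall fun y => ?_)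
    · exact ((cB.pow 2).div cE fun y => (pE y).ne').aestronglyMeasurable
    · have h1 : 0 ≤ W gB y ^ 2 / W gE y := div_nonneg (sq_nonneg _) (pE y).le
      rw [Real.norm_eq_abs, abs_of_nonneg h1]
      exact Hcs y
  have k1 : (∫ y, W gBB y) - (∫ y, W gB y ^ 2 / W gE y) + (∫ y, φ1 y ^ 2 / η2 y * W gE y) ≤
      β * (∫ y, W gC y) + (1 / 2 - β) * ∫ y, W gMM y := by
    have n1 : Integrable (W gBB) := iBB.1
    have n2 : Integrable (fun y => W gBB y - W gB y ^ 2 / W gE y) := n1.sub hB2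
    have n3 : Integrable (fun y => β * W gC y) := iC.1.const_mul β
    have n4 : Integrable (fun y => (1 / 2 - β) * W gMM y) := iMM.1.const_mul _
    rw [← integral_sub n1 hB2, ← integral_add n2 hint, ← integral_const_mul,
      ← integral_const_mul, ← integral_add n3 n4]
    refine integral_mono (n2.add hint) hG fun y => ?_
    exact (HP y).2.2
  have k2 : (∫ y, (φ y - φ y0) ^ 2 * W gE y) = (∫ y, W gB y ^ 2 / W gE y) +
      (-2 * φ y0) * (∫ y, W gB y) + φ y0 ^ 2 * ∫ y, W gE y := by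
    have n3 : Integrable (fun y => (-2 * φ y0) * W gB y) := iB.1.const_mul _
    have n4 : Integrable (fun y => φ y0 ^ 2 * W gE y) := iE.1.const_mul _
    have n5 : Integrable (fun y => W gB y ^ 2 / W gE y + (-2 * φ y0) * W gB y) := hB2.add n3
    rw [← integral_const_mul, ← integral_const_mul, ← integral_add hB2 n3,
      ← integral_add n5 n4]
    refine integral_congr_ae (Eventually.of_forall fun y => ?_)
    show (φ y - φ y0) ^ 2 * W gE y = W gB y ^ 2 / W gE y + -2 * φ y0 * W gB y + φ y0 ^ 2 * W gE y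
    have hw := (pE y).ne'
    have : φ y = W gB y / W gE y := rfl
    rw [this]
    field_simp
    ring
  -- values
  have vK := hOS.K
  set K : Ω → ℝ := fun ω => Real.exp (-s0 ω) / Real.sqrt (a ω) with hK
  set A0 := ∫ ω, K ω ∂μ with hA0
  set A1 := ∫ ω, s1 ω ^ 2 * K ω ∂μ with hA1
  set A2 := ∫ ω, s1 ω * K ω ∂μ with hA2
  set Q := ∫ ω, (m ω ^ 2 / a ω) * K ω ∂μ with hQ
  set T := ∫ ω, s2 ω * K ω ∂μ with hT
  have hpi : 0 < Real.sqrt Real.pi := Real.sqrt_pos.2 Real.pi_pos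
  have pA0 : 0 < A0 := os_pos μ hμ vK fun ω => div_pos (Real.exp_pos _) (Real.sqrt_pos.2 (apos ω))
  have vE : ∫ y, W gE y = Real.sqrt Real.pi * A0 := by
    have h := iE.2
    have e : ∫ ω, ((fun _ : Ω => (1 : ℝ)) ω + (fun _ : Ω => (0 : ℝ)) ω / (2 * a ω)) *
        (Real.exp (-s0 ω) / Real.sqrt (a ω)) ∂μ = A0 := by
      rw [hA0]
      refine integral_congr_ae (Eventually.of_forall fun ω => ?_)
      simp [hK]
    rw [e] at h
    exact h
  have vB : ∫ y, W gB y = Real.sqrt Real.pi * A2 := by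
    have h := iB.2
    have e : ∫ ω, (s1 ω + (fun _ : Ω => (0 : ℝ)) ω / (2 * a ω)) *
        (Real.exp (-s0 ω) / Real.sqrt (a ω)) ∂μ = A2 := by
      rw [hA2]
      refine integral_congr_ae (Eventually.of_forall fun ω => ?_)
      simp [hK]
    rw [e] at h
    exact h
  have vBB : ∫ y, W gBB y = Real.sqrt Real.pi * (A1 + 1 / 2 * Q) := by
    have h := iBB.2
    have e : ∫ ω, (s1 ω ^ 2 + m ω ^ 2 / (2 * a ω)) *
        (Real.exp (-s0 ω) / Real.sqrt (a ω)) ∂μ = 1 * A1 + (1 / 2) * Q + 0 * Q :=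
      os_lin3 μ b1.sq bmm bmm vK 1 (1 / 2) 0 (fun ω => by
        have := (apos ω).ne'
        field_simp
        ring)
    rw [e] at h
    have h' : ∫ y, W gBB y = Real.sqrt Real.pi * (1 * A1 + (1 / 2) * Q + 0 * Q) := h
    rw [h']
    ring
  have vC : ∫ y, W gC y = Real.sqrt Real.pi * (Q + T) := by
    have h := iC.2
    have e : ∫ ω, ((m ω ^ 2 / a ω + s2 ω) + (fun _ : Ω => (0 : ℝ)) ω / (2 * a ω)) *
        (Real.exp (-s0 ω) / Real.sqrt (a ω)) ∂μ = 1 * Q + 1 * T + 0 * Q :=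
      os_lin3 μ bmm b2 bmm vK 1 1 0 (fun ω => by simp)
    have h' : ∫ y, W gC y = Real.sqrt Real.pi * (1 * Q + 1 * T + 0 * Q) := by
      rw [← e]
      exact h
    rw [h']
    ring
  have vMM : ∫ y, W gMM y = Real.sqrt Real.pi * Q := by
    have h := iMM.2
    have e : ∫ ω, ((m ω ^ 2 / a ω) + (fun _ : Ω => (0 : ℝ)) ω / (2 * a ω)) *
        (Real.exp (-s0 ω) / Real.sqrt (a ω)) ∂μ = Q := by
      rw [hQ]
      refine integral_congr_ae (Eventually.of_forall fun ω => ?_)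
      simp [hK]
    rw [← e]
    exact h
  rw [vBB, vC, vMM] at k1
  rw [k2, vB, vE] at j2
  show A1 * A0 - A2 ^ 2 ≤ β * T * A0
  set c := φ y0 with hc
  set sp := Real.sqrt Real.pi with hsp
  -- combine
  have f1 : sp * (A1 + 1 / 2 * Q) + (-2 * c) * (sp * A2) + c ^ 2 * (sp * A0) ≤
      β * (sp * (Q + T)) + (1 / 2 - β) * (sp * Q) := by linarith
  have f2 : sp * (A1 - 2 * c * A2 + c ^ 2 * A0) ≤ sp * (β * T) := by linarith
  have f3 : A1 - 2 * c * A2 + c ^ 2 * A0 ≤ β * T := le_of_mul_le_mul_left f2 hpi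
  have f4 := mul_le_mul_of_nonneg_right f3 pA0.le
  nlinarith [sq_nonneg (c * A0 - A2)]

end S_onestep

theorem onestep : type_of% @S_onestep.onestep := @S_onestep.onestep
end

section
namespace S_good_gauss

theorem good_gauss_quad {m : ℕ} (η : ℝ) (x : Fin m → ℝ) :
    quad (fun i j => if i = j then η else 0) x = η * ∑ i, x i ^ 2 := by
  unfold quad
  rw [Finset.mul_sum]
  apply Finset.sum_congr rfl
  intro i _
  rw [Finset.sum_eq_single i]
  · simp
    ring
  · intro j _ hj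
    simp only [if_neg (Ne.symm hj)]
    ring
  · intro h
    exact absurd (Finset.mem_univ _) h

/-- B1: the standard Gaussian is good. -/
theorem good_gauss (β : ℝ) (hβ : 0 ≤ β) (m : ℕ) (η : ℝ) (hη : 0 < η) :
    Good β m (fun x => Real.exp (-(η * ∑ i, x i ^ 2))) := by
  refine ⟨Unit, inferInstance, Measure.dirac (), fun _ i j => if i = j then η else 0, η, η,
    inferInstance, ?_, hη, ?_, ?_, ?_, ?_, ?_, ?_⟩
  · intro h
    have := congrArg (fun μ : Measure Unit => μ Set.univ) h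
    simp at this
  · intro i j
    exact measurable_const
  · intro _ i j
    by_cases h : i = j
    · simp only [if_pos h, abs_of_pos hη, le_refl]
    · simp only [if_neg h, abs_zero]
      exact hη.le
  · intro _ i j
    by_cases h : i = j
    · simp only [if_pos h, if_pos h.symm]
    · simp only [if_neg h, if_neg (Ne.symm h)]
  · intro _ x
    rw [good_gauss_quad]
  · intro x
    rw [integral_dirac, good_gauss_quad]
  · intro x ξ
    simp only [integral_dirac, good_gauss_quad]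
    have h1 : 0 ≤ ∑ i, ξ i ^ 2 := Finset.sum_nonneg (fun i _ => sq_nonneg _)
    have h2 := Real.exp_pos (-(η * ∑ i, x i ^ 2))
    have h4 : 0 ≤ β * (η * (∑ i, ξ i ^ 2) * Real.exp (-(η * ∑ i, x i ^ 2))) * Real.exp (-(η * ∑ i, x i ^ 2)) := by
      positivity
    nlinarith [h4]

end S_good_gauss

theorem good_gauss : type_of% @S_good_gauss.good_gauss := @S_good_gauss.good_gauss
end

section
namespace S_good_mul

theorem quad_add {m : ℕ} (A : Fin m → Fin m → ℝ) (t : ℝ) (w x : Fin m → ℝ) :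
    quad (fun i j => A i j + t * (w i * w j)) x = quad A x + t * (w ⬝ᵥ x) ^ 2 := by
  unfold quad dotProduct
  rw [sq, Finset.sum_mul_sum, Finset.mul_sum, ← Finset.sum_add_distrib]
  refine Finset.sum_congr rfl fun i _ => ?_
  rw [Finset.mul_sum, ← Finset.sum_add_distrib]
  refine Finset.sum_congr rfl fun j _ => ?_
  ring

theorem bil_add {m : ℕ} (A : Fin m → Fin m → ℝ) (t : ℝ) (w x y : Fin m → ℝ) :
    bil (fun i j => A i j + t * (w i * w j)) x y = bil A x y + t * ((w ⬝ᵥ x) * (w ⬝ᵥ y)) := by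
  unfold bil dotProduct
  rw [Finset.sum_mul_sum, Finset.mul_sum, ← Finset.sum_add_distrib]
  refine Finset.sum_congr rfl fun i _ => ?_
  rw [Finset.mul_sum, ← Finset.sum_add_distrib]
  refine Finset.sum_congr rfl fun j _ => ?_
  ring

theorem quad_eq_bil {m : ℕ} (A : Fin m → Fin m → ℝ) (x : Fin m → ℝ) : quad A x = bil A x x := rfl

theorem meas_bil {m : ℕ} {Ω : Type} [MeasurableSpace Ω] (A : Ω → Fin m → Fin m → ℝ)
    (hA : ∀ i j, Measurable (fun ω => A ω i j)) (x y : Fin m → ℝ) :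
    Measurable (fun ω => bil (A ω) x y) := by
  unfold bil
  refine Finset.measurable_fun_sum _ fun i _ => Finset.measurable_fun_sum _ fun j _ => ?_
  exact ((hA i j).mul_const _).mul_const _

theorem bil_le {m : ℕ} {Ω : Type} (A : Ω → Fin m → Fin m → ℝ) (C : ℝ)
    (hA : ∀ ω i j, |A ω i j| ≤ C) (x y : Fin m → ℝ) (ω : Ω) :
    |bil (A ω) x y| ≤ ∑ i, ∑ j, C * |x i| * |y j| := by
  unfold bil
  refine (Finset.abs_sum_le_sum_abs _ _).trans (Finset.sum_le_sum fun i _ => ?_)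
  refine (Finset.abs_sum_le_sum_abs _ _).trans (Finset.sum_le_sum fun j _ => ?_)
  rw [abs_mul, abs_mul]
  gcongr
  exact hA ω i j

/-- B2: closure under multiplication by a mixture factor. -/
theorem good_mul (β : ℝ) (hβ : 0 ≤ β) (m : ℕ) (H : (Fin m → ℝ) → ℝ) (hH : Good β m H)
    (g : ℝ → ℝ) (hg : MixLaw β g) (w : Fin m → ℝ) :
    Good β m (fun x => H x * g ((w ⬝ᵥ x) ^ 2)) := by
  obtain ⟨Ω, mΩ, μ, A, δ, C, hμf, hμ0, hδ, hAm, hAC, hAs, hAe, hHe, hHv⟩ := hH
  obtain ⟨κ, mκ, P, T, M, hPf, hP0, hTm, hT0, hTM, hge, hgv⟩ := hg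
  have hq0 : ∀ ω x, 0 ≤ quad (A ω) x := fun ω x =>
    le_trans (mul_nonneg hδ.le (Finset.sum_nonneg fun i _ => sq_nonneg _)) (hAe ω x)
  have hmul : ∀ (ω : Ω × κ) (x : Fin m → ℝ),
      Real.exp (-quad (fun i j => A ω.1 i j + T ω.2 * (w i * w j)) x) =
      Real.exp (-quad (A ω.1) x) * Real.exp (-((w ⬝ᵥ x) ^ 2 * T ω.2)) := by
    intro ω x
    rw [quad_add, ← Real.exp_add]
    congr 1
    ring
  -- bounded functions
  have hEmeas : ∀ x, Measurable (fun ω => Real.exp (-quad (A ω) x)) := fun x =>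
    Real.measurable_exp.comp (meas_bil A hAm x x).neg
  have hEle : ∀ x ω, Real.exp (-quad (A ω) x) ≤ 1 := fun x ω =>
    Real.exp_le_one_iff.mpr (by linarith [hq0 ω x])
  have hTE : ∀ (s : ℝ), 0 ≤ s → ∀ u, Real.exp (-(s * T u)) ≤ 1 := fun s hs u =>
    Real.exp_le_one_iff.mpr (by linarith [mul_nonneg hs (hT0 u)])
  have hTEm : ∀ (s : ℝ), Measurable (fun u => Real.exp (-(s * T u))) := fun s =>
    Real.measurable_exp.comp (hTm.const_mul s).neg
  have gI : ∀ (f : Ω → ℝ) (x : Fin m → ℝ) (D : ℝ), Measurable f → (∀ ω, |f ω| ≤ D) →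
      Integrable (fun ω => f ω * Real.exp (-quad (A ω) x)) μ := by
    intro f x D hf hD
    refine Integrable.of_bound (hf.mul (hEmeas x)).aestronglyMeasurable D
      (Eventually.of_forall fun ω => ?_)
    rw [Real.norm_eq_abs, abs_mul, Real.abs_exp]
    calc |f ω| * Real.exp (-quad (A ω) x) ≤ |f ω| * 1 := by
          gcongr
          exact hEle x ω
      _ ≤ D := by simpa using hD ω
  have gJ : ∀ (f : κ → ℝ) (s : ℝ) (hs : 0 ≤ s) (D : ℝ), Measurable f → (∀ ω, |f ω| ≤ D) →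
      Integrable (fun u => f u * Real.exp (-(s * T u))) P := by
    intro f s hs D hf hD
    refine Integrable.of_bound (hf.mul (hTEm s)).aestronglyMeasurable D
      (Eventually.of_forall fun ω => ?_)
    rw [Real.norm_eq_abs, abs_mul, Real.abs_exp]
    calc |f ω| * Real.exp (-(s * T ω)) ≤ |f ω| * 1 := by
          gcongr
          exact hTE s hs ω
      _ ≤ D := by simpa using hD ω
  have hTM' : ∀ u, |T u| ≤ |M| := fun u => by
    rw [abs_of_nonneg (hT0 u)]
    exact (hTM u).trans (le_abs_self M)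
  have hTM2 : ∀ u, |T u ^ 2| ≤ |M| ^ 2 := fun u => by
    rw [abs_pow]
    exact pow_le_pow_left₀ (abs_nonneg _) (hTM' u) 2
  refine ⟨Ω × κ, inferInstance, μ.prod P, fun ω i j => A ω.1 i j + T ω.2 * (w i * w j), δ,
    C + |M| * ((∑ i, |w i|) * (∑ i, |w i|)), inferInstance, ?_, hδ, ?_, ?_, ?_, ?_, ?_, ?_⟩
  · intro h0
    have h1 : (μ.prod P) univ = 0 := by rw [h0]; simp
    rw [← univ_prod_univ, Measure.prod_prod, mul_eq_zero] at h1
    rcases h1 with h1 | h1
    · exact hμ0 (Measure.measure_univ_eq_zero.mp h1)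
    · exact hP0 (Measure.measure_univ_eq_zero.mp h1)
  · intro i j
    exact ((hAm i j).comp measurable_fst).add ((hTm.comp measurable_snd).mul_const _)
  · intro ω i j
    refine (abs_add_le _ _).trans (add_le_add (hAC _ _ _) ?_)
    rw [abs_mul, abs_mul]
    have hs : ∀ i, |w i| ≤ ∑ i, |w i| := fun i =>
      Finset.single_le_sum (f := fun i => |w i|) (fun i _ => abs_nonneg _) (Finset.mem_univ i)
    exact mul_le_mul (hTM' _) (mul_le_mul (hs i) (hs j) (abs_nonneg _)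
      ((abs_nonneg _).trans (hs i))) (mul_nonneg (abs_nonneg _) (abs_nonneg _)) (abs_nonneg _)
  · intro ω i j
    simp only
    rw [hAs ω.1 i j, mul_comm (w i) (w j)]
  · intro ω x
    simp only
    rw [quad_add]
    have := hAe ω.1 x
    have := mul_nonneg (hT0 ω.2) (sq_nonneg (w ⬝ᵥ x))
    linarith
  · intro x
    simp only [hmul]
    rw [integral_prod_mul (fun ω => Real.exp (-quad (A ω) x))
      (fun u => Real.exp (-((w ⬝ᵥ x) ^ 2 * T u))), hHe x, hge _ (sq_nonneg _)]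
  · intro x ξ
    simp only [hmul]
    simp only [quad_add, bil_add]
    set s : ℝ := (w ⬝ᵥ x) ^ 2 with hs
    have hs0 : 0 ≤ s := sq_nonneg _
    set c : ℝ := (w ⬝ᵥ x) * (w ⬝ᵥ ξ) with hc
    set y : ℝ := (w ⬝ᵥ ξ) ^ 2 with hy
    have hcs : c ^ 2 = s * y := by rw [hc, hs, hy]; ring
    set a0 : ℝ := ∫ ω, Real.exp (-quad (A ω) x) ∂μ with ha0
    set a1 : ℝ := ∫ ω, bil (A ω) x ξ * Real.exp (-quad (A ω) x) ∂μ with ha1
    set a2 : ℝ := ∫ ω, bil (A ω) x ξ ^ 2 * Real.exp (-quad (A ω) x) ∂μ with ha2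
    set b : ℝ := ∫ ω, quad (A ω) ξ * Real.exp (-quad (A ω) x) ∂μ with hb
    set t0 : ℝ := ∫ u, Real.exp (-(s * T u)) ∂P with ht0
    set t1 : ℝ := ∫ u, T u * Real.exp (-(s * T u)) ∂P with ht1
    set t2 : ℝ := ∫ u, T u ^ 2 * Real.exp (-(s * T u)) ∂P with ht2
    have hB1 := bil_le A C hAC x ξ
    have hB2 : ∀ ω, |bil (A ω) x ξ ^ 2| ≤ (∑ i, ∑ j, C * |x i| * |ξ j|) ^ 2 := fun ω => by
      rw [abs_pow]
      gcongr
      exact hB1 ω
    have hQ := bil_le A C hAC ξ ξ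
    have iE0 : Integrable (fun ω => Real.exp (-quad (A ω) x)) μ := by
      simpa using gI (fun _ => 1) x 1 measurable_const (fun _ => by simp)
    have iE1 := gI (fun ω => bil (A ω) x ξ) x _ (meas_bil A hAm x ξ) hB1
    have iE2 := gI (fun ω => bil (A ω) x ξ ^ 2) x _ ((meas_bil A hAm x ξ).pow_const 2) hB2
    have iEQ := gI (fun ω => quad (A ω) ξ) x _ (meas_bil A hAm ξ ξ) hQ
    have iT0 : Integrable (fun u => Real.exp (-(s * T u))) P := by
      simpa using gJ (fun _ => 1) s hs0 1 measurable_const (fun _ => by simp)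
    have iT1 := gJ (fun u => T u) s hs0 _ hTm hTM'
    have iT2 := gJ (fun u => T u ^ 2) s hs0 _ (hTm.pow_const 2) hTM2
    have J0 : ∫ ω : Ω × κ, Real.exp (-quad (A ω.1) x) * Real.exp (-(s * T ω.2)) ∂μ.prod P
        = a0 * t0 :=
      integral_prod_mul (fun ω => Real.exp (-quad (A ω) x)) (fun u => Real.exp (-(s * T u)))
    have J1 : ∫ ω : Ω × κ, (bil (A ω.1) x ξ + T ω.2 * c) *
        (Real.exp (-quad (A ω.1) x) * Real.exp (-(s * T ω.2))) ∂μ.prod P
        = a1 * t0 + c * (a0 * t1) := by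
      have e : ∀ ω : Ω × κ, (bil (A ω.1) x ξ + T ω.2 * c) *
        (Real.exp (-quad (A ω.1) x) * Real.exp (-(s * T ω.2))) =
        (bil (A ω.1) x ξ * Real.exp (-quad (A ω.1) x)) * Real.exp (-(s * T ω.2)) +
        c * (Real.exp (-quad (A ω.1) x) * (T ω.2 * Real.exp (-(s * T ω.2)))) := fun ω => by ring
      simp only [e]
      rw [integral_add (iE1.mul_prod iT0) ((iE0.mul_prod iT1).const_mul c), integral_const_mul,
        integral_prod_mul (fun ω => bil (A ω) x ξ * Real.exp (-quad (A ω) x))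
          (fun u => Real.exp (-(s * T u))),
        integral_prod_mul (fun ω => Real.exp (-quad (A ω) x))
          (fun u => T u * Real.exp (-(s * T u)))]
    have J2 : ∫ ω : Ω × κ, (bil (A ω.1) x ξ + T ω.2 * c) ^ 2 *
        (Real.exp (-quad (A ω.1) x) * Real.exp (-(s * T ω.2))) ∂μ.prod P
        = a2 * t0 + (2 * c) * (a1 * t1) + c ^ 2 * (a0 * t2) := by
      have e : ∀ ω : Ω × κ, (bil (A ω.1) x ξ + T ω.2 * c) ^ 2 *
        (Real.exp (-quad (A ω.1) x) * Real.exp (-(s * T ω.2))) =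
        ((bil (A ω.1) x ξ ^ 2 * Real.exp (-quad (A ω.1) x)) * Real.exp (-(s * T ω.2)) +
        (2 * c) * ((bil (A ω.1) x ξ * Real.exp (-quad (A ω.1) x)) *
          (T ω.2 * Real.exp (-(s * T ω.2))))) +
        c ^ 2 * (Real.exp (-quad (A ω.1) x) * (T ω.2 ^ 2 * Real.exp (-(s * T ω.2)))) :=
          fun ω => by ring
      simp only [e]
      have i3 : Integrable (fun ω : Ω × κ =>
          (bil (A ω.1) x ξ ^ 2 * Real.exp (-quad (A ω.1) x)) * Real.exp (-(s * T ω.2)) +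
          (2 * c) * ((bil (A ω.1) x ξ * Real.exp (-quad (A ω.1) x)) *
          (T ω.2 * Real.exp (-(s * T ω.2))))) (μ.prod P) :=
        (iE2.mul_prod iT0).add ((iE1.mul_prod iT1).const_mul (2 * c))
      rw [integral_add i3 ((iE0.mul_prod iT2).const_mul (c ^ 2)),
        integral_add (iE2.mul_prod iT0) ((iE1.mul_prod iT1).const_mul (2 * c)),
        integral_const_mul, integral_const_mul,
        integral_prod_mul (fun ω => bil (A ω) x ξ ^ 2 * Real.exp (-quad (A ω) x))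
          (fun u => Real.exp (-(s * T u))),
        integral_prod_mul (fun ω => bil (A ω) x ξ * Real.exp (-quad (A ω) x))
          (fun u => T u * Real.exp (-(s * T u))),
        integral_prod_mul (fun ω => Real.exp (-quad (A ω) x))
          (fun u => T u ^ 2 * Real.exp (-(s * T u)))]
    have JQ : ∫ ω : Ω × κ, (quad (A ω.1) ξ + T ω.2 * y) *
        (Real.exp (-quad (A ω.1) x) * Real.exp (-(s * T ω.2))) ∂μ.prod P
        = b * t0 + y * (a0 * t1) := by
      have e : ∀ ω : Ω × κ, (quad (A ω.1) ξ + T ω.2 * y) *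
        (Real.exp (-quad (A ω.1) x) * Real.exp (-(s * T ω.2))) =
        (quad (A ω.1) ξ * Real.exp (-quad (A ω.1) x)) * Real.exp (-(s * T ω.2)) +
        y * (Real.exp (-quad (A ω.1) x) * (T ω.2 * Real.exp (-(s * T ω.2)))) := fun ω => by ring
      simp only [e]
      rw [integral_add (iEQ.mul_prod iT0) ((iE0.mul_prod iT1).const_mul y), integral_const_mul,
        integral_prod_mul (fun ω => quad (A ω) ξ * Real.exp (-quad (A ω) x))
          (fun u => Real.exp (-(s * T u))),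
        integral_prod_mul (fun ω => Real.exp (-quad (A ω) x))
          (fun u => T u * Real.exp (-(s * T u)))]
    rw [J0, J1, J2, JQ]
    have hv1 : a2 * a0 - a1 ^ 2 ≤ β * b * a0 := hHv x ξ
    have hv2 : s * (t2 * t0 - t1 ^ 2) ≤ β * t1 * t0 := hgv s hs0
    have m1 := mul_le_mul_of_nonneg_right hv1 (sq_nonneg t0)
    have m2 := mul_le_mul_of_nonneg_right hv2 (mul_nonneg (sq_nonneg a0) (sq_nonneg (w ⬝ᵥ ξ)))
    rw [← hy] at m2
    have key : (a2 * t0 + 2 * c * (a1 * t1) + c ^ 2 * (a0 * t2)) * (a0 * t0) -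
        (a1 * t0 + c * (a0 * t1)) ^ 2 =
        (a2 * a0 - a1 ^ 2) * t0 ^ 2 + c ^ 2 * (t2 * t0 - t1 ^ 2) * a0 ^ 2 := by ring
    rw [key, hcs]
    nlinarith [m1, m2]

end S_good_mul

theorem good_mul : type_of% @S_good_mul.good_mul := @S_good_mul.good_mul
end

section
namespace S_good_marg

/-- reduced matrix -/
def mgA {m : ℕ} (A : Fin (m + 1) → Fin (m + 1) → ℝ) (i j : Fin m) : ℝ :=
  A i.succ j.succ - A 0 i.succ * A 0 j.succ / A 0 0

/-- first row -/
def mgl {m : ℕ} (A : Fin (m + 1) → Fin (m + 1) → ℝ) (x : Fin m → ℝ) : ℝ :=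
  ∑ i, A 0 i.succ * x i

theorem mg_bil_self {m : ℕ} (A : Fin m → Fin m → ℝ) (x : Fin m → ℝ) : bil A x x = quad A x := rfl

theorem mg_bil_cons {m : ℕ} (A : Fin (m + 1) → Fin (m + 1) → ℝ) (hs : ∀ i j, A i j = A j i)
    (x ξ : Fin m → ℝ) (y r : ℝ) :
    bil A (Fin.cons y x) (Fin.cons r ξ) = r * (A 0 0 * y + mgl A x) +
      (mgl A ξ * y + mgl A x * mgl A ξ / A 0 0 + bil (mgA A) x ξ) := by
  have h1 : bil (mgA A) x ξ = (∑ i, ∑ j, A (Fin.succ i) (Fin.succ j) * x i * ξ j) -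
      mgl A x * mgl A ξ / A 0 0 := by
    unfold bil mgA mgl
    rw [Finset.sum_mul_sum, Finset.sum_div, ← Finset.sum_sub_distrib]
    refine Finset.sum_congr rfl fun i _ => ?_
    rw [Finset.sum_div, ← Finset.sum_sub_distrib]
    refine Finset.sum_congr rfl fun j _ => ?_
    ring
  rw [h1]
  unfold bil mgl
  simp only [Fin.sum_univ_succ, Fin.cons_zero, Fin.cons_succ, Finset.sum_add_distrib]
  have h2 : ∑ j, A 0 (Fin.succ j) * y * ξ j = (∑ i, A 0 (Fin.succ i) * ξ i) * y := by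
    rw [Finset.sum_mul]
    exact Finset.sum_congr rfl fun j _ => by ring
  have h3 : ∑ i, A (Fin.succ i) 0 * x i * r = r * ∑ i, A 0 (Fin.succ i) * x i := by
    rw [Finset.mul_sum]
    exact Finset.sum_congr rfl fun j _ => by rw [hs (Fin.succ j) 0]; ring
  rw [h2, h3]
  ring

theorem mg_quad_cons {m : ℕ} (A : Fin (m + 1) → Fin (m + 1) → ℝ) (hs : ∀ i j, A i j = A j i)
    (h0 : A 0 0 ≠ 0) (x : Fin m → ℝ) (y : ℝ) :
    quad A (Fin.cons y x) = qf (A 0 0) (mgl A x) (quad (mgA A) x) y := by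
  rw [← mg_bil_self, mg_bil_cons A hs, mg_bil_self, qf]
  field_simp
  ring

theorem mg_a_ge {m : ℕ} (A : Fin (m + 1) → Fin (m + 1) → ℝ) (δ : ℝ)
    (h : ∀ x : Fin (m + 1) → ℝ, δ * ∑ i, x i ^ 2 ≤ quad A x) : δ ≤ A 0 0 := by
  have h1 := h (Fin.cons 1 0)
  unfold quad at h1
  simpa [Fin.sum_univ_succ] using h1

theorem mg_lower {m : ℕ} (A : Fin (m + 1) → Fin (m + 1) → ℝ) (δ : ℝ) (hδ : 0 < δ)
    (hs : ∀ i j, A i j = A j i)
    (h : ∀ x : Fin (m + 1) → ℝ, δ * ∑ i, x i ^ 2 ≤ quad A x) (x : Fin m → ℝ) :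
    δ * ∑ i, x i ^ 2 ≤ quad (mgA A) x := by
  have ha := mg_a_ge A δ h
  have h0 : A 0 0 ≠ 0 := by linarith
  have h1 := h (Fin.cons (-(mgl A x / A 0 0)) x)
  rw [mg_quad_cons A hs h0, qf, Fin.sum_univ_succ] at h1
  simp only [Fin.cons_zero, Fin.cons_succ] at h1
  have h2 : (-(mgl A x / A 0 0) + mgl A x / A 0 0) = 0 := by ring
  rw [h2] at h1
  have h3 : 0 ≤ δ * (-(mgl A x / A 0 0)) ^ 2 := by positivity
  nlinarith

theorem mg_bil_bound {m : ℕ} (A : Fin m → Fin m → ℝ) (K : ℝ) (h : ∀ i j, |A i j| ≤ K)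
    (x y : Fin m → ℝ) : |bil A x y| ≤ K * (∑ i, |x i|) * (∑ i, |y i|) := by
  unfold bil
  calc |∑ i, ∑ j, A i j * x i * y j| ≤ ∑ i, ∑ j, |A i j * x i * y j| := by
        refine (Finset.abs_sum_le_sum_abs _ _).trans ?_
        exact Finset.sum_le_sum fun i _ => Finset.abs_sum_le_sum_abs _ _
    _ ≤ ∑ i, ∑ j, K * |x i| * |y j| := by
        refine Finset.sum_le_sum fun i _ => Finset.sum_le_sum fun j _ => ?_
        rw [abs_mul, abs_mul]
        gcongr
        exact h i j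
    _ = K * (∑ i, |x i|) * (∑ i, |y i|) := by
        rw [mul_assoc, Finset.sum_mul_sum, Finset.mul_sum]
        refine Finset.sum_congr rfl fun i _ => ?_
        rw [Finset.mul_sum]
        exact Finset.sum_congr rfl fun j _ => by ring

theorem mg_l_bound {m : ℕ} (A : Fin (m + 1) → Fin (m + 1) → ℝ) (K : ℝ) (h : ∀ i j, |A i j| ≤ K)
    (x : Fin m → ℝ) : |mgl A x| ≤ K * ∑ i, |x i| := by
  unfold mgl
  calc |∑ i, A 0 (Fin.succ i) * x i| ≤ ∑ i, |A 0 (Fin.succ i) * x i| :=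
        Finset.abs_sum_le_sum_abs _ _
    _ ≤ ∑ i, K * |x i| := by
        refine Finset.sum_le_sum fun i _ => ?_
        rw [abs_mul]
        gcongr
        exact h _ _
    _ = K * ∑ i, |x i| := by rw [Finset.mul_sum]

theorem mg_A_bound {m : ℕ} (A : Fin (m + 1) → Fin (m + 1) → ℝ) (K δ : ℝ) (hδ : 0 < δ)
    (h : ∀ i j, |A i j| ≤ K) (ha : δ ≤ A 0 0) (i j : Fin m) : |mgA A i j| ≤ K + K ^ 2 / δ := by
  have hK : 0 ≤ K := (abs_nonneg _).trans (h 0 0)
  unfold mgA
  refine (abs_sub _ _).trans ?_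
  refine add_le_add (h _ _) ?_
  rw [abs_div, abs_mul, abs_of_pos (lt_of_lt_of_le hδ ha), sq]
  gcongr
  · exact h _ _
  · exact h _ _

/-- B3: closure under integrating out coordinate `0`. -/
theorem good_marg (β : ℝ) (hβ : 0 ≤ β) (hβ2 : β < 1 / 2) (m : ℕ) (H : (Fin (m + 1) → ℝ) → ℝ)
    (hH : Good β (m + 1) H) :
    Good β m (fun x => ∫ y : ℝ, H (Fin.cons y x)) := by
  obtain ⟨Ω, iΩ, μ, A, δ, C, hfin, hμ, hδ, hAm, hAC, hAs, hAl, hHr, hvar⟩ := hH
  have haδ : ∀ ω, δ ≤ A ω 0 0 := fun ω => mg_a_ge (A ω) δ (hAl ω)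
  have ha0 : ∀ ω, 0 < A ω 0 0 := fun ω => lt_of_lt_of_le hδ (haδ ω)
  have ham : Measurable (fun ω => A ω 0 0) := hAm 0 0
  have hdm : Measurable (fun ω => ENNReal.ofReal (Real.sqrt (Real.pi / A ω 0 0))) :=
    (Real.continuous_sqrt.measurable.comp (measurable_const.div ham)).ennreal_ofReal
  have hdb : ∀ ω, Real.sqrt (Real.pi / A ω 0 0) ≤ Real.sqrt (Real.pi / δ) := by
    intro ω
    apply Real.sqrt_le_sqrt
    exact div_le_div_of_nonneg_left Real.pi_pos.le hδ (haδ ω)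
  have hmA : ∀ i j, Measurable (fun ω => mgA (A ω) i j) := by
    intro i j
    unfold mgA
    exact (hAm _ _).sub (((hAm _ _).mul (hAm _ _)).div ham)
  have hml : ∀ x, Measurable (fun ω => mgl (A ω) x) := by
    intro x
    unfold mgl
    exact Finset.measurable_sum _ fun i _ => (hAm _ _).mul_const _
  have hmb : ∀ x y, Measurable (fun ω => bil (mgA (A ω)) x y) := by
    intro x y
    unfold bil
    exact Finset.measurable_sum _ fun i _ => Finset.measurable_sum _ fun j _ =>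
      ((hmA i j).mul_const _).mul_const _
  have hmq : ∀ x, Measurable (fun ω => quad (mgA (A ω)) x) := fun x => hmb x x
  -- integrals for the new measure
  have hint : ∀ g : Ω → ℝ, ∫ ω, g ω ∂(μ.withDensity
      (fun ω => ENNReal.ofReal (Real.sqrt (Real.pi / A ω 0 0)))) =
      ∫ ω, Real.sqrt (Real.pi / A ω 0 0) * g ω ∂μ := by
    intro g
    rw [integral_withDensity_eq_integral_toReal_smul hdm
      (Filter.Eventually.of_forall fun ω => ENNReal.ofReal_lt_top)]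
    refine integral_congr_ae (Filter.Eventually.of_forall fun ω => ?_)
    simp only [smul_eq_mul]
    rw [ENNReal.toReal_ofReal (Real.sqrt_nonneg _)]
  refine ⟨Ω, iΩ, μ.withDensity (fun ω => ENNReal.ofReal (Real.sqrt (Real.pi / A ω 0 0))),
    fun ω => mgA (A ω), δ, C + C ^ 2 / δ, ?_, ?_, hδ, hmA, ?_, ?_, ?_, ?_, ?_⟩
  · -- finite
    apply isFiniteMeasure_withDensity
    have h1 : ∫⁻ ω, ENNReal.ofReal (Real.sqrt (Real.pi / A ω 0 0)) ∂μ ≤
        ∫⁻ _ω, ENNReal.ofReal (Real.sqrt (Real.pi / δ)) ∂μ :=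
      lintegral_mono fun ω => ENNReal.ofReal_le_ofReal (hdb ω)
    rw [lintegral_const] at h1
    exact (lt_of_le_of_lt h1 (ENNReal.mul_lt_top ENNReal.ofReal_lt_top (measure_lt_top _ _))).ne
  · -- nonzero
    intro h0
    rw [withDensity_eq_zero_iff hdm.aemeasurable] at h0
    apply hμ
    rw [← Measure.measure_univ_eq_zero]
    have h1 : ∀ᵐ ω ∂μ, False := by
      filter_upwards [h0] with ω hω
      simp only [Pi.zero_apply, ENNReal.ofReal_eq_zero] at hω
      have : 0 < Real.sqrt (Real.pi / A ω 0 0) :=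
        Real.sqrt_pos.2 (div_pos Real.pi_pos (ha0 ω))
      linarith
    rw [ae_iff] at h1
    simpa using h1
  · intro ω i j
    exact mg_A_bound (A ω) C δ hδ (hAC ω) (haδ ω) i j
  · intro ω i j
    show A ω i.succ j.succ - A ω 0 i.succ * A ω 0 j.succ / A ω 0 0 =
      A ω j.succ i.succ - A ω 0 j.succ * A ω 0 i.succ / A ω 0 0
    rw [hAs ω i.succ j.succ, mul_comm (A ω 0 i.succ)]
  · intro ω x
    exact mg_lower (A ω) δ hδ (hAs ω) (hAl ω) x
  · -- representation
    intro x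
    rw [hint]
    have e1 : (fun y : ℝ => H (Fin.cons y x)) = fun y => ∫ ω,
        Real.exp (-qf (A ω 0 0) (mgl (A ω) x) (quad (mgA (A ω)) x) y) ∂μ := by
      funext y
      rw [hHr]
      refine integral_congr_ae (Filter.Eventually.of_forall fun ω => ?_)
      simp only
      rw [mg_quad_cons (A ω) (hAs ω) (ha0 ω).ne']
    show ∫ y : ℝ, H (Fin.cons y x) = _
    rw [e1, integral_integral_swap]
    · refine integral_congr_ae (Filter.Eventually.of_forall fun ω => ?_)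
      simp only [qf]
      have e2 : (fun y : ℝ => Real.exp (-(A ω 0 0 * (y + mgl (A ω) x / A ω 0 0) ^ 2 +
          quad (mgA (A ω)) x))) = fun y => Real.exp (-quad (mgA (A ω)) x) *
          (fun z : ℝ => Real.exp (-(A ω 0 0) * z ^ 2)) (y + mgl (A ω) x / A ω 0 0) := by
        funext y
        simp only
        rw [← Real.exp_add]
        congr 1
        ring
      rw [e2, integral_const_mul, integral_add_right_eq_self
        (fun z : ℝ => Real.exp (-(A ω 0 0) * z ^ 2)), integral_gaussian, mul_comm]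
    · -- integrability
      have hg : Integrable (fun p : ℝ × Ω => Real.exp (-δ * p.1 ^ 2)) (volume.prod μ) :=
        (integrable_exp_neg_mul_sq hδ).comp_fst μ
      refine hg.mono' ?_ (Filter.Eventually.of_forall fun p => ?_)
      · apply Measurable.aestronglyMeasurable
        simp only [Function.uncurry_def, qf]
        have m1 : Measurable (fun p : ℝ × Ω => A p.2 0 0) := ham.comp measurable_snd
        have m2 : Measurable (fun p : ℝ × Ω => mgl (A p.2) x) := (hml x).comp measurable_snd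
        have m3 : Measurable (fun p : ℝ × Ω => quad (mgA (A p.2)) x) :=
          (hmq x).comp measurable_snd
        exact Real.measurable_exp.comp
          ((m1.mul ((measurable_fst.add (m2.div m1)).pow_const 2)).add m3).neg
      · simp only [Function.uncurry_def]
        rw [Real.norm_eq_abs, abs_of_pos (Real.exp_pos _), Real.exp_le_exp,
          ← mg_quad_cons (A p.2) (hAs p.2) (ha0 p.2).ne']
        have h1 := hAl p.2 (Fin.cons p.1 x)
        rw [Fin.sum_univ_succ] at h1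
        simp only [Fin.cons_zero, Fin.cons_succ] at h1
        have h2 : 0 ≤ δ * ∑ i, x i ^ 2 := by positivity
        nlinarith
  · -- variance condition
    intro x ξ
    have hC0 : 0 ≤ |C| := abs_nonneg C
    have hAC' : ∀ ω i j, |A ω i j| ≤ |C| := fun ω i j => (hAC ω i j).trans (le_abs_self C)
    obtain ⟨Sx, hSx⟩ : ∃ Sx, Sx = ∑ i, |x i| := ⟨_, rfl⟩
    obtain ⟨Sξ, hSξ⟩ : ∃ Sξ, Sξ = ∑ i, |ξ i| := ⟨_, rfl⟩
    have hSx0 : 0 ≤ Sx := by rw [hSx]; positivity
    have hSξ0 : 0 ≤ Sξ := by rw [hSξ]; positivity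
    obtain ⟨C1, hC1⟩ : ∃ C1, C1 = |C| + |C| ^ 2 / δ := ⟨_, rfl⟩
    have hC10 : 0 ≤ C1 := by rw [hC1]; positivity
    have hA1 : ∀ ω i j, |mgA (A ω) i j| ≤ C1 := by
      intro ω i j
      rw [hC1]
      exact mg_A_bound (A ω) |C| δ hδ (hAC' ω) (haδ ω) i j
    have n1 : 0 ≤ |C| * Sx := by positivity
    have n2 : 0 ≤ |C| * Sξ := by positivity
    have n3 : 0 ≤ C1 * Sx * Sx := by positivity
    have n4 : 0 ≤ C1 * Sx * Sξ := by positivity
    have n5 : 0 ≤ C1 * Sξ * Sξ := by positivity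
    have h1 := onestep μ hμ (fun ω => A ω 0 0) (fun ω => mgl (A ω) x) (fun ω => mgl (A ω) ξ)
      (fun ω => quad (mgA (A ω)) x) (fun ω => bil (mgA (A ω)) x ξ)
      (fun ω => quad (mgA (A ω)) ξ) δ
      (|C| + |C| * Sx + |C| * Sξ + C1 * Sx * Sx + C1 * Sx * Sξ + C1 * Sξ * Sξ) β hδ hβ hβ2
      ham (hml x) (hml ξ) (hmq x) (hmb x ξ) (hmq ξ) haδ
      (fun ω => by
        have := (le_abs_self _).trans (hAC' ω 0 0)
        linarith)
      (fun ω => by
        have := mg_l_bound (A ω) |C| (hAC' ω) x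
        rw [← hSx] at this
        linarith)
      (fun ω => by
        have := mg_l_bound (A ω) |C| (hAC' ω) ξ
        rw [← hSξ] at this
        linarith)
      (fun ω => by
        have := mg_bil_bound (mgA (A ω)) C1 (hA1 ω) x x
        rw [← hSx, mg_bil_self] at this
        linarith)
      (fun ω => by
        have := mg_bil_bound (mgA (A ω)) C1 (hA1 ω) x ξ
        rw [← hSx, ← hSξ] at this
        linarith)
      (fun ω => by
        have := mg_bil_bound (mgA (A ω)) C1 (hA1 ω) ξ ξ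
        rw [← hSξ, mg_bil_self] at this
        linarith)
      (by
        intro y r
        have h2 := hvar (Fin.cons y x) (Fin.cons r ξ)
        have e1 : ∀ ω, Real.exp (-quad (A ω) (Fin.cons y x)) =
            Real.exp (-qf (A ω 0 0) (mgl (A ω) x) (quad (mgA (A ω)) x) y) := fun ω => by
          rw [mg_quad_cons (A ω) (hAs ω) (ha0 ω).ne']
        have e2 : ∀ ω, bil (A ω) (Fin.cons y x) (Fin.cons r ξ) =
            r * (A ω 0 0 * y + mgl (A ω) x) + (mgl (A ω) ξ * y +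
              mgl (A ω) x * mgl (A ω) ξ / A ω 0 0 + bil (mgA (A ω)) x ξ) := fun ω =>
          mg_bil_cons (A ω) (hAs ω) x ξ y r
        have e3 : ∀ ω, quad (A ω) (Fin.cons r ξ) = A ω 0 0 * r ^ 2 + 2 * mgl (A ω) ξ * r +
            (mgl (A ω) ξ ^ 2 / A ω 0 0 + quad (mgA (A ω)) ξ) := fun ω => by
          rw [← mg_bil_self, mg_bil_cons (A ω) (hAs ω), mg_bil_self]
          ring
        simp only [e1, e2, e3] at h2
        exact h2)
    have e4 : ∀ g : Ω → ℝ, ∫ ω, g ω * Real.exp (-quad (mgA (A ω)) x) ∂(μ.withDensity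
        (fun ω => ENNReal.ofReal (Real.sqrt (Real.pi / A ω 0 0)))) =
        Real.sqrt Real.pi * ∫ ω, g ω * (Real.exp (-quad (mgA (A ω)) x) /
          Real.sqrt (A ω 0 0)) ∂μ := by
      intro g
      rw [hint, ← integral_const_mul]
      refine integral_congr_ae (Filter.Eventually.of_forall fun ω => ?_)
      simp only
      rw [Real.sqrt_div Real.pi_pos.le]
      ring
    have e5 : ∫ ω, Real.exp (-quad (mgA (A ω)) x) ∂(μ.withDensity
        (fun ω => ENNReal.ofReal (Real.sqrt (Real.pi / A ω 0 0)))) =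
        Real.sqrt Real.pi * ∫ ω, (Real.exp (-quad (mgA (A ω)) x) /
          Real.sqrt (A ω 0 0)) ∂μ := by
      have := e4 (fun _ => 1)
      simpa using this
    rw [e4 (fun ω => bil (mgA (A ω)) x ξ ^ 2), e4 (fun ω => bil (mgA (A ω)) x ξ),
      e4 (fun ω => quad (mgA (A ω)) ξ), e5]
    have hpi : 0 ≤ Real.sqrt Real.pi * Real.sqrt Real.pi := by positivity
    have h3 := mul_le_mul_of_nonneg_left h1 hpi
    refine le_trans (le_of_eq ?_) (h3.trans (le_of_eq ?_))
    · ring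
    · ring

end S_good_marg

theorem good_marg : type_of% @S_good_marg.good_marg := @S_good_marg.good_marg
end

section
namespace S_good_bound

/-- good functions are continuous, positive and dominated by a Gaussian -/
theorem good_bound (β : ℝ) (m : ℕ) (H : (Fin m → ℝ) → ℝ) (hH : Good β m H) :
    Continuous H ∧ (∀ x, 0 < H x) ∧ ∃ (c δ : ℝ), 0 < δ ∧ ∀ x, H x ≤ c * Real.exp (-(δ * ∑ i, x i ^ 2)) := by
  obtain ⟨Ω, hm, μ, A, δ, C, hfin, hne, hδ, hmeas, -, -, hquad, hHeq, -⟩ := hH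
  have hqm : ∀ x : Fin m → ℝ, Measurable (fun ω => quad (A ω) x) := by
    intro x
    unfold quad
    refine Finset.measurable_sum _ fun i _ => Finset.measurable_sum _ fun j _ => ?_
    exact ((hmeas i j).mul_const _).mul_const _
  have hem : ∀ x : Fin m → ℝ, Measurable (fun ω => Real.exp (-quad (A ω) x)) := fun x =>
    Real.measurable_exp.comp (hqm x).neg
  have hq0 : ∀ ω (x : Fin m → ℝ), 0 ≤ quad (A ω) x := fun ω x =>
    le_trans (mul_nonneg hδ.le (Finset.sum_nonneg fun i _ => sq_nonneg _)) (hquad ω x)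
  have hb : ∀ x : Fin m → ℝ, ∀ ω, ‖Real.exp (-quad (A ω) x)‖ ≤ 1 := by
    intro x ω
    rw [Real.norm_eq_abs, abs_of_pos (Real.exp_pos _), Real.exp_le_one_iff]
    linarith [hq0 ω x]
  have hint : ∀ x : Fin m → ℝ, Integrable (fun ω => Real.exp (-quad (A ω) x)) μ := fun x =>
    Integrable.of_bound (hem x).aestronglyMeasurable 1 (Eventually.of_forall (hb x))
  have hHf : H = fun x => ∫ ω, Real.exp (-quad (A ω) x) ∂μ := funext hHeq
  have : NeZero μ := ⟨hne⟩
  refine ⟨?_, ?_, μ.real Set.univ, δ, hδ, ?_⟩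
  · rw [hHf]
    refine continuous_of_dominated (bound := fun _ => 1)
      (fun x => (hem x).aestronglyMeasurable) (fun x => Eventually.of_forall (hb x))
      (integrable_const 1) (Eventually.of_forall fun ω => ?_)
    unfold quad
    fun_prop
  · intro x
    rw [hHeq x]
    exact integral_exp_pos (hint x)
  · intro x
    rw [hHeq x]
    have h1 : ∫ ω, Real.exp (-quad (A ω) x) ∂μ ≤
        ∫ _ω, Real.exp (-(δ * ∑ i, x i ^ 2)) ∂μ := by
      refine integral_mono (hint x) (integrable_const _) fun ω => ?_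
      exact Real.exp_le_exp.2 (neg_le_neg (hquad ω x))
    rwa [integral_const, smul_eq_mul] at h1

end S_good_bound

theorem good_bound : type_of% @S_good_bound.good_bound := @S_good_bound.good_bound
end

section
namespace S_good_one

section h170
variable {Ω : Type} [MeasurableSpace Ω] (μ : Measure Ω) [IsFiniteMeasure μ]

theorem h170_bint {f : Ω → ℝ} (hf : Measurable f) (K : ℝ) (hK : ∀ ω, |f ω| ≤ K) : Integrable f μ :=
  (MemLp.of_bound (p := 1) hf.aestronglyMeasurable K (Filter.Eventually.of_forall hK)).integrable le_rfl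

theorem h170_psi_int {a : Ω → ℝ} (ha : Measurable a) {C : ℝ} (hC : ∀ ω, |a ω| ≤ C) (k : ℕ) (l : ℝ) :
    Integrable (fun ω => a ω ^ k * Real.exp (-(a ω) * l)) μ := by
  refine h170_bint μ ((ha.pow_const k).mul ((ha.neg.mul_const l).exp)) (C ^ k * Real.exp (C * |l|)) fun ω => ?_
  rw [abs_mul, abs_pow, Real.abs_exp]
  have hC0 : 0 ≤ C := (abs_nonneg _).trans (hC ω)
  refine mul_le_mul (pow_le_pow_left₀ (abs_nonneg _) (hC ω) k) ?_ (Real.exp_pos _).le (by positivity)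
  refine Real.exp_le_exp.2 ?_
  calc -(a ω) * l ≤ |-(a ω) * l| := le_abs_self _
    _ = |a ω| * |l| := by rw [abs_mul, abs_neg]
    _ ≤ C * |l| := mul_le_mul_of_nonneg_right (hC ω) (abs_nonneg _)

theorem h170_psi_deriv {a : Ω → ℝ} (ha : Measurable a) {C : ℝ} (hC : ∀ ω, |a ω| ≤ C) (k : ℕ) (l : ℝ) :
    HasDerivAt (fun l => ∫ ω, a ω ^ k * Real.exp (-(a ω) * l) ∂μ) (-∫ ω, a ω ^ (k + 1) * Real.exp (-(a ω) * l) ∂μ) l := by
  have h := hasDerivAt_integral_of_dominated_loc_of_deriv_le (μ := μ) (𝕜 := ℝ)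
    (F := fun l ω => a ω ^ k * Real.exp (-(a ω) * l)) (F' := fun l ω => -(a ω ^ (k + 1) * Real.exp (-(a ω) * l)))
    (x₀ := l) (s := Metric.ball l 1) (bound := fun _ => |C| ^ (k + 1) * Real.exp (|C| * (|l| + 1)))
    (Metric.ball_mem_nhds l one_pos)
    (Filter.Eventually.of_forall fun l' => (h170_psi_int μ ha hC k l').aestronglyMeasurable)
    (h170_psi_int μ ha hC k l) (h170_psi_int μ ha hC (k + 1) l).neg.aestronglyMeasurable
    (Filter.Eventually.of_forall fun ω l' hl' => by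
      rw [Real.norm_eq_abs, abs_neg, abs_mul, abs_pow, Real.abs_exp]
      have hC1 : |a ω| ≤ |C| := (hC ω).trans (le_abs_self C)
      refine mul_le_mul (pow_le_pow_left₀ (abs_nonneg _) hC1 _) ?_ (Real.exp_pos _).le (by positivity)
      refine Real.exp_le_exp.2 ?_
      rw [Metric.mem_ball, Real.dist_eq] at hl'
      have hl2 : |l'| ≤ |l| + 1 := by
        have := abs_sub_abs_le_abs_sub l' l
        linarith
      calc -(a ω) * l' ≤ |-(a ω) * l'| := le_abs_self _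
        _ = |a ω| * |l'| := by rw [abs_mul, abs_neg]
        _ ≤ |C| * (|l| + 1) := mul_le_mul hC1 hl2 (abs_nonneg _) (abs_nonneg _))
    (integrable_const _)
    (Filter.Eventually.of_forall fun ω l' _ => by
      have h1 : HasDerivAt (fun l : ℝ => -(a ω) * l) (-(a ω)) l' := by
        simpa using (hasDerivAt_id l').const_mul (-(a ω))
      have h2 := (h1.exp).const_mul (a ω ^ k)
      refine h2.congr_deriv ?_
      ring)
  have h2 := h.2
  rw [integral_neg] at h2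
  exact h2
end h170

/-- B4: the one-dimensional conclusion. -/
theorem good_one (p : ℝ) (hp : 1 < p) (hp2 : p < 2) (H : (Fin 1 → ℝ) → ℝ)
    (hH : Good (1 - p / 2) 1 H) :
    ConcaveOn ℝ (Ioi 0) (fun s : ℝ => Real.log (H (fun _ => s ^ (1 / p)))) := by
  obtain ⟨Ω, hΩ, μ, A, δ, C, hfin, hμ0, hδ, hAm, hAC, hAs, hAδ, hHeq, hcond⟩ := hH
  have hp0 : 0 < p := by linarith
  obtain ⟨a, ha⟩ : ∃ a : Ω → ℝ, a = fun ω => A ω 0 0 := ⟨_, rfl⟩
  have ham : Measurable a := by rw [ha]; exact hAm 0 0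
  have haC : ∀ ω, |a ω| ≤ C := fun ω => by rw [ha]; exact hAC ω 0 0
  have hq : ∀ ω (t : ℝ), quad (A ω) (fun _ => t) = a ω * t ^ 2 := by
    intro ω t
    unfold quad
    rw [ha]
    simp only [Fin.isValue, Finset.univ_unique, Fin.default_eq_zero, Finset.sum_singleton]
    ring
  have hb : ∀ ω (t : ℝ), bil (A ω) (fun _ => t) (fun _ => 1) = a ω * t := by
    intro ω t
    unfold bil
    rw [ha]
    simp only [Fin.isValue, Finset.univ_unique, Fin.default_eq_zero, Finset.sum_singleton]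
    ring
  obtain ⟨ψ, hψ⟩ : ∃ ψ : ℕ → ℝ → ℝ, ψ = fun k l => ∫ ω, a ω ^ k * Real.exp (-(a ω) * l) ∂μ := ⟨_, rfl⟩
  have hψd : ∀ k l, HasDerivAt (ψ k) (-ψ (k + 1) l) l := by
    intro k l
    rw [hψ]
    exact h170_psi_deriv μ ham haC k l
  have hψ0 : ∀ l, 0 < ψ 0 l := by
    intro l
    rw [hψ]
    simp only [pow_zero, one_mul]
    have : NeZero μ := ⟨hμ0⟩
    refine integral_exp_pos ?_
    have := h170_psi_int μ ham haC 0 l
    simpa using this
  have hkey : ∀ l : ℝ, 0 < l → l * (ψ 2 l * ψ 0 l - ψ 1 l ^ 2) ≤ (1 - p / 2) * (ψ 1 l * ψ 0 l) := by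
    intro l hl
    have h := hcond (fun _ => √l) (fun _ => 1)
    simp only [hq, hb] at h
    have hs : √l ^ 2 = l := Real.sq_sqrt hl.le
    rw [hs] at h
    have e0 : ∫ ω, Real.exp (-(a ω * l)) ∂μ = ψ 0 l := by
      rw [hψ]
      simp only [pow_zero, one_mul, neg_mul]
    have e1 : ∫ ω, a ω * √l * Real.exp (-(a ω * l)) ∂μ = √l * ψ 1 l := by
      rw [hψ]
      simp only [pow_one, neg_mul]
      rw [← integral_const_mul]
      refine integral_congr_ae (Filter.Eventually.of_forall fun ω => ?_)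
      simp only
      ring
    have e2 : ∫ ω, (a ω * √l) ^ 2 * Real.exp (-(a ω * l)) ∂μ = l * ψ 2 l := by
      rw [hψ]
      simp only [neg_mul]
      rw [← integral_const_mul]
      refine integral_congr_ae (Filter.Eventually.of_forall fun ω => ?_)
      simp only
      rw [mul_pow, hs]
      ring
    have e3 : ∫ ω, a ω * 1 ^ 2 * Real.exp (-(a ω * l)) ∂μ = ψ 1 l := by
      rw [hψ]
      simp only [pow_one, neg_mul, one_pow, mul_one]
    rw [e0, e1, e2, e3] at h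
    rw [mul_pow, hs] at h
    linarith
  -- g
  obtain ⟨g, hg⟩ : ∃ g : ℝ → ℝ, g = fun l => ψ 1 l / ψ 0 l * l ^ (1 - p / 2) := ⟨_, rfl⟩
  have hgd : ∀ l : ℝ, 0 < l → HasDerivAt g ((-ψ 2 l * ψ 0 l - ψ 1 l * (-ψ 1 l)) / ψ 0 l ^ 2 * l ^ (1 - p / 2) +
      ψ 1 l / ψ 0 l * ((1 - p / 2) * l ^ (1 - p / 2 - 1))) l := by
    intro l hl
    rw [hg]
    exact ((hψd 1 l).div (hψd 0 l) (hψ0 l).ne').mul (Real.hasDerivAt_rpow_const (Or.inl hl.ne'))
  have hgmono : MonotoneOn g (Ioi 0) := by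
    refine monotoneOn_of_deriv_nonneg (convex_Ioi 0)
      (fun l hl => (hgd l hl).continuousAt.continuousWithinAt) ?_ ?_
    · rw [interior_Ioi]
      exact fun l hl => (hgd l hl).differentiableAt.differentiableWithinAt
    · rw [interior_Ioi]
      intro l hl
      have hl0 : 0 < l := hl
      rw [(hgd l hl).deriv]
      have h1 : l ^ (1 - p / 2) = l * l ^ (1 - p / 2 - 1) := by
        rw [Real.rpow_sub_one hl0.ne']
        field_simp
      rw [h1]
      have h2 : 0 < l ^ (1 - p / 2 - 1) := Real.rpow_pos_of_pos hl0 _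
      have h3 := hkey l hl0
      have h4 := hψ0 l
      have h5 : (-ψ 2 l * ψ 0 l - ψ 1 l * (-ψ 1 l)) / ψ 0 l ^ 2 * (l * l ^ (1 - p / 2 - 1)) +
          ψ 1 l / ψ 0 l * ((1 - p / 2) * l ^ (1 - p / 2 - 1)) =
          l ^ (1 - p / 2 - 1) / ψ 0 l ^ 2 *
            ((1 - p / 2) * (ψ 1 l * ψ 0 l) - l * (ψ 2 l * ψ 0 l - ψ 1 l ^ 2)) := by
        field_simp
        ring
      rw [h5]
      refine mul_nonneg (by positivity) ?_
      linarith
  -- F
  have hF : ∀ s ∈ Ioi (0:ℝ), Real.log (H (fun _ => s ^ (1 / p))) = Real.log (ψ 0 (s ^ (2 / p))) := by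
    intro s hs
    have hs0 : 0 < s := hs
    rw [hHeq, hψ]
    simp only [hq, pow_zero, one_mul]
    have h1 : (s ^ (1 / p)) ^ 2 = s ^ (2 / p) := by
      rw [← Real.rpow_natCast, ← Real.rpow_mul hs0.le]
      congr 1
      push_cast
      ring
    rw [h1]
    congr 1
    refine integral_congr_ae (Filter.Eventually.of_forall fun ω => ?_)
    simp only
    congr 1
    ring
  have hFd : ∀ s ∈ Ioi (0:ℝ), HasDerivAt (fun s : ℝ => Real.log (ψ 0 (s ^ (2 / p)))) (-(2 / p) * g (s ^ (2 / p))) s := by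
    intro s hs
    have hs0 : 0 < s := hs
    have h1 : HasDerivAt (fun s : ℝ => s ^ (2 / p)) ((2 / p) * s ^ (2 / p - 1)) s :=
      Real.hasDerivAt_rpow_const (Or.inl hs0.ne')
    have h2 := ((hψd 0 (s ^ (2 / p))).comp s h1).log (hψ0 _).ne'
    refine h2.congr_deriv ?_
    rw [hg]
    simp only [Function.comp_apply, zero_add]
    have h3 : (s ^ (2 / p)) ^ (1 - p / 2) = s ^ (2 / p - 1) := by
      rw [← Real.rpow_mul hs0.le]
      congr 1
      field_simp
    rw [h3]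
    ring
  have hconc : ConcaveOn ℝ (Ioi 0) (fun s : ℝ => Real.log (ψ 0 (s ^ (2 / p)))) := by
    refine AntitoneOn.concaveOn_of_deriv (convex_Ioi 0)
      (fun s hs => (hFd s hs).continuousAt.continuousWithinAt) ?_ ?_
    · rw [interior_Ioi]
      exact fun s hs => (hFd s hs).differentiableAt.differentiableWithinAt
    · rw [interior_Ioi]
      intro s hs t ht hst
      have hs0 : 0 < s := hs
      have ht0 : 0 < t := ht
      rw [(hFd s hs).deriv, (hFd t ht).deriv]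
      have h1 : s ^ (2 / p) ≤ t ^ (2 / p) := Real.rpow_le_rpow hs0.le hst (by positivity)
      have h2 := hgmono (Real.rpow_pos_of_pos hs0 (2 / p)) (Real.rpow_pos_of_pos ht0 (2 / p)) h1
      have h3 : 0 < 2 / p := by positivity
      nlinarith
  refine ⟨convex_Ioi 0, ?_⟩
  intro x hx y hy c d hc hd hcd
  have h1 := hconc.2 hx hy hc hd hcd
  have h2 : c • x + d • y ∈ Ioi (0:ℝ) := convex_Ioi 0 hx hy hc hd hcd
  simp only at h1 ⊢
  rw [hF x hx, hF y hy, hF _ h2]
  exact h1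

end S_good_one

theorem good_one : type_of% @S_good_one.good_one := @S_good_one.good_one
end

section
namespace S_good_last

theorem good_last_int {n : ℕ} (β : ℝ) (H : (Fin (n + 1) → ℝ) → ℝ) (hH : Good β (n + 1) H) (a : ℝ) :
    Integrable (fun Y : Fin n → ℝ => H (Fin.snoc Y a)) := by
  obtain ⟨hc, hpos, c, δ, hδ, hb⟩ := good_bound β (n + 1) H hH
  have hG : Integrable (fun Y : Fin n → ℝ => ∏ i, Real.exp (-δ * (Y i) ^ 2)) :=
    Integrable.fintype_prod (f := fun _ x => Real.exp (-δ * x ^ 2))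
      (fun _ => integrable_exp_neg_mul_sq hδ)
  refine Integrable.mono' (hG.const_mul |c|) ?_ ?_
  · refine Continuous.aestronglyMeasurable ?_
    refine hc.comp ?_
    exact Continuous.finSnoc (A := fun _ => ℝ) continuous_id continuous_const
  · refine Filter.Eventually.of_forall fun Y => ?_
    rw [Real.norm_eq_abs, abs_of_pos (hpos _)]
    refine (hb _).trans ?_
    have h1 : ∏ i, Real.exp (-δ * (Y i) ^ 2) = Real.exp (-(δ * ∑ i, (Y i) ^ 2)) := by
      rw [← Real.exp_sum]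
      congr 1
      rw [Finset.mul_sum, ← Finset.sum_neg_distrib]
      exact Finset.sum_congr rfl fun i _ => by ring
    rw [h1]
    have h2 : ∑ i, (Fin.snoc (α := fun _ => ℝ) Y a i) ^ 2 = ∑ i, (Y i) ^ 2 + a ^ 2 := by
      rw [Fin.sum_univ_castSucc]
      simp
    rw [h2]
    have h3 : Real.exp (-(δ * (∑ i, (Y i) ^ 2 + a ^ 2))) ≤ Real.exp (-(δ * ∑ i, (Y i) ^ 2)) := by
      rw [Real.exp_le_exp]
      nlinarith [sq_nonneg a]
    calc c * Real.exp (-(δ * (∑ i, (Y i) ^ 2 + a ^ 2)))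
        ≤ |c| * Real.exp (-(δ * (∑ i, (Y i) ^ 2 + a ^ 2))) :=
          mul_le_mul_of_nonneg_right (le_abs_self c) (Real.exp_pos _).le
      _ ≤ |c| * Real.exp (-(δ * ∑ i, (Y i) ^ 2)) := mul_le_mul_of_nonneg_left h3 (abs_nonneg c)

theorem good_last_fubini {d : ℕ} (G : (Fin (d + 1) → ℝ) → ℝ) (hG : Integrable G) :
    ∫ Y : Fin (d + 1) → ℝ, G Y = ∫ y : Fin d → ℝ, ∫ y0 : ℝ, G (Fin.cons y0 y) := by
  have hmp := (volume_preserving_piFinSuccAbove (fun _ : Fin (d + 1) => ℝ) 0).symm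
    (MeasurableEquiv.piFinSuccAbove (fun _ : Fin (d + 1) => ℝ) 0)
  have hap : ∀ p : ℝ × (Fin d → ℝ), (MeasurableEquiv.piFinSuccAbove (fun _ : Fin (d + 1) => ℝ) 0).symm p =
      Fin.cons p.1 p.2 := by
    intro p
    rw [MeasurableEquiv.piFinSuccAbove_symm_apply]
    exact Fin.insertNth_zero' p.1 p.2
  rw [← hmp.integral_comp (MeasurableEquiv.measurableEmbedding _)]
  have hint : Integrable (fun p : ℝ × (Fin d → ℝ) => G (Fin.cons p.1 p.2)) (volume.prod volume) := by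
    have := hmp.integrable_comp_of_integrable hG
    refine this.congr (Filter.Eventually.of_forall fun p => ?_)
    show G _ = _
    rw [hap p]
  rw [← integral_prod_symm _ hint]
  rw [← Measure.volume_eq_prod]
  refine integral_congr_ae (Filter.Eventually.of_forall fun p => ?_)
  show G _ = _
  rw [hap p]

/-- B5: integrate out all but the last coordinate. -/
theorem good_last (β : ℝ) (hβ : 0 ≤ β) (hβ2 : β < 1 / 2) (d : ℕ) (H : (Fin (d + 1) → ℝ) → ℝ)
    (hH : Good β (d + 1) H) :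
    Good β 1 (fun t : Fin 1 → ℝ => ∫ y : Fin d → ℝ, H (Fin.snoc y (t 0))) := by
  induction d with
  | zero =>
    have h1 : (fun t : Fin 1 → ℝ => ∫ y : Fin 0 → ℝ, H (Fin.snoc y (t 0))) = H := by
      funext t
      rw [Measure.volume_pi_eq_dirac (0 : Fin 0 → ℝ), integral_dirac]
      congr 1
      funext i
      have hi : i = Fin.last 0 := Subsingleton.elim (α := Fin 1) _ _
      rw [hi, Fin.snoc_last]
      rfl
    rw [h1]
    exact hH
  | succ d ih =>
    have h2 := ih (fun x => ∫ y : ℝ, H (Fin.cons y x)) (good_marg β hβ hβ2 (d + 1) H hH)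
    convert h2 using 1
    funext t
    rw [good_last_fubini (fun Y => H (Fin.snoc Y (t 0))) (good_last_int β H hH (t 0))]
    refine integral_congr_ae (Filter.Eventually.of_forall fun y => ?_)
    refine integral_congr_ae (Filter.Eventually.of_forall fun y0 => ?_)
    show H _ = H _
    rw [Fin.cons_snoc_eq_snoc_cons]

end S_good_last

theorem good_last : type_of% @S_good_last.good_last := @S_good_last.good_last
end

section
namespace S_pareto_var

/-- P1: variance inequality for the truncated Pareto law -/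
theorem pareto_var (α M s : ℝ) (hα : 0 < α) (hα1 : α < 1) (hM : 1 < M) (hs : 0 ≤ s) :
    s * ((∫ u in (1:ℝ)..M, u ^ 2 * Real.exp (-(s * u)) * u ^ (-1 - α)) *
          (∫ u in (1:ℝ)..M, Real.exp (-(s * u)) * u ^ (-1 - α)) -
        (∫ u in (1:ℝ)..M, u * Real.exp (-(s * u)) * u ^ (-1 - α)) ^ 2) ≤
      (1 - α) * (∫ u in (1:ℝ)..M, u * Real.exp (-(s * u)) * u ^ (-1 - α)) *
          (∫ u in (1:ℝ)..M, Real.exp (-(s * u)) * u ^ (-1 - α)) +
        α * (∫ u in (1:ℝ)..M, Real.exp (-(s * u)) * u ^ (-1 - α)) ^ 2 := by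
  have hM' : (1 : ℝ) ≤ M := hM.le
  have hpos : ∀ u ∈ uIcc (1 : ℝ) M, 0 < u := by
    intro u hu
    rw [uIcc_of_le hM'] at hu
    linarith [hu.1]
  have cr : ∀ p : ℝ, ContinuousOn (fun u : ℝ => u ^ p) (uIcc 1 M) := fun p =>
    continuousOn_id.rpow_const fun u hu => Or.inl (hpos u hu).ne'
  have ce : ContinuousOn (fun u : ℝ => Real.exp (-(s * u))) (uIcc 1 M) := by fun_prop
  have i0 : IntervalIntegrable (fun u : ℝ => Real.exp (-(s * u)) * u ^ (-1 - α)) volume 1 M :=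
    (ce.mul (cr _)).intervalIntegrable
  have i1 : IntervalIntegrable (fun u : ℝ => u * Real.exp (-(s * u)) * u ^ (-1 - α)) volume 1 M :=
    ((continuousOn_id.mul ce).mul (cr _)).intervalIntegrable
  have i2 : IntervalIntegrable (fun u : ℝ => u ^ 2 * Real.exp (-(s * u)) * u ^ (-1 - α))
      volume 1 M := (((continuousOn_id.pow 2).mul ce).mul (cr _)).intervalIntegrable
  set I0 := ∫ u in (1:ℝ)..M, Real.exp (-(s * u)) * u ^ (-1 - α) with hI0
  set I1 := ∫ u in (1:ℝ)..M, u * Real.exp (-(s * u)) * u ^ (-1 - α) with hI1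
  set I2 := ∫ u in (1:ℝ)..M, u ^ 2 * Real.exp (-(s * u)) * u ^ (-1 - α) with hI2
  have hr : ∀ u : ℝ, 0 < u → u ^ (-α) = u * u ^ (-1 - α) := by
    intro u hu
    rw [show -α = 1 + (-1 - α) by ring, Real.rpow_add hu, Real.rpow_one]
  have dexp : ∀ u : ℝ, HasDerivAt (fun u : ℝ => Real.exp (-(s * u)))
      (Real.exp (-(s * u)) * -(s * 1)) u := fun u =>
    (((hasDerivAt_id u).const_mul s).neg).exp
  have e1 : Real.exp (-(s * M)) * M ^ (-α) - Real.exp (-(s * 1)) * 1 ^ (-α) =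
      -s * I1 - α * I0 := by
    rw [hI1, hI0, ← intervalIntegral.integral_const_mul, ← intervalIntegral.integral_const_mul,
      ← intervalIntegral.integral_sub (i1.const_mul _) (i0.const_mul _)]
    symm
    refine intervalIntegral.integral_eq_sub_of_hasDerivAt
      (f := fun u => Real.exp (-(s * u)) * u ^ (-α)) ?_
      ((i1.const_mul _).sub (i0.const_mul _))
    intro u hu
    have h1 := (dexp u).mul (Real.hasDerivAt_rpow_const (p := -α) (Or.inl (hpos u hu).ne'))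
    refine h1.congr_deriv ?_
    rw [hr u (hpos u hu), show -α - 1 = -1 - α by ring]
    ring
  have e2 : M * (Real.exp (-(s * M)) * M ^ (-α)) - 1 * (Real.exp (-(s * 1)) * 1 ^ (-α)) =
      (1 - α) * I1 - s * I2 := by
    rw [hI1, hI2, ← intervalIntegral.integral_const_mul, ← intervalIntegral.integral_const_mul,
      ← intervalIntegral.integral_sub (i1.const_mul _) (i2.const_mul _)]
    symm
    refine intervalIntegral.integral_eq_sub_of_hasDerivAt
      (f := fun u => u * (Real.exp (-(s * u)) * u ^ (-α))) ?_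
      ((i1.const_mul _).sub (i2.const_mul _))
    intro u hu
    have h1 := (hasDerivAt_id u).mul
      ((dexp u).mul (Real.hasDerivAt_rpow_const (p := -α) (Or.inl (hpos u hu).ne')))
    refine h1.congr_deriv ?_
    simp only [id, Pi.mul_apply]
    rw [hr u (hpos u hu), show -α - 1 = -1 - α by ring]
    ring
  rw [Real.one_rpow] at e1 e2
  have hIcc : ∀ u ∈ Icc (1 : ℝ) M, 0 ≤ Real.exp (-(s * u)) * u ^ (-1 - α) := fun u hu =>
    mul_nonneg (Real.exp_pos _).le (Real.rpow_nonneg (by linarith [hu.1]) _)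
  have p0 : 0 ≤ I0 := intervalIntegral.integral_nonneg hM' hIcc
  have p1 : I0 ≤ I1 := by
    refine intervalIntegral.integral_mono_on hM' i0 i1 fun u hu => ?_
    have := mul_le_mul_of_nonneg_right hu.1 (hIcc u hu)
    linarith
  have p2 : I1 ≤ M * I0 := by
    rw [hI0, ← intervalIntegral.integral_const_mul]
    refine intervalIntegral.integral_mono_on hM' i1 (i0.const_mul _) fun u hu => ?_
    have := mul_le_mul_of_nonneg_right hu.2 (hIcc u hu)
    linarith
  have hbM : 0 ≤ Real.exp (-(s * M)) * M ^ (-α) :=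
    mul_nonneg (Real.exp_pos _).le (Real.rpow_nonneg (by linarith) _)
  set bM := Real.exp (-(s * M)) * M ^ (-α) with hbMd
  set b1 := Real.exp (-(s * 1)) * 1 with hb1d
  have q1 : 0 ≤ (b1 - α * I0) * (I1 - I0) := by
    refine mul_nonneg ?_ (by linarith)
    have : 0 ≤ s * I1 := mul_nonneg hs (by linarith)
    linarith
  have q2 : 0 ≤ bM * (M * I0 - I1) := mul_nonneg hbM (by linarith)
  have r1 : s * I1 = b1 - bM - α * I0 := by linarith
  have r2 : s * I2 = (1 - α) * I1 - M * bM + b1 := by linarith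
  have : s * (I2 * I0 - I1 ^ 2) = (s * I2) * I0 - (s * I1) * I1 := by ring
  rw [this, r1, r2]
  nlinarith [q1, q2]

end S_pareto_var

theorem pareto_var : type_of% @S_pareto_var.pareto_var := @S_pareto_var.pareto_var
end

section
namespace S_pareto_mix

theorem pareto_mix_w_cont (α M : ℝ) (hM : 1 < M) :
    ContinuousOn (fun u : ℝ => u ^ (-1 - α)) (uIcc 1 M) := by
  apply ContinuousOn.rpow_const continuousOn_id
  intro u hu
  rw [uIcc_of_le hM.le] at hu
  left
  have : (0 : ℝ) < u := lt_of_lt_of_le one_pos hu.1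
  exact this.ne'

theorem pareto_mix_int (α M : ℝ) (hM : 1 < M) (f : ℝ → ℝ) (hf : Continuous f) :
    IntervalIntegrable (fun u : ℝ => f u * u ^ (-1 - α)) volume 1 M :=
  (hf.continuousOn.mul (pareto_mix_w_cont α M hM)).intervalIntegrable

theorem pareto_mix_mass (α M : ℝ) (hM : 1 < M) : 0 < ∫ u in (1:ℝ)..M, u ^ (-1 - α) := by
  apply intervalIntegral.intervalIntegral_pos_of_pos_on
    (pareto_mix_w_cont α M hM).intervalIntegrable _ hM
  intro u hu
  exact Real.rpow_pos_of_pos (lt_trans one_pos hu.1) _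

/-- the measure -/
def pareto_mix_P (α M : ℝ) : Measure ℝ :=
  (volume.restrict (Ioc 1 M)).withDensity
    (fun u => ENNReal.ofReal (u ^ (-1 - α) / ∫ u in (1:ℝ)..M, u ^ (-1 - α)))

theorem pareto_mix_fin (α M : ℝ) (hM : 1 < M) : IsFiniteMeasure (pareto_mix_P α M) := by
  unfold pareto_mix_P
  apply isFiniteMeasure_withDensity_ofReal
  have h1 : IntegrableOn (fun u : ℝ => u ^ (-1 - α)) (Ioc 1 M) volume :=
    (intervalIntegrable_iff_integrableOn_Ioc_of_le hM.le).1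
      (pareto_mix_w_cont α M hM).intervalIntegrable
  exact (h1.div_const _).2

theorem pareto_mix_base (α M : ℝ) (hM : 1 < M) (φ : ℝ → ℝ) :
    ∫ u, φ u ∂(pareto_mix_P α M) =
      (∫ u in (1:ℝ)..M, φ u * u ^ (-1 - α)) / ∫ u in (1:ℝ)..M, u ^ (-1 - α) := by
  obtain ⟨m, hm⟩ : ∃ m, m = ∫ u in (1:ℝ)..M, u ^ (-1 - α) := ⟨_, rfl⟩
  have hm0 : 0 < m := by
    rw [hm]
    exact pareto_mix_mass α M hM
  unfold pareto_mix_P
  rw [← hm, integral_withDensity_eq_integral_toReal_smul (by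
    apply Measurable.ennreal_ofReal
    apply Measurable.div_const
    exact Measurable.pow_const measurable_id _) (Eventually.of_forall fun _ => ENNReal.ofReal_lt_top),
    intervalIntegral.integral_of_le hM.le, ← integral_div]
  apply setIntegral_congr_fun measurableSet_Ioc
  intro u hu
  have hu0 : 0 < u := lt_trans one_pos hu.1
  show (ENNReal.ofReal (u ^ (-1 - α) / m)).toReal • φ u = φ u * u ^ (-1 - α) / m
  rw [ENNReal.toReal_ofReal (by positivity), smul_eq_mul]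
  ring

/-- the function -/
def pareto_mix_T (α M c : ℝ) (u : ℝ) : ℝ := c * (α / (1 - α) + max 1 (min u M))

theorem pareto_mix_T_eq (α M c : ℝ) (hM : 1 < M) (u : ℝ) (hu : u ∈ uIcc 1 M) :
    pareto_mix_T α M c u = c * (α / (1 - α) + u) := by
  rw [uIcc_of_le hM.le] at hu
  unfold pareto_mix_T
  rw [min_eq_left hu.2, max_eq_right hu.1]

theorem pareto_mix_g (α M c : ℝ) (hM : 1 < M) (s : ℝ) :
    par α M c s = ∫ u, Real.exp (-(s * pareto_mix_T α M c u)) ∂(pareto_mix_P α M) := by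
  rw [pareto_mix_base α M hM]
  unfold par
  congr 1
  apply intervalIntegral.integral_congr
  intro u hu
  show Real.exp (-(s * (c * (α / (1 - α) + u)))) * u ^ (-1 - α) =
    Real.exp (-(s * pareto_mix_T α M c u)) * u ^ (-1 - α)
  rw [pareto_mix_T_eq α M c hM u hu]

theorem pareto_mix_exp (s c d u : ℝ) : Real.exp (-(s * (c * (d + u)))) =
    Real.exp (-(s * c * d)) * Real.exp (-(s * c * u)) := by
  rw [← Real.exp_add]
  congr 1
  ring

theorem pareto_mix_A0 (α M c : ℝ) (hM : 1 < M) (s : ℝ) :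
    ∫ u, Real.exp (-(s * pareto_mix_T α M c u)) ∂(pareto_mix_P α M) =
      Real.exp (-(s * c * (α / (1 - α)))) *
        (∫ u in (1:ℝ)..M, Real.exp (-(s * c * u)) * u ^ (-1 - α)) /
        ∫ u in (1:ℝ)..M, u ^ (-1 - α) := by
  rw [pareto_mix_base α M hM, ← intervalIntegral.integral_const_mul]
  congr 1
  apply intervalIntegral.integral_congr
  intro u hu
  show Real.exp (-(s * pareto_mix_T α M c u)) * u ^ (-1 - α) = _
  rw [pareto_mix_T_eq α M c hM u hu, pareto_mix_exp]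
  ring

theorem pareto_mix_A1 (α M c : ℝ) (hM : 1 < M) (s : ℝ) :
    ∫ u, pareto_mix_T α M c u * Real.exp (-(s * pareto_mix_T α M c u)) ∂(pareto_mix_P α M) =
      c * Real.exp (-(s * c * (α / (1 - α)))) *
        ((∫ u in (1:ℝ)..M, u * Real.exp (-(s * c * u)) * u ^ (-1 - α)) +
          α / (1 - α) * ∫ u in (1:ℝ)..M, Real.exp (-(s * c * u)) * u ^ (-1 - α)) /
        ∫ u in (1:ℝ)..M, u ^ (-1 - α) := by
  rw [pareto_mix_base α M hM, ← intervalIntegral.integral_const_mul,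
    ← intervalIntegral.integral_add (pareto_mix_int α M hM _ (by fun_prop))
      ((pareto_mix_int α M hM _ (by fun_prop)).const_mul _),
    ← intervalIntegral.integral_const_mul]
  congr 1
  apply intervalIntegral.integral_congr
  intro u hu
  show pareto_mix_T α M c u * Real.exp (-(s * pareto_mix_T α M c u)) * u ^ (-1 - α) = _
  rw [pareto_mix_T_eq α M c hM u hu, pareto_mix_exp]
  ring

theorem pareto_mix_A2 (α M c : ℝ) (hM : 1 < M) (s : ℝ) :
    ∫ u, pareto_mix_T α M c u ^ 2 * Real.exp (-(s * pareto_mix_T α M c u)) ∂(pareto_mix_P α M) =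
      c ^ 2 * Real.exp (-(s * c * (α / (1 - α)))) *
        ((∫ u in (1:ℝ)..M, u ^ 2 * Real.exp (-(s * c * u)) * u ^ (-1 - α)) +
          2 * (α / (1 - α)) * (∫ u in (1:ℝ)..M, u * Real.exp (-(s * c * u)) * u ^ (-1 - α)) +
          (α / (1 - α)) ^ 2 * ∫ u in (1:ℝ)..M, Real.exp (-(s * c * u)) * u ^ (-1 - α)) /
        ∫ u in (1:ℝ)..M, u ^ (-1 - α) := by
  have i2 : IntervalIntegrable (fun u : ℝ => u ^ 2 * Real.exp (-(s * c * u)) * u ^ (-1 - α))
    volume 1 M := pareto_mix_int α M hM _ (by fun_prop)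
  have i1 : IntervalIntegrable (fun u : ℝ => u * Real.exp (-(s * c * u)) * u ^ (-1 - α))
    volume 1 M := pareto_mix_int α M hM _ (by fun_prop)
  have i0 : IntervalIntegrable (fun u : ℝ => Real.exp (-(s * c * u)) * u ^ (-1 - α))
    volume 1 M := pareto_mix_int α M hM _ (by fun_prop)
  rw [pareto_mix_base α M hM, ← intervalIntegral.integral_const_mul,
    ← intervalIntegral.integral_const_mul,
    ← intervalIntegral.integral_add i2 (i1.const_mul _),
    ← intervalIntegral.integral_add (i2.add (i1.const_mul _)) (i0.const_mul _),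
    ← intervalIntegral.integral_const_mul]
  congr 1
  apply intervalIntegral.integral_congr
  intro u hu
  show pareto_mix_T α M c u ^ 2 * Real.exp (-(s * pareto_mix_T α M c u)) * u ^ (-1 - α) = _
  rw [pareto_mix_T_eq α M c hM u hu, pareto_mix_exp]
  ring

/-- P2: the law is admissible -/
theorem pareto_mix (α M c : ℝ) (hα : 0 < α) (hα1 : α < 1) (hM : 1 < M) (hc : 0 < c) :
    MixLaw (1 - α) (par α M c) := by
  have hd : 0 ≤ α / (1 - α) := div_nonneg hα.le (by linarith)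
  have hm0 := pareto_mix_mass α M hM
  refine ⟨ℝ, inferInstance, pareto_mix_P α M, pareto_mix_T α M c, c * (α / (1 - α) + M),
    pareto_mix_fin α M hM, ?_, ?_, ?_, ?_, fun s _ => pareto_mix_g α M c hM s, ?_⟩
  · intro h0
    have h := pareto_mix_base α M hM (fun _ => 1)
    rw [h0, integral_zero_measure] at h
    simp only [one_mul] at h
    rw [div_self hm0.ne'] at h
    exact zero_ne_one h
  · unfold pareto_mix_T
    fun_prop
  · intro u
    unfold pareto_mix_T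
    have : 1 ≤ max 1 (min u M) := le_max_left _ _
    positivity
  · intro u
    unfold pareto_mix_T
    have : max 1 (min u M) ≤ M := max_le hM.le (min_le_right _ _)
    exact mul_le_mul_of_nonneg_left (by linarith) hc.le
  · intro s hs
    rw [pareto_mix_A0 α M c hM, pareto_mix_A1 α M c hM, pareto_mix_A2 α M c hM]
    have hv := pareto_var α M (s * c) hα hα1 hM (mul_nonneg hs hc.le)
    obtain ⟨I2, hI2⟩ : ∃ I2, I2 = ∫ u in (1:ℝ)..M, u ^ 2 * Real.exp (-(s * c * u)) *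
      u ^ (-1 - α) := ⟨_, rfl⟩
    obtain ⟨I1, hI1⟩ : ∃ I1, I1 = ∫ u in (1:ℝ)..M, u * Real.exp (-(s * c * u)) *
      u ^ (-1 - α) := ⟨_, rfl⟩
    obtain ⟨I0, hI0⟩ : ∃ I0, I0 = ∫ u in (1:ℝ)..M, Real.exp (-(s * c * u)) *
      u ^ (-1 - α) := ⟨_, rfl⟩
    obtain ⟨m, hm⟩ : ∃ m, m = ∫ u in (1:ℝ)..M, u ^ (-1 - α) := ⟨_, rfl⟩
    obtain ⟨E, hE⟩ : ∃ E, E = Real.exp (-(s * c * (α / (1 - α)))) := ⟨_, rfl⟩
    obtain ⟨d, hd'⟩ : ∃ d, d = α / (1 - α) := ⟨_, rfl⟩
    rw [← hI2, ← hI1, ← hI0] at hv ⊢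
    rw [← hm] at hm0 ⊢
    rw [← hE, ← hd']
    have hE0 : 0 < E := by
      rw [hE]
      exact Real.exp_pos _
    have hαd : α = (1 - α) * d := by
      have : (1 : ℝ) - α ≠ 0 := by linarith
      rw [hd', mul_div_cancel₀ _ this]
    have hK : 0 ≤ c * E ^ 2 / m ^ 2 := by positivity
    have h1 := mul_le_mul_of_nonneg_left hv hK
    have e1 : s * (c ^ 2 * E * (I2 + 2 * d * I1 + d ^ 2 * I0) / m * (E * I0 / m) -
        (c * E * (I1 + d * I0) / m) ^ 2) =
        c * E ^ 2 / m ^ 2 * (s * c * (I2 * I0 - I1 ^ 2)) := by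
      field_simp
      ring
    have e2 : (1 - α) * (c * E * (I1 + d * I0) / m) * (E * I0 / m) =
        c * E ^ 2 / m ^ 2 * ((1 - α) * I1 * I0 + ((1 - α) * d) * I0 ^ 2) := by
      field_simp
    rw [e1, e2, ← hαd]
    exact h1

end S_pareto_mix

theorem pareto_mix : type_of% @S_pareto_mix.pareto_mix := @S_pareto_mix.pareto_mix
end

section
namespace S_pareto_lim

/-- the integrand -/
def p3pf (α s r : ℝ) : ℝ := (1 - Real.exp (-(s * r))) * (α * r ^ (-1 - α))

theorem p3pf_nonneg (α s r : ℝ) (hα : 0 < α) (hs : 0 ≤ s) (hr : 0 ≤ r) : 0 ≤ p3pf α s r := by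
  unfold p3pf
  have h1 : Real.exp (-(s * r)) ≤ 1 := Real.exp_le_one_iff.2 (by nlinarith [mul_nonneg hs hr])
  have h2 : 0 ≤ r ^ (-1 - α) := Real.rpow_nonneg hr _
  exact mul_nonneg (by linarith) (mul_nonneg hα.le h2)

theorem p3pf_le1 (α s r : ℝ) (hα : 0 < α) (hr : 0 < r) : p3pf α s r ≤ s * α * r ^ (-α) := by
  unfold p3pf
  have h1 : 1 - Real.exp (-(s * r)) ≤ s * r := by
    have := Real.add_one_le_exp (-(s * r)); linarith
  have h2 : 0 ≤ α * r ^ (-1 - α) := mul_nonneg hα.le (Real.rpow_nonneg hr.le _)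
  have h3 : r * r ^ (-1 - α) = r ^ (-α) := by
    have h4 : -α = 1 + (-1 - α) := by ring
    rw [h4, Real.rpow_add hr, Real.rpow_one]
  calc (1 - Real.exp (-(s * r))) * (α * r ^ (-1 - α)) ≤ (s * r) * (α * r ^ (-1 - α)) :=
        mul_le_mul_of_nonneg_right h1 h2
    _ = s * α * (r * r ^ (-1 - α)) := by ring
    _ = s * α * r ^ (-α) := by rw [h3]

theorem p3pf_le2 (α s r : ℝ) (hα : 0 < α) (hr : 0 < r) : p3pf α s r ≤ α * r ^ (-1 - α) := by
  unfold p3pf
  have h1 : 1 - Real.exp (-(s * r)) ≤ 1 := by linarith [Real.exp_pos (-(s * r))]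
  have h2 : 0 ≤ α * r ^ (-1 - α) := mul_nonneg hα.le (Real.rpow_nonneg hr.le _)
  calc _ ≤ 1 * (α * r ^ (-1 - α)) := mul_le_mul_of_nonneg_right h1 h2
    _ = _ := one_mul _

theorem p3pf_meas (α s : ℝ) : Measurable (p3pf α s) := by
  unfold p3pf
  fun_prop

theorem p3pf_int01 (α s b : ℝ) (hα : 0 < α) (hα1 : α < 1) (hs : 0 ≤ s) (hb : 0 ≤ b) :
    IntegrableOn (p3pf α s) (Ioc 0 b) := by
  have h1 : IntervalIntegrable (fun r : ℝ => r ^ (-α)) volume 0 b :=
    intervalIntegral.intervalIntegrable_rpow' (by linarith)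
  rw [intervalIntegrable_iff_integrableOn_Ioc_of_le hb] at h1
  refine Integrable.mono' (h1.const_mul (s * α)) (p3pf_meas α s).aestronglyMeasurable ?_
  refine (ae_restrict_mem measurableSet_Ioc).mono fun r hr => ?_
  rw [Real.norm_of_nonneg (p3pf_nonneg α s r hα hs hr.1.le)]
  exact p3pf_le1 α s r hα hr.1

theorem p3pf_intInf (α s b : ℝ) (hα : 0 < α) (hs : 0 ≤ s) (hb : 0 < b) :
    IntegrableOn (p3pf α s) (Ioi b) := by
  have h1 : IntegrableOn (fun r : ℝ => r ^ (-1 - α)) (Ioi b) :=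
    integrableOn_Ioi_rpow_of_lt (by linarith) hb
  refine Integrable.mono' (h1.const_mul α) (p3pf_meas α s).aestronglyMeasurable ?_
  refine (ae_restrict_mem measurableSet_Ioi).mono fun r hr => ?_
  have hr' : 0 < r := hb.trans hr
  rw [Real.norm_of_nonneg (p3pf_nonneg α s r hα hs hr'.le)]
  exact p3pf_le2 α s r hα hr'

theorem p3pf_int (α s : ℝ) (hα : 0 < α) (hα1 : α < 1) (hs : 0 ≤ s) :
    IntegrableOn (p3pf α s) (Ioi 0) := by
  rw [← Ioc_union_Ioi_eq_Ioi (zero_le_one (α := ℝ))]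
  exact (p3pf_int01 α s 1 hα hα1 hs zero_le_one).union (p3pf_intInf α s 1 hα hs one_pos)

/-- the constant -/
def p3pA (α : ℝ) : ℝ := ∫ r in Ioi (0:ℝ), p3pf α 1 r

theorem p3pf_scale (α s : ℝ) (hα : 0 < α) (hs : 0 ≤ s) :
    ∫ r in Ioi (0:ℝ), p3pf α s r = p3pA α * s ^ α := by
  rcases hs.lt_or_eq with hs | hs
  · have h1 : ∫ r in Ioi (0:ℝ), p3pf α s r = ∫ r in Ioi (0:ℝ), s ^ (1 + α) * p3pf α 1 (s * r) := by
      refine setIntegral_congr_fun measurableSet_Ioi fun r hr => ?_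
      have hr' : (0:ℝ) < r := hr
      show p3pf α s r = s ^ (1 + α) * p3pf α 1 (s * r)
      unfold p3pf
      rw [Real.mul_rpow hs.le hr'.le, one_mul]
      have h2 : s ^ (1 + α) * s ^ (-1 - α) = 1 := by
        rw [← Real.rpow_add hs]
        have : 1 + α + (-1 - α) = 0 := by ring
        rw [this, Real.rpow_zero]
      calc (1 - Real.exp (-(s * r))) * (α * r ^ (-1 - α))
          = (s ^ (1 + α) * s ^ (-1 - α)) * ((1 - Real.exp (-(s * r))) * (α * r ^ (-1 - α))) := by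
            rw [h2, one_mul]
        _ = _ := by ring
    rw [h1, integral_const_mul, integral_comp_mul_left_Ioi (p3pf α 1) 0 hs, mul_zero, smul_eq_mul]
    have h3 : s ^ (1 + α) * s⁻¹ = s ^ α := by
      rw [Real.rpow_add hs, Real.rpow_one]
      field_simp
    unfold p3pA
    rw [← mul_assoc, h3, mul_comm]
  · subst hs
    have h1 : ∀ r, p3pf α 0 r = 0 := by intro r; simp [p3pf]
    simp only [h1, integral_zero]
    rw [Real.zero_rpow hα.ne', mul_zero]

theorem p3pA_pos (α : ℝ) (hα : 0 < α) (hα1 : α < 1) : 0 < p3pA α := by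
  unfold p3pA
  have h1 : ∫ r in Ioc (1:ℝ) 2, ((1 - Real.exp (-1)) * (α * 2 ^ (-1 - α))) ≤
      ∫ r in Ioc (1:ℝ) 2, p3pf α 1 r := by
    refine setIntegral_mono_on (integrableOn_const (by simp)) ((p3pf_intInf α 1 1 hα zero_le_one one_pos).mono_set
      Ioc_subset_Ioi_self) measurableSet_Ioc fun r hr => ?_
    unfold p3pf
    have h2 : Real.exp (-(1 * r)) ≤ Real.exp (-1) := Real.exp_le_exp.2 (by linarith [hr.1])
    have h3 : (2:ℝ) ^ (-1 - α) ≤ r ^ (-1 - α) :=
      Real.rpow_le_rpow_of_nonpos (by linarith [hr.1]) hr.2 (by linarith)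
    have h4 : Real.exp (-1) < 1 := by rw [Real.exp_lt_one_iff]; norm_num
    have h5 : (0:ℝ) < 2 ^ (-1 - α) := by positivity
    refine mul_le_mul (by linarith) (mul_le_mul_of_nonneg_left h3 hα.le) (by positivity) (by linarith)
  have h2 : ∫ r in Ioc (1:ℝ) 2, p3pf α 1 r ≤ ∫ r in Ioi (0:ℝ), p3pf α 1 r := by
    refine setIntegral_mono_set (p3pf_int α 1 hα hα1 zero_le_one) ?_ ?_
    · refine (ae_restrict_mem measurableSet_Ioi).mono fun r hr => ?_
      exact p3pf_nonneg α 1 r hα zero_le_one (le_of_lt hr)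
    · exact (Ioc_subset_Ioi_self.trans (Ioi_subset_Ioi zero_le_one)).eventuallyLE
  have h4 : Real.exp (-1) < 1 := by rw [Real.exp_lt_one_iff]; norm_num
  have h5 : (0:ℝ) < 2 ^ (-1 - α) := by positivity
  have h3 : 0 < ∫ r in Ioc (1:ℝ) 2, ((1 - Real.exp (-1)) * (α * 2 ^ (-1 - α))) := by
    rw [setIntegral_const]
    have : (volume.real (Ioc (1:ℝ) 2)) = 1 := by
      rw [Real.volume_real_Ioc]; norm_num
    rw [this, one_smul]
    exact mul_pos (by linarith) (mul_pos hα h5)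
  linarith

theorem p3pf_bound0 (α s b : ℝ) (hα : 0 < α) (hα1 : α < 1) (hs : 0 ≤ s) (hb : 0 ≤ b) :
    ∫ r in Ioc (0:ℝ) b, p3pf α s r ≤ s * (α / (1 - α)) * b ^ (1 - α) := by
  have h1 : IntervalIntegrable (fun r : ℝ => r ^ (-α)) volume 0 b :=
    intervalIntegral.intervalIntegrable_rpow' (by linarith)
  have h1' := h1
  rw [intervalIntegrable_iff_integrableOn_Ioc_of_le hb] at h1'
  calc ∫ r in Ioc (0:ℝ) b, p3pf α s r ≤ ∫ r in Ioc (0:ℝ) b, s * α * r ^ (-α) := by
        refine setIntegral_mono_on (p3pf_int01 α s b hα hα1 hs hb) (h1'.const_mul _) measurableSet_Ioc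
          fun r hr => p3pf_le1 α s r hα hr.1
    _ = s * α * ((b ^ (-α + 1) - 0 ^ (-α + 1)) / (-α + 1)) := by
        rw [integral_const_mul, ← intervalIntegral.integral_of_le hb, integral_rpow (Or.inl (by linarith))]
    _ = s * (α / (1 - α)) * b ^ (1 - α) := by
        have h2 : -α + 1 = 1 - α := by ring
        rw [h2, Real.zero_rpow (by linarith), sub_zero]
        ring

theorem p3pf_nonneg_int (α s : ℝ) (S : Set ℝ) (hS : MeasurableSet S) (hS0 : S ⊆ Ioi 0) (hα : 0 < α)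
    (hs : 0 ≤ s) : 0 ≤ ∫ r in S, p3pf α s r :=
  setIntegral_nonneg hS fun r hr => p3pf_nonneg α s r hα hs (le_of_lt (hS0 hr))

theorem p3pf_tail (α s b : ℝ) (hα : 0 < α) (hs : 0 ≤ s) (hb : 0 < b) :
    ∫ r in Ioi b, p3pf α s r ≤ b ^ (-α) := by
  have h1 : IntegrableOn (fun r : ℝ => r ^ (-1 - α)) (Ioi b) :=
    integrableOn_Ioi_rpow_of_lt (by linarith) hb
  calc ∫ r in Ioi b, p3pf α s r ≤ ∫ r in Ioi b, α * r ^ (-1 - α) := by
        refine setIntegral_mono_on (p3pf_intInf α s b hα hs hb) (h1.const_mul _) measurableSet_Ioi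
          fun r hr => p3pf_le2 α s r hα (hb.trans hr)
    _ = α * (-b ^ (-1 - α + 1) / (-1 - α + 1)) := by
        rw [integral_const_mul, integral_Ioi_rpow_of_lt (by linarith) hb]
    _ = b ^ (-α) := by
        have h2 : -1 - α + 1 = -α := by ring
        rw [h2]
        field_simp

theorem p3pf_split (α s a b : ℝ) (hα : 0 < α) (hα1 : α < 1) (hs : 0 ≤ s) (ha : 0 < a) (hab : a ≤ b) :
    ∫ r in Ioi (0:ℝ), p3pf α s r =
      (∫ r in Ioc (0:ℝ) a, p3pf α s r) + (∫ r in Ioc a b, p3pf α s r) + ∫ r in Ioi b, p3pf α s r := by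
  have hint := p3pf_int α s hα hα1 hs
  have e1 : Ioc (0:ℝ) b ∪ Ioi b = Ioi 0 := Ioc_union_Ioi_eq_Ioi (ha.le.trans hab)
  have e2 : Ioc (0:ℝ) a ∪ Ioc a b = Ioc 0 b := Ioc_union_Ioc_eq_Ioc ha.le hab
  rw [← e1, setIntegral_union (Ioc_disjoint_Ioi le_rfl) measurableSet_Ioi
    (hint.mono_set Ioc_subset_Ioi_self) (hint.mono_set (Ioi_subset_Ioi (ha.le.trans hab))), ← e2,
    setIntegral_union (by
      rw [Set.disjoint_left]
      intro x hx hx'
      exact absurd hx.2 (not_le.2 hx'.1)) measurableSet_Ioc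
      (hint.mono_set Ioc_subset_Ioi_self)
      (hint.mono_set (Ioc_subset_Ioi_self.trans (Ioi_subset_Ioi ha.le)))]

theorem p3par_formula (α M c s : ℝ) (hα : 0 < α) (hM : 1 < M) (hc : 0 < c) :
    par α M c s = Real.exp (-(s * c * (α / (1 - α)))) *
      (1 - (c ^ α * ∫ r in Ioc c (c * M), p3pf α s r) / (1 - M ^ (-α))) := by
  have hM0 : 0 < M := by linarith
  have h0 : (0:ℝ) ∉ uIcc 1 M := by
    rw [uIcc_of_le hM.le]; intro h; linarith [h.1]
  have hmass : ∫ u in (1:ℝ)..M, u ^ (-1 - α) = (1 - M ^ (-α)) / α := by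
    rw [integral_rpow (Or.inr ⟨by linarith, h0⟩)]
    have h2 : -1 - α + 1 = -α := by ring
    rw [h2, Real.one_rpow]
    field_simp
    ring
  have hm1 : 0 < 1 - M ^ (-α) := by
    have : M ^ (-α) < 1 := Real.rpow_lt_one_of_one_lt_of_neg hM (by linarith)
    linarith
  have hcont : ContinuousOn (fun u : ℝ => u ^ (-1 - α)) (uIcc 1 M) := by
    intro u hu
    refine (Real.continuousAt_rpow_const u _ (Or.inl ?_)).continuousWithinAt
    intro h; exact h0 (h ▸ hu)
  have hi1 : IntervalIntegrable (fun u : ℝ => u ^ (-1 - α)) volume 1 M :=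
    hcont.intervalIntegrable
  have hi2 : IntervalIntegrable (fun u : ℝ => (1 - Real.exp (-(s * (c * u)))) * u ^ (-1 - α))
      volume 1 M := by
    refine ContinuousOn.intervalIntegrable (ContinuousOn.mul ?_ hcont)
    exact Continuous.continuousOn (by fun_prop)
  have hJ : ∫ u in (1:ℝ)..M, (1 - Real.exp (-(s * (c * u)))) * u ^ (-1 - α) =
      c ^ α * (∫ r in Ioc c (c * M), p3pf α s r) / α := by
    have h1 : ∫ u in (1:ℝ)..M, (1 - Real.exp (-(s * (c * u)))) * u ^ (-1 - α) =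
        ∫ u in (1:ℝ)..M, (c ^ (1 + α) / α) * p3pf α s (c * u) := by
      refine intervalIntegral.integral_congr fun u hu => ?_
      rw [uIcc_of_le hM.le] at hu
      have hu0 : 0 < u := by linarith [hu.1]
      show _ = (c ^ (1 + α) / α) * p3pf α s (c * u)
      unfold p3pf
      rw [Real.mul_rpow hc.le hu0.le]
      have h2 : c ^ (1 + α) * c ^ (-1 - α) = 1 := by
        rw [← Real.rpow_add hc]
        have : 1 + α + (-1 - α) = 0 := by ring
        rw [this, Real.rpow_zero]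
      calc (1 - Real.exp (-(s * (c * u)))) * u ^ (-1 - α)
          = (c ^ (1 + α) * c ^ (-1 - α)) * ((1 - Real.exp (-(s * (c * u)))) * u ^ (-1 - α)) := by
            rw [h2, one_mul]
        _ = _ := by field_simp
    rw [h1, intervalIntegral.integral_const_mul,
      intervalIntegral.integral_comp_mul_left (fun r => p3pf α s r) hc.ne', mul_one, smul_eq_mul,
      intervalIntegral.integral_of_le (by nlinarith)]
    have h3 : c ^ (1 + α) = c * c ^ α := by rw [Real.rpow_add hc, Real.rpow_one]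
    rw [h3]
    field_simp
  have hnum : ∫ u in (1:ℝ)..M, Real.exp (-(s * (c * (α / (1 - α) + u)))) * u ^ (-1 - α) =
      Real.exp (-(s * c * (α / (1 - α)))) * ((∫ u in (1:ℝ)..M, u ^ (-1 - α)) -
        ∫ u in (1:ℝ)..M, (1 - Real.exp (-(s * (c * u)))) * u ^ (-1 - α)) := by
    rw [← intervalIntegral.integral_sub hi1 hi2, ← intervalIntegral.integral_const_mul]
    refine intervalIntegral.integral_congr fun u _ => ?_
    show Real.exp (-(s * (c * (α / (1 - α) + u)))) * u ^ (-1 - α) =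
      Real.exp (-(s * c * (α / (1 - α)))) * (u ^ (-1 - α) -
        (1 - Real.exp (-(s * (c * u)))) * u ^ (-1 - α))
    have h4 : -(s * (c * (α / (1 - α) + u))) = -(s * c * (α / (1 - α))) + -(s * (c * u)) := by ring
    rw [h4, Real.exp_add]
    ring
  unfold par
  rw [hnum, hJ, hmass]
  field_simp

theorem p3par_nonneg (α M c s : ℝ) (hM : 1 < M) : 0 ≤ par α M c s := by
  unfold par
  refine div_nonneg ?_ ?_
  · refine intervalIntegral.integral_nonneg hM.le fun u hu => ?_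
    exact mul_nonneg (Real.exp_pos _).le (Real.rpow_nonneg (by linarith [hu.1]) _)
  · refine intervalIntegral.integral_nonneg hM.le fun u hu => ?_
    exact Real.rpow_nonneg (by linarith [hu.1]) _

/-- the constants `c K` -/
def p3pc (α : ℝ) (K : ℕ) : ℝ := (p3pA α * ((K : ℝ) + 1)) ^ (-(1 / α))

/-- the constants `M K` -/
def p3pM (α : ℝ) (K : ℕ) : ℝ := 2 + ((p3pc α K)⁻¹) ^ 2

theorem p3pc_pos (α : ℝ) (hα : 0 < α) (hα1 : α < 1) (K : ℕ) : 0 < p3pc α K := by
  have := p3pA_pos α hα hα1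
  unfold p3pc
  positivity

theorem p3pM_gt (α : ℝ) (K : ℕ) : 1 < p3pM α K := by
  unfold p3pM
  have := sq_nonneg (p3pc α K)⁻¹
  linarith

theorem p3pc_pow (α : ℝ) (hα : 0 < α) (hα1 : α < 1) (K : ℕ) :
    ((K : ℝ) + 1) * (p3pc α K) ^ α = 1 / p3pA α := by
  have hA := p3pA_pos α hα hα1
  have h1 : (p3pc α K) ^ α = (p3pA α * ((K : ℝ) + 1))⁻¹ := by
    unfold p3pc
    rw [← Real.rpow_mul (by positivity)]
    have : -(1 / α) * α = -1 := by field_simp
    rw [this, Real.rpow_neg_one]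
  rw [h1]
  have : ((K : ℝ) + 1) ≠ 0 := by positivity
  field_simp

theorem p3pc_lin (α : ℝ) (hα : 0 < α) (hα1 : α < 1) (K : ℕ) :
    ((K : ℝ) + 1) * p3pc α K = (p3pc α K) ^ (1 - α) / p3pA α := by
  have hc := p3pc_pos α hα hα1 K
  have h1 : p3pc α K = (p3pc α K) ^ α * (p3pc α K) ^ (1 - α) := by
    rw [← Real.rpow_add hc]
    have : α + (1 - α) = 1 := by ring
    rw [this, Real.rpow_one]
  conv_lhs => rw [h1]
  rw [← mul_assoc, p3pc_pow α hα hα1 K]
  ring

theorem p3pcM_eq (α : ℝ) (hα : 0 < α) (hα1 : α < 1) (K : ℕ) :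
    p3pc α K * p3pM α K = 2 * p3pc α K + (p3pc α K)⁻¹ := by
  have hc := p3pc_pos α hα hα1 K
  unfold p3pM
  field_simp

theorem p3pcM_ge (α : ℝ) (hα : 0 < α) (hα1 : α < 1) (K : ℕ) : 1 ≤ p3pc α K * p3pM α K := by
  rw [p3pcM_eq α hα hα1]
  have hc := p3pc_pos α hα hα1 K
  rcases le_total 1 (p3pc α K) with h | h
  · have := inv_pos.2 hc
    linarith
  · have := (one_le_inv₀ hc).2 h
    linarith

theorem p3pc_tendsto (α : ℝ) (hα : 0 < α) (hα1 : α < 1) : Tendsto (p3pc α) atTop (𝓝 0) := by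
  have hA := p3pA_pos α hα hα1
  have h1 : Tendsto (fun K : ℕ => p3pA α * ((K : ℝ) + 1)) atTop atTop :=
    Tendsto.const_mul_atTop hA (tendsto_atTop_add_const_right _ _ tendsto_natCast_atTop_atTop)
  exact (tendsto_rpow_neg_atTop (by positivity : 0 < 1 / α)).comp h1

theorem p3pc_inv_tendsto (α : ℝ) (hα : 0 < α) (hα1 : α < 1) :
    Tendsto (fun K => (p3pc α K)⁻¹) atTop atTop := by
  refine tendsto_inv_nhdsGT_zero.comp ?_
  refine tendsto_nhdsWithin_iff.2 ⟨p3pc_tendsto α hα hα1, ?_⟩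
  exact Eventually.of_forall fun K => p3pc_pos α hα hα1 K

theorem p3pM_tendsto (α : ℝ) (hα : 0 < α) (hα1 : α < 1) : Tendsto (p3pM α) atTop atTop := by
  have h1 : Tendsto (fun K => ((p3pc α K)⁻¹) ^ 2) atTop atTop :=
    (tendsto_pow_atTop two_ne_zero).comp (p3pc_inv_tendsto α hα hα1)
  exact tendsto_atTop_add_const_left _ _ h1

theorem p3pcM_tendsto (α : ℝ) (hα : 0 < α) (hα1 : α < 1) :
    Tendsto (fun K => p3pc α K * p3pM α K) atTop atTop := by
  refine tendsto_atTop_mono (fun K => ?_) (p3pc_inv_tendsto α hα hα1)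
  rw [p3pcM_eq α hα hα1]
  have := p3pc_pos α hα hα1 K
  linarith

/-- the middle integral -/
def p3pJ (α s : ℝ) (K : ℕ) : ℝ := ∫ r in Ioc (p3pc α K) (p3pc α K * p3pM α K), p3pf α s r

theorem p3pcM_le (α : ℝ) (hα : 0 < α) (hα1 : α < 1) (K : ℕ) : p3pc α K ≤ p3pc α K * p3pM α K := by
  have h1 := p3pc_pos α hα hα1 K
  have h2 := p3pM_gt α K
  nlinarith

theorem p3pJ_nonneg (α s : ℝ) (hα : 0 < α) (hα1 : α < 1) (hs : 0 ≤ s) (K : ℕ) : 0 ≤ p3pJ α s K :=
  p3pf_nonneg_int α s _ measurableSet_Ioc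
    (Ioc_subset_Ioi_self.trans (Ioi_subset_Ioi (p3pc_pos α hα hα1 K).le)) hα hs

theorem p3pJ_tendsto (α s : ℝ) (hα : 0 < α) (hα1 : α < 1) (hs : 0 ≤ s) :
    Tendsto (p3pJ α s) atTop (𝓝 (p3pA α * s ^ α)) := by
  have h1 : ∀ K, p3pJ α s K = p3pA α * s ^ α - (∫ r in Ioc (0:ℝ) (p3pc α K), p3pf α s r) -
      ∫ r in Ioi (p3pc α K * p3pM α K), p3pf α s r := by
    intro K
    have h2 := p3pf_split α s (p3pc α K) (p3pc α K * p3pM α K) hα hα1 hs (p3pc_pos α hα hα1 K)
      (p3pcM_le α hα hα1 K)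
    rw [p3pf_scale α s hα hs] at h2
    unfold p3pJ
    linarith
  have h2 : Tendsto (fun K => ∫ r in Ioc (0:ℝ) (p3pc α K), p3pf α s r) atTop (𝓝 0) := by
    refine squeeze_zero (g := fun K => s * (α / (1 - α)) * (p3pc α K) ^ (1 - α)) (fun K => ?_) (fun K => ?_) ?_
    · exact p3pf_nonneg_int α s _ measurableSet_Ioc Ioc_subset_Ioi_self hα hs
    · exact p3pf_bound0 α s _ hα hα1 hs (p3pc_pos α hα hα1 K).le
    · have h3 : Tendsto (fun K => (p3pc α K) ^ (1 - α)) atTop (𝓝 0) := by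
        have h4 := (Real.continuousAt_rpow_const (0:ℝ) (1 - α) (Or.inr (by linarith))).tendsto.comp
          (p3pc_tendsto α hα hα1)
        rw [Real.zero_rpow (by linarith)] at h4
        exact h4
      simpa using h3.const_mul (s * (α / (1 - α)))
  have h3 : Tendsto (fun K => ∫ r in Ioi (p3pc α K * p3pM α K), p3pf α s r) atTop (𝓝 0) := by
    have h5 : ∀ K, 0 < p3pc α K * p3pM α K := fun K => lt_of_lt_of_le one_pos (p3pcM_ge α hα hα1 K)
    refine squeeze_zero (g := fun K => (p3pc α K * p3pM α K) ^ (-α)) (fun K => ?_) (fun K => ?_) ?_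
    · exact p3pf_nonneg_int α s _ measurableSet_Ioi (Ioi_subset_Ioi (h5 K).le) hα hs
    · exact p3pf_tail α s _ hα hs (h5 K)
    · exact (tendsto_rpow_neg_atTop hα).comp (p3pcM_tendsto α hα hα1)
  have h4 : p3pJ α s = fun K => p3pA α * s ^ α - (∫ r in Ioc (0:ℝ) (p3pc α K), p3pf α s r) -
      ∫ r in Ioi (p3pc α K * p3pM α K), p3pf α s r := funext h1
  rw [h4]
  have h5 := (tendsto_const_nhds (x := p3pA α * s ^ α)).sub h2 |>.sub h3
  simpa using h5

/-- the quotient -/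
def p3pq (α s : ℝ) (K : ℕ) : ℝ := ((p3pc α K) ^ α * p3pJ α s K) / (1 - (p3pM α K) ^ (-α))

theorem p3pM_one (α : ℝ) (hα : 0 < α) (K : ℕ) : 0 < 1 - (p3pM α K) ^ (-α) := by
  have : (p3pM α K) ^ (-α) < 1 := Real.rpow_lt_one_of_one_lt_of_neg (p3pM_gt α K) (by linarith)
  linarith

theorem p3pq_eq (α s : ℝ) (hα : 0 < α) (hα1 : α < 1) (K : ℕ) :
    ((K : ℝ) + 1) * p3pq α s K = 1 / p3pA α * p3pJ α s K / (1 - (p3pM α K) ^ (-α)) := by
  unfold p3pq
  rw [← p3pc_pow α hα hα1 K]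
  ring

theorem p3pq_tendsto (α s : ℝ) (hα : 0 < α) (hα1 : α < 1) (hs : 0 ≤ s) :
    Tendsto (fun K : ℕ => ((K : ℝ) + 1) * p3pq α s K) atTop (𝓝 (s ^ α)) := by
  have h1 : (fun K : ℕ => ((K : ℝ) + 1) * p3pq α s K) =
      fun K => 1 / p3pA α * p3pJ α s K / (1 - (p3pM α K) ^ (-α)) := funext fun K => p3pq_eq α s hα hα1 K
  rw [h1]
  have h2 : Tendsto (fun K => 1 - (p3pM α K) ^ (-α)) atTop (𝓝 (1 - 0)) :=
    tendsto_const_nhds.sub ((tendsto_rpow_neg_atTop hα).comp (p3pM_tendsto α hα hα1))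
  have h3 := ((p3pJ_tendsto α s hα hα1 hs).const_mul (1 / p3pA α)).div h2 (by norm_num)
  have hA := p3pA_pos α hα hα1
  have h4 : 1 / p3pA α * (p3pA α * s ^ α) / (1 - 0) = s ^ α := by field_simp; ring
  rw [h4] at h3
  exact h3

theorem p3par_pq (α s : ℝ) (hα : 0 < α) (hα1 : α < 1) (K : ℕ) :
    par α (p3pM α K) (p3pc α K) s = Real.exp (-(s * p3pc α K * (α / (1 - α)))) * (1 - p3pq α s K) :=
  p3par_formula α (p3pM α K) (p3pc α K) s hα (p3pM_gt α K) (p3pc_pos α hα hα1 K)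

theorem p3par_pow (α s : ℝ) (hα : 0 < α) (hα1 : α < 1) (K : ℕ) :
    (par α (p3pM α K) (p3pc α K) s) ^ (K + 1) =
      Real.exp (-(s * (α / (1 - α)) * ((p3pc α K) ^ (1 - α) / p3pA α))) * (1 - p3pq α s K) ^ (K + 1) := by
  rw [p3par_pq α s hα hα1, mul_pow, ← Real.exp_nat_mul, ← p3pc_lin α hα hα1]
  congr 2
  push_cast
  ring

/-- P3: limit and domination -/
theorem pareto_lim (α : ℝ) (hα : 0 < α) (hα1 : α < 1) :
    ∃ (c M : ℕ → ℝ) (C : ℝ), (∀ K, 0 < c K) ∧ (∀ K, 1 < M K) ∧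
      (∀ s : ℝ, 0 ≤ s → Tendsto (fun K => (par α (M K) (c K) s) ^ (K + 1)) atTop
        (𝓝 (Real.exp (-(s ^ α))))) ∧
      (∀ (K : ℕ) (s : ℝ), 0 ≤ s → (par α (M K) (c K) s) ^ (K + 1) ≤ C * Real.exp (-(s ^ α))) := by
  refine ⟨p3pc α, p3pM α, Real.exp (1 / p3pA α), p3pc_pos α hα hα1, p3pM_gt α, ?_, ?_⟩
  · intro s hs
    have h0 : (fun K => (par α (p3pM α K) (p3pc α K) s) ^ (K + 1)) = fun K =>
      Real.exp (-(s * (α / (1 - α)) * ((p3pc α K) ^ (1 - α) / p3pA α))) * (1 - p3pq α s K) ^ (K + 1) :=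
      funext fun K => p3par_pow α s hα hα1 K
    rw [h0]
    have h1 : Tendsto (fun K => (p3pc α K) ^ (1 - α)) atTop (𝓝 0) := by
      have h4 := (Real.continuousAt_rpow_const (0:ℝ) (1 - α) (Or.inr (by linarith))).tendsto.comp
        (p3pc_tendsto α hα hα1)
      rw [Real.zero_rpow (by linarith)] at h4
      exact h4
    have h2 : Tendsto (fun K => Real.exp (-(s * (α / (1 - α)) * ((p3pc α K) ^ (1 - α) / p3pA α))))
        atTop (𝓝 1) := by
      have h5 : Tendsto (fun K => -(s * (α / (1 - α)) * ((p3pc α K) ^ (1 - α) / p3pA α))) atTop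
          (𝓝 (-(s * (α / (1 - α)) * (0 / p3pA α)))) :=
        ((h1.div_const _).const_mul _).neg
      have h6 := (Real.continuous_exp.tendsto _).comp h5
      have h7 : -(s * (α / (1 - α)) * (0 / p3pA α)) = 0 := by simp
      rw [h7, Real.exp_zero] at h6
      exact h6
    have h3 : Tendsto (fun K : ℕ => (1 - p3pq α s K) ^ (K + 1)) atTop (𝓝 (Real.exp (-(s ^ α)))) := by
      have h4 : Tendsto (fun n : ℕ => (n : ℝ) * (-(p3pq α s (n - 1)))) atTop (𝓝 (-(s ^ α))) := by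
        rw [← tendsto_add_atTop_iff_nat 1]
        refine (p3pq_tendsto α s hα hα1 hs).neg.congr fun K => ?_
        rw [Nat.add_sub_cancel]
        push_cast
        ring
      have h5 := Real.tendsto_one_add_pow_exp_of_tendsto h4
      rw [← tendsto_add_atTop_iff_nat 1] at h5
      refine h5.congr fun K => ?_
      rw [Nat.add_sub_cancel, ← sub_eq_add_neg]
    have h4 := h2.mul h3
    rw [one_mul] at h4
    exact h4
  · intro K s hs
    have hA := p3pA_pos α hα hα1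
    have hpn := p3par_nonneg α (p3pM α K) (p3pc α K) s (p3pM_gt α K)
    have h1 : par α (p3pM α K) (p3pc α K) s ≤
        Real.exp (-(s * p3pc α K * (α / (1 - α)) + p3pq α s K)) := by
      rw [p3par_pq α s hα hα1, neg_add, Real.exp_add]
      refine mul_le_mul_of_nonneg_left ?_ (Real.exp_pos _).le
      have := Real.add_one_le_exp (-(p3pq α s K))
      linarith
    have h2 := pow_le_pow_left₀ hpn h1 (K + 1)
    rw [← Real.exp_nat_mul] at h2
    refine h2.trans ?_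
    rw [← Real.exp_add]
    refine Real.exp_le_exp.2 ?_
    have h3 : ((K + 1 : ℕ) : ℝ) * -(s * p3pc α K * (α / (1 - α)) + p3pq α s K) =
        -(s * (α / (1 - α)) * (((K : ℝ) + 1) * p3pc α K)) - ((K : ℝ) + 1) * p3pq α s K := by
      push_cast; ring
    rw [h3, p3pc_lin α hα hα1, p3pq_eq α s hα hα1]
    have h4 := p3pf_split α s (p3pc α K) (p3pc α K * p3pM α K) hα hα1 hs (p3pc_pos α hα hα1 K)
      (p3pcM_le α hα hα1 K)
    rw [p3pf_scale α s hα hs] at h4
    have h5 := p3pf_bound0 α s _ hα hα1 hs (p3pc_pos α hα hα1 K).le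
    have h6 := p3pf_tail α s _ hα hs (lt_of_lt_of_le one_pos (p3pcM_ge α hα hα1 K))
    have h7 : (p3pc α K * p3pM α K) ^ (-α) ≤ 1 :=
      Real.rpow_le_one_of_one_le_of_nonpos (p3pcM_ge α hα hα1 K) (by linarith)
    have h8 := p3pJ_nonneg α s hα hα1 hs K
    have h9 : 1 / p3pA α * p3pJ α s K ≤ 1 / p3pA α * p3pJ α s K / (1 - (p3pM α K) ^ (-α)) := by
      have h10 := p3pM_one α hα K
      have h11 : 0 ≤ (p3pM α K) ^ (-α) := Real.rpow_nonneg (by linarith [p3pM_gt α K]) _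
      rw [le_div_iff₀ h10]
      have h12 : 0 ≤ 1 / p3pA α * p3pJ α s K := by positivity
      nlinarith
    have h10 : s ^ α = 1 / p3pA α * (p3pA α * s ^ α) := by field_simp
    have h11 : s ^ α ≤ 1 / p3pA α * (s * (α / (1 - α)) * (p3pc α K) ^ (1 - α) + p3pJ α s K + 1) := by
      rw [h10]
      refine mul_le_mul_of_nonneg_left ?_ (by positivity)
      rw [h4]
      have : p3pJ α s K = ∫ r in Ioc (p3pc α K) (p3pc α K * p3pM α K), p3pf α s r := rfl
      rw [this]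
      linarith
    have h12 : s * (α / (1 - α)) * ((p3pc α K) ^ (1 - α) / p3pA α) =
        1 / p3pA α * (s * (α / (1 - α)) * (p3pc α K) ^ (1 - α)) := by ring
    rw [h12]
    have h13 : 1 / p3pA α * (s * (α / (1 - α)) * (p3pc α K) ^ (1 - α) + p3pJ α s K + 1) =
        1 / p3pA α * (s * (α / (1 - α)) * (p3pc α K) ^ (1 - α)) + 1 / p3pA α * p3pJ α s K + 1 / p3pA α := by
      ring
    rw [h13] at h11
    linarith

end S_pareto_lim

theorem pareto_lim : type_of% @S_pareto_lim.pareto_lim := @S_pareto_lim.pareto_lim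
end

section
namespace S_pareto_approx

theorem j12749_par_pos (α M c s : ℝ) (hM : 1 < M) : 0 < par α M c s := by
  have hr : ContinuousOn (fun u : ℝ => u ^ (-1 - α)) (Set.uIcc 1 M) := by
    intro u hu
    rw [Set.uIcc_of_le hM.le] at hu
    have hu0 : u ≠ 0 := by linarith [hu.1]
    exact (Real.continuousAt_rpow_const u _ (Or.inl hu0)).continuousWithinAt
  have he : ContinuousOn (fun u : ℝ => Real.exp (-(s * (c * (α / (1 - α) + u)))))
      (Set.uIcc 1 M) := by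
    apply Continuous.continuousOn
    fun_prop
  unfold par
  refine div_pos ?_ ?_
  · refine intervalIntegral.intervalIntegral_pos_of_pos_on (he.mul hr).intervalIntegrable
      (fun u hu => ?_) hM
    have hu0 : 0 < u := by linarith [hu.1]
    exact mul_pos (Real.exp_pos _) (Real.rpow_pos_of_pos hu0 _)
  · refine intervalIntegral.intervalIntegral_pos_of_pos_on hr.intervalIntegrable
      (fun u hu => ?_) hM
    have hu0 : 0 < u := by linarith [hu.1]
    exact Real.rpow_pos_of_pos hu0 _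

/-- C: approximation of `exp (-s^(p/2))` by powers of mixture laws. -/
theorem pareto_approx (p : ℝ) (hp : 1 < p) (hp2 : p < 2) :
    ∃ (g : ℕ → ℝ → ℝ) (C : ℝ), (∀ K, MixLaw (1 - p / 2) (g K)) ∧
      (∀ K s, 0 ≤ s → 0 < g K s) ∧
      (∀ s : ℝ, 0 ≤ s → Tendsto (fun K => (g K s) ^ (K + 1)) atTop (𝓝 (Real.exp (-(s ^ (p / 2)))))) ∧
      (∀ (K : ℕ) (s : ℝ), 0 ≤ s → (g K s) ^ (K + 1) ≤ C * Real.exp (-(s ^ (p / 2)))) := by
  obtain ⟨c, M, C, hc, hM, hlim, hdom⟩ := pareto_lim (p / 2) (by linarith) (by linarith)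
  exact ⟨fun K => par (p / 2) (M K) (c K), C,
    fun K => pareto_mix (p / 2) (M K) (c K) (by linarith) (by linarith) (hM K) (hc K),
    fun K s _ => j12749_par_pos _ _ _ _ (hM K), hlim, hdom⟩

end S_pareto_approx

theorem pareto_approx : type_of% @S_pareto_approx.pareto_approx := @S_pareto_approx.pareto_approx
end

section
namespace S_marg_logconcave

theorem good_pow (β : ℝ) (hβ : 0 ≤ β) (m : ℕ) (H : (Fin m → ℝ) → ℝ) (hH : Good β m H)
    (g : ℝ → ℝ) (hg : MixLaw β g) (w : Fin m → ℝ) (k : ℕ) :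
    Good β m (fun x => H x * g ((w ⬝ᵥ x) ^ 2) ^ k) := by
  induction k with
  | zero => simpa using hH
  | succ k ih =>
    have := good_mul β hβ m _ ih g hg w
    have e : (fun x => H x * g ((w ⬝ᵥ x) ^ 2) ^ k * g ((w ⬝ᵥ x) ^ 2)) =
        (fun x => H x * g ((w ⬝ᵥ x) ^ 2) ^ (k + 1)) := by
      funext x; ring
    rwa [e] at this

theorem good_prod (β : ℝ) (hβ : 0 ≤ β) (m : ℕ) (H : (Fin m → ℝ) → ℝ) (hH : Good β m H)
    (g : ℝ → ℝ) (hg : MixLaw β g) {ι : Type} (s : Finset ι) (w : ι → Fin m → ℝ) (k : ℕ) :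
    Good β m (fun x => H x * ∏ j ∈ s, g ((w j ⬝ᵥ x) ^ 2) ^ k) := by
  classical
  induction s using Finset.induction_on with
  | empty => simpa using hH
  | insert a s ha ih =>
    have := good_pow β hβ m _ ih g hg (w a) k
    have e : (fun x => (H x * ∏ j ∈ s, g ((w j ⬝ᵥ x) ^ 2) ^ k) * g ((w a ⬝ᵥ x) ^ 2) ^ k) =
        (fun x => H x * ∏ j ∈ insert a s, g ((w j ⬝ᵥ x) ^ 2) ^ k) := by
      funext x; rw [Finset.prod_insert ha]; ring
    rwa [e] at this

theorem good_meas {β : ℝ} {m : ℕ} {H : (Fin m → ℝ) → ℝ} (hH : Good β m H) :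
    StronglyMeasurable H := by
  obtain ⟨Ω, mΩ, μ, A, δ, C, h1, h2, h3, h4, h5, h6, h7, h8, h9⟩ := hH
  have e : H = fun x => ∫ ω, Real.exp (-quad (A ω) x) ∂μ := funext h8
  rw [e]
  have : StronglyMeasurable (fun q : (Fin m → ℝ) × Ω => Real.exp (-quad (A q.2) q.1)) := by
    apply Measurable.stronglyMeasurable
    apply Real.measurable_exp.comp
    apply Measurable.neg
    unfold quad
    apply Finset.measurable_fun_sum
    intro i _
    apply Finset.measurable_fun_sum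
    intro j _
    apply Measurable.mul
    · apply Measurable.mul
      · exact (h4 i j).comp measurable_snd
      · exact (measurable_pi_apply i).comp measurable_fst
    · exact (measurable_pi_apply j).comp measurable_fst
  exact this.integral_prod_right

theorem integrable_exp_abs {c : ℝ} (hc : 0 < c) :
    Integrable (fun x : ℝ => Real.exp (-(c * |x|))) := by
  rw [← integrableOn_univ, ← Iic_union_Ioi (a := (0 : ℝ))]
  apply IntegrableOn.union
  · apply (integrableOn_exp_mul_Iic hc 0).congr_fun _ measurableSet_Iic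
    intro x hx
    simp only [mem_Iic] at hx
    show Real.exp (c * x) = Real.exp (-(c * |x|))
    rw [abs_of_nonpos hx]; congr 1; ring
  · apply (integrableOn_exp_mul_Ioi (a := -c) (by linarith) 0).congr_fun _ measurableSet_Ioi
    intro x hx
    simp only [mem_Ioi] at hx
    show Real.exp (-c * x) = Real.exp (-(c * |x|))
    rw [abs_of_pos hx]; congr 1; ring

theorem integrable_exp_sum {d : ℕ} {c : ℝ} (hc : 0 < c) :
    Integrable (fun y : Fin d → ℝ => Real.exp (-(c * ∑ i, |y i|))) := by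
  have h := Integrable.fintype_prod (ι := Fin d) (𝕜 := ℝ) (f := fun _ (x : ℝ) => Real.exp (-(c * |x|)))
    (μ := fun _ => volume) (fun _ => integrable_exp_abs hc)
  have e : (fun y : Fin d → ℝ => Real.exp (-(c * ∑ i, |y i|))) =
      fun y : Fin d → ℝ => ∏ i, Real.exp (-(c * |y i|)) := by
    funext y
    rw [← Real.exp_sum]
    congr 1
    rw [Finset.mul_sum, Finset.sum_neg_distrib]
  rw [e]
  exact h

theorem lower_bd {d N : ℕ} (w : Fin N → Fin d → ℝ)
    (hspan : ∀ y : Fin d → ℝ, (∀ j, w j ⬝ᵥ y = 0) → y = 0) :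
    ∃ c : ℝ, 0 < c ∧ ∀ y : Fin d → ℝ, c * ∑ i, |y i| ≤ ∑ j, |w j ⬝ᵥ y| := by
  let L : (Fin d → ℝ) →ₗ[ℝ] (Fin N → ℝ) := Matrix.mulVecLin (Matrix.of w)
  have hL : ∀ y j, L y j = w j ⬝ᵥ y := fun y j => rfl
  have hker : LinearMap.ker L = ⊥ := by
    rw [LinearMap.ker_eq_bot']
    intro y hy
    apply hspan
    intro j
    rw [← hL, hy]; rfl
  obtain ⟨K, hK0, hK⟩ := L.exists_antilipschitzWith hker
  have h1 : ∀ y : Fin d → ℝ, ‖y‖ ≤ K * ‖L y‖ := by
    intro y
    have := hK.le_mul_dist y 0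
    simpa [dist_zero_right] using this
  have h2 : ∀ y : Fin d → ℝ, ‖L y‖ ≤ ∑ j, |w j ⬝ᵥ y| := by
    intro y
    rw [pi_norm_le_iff_of_nonneg (Finset.sum_nonneg fun _ _ => abs_nonneg _)]
    intro j
    rw [Real.norm_eq_abs, hL]
    exact Finset.single_le_sum (f := fun j => |w j ⬝ᵥ y|) (fun _ _ => abs_nonneg _)
      (Finset.mem_univ j)
  have h3 : ∀ y : Fin d → ℝ, ∑ i, |y i| ≤ d * ‖y‖ := by
    intro y
    calc ∑ i, |y i| ≤ ∑ _i : Fin d, ‖y‖ := Finset.sum_le_sum fun i _ => norm_le_pi_norm y i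
      _ = d * ‖y‖ := by simp
  refine ⟨1 / (d * K + 1), by positivity, ?_⟩
  intro y
  rw [div_mul_eq_mul_div, one_mul, div_le_iff₀ (by positivity)]
  have hs : 0 ≤ ∑ j, |w j ⬝ᵥ y| := Finset.sum_nonneg fun _ _ => abs_nonneg _
  calc ∑ i, |y i| ≤ d * ‖y‖ := h3 y
    _ ≤ d * (K * ∑ j, |w j ⬝ᵥ y|) := by
      gcongr
      exact (h1 y).trans (mul_le_mul_of_nonneg_left (h2 y) K.coe_nonneg)
    _ = (∑ j, |w j ⬝ᵥ y|) * (d * K) := by ring
    _ ≤ (∑ j, |w j ⬝ᵥ y|) * (d * K + 1) := by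
      apply mul_le_mul_of_nonneg_left _ hs
      linarith

theorem abs_rpow_ge (p : ℝ) (hp : 1 < p) (z : ℝ) : |z| - 1 ≤ |z| ^ p := by
  by_cases h : 1 ≤ |z|
  · have : |z| ^ (1 : ℝ) ≤ |z| ^ p := Real.rpow_le_rpow_of_exponent_le h hp.le
    rw [Real.rpow_one] at this
    linarith
  · have : 0 ≤ |z| ^ p := Real.rpow_nonneg (abs_nonneg _) _
    push Not at h
    linarith

theorem E0_bound (p : ℝ) (hp : 1 < p) {d N : ℕ} (w : Fin N → Fin d → ℝ) (b : Fin N → ℝ) (t c : ℝ)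
    (hc : ∀ y : Fin d → ℝ, c * ∑ i, |y i| ≤ ∑ j, |w j ⬝ᵥ y|) (y : Fin d → ℝ) :
    Real.exp (-∑ j, |w j ⬝ᵥ y + b j * t| ^ p) ≤
      Real.exp (N + ∑ j, |b j * t|) * Real.exp (-(c * ∑ i, |y i|)) := by
  rw [← Real.exp_add]
  apply Real.exp_le_exp.2
  have h1 : ∑ j, (|w j ⬝ᵥ y| - |b j * t| - 1) ≤ ∑ j, |w j ⬝ᵥ y + b j * t| ^ p := by
    apply Finset.sum_le_sum
    intro j _
    have h2 := abs_rpow_ge p hp (w j ⬝ᵥ y + b j * t)
    have h3 : |w j ⬝ᵥ y| - |b j * t| ≤ |w j ⬝ᵥ y + b j * t| := by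
      have h4 := abs_add_le (w j ⬝ᵥ y + b j * t) (-(b j * t))
      rw [abs_neg] at h4
      have h5 : w j ⬝ᵥ y + b j * t + -(b j * t) = w j ⬝ᵥ y := by ring
      rw [h5] at h4
      linarith
    linarith
  rw [Finset.sum_sub_distrib, Finset.sum_sub_distrib] at h1
  simp only [Finset.sum_const, Finset.card_univ, Fintype.card_fin, nsmul_eq_mul, mul_one] at h1
  have := hc y
  linarith

theorem E0_cont (p : ℝ) (hp : 1 < p) {d N : ℕ} (w : Fin N → Fin d → ℝ) (b : Fin N → ℝ) (t : ℝ) :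
    Continuous (fun y : Fin d → ℝ => Real.exp (-∑ j, |w j ⬝ᵥ y + b j * t| ^ p)) := by
  apply Real.continuous_exp.comp
  apply Continuous.neg
  apply continuous_finset_sum
  intro j _
  apply Continuous.rpow_const
  · apply Continuous.abs
    apply Continuous.add _ continuous_const
    unfold dotProduct
    fun_prop
  · intro y; right; linarith

theorem E0_int (p : ℝ) (hp : 1 < p) {d N : ℕ} (w : Fin N → Fin d → ℝ) (b : Fin N → ℝ) (t : ℝ)
    (hspan : ∀ y : Fin d → ℝ, (∀ j, w j ⬝ᵥ y = 0) → y = 0) :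
    Integrable (fun y : Fin d → ℝ => Real.exp (-∑ j, |w j ⬝ᵥ y + b j * t| ^ p)) := by
  obtain ⟨c, hc0, hc⟩ := lower_bd w hspan
  apply Integrable.mono' ((integrable_exp_sum (d := d) hc0).const_mul
    (Real.exp (N + ∑ j, |b j * t|)))
  · exact (E0_cont p hp w b t).aestronglyMeasurable
  · apply Filter.Eventually.of_forall
    intro y
    rw [Real.norm_eq_abs, abs_of_pos (Real.exp_pos _)]
    exact E0_bound p hp w b t c hc y

theorem sq_rpow (p z : ℝ) : (z ^ 2) ^ (p / 2) = |z| ^ p := by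
  rw [← sq_abs, ← Real.rpow_natCast, ← Real.rpow_mul (abs_nonneg z)]
  congr 1
  push_cast
  ring

theorem snoc_meas {d : ℕ} (t : ℝ) :
    Measurable (fun y : Fin d → ℝ => (Fin.snoc y t : Fin (d + 1) → ℝ)) := by
  apply measurable_pi_lambda
  intro i
  refine Fin.lastCases ?_ ?_ i
  · simp only [Fin.snoc_last]; exact measurable_const
  · intro j
    simp only [Fin.snoc_castSucc]; exact measurable_pi_apply j

theorem snoc_dot {d : ℕ} (w y : Fin d → ℝ) (b t : ℝ) :
    (Fin.snoc w b : Fin (d + 1) → ℝ) ⬝ᵥ (Fin.snoc y t : Fin (d + 1) → ℝ) = w ⬝ᵥ y + b * t := by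
  unfold dotProduct
  rw [Fin.sum_univ_castSucc]
  simp only [Fin.snoc_castSucc, Fin.snoc_last]

/-- Theorem S: the marginal is log-concave in `t^p`. -/
theorem marg_logconcave (p : ℝ) (hp : 1 < p) (hp2 : p < 2) (d N : ℕ) (w : Fin N → Fin d → ℝ)
    (b : Fin N → ℝ) (hspan : ∀ y : Fin d → ℝ, (∀ j, w j ⬝ᵥ y = 0) → y = 0) :
    ConcaveOn ℝ (Ioi 0) (fun s : ℝ => Real.log
      (∫ y : Fin d → ℝ, Real.exp (-∑ j, |w j ⬝ᵥ y + b j * s ^ (1 / p)| ^ p))) := by
  obtain ⟨g, C, hMix, hpos, hlim, hbd⟩ := pareto_approx p hp hp2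
  have hβ : 0 ≤ 1 - p / 2 := by linarith
  have hβ2 : 1 - p / 2 < 1 / 2 := by linarith
  let w' : Fin N → Fin (d + 1) → ℝ := fun j => Fin.snoc (w j) (b j)
  let H : ℕ → (Fin (d + 1) → ℝ) → ℝ := fun K x =>
    Real.exp (-(1 / ((K : ℝ) + 1) * ∑ i, x i ^ 2)) * ∏ j, g K ((w' j ⬝ᵥ x) ^ 2) ^ (K + 1)
  have hG : ∀ K, Good (1 - p / 2) (d + 1) (H K) := fun K =>
    good_prod _ hβ (d + 1) _ (good_gauss _ hβ (d + 1) (1 / ((K : ℝ) + 1)) (by positivity)) (g K)
      (hMix K) Finset.univ w' (K + 1)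
  have hconc : ∀ K, ConcaveOn ℝ (Ioi 0) (fun s : ℝ => Real.log
      (∫ y : Fin d → ℝ, H K (Fin.snoc y (s ^ (1 / p))))) := fun K =>
    good_one p hp hp2 _ (good_last _ hβ hβ2 d (H K) (hG K))
  have hC : 0 ≤ C := by
    have h1 := hbd 0 0 le_rfl
    have h2 := hpos 0 0 le_rfl
    have h3 : 0 < C * Real.exp (-((0 : ℝ) ^ (p / 2))) := lt_of_lt_of_le (by positivity) h1
    exact (pos_of_mul_pos_left h3 (Real.exp_pos _).le).le
  have hHeq : ∀ K (y : Fin d → ℝ) (t : ℝ), H K (Fin.snoc y t) =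
      Real.exp (-(1 / ((K : ℝ) + 1) * ∑ i, (Fin.snoc y t : Fin (d + 1) → ℝ) i ^ 2)) *
        ∏ j, g K ((w j ⬝ᵥ y + b j * t) ^ 2) ^ (K + 1) := by
    intro K y t
    show Real.exp _ * ∏ j, g K ((w' j ⬝ᵥ _) ^ 2) ^ (K + 1) = _
    simp only [w', snoc_dot]
  have hHpos : ∀ K (y : Fin d → ℝ) (t : ℝ), 0 ≤ H K (Fin.snoc y t) := by
    intro K y t
    rw [hHeq]
    apply mul_nonneg (Real.exp_pos _).le
    apply Finset.prod_nonneg
    intro j _
    exact pow_nonneg (hpos K _ (sq_nonneg _)).le _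
  have hHle : ∀ K (y : Fin d → ℝ) (t : ℝ), H K (Fin.snoc y t) ≤
      C ^ N * Real.exp (-∑ j, |w j ⬝ᵥ y + b j * t| ^ p) := by
    intro K y t
    rw [hHeq]
    have h1 : Real.exp (-(1 / ((K : ℝ) + 1) * ∑ i, (Fin.snoc y t : Fin (d + 1) → ℝ) i ^ 2)) ≤ 1 := by
      rw [Real.exp_le_one_iff, neg_nonpos]
      exact mul_nonneg (by positivity) (Finset.sum_nonneg fun _ _ => sq_nonneg _)
    have h2 : ∏ j, g K ((w j ⬝ᵥ y + b j * t) ^ 2) ^ (K + 1) ≤
        ∏ j, (C * Real.exp (-(|w j ⬝ᵥ y + b j * t| ^ p))) := by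
      apply Finset.prod_le_prod
      · intro j _; exact pow_nonneg (hpos K _ (sq_nonneg _)).le _
      · intro j _
        have := hbd K _ (sq_nonneg (w j ⬝ᵥ y + b j * t))
        rwa [sq_rpow] at this
    have h3 : ∏ j : Fin N, (C * Real.exp (-(|w j ⬝ᵥ y + b j * t| ^ p))) =
        C ^ N * Real.exp (-∑ j, |w j ⬝ᵥ y + b j * t| ^ p) := by
      rw [Finset.prod_mul_distrib, ← Real.exp_sum, Finset.sum_neg_distrib]
      simp
    have h4 : 0 ≤ ∏ j, g K ((w j ⬝ᵥ y + b j * t) ^ 2) ^ (K + 1) :=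
      Finset.prod_nonneg fun j _ => pow_nonneg (hpos K _ (sq_nonneg _)).le _
    calc _ ≤ 1 * ∏ j, g K ((w j ⬝ᵥ y + b j * t) ^ 2) ^ (K + 1) :=
          mul_le_mul_of_nonneg_right h1 h4
      _ ≤ _ := by rw [one_mul, ← h3]; exact h2
  have hptw : ∀ (y : Fin d → ℝ) (t : ℝ), Tendsto (fun K => H K (Fin.snoc y t)) atTop
      (𝓝 (Real.exp (-∑ j, |w j ⬝ᵥ y + b j * t| ^ p))) := by
    intro y t
    have e : Real.exp (-∑ j, |w j ⬝ᵥ y + b j * t| ^ p) =
        Real.exp (-(0 * ∑ i, (Fin.snoc y t : Fin (d + 1) → ℝ) i ^ 2)) *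
          ∏ j, Real.exp (-(|w j ⬝ᵥ y + b j * t| ^ p)) := by
      rw [← Real.exp_sum, Finset.sum_neg_distrib]; simp
    rw [e]
    simp only [hHeq]
    apply Tendsto.mul
    · apply (Real.continuous_exp.tendsto _).comp
      apply Tendsto.neg
      apply Tendsto.mul_const
      exact tendsto_one_div_add_atTop_nhds_zero_nat
    · apply tendsto_finsetProd
      intro j _
      have := hlim _ (sq_nonneg (w j ⬝ᵥ y + b j * t))
      rwa [sq_rpow] at this
  have hI : ∀ t : ℝ, Tendsto (fun K => ∫ y : Fin d → ℝ, H K (Fin.snoc y t)) atTop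
      (𝓝 (∫ y : Fin d → ℝ, Real.exp (-∑ j, |w j ⬝ᵥ y + b j * t| ^ p))) := by
    intro t
    apply tendsto_integral_of_dominated_convergence
      (fun y => C ^ N * Real.exp (-∑ j, |w j ⬝ᵥ y + b j * t| ^ p))
    · intro K
      exact ((good_meas (hG K)).measurable.comp (snoc_meas t)).aestronglyMeasurable
    · exact (E0_int p hp w b t hspan).const_mul _
    · intro K
      apply Filter.Eventually.of_forall
      intro y
      rw [Real.norm_eq_abs, abs_of_nonneg (hHpos K y t)]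
      exact hHle K y t
    · apply Filter.Eventually.of_forall
      intro y
      exact hptw y t
  have hIpos : ∀ t : ℝ, 0 < ∫ y : Fin d → ℝ, Real.exp (-∑ j, |w j ⬝ᵥ y + b j * t| ^ p) :=
    fun t => integral_exp_pos (E0_int p hp w b t hspan)
  have hlog : ∀ t : ℝ, Tendsto (fun K => Real.log (∫ y : Fin d → ℝ, H K (Fin.snoc y t))) atTop
      (𝓝 (Real.log (∫ y : Fin d → ℝ, Real.exp (-∑ j, |w j ⬝ᵥ y + b j * t| ^ p)))) :=
    fun t => (hI t).log (hIpos t).ne'
  refine ⟨convex_Ioi 0, ?_⟩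
  intro x hx y hy α γ hα hγ hαγ
  refine le_of_tendsto_of_tendsto' (((hlog _).const_smul α).add ((hlog _).const_smul γ))
    (hlog _) ?_
  intro K
  exact (hconc K).2 hx hy hα hγ hαγ

end S_marg_logconcave

theorem marg_logconcave : type_of% @S_marg_logconcave.marg_logconcave := @S_marg_logconcave.marg_logconcave
end

end VPL
end
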