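import Mathlib
import Pool.Agent.VPL.Marg

set_option autoImplicit false
open MeasureTheory Set Filter Topology Matrix

noncomputable section
namespace VPL

section
namespace S_gamma_compare

lemma gc_int_pos (g : ℝ → ℝ) (hg : ∀ s, 0 < s → 0 < g s) (hi : IntegrableOn g (Ioi 0)) :
    0 < ∫ s in Ioi (0:ℝ), g s := by
  rw [setIntegral_pos_iff_support_of_nonneg_ae]
  · have : Ioi (0:ℝ) ⊆ Function.support g ∩ Ioi 0 := fun s hs => ⟨(hg s hs).ne', hs⟩
    refine lt_of_lt_of_le ?_ (measure_mono this)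
    simp
  · filter_upwards [ae_restrict_mem measurableSet_Ioi] with s hs
    exact (hg s hs).le
  · exact hi

/-- for every nonempty order connected set of positive reals there is an affine function which is
above the exponential on the set and below it outside -/
lemma gc_affine (v : ℝ) (hv : 0 ≤ v) (S : Set ℝ) (hS : S ⊆ Ioi 0) (hne : S.Nonempty)
    (hc : S.OrdConnected) : ∃ A B : ℝ, (∀ s ∈ S, Real.exp (-(v * s)) ≤ A + B * s) ∧
      ∀ s, 0 < s → s ∉ S → A + B * s ≤ Real.exp (-(v * s)) := by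
  have hbb : BddBelow S := ⟨0, fun s hs => (hS hs).le⟩
  set p := sInf S with hp
  have hp_le : ∀ s ∈ S, p ≤ s := fun s hs => csInf_le hbb hs
  by_cases hba : BddAbove S
  · set q := sSup S with hq
    have hq_ge : ∀ s ∈ S, s ≤ q := fun s hs => le_csSup hba hs
    have hout : ∀ s, 0 < s → s ∉ S → s ≤ p ∨ q ≤ s := by
      intro s _ hs
      by_contra hcon
      push Not at hcon
      obtain ⟨h1, h2⟩ := hcon
      obtain ⟨x, hx, hxs⟩ := exists_lt_of_csInf_lt hne h1
      obtain ⟨y, hy, hys⟩ := exists_lt_of_lt_csSup hne h2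
      exact hs (hc.out hx hy ⟨hxs.le, hys.le⟩)
    have hpq : p ≤ q := by
      obtain ⟨x, hx⟩ := hne
      exact (hp_le x hx).trans (hq_ge x hx)
    rcases hpq.eq_or_lt with hpq | hpq
    · -- tangent line
      refine ⟨Real.exp (-(v * q)) * (1 + v * q), -(v * Real.exp (-(v * q))), ?_, ?_⟩
      · intro s hs
        have : s = q := le_antisymm (hq_ge s hs) (hpq ▸ hp_le s hs)
        rw [this]
        have : Real.exp (-(v * q)) * (1 + v * q) + -(v * Real.exp (-(v * q))) * q =
          Real.exp (-(v * q)) := by ring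
        rw [this]
      · intro s _ _
        have h1 := Real.add_one_le_exp (-(v * (s - q)))
        have h2 : Real.exp (-(v * s)) = Real.exp (-(v * q)) * Real.exp (-(v * (s - q))) := by
          rw [← Real.exp_add]; congr 1; ring
        rw [h2]
        have h3 := mul_le_mul_of_nonneg_left h1 (Real.exp_pos (-(v * q))).le
        linarith
    · -- chord
      have hconv : ConvexOn ℝ univ (fun s : ℝ => Real.exp (-(v * s))) := by
        have h1 := convexOn_exp.comp_linearMap (-(v • (LinearMap.id : ℝ →ₗ[ℝ] ℝ)))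
        convert! h1 using 1
      set f : ℝ → ℝ := fun s => Real.exp (-(v * s)) with hf
      set σ := (f q - f p) / (q - p) with hσ
      refine ⟨f p - σ * p, σ, ?_, ?_⟩
      · intro s hs
        have h1 := hp_le s hs
        have h2 := hq_ge s hs
        rcases h1.eq_or_lt with h1 | h1
        · show f s ≤ _
          rw [← h1]; linarith
        · have h3 := hconv.secant_mono (mem_univ p) (mem_univ s) (mem_univ q) h1.ne' hpq.ne' h2
          have h4 : 0 < s - p := sub_pos.mpr h1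
          rw [div_le_iff₀ h4] at h3
          show f s ≤ _
          have h5 : f s - f p ≤ σ * (s - p) := h3
          linarith
      · intro s hs0 hs
        show _ ≤ f s
        rcases hout s hs0 hs with h1 | h1
        · rcases h1.eq_or_lt with h1 | h1
          · rw [h1]; linarith
          · have h3 := hconv.secant_mono (mem_univ p) (mem_univ s) (mem_univ q) h1.ne hpq.ne'
              (h1.le.trans hpq.le)
            have h4 : s - p < 0 := sub_neg.mpr h1
            rw [div_le_iff_of_neg h4] at h3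
            have h5 : σ * (s - p) ≤ f s - f p := h3
            linarith
        · have h6 : p < s := hpq.trans_le h1
          have h3 := hconv.secant_mono (mem_univ p) (mem_univ q) (mem_univ s) hpq.ne' h6.ne' h1
          have h4 : 0 < s - p := sub_pos.mpr h6
          rw [le_div_iff₀ h4] at h3
          have h5 : σ * (s - p) ≤ f s - f p := h3
          linarith
  · -- unbounded
    refine ⟨Real.exp (-(v * p)), 0, ?_, ?_⟩
    · intro s hs
      rw [zero_mul, add_zero]
      apply Real.exp_le_exp.mpr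
      have := mul_le_mul_of_nonneg_left (hp_le s hs) hv
      linarith
    · intro s hs0 hs
      rw [zero_mul, add_zero]
      apply Real.exp_le_exp.mpr
      have h1 : s ≤ p := by
        by_contra hcon
        push Not at hcon
        obtain ⟨x, hx, hxs⟩ := exists_lt_of_csInf_lt hne hcon
        rw [bddAbove_def] at hba
        push Not at hba
        obtain ⟨y, hy, hys⟩ := hba s
        exact hs (hc.out hx hy ⟨hxs.le, hys.le⟩)
      have := mul_le_mul_of_nonneg_left h1 hv
      linarith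

/-- E1: comparison with the Gamma density. -/
theorem gamma_compare (k : ℝ → ℝ) (a v : ℝ) (ha : 0 < a) (hv : 0 ≤ v) (hk : ∀ s, 0 < s → 0 < k s)
    (hconc : ConcaveOn ℝ (Ioi 0) (fun s => Real.log (k s)))
    (hmeas : Measurable k)
    (hi0 : IntegrableOn (fun s => s ^ (a - 1) * k s) (Ioi 0))
    (hi1 : IntegrableOn (fun s => s ^ a * k s) (Ioi 0)) :
    ∫ s in Ioi (0:ℝ), Real.exp (-(v * s)) * (s ^ (a - 1) * k s) ≤
      (1 + v * ((∫ s in Ioi (0:ℝ), s ^ a * k s) / ∫ s in Ioi (0:ℝ), s ^ (a - 1) * k s) / a) ^ (-a) *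
        ∫ s in Ioi (0:ℝ), s ^ (a - 1) * k s := by
  have hI0 : 0 < ∫ s in Ioi (0:ℝ), s ^ (a - 1) * k s :=
    gc_int_pos _ (fun s hs => mul_pos (Real.rpow_pos_of_pos hs _) (hk s hs)) hi0
  have hI1 : 0 < ∫ s in Ioi (0:ℝ), s ^ a * k s :=
    gc_int_pos _ (fun s hs => mul_pos (Real.rpow_pos_of_pos hs _) (hk s hs)) hi1
  set I0 := ∫ s in Ioi (0:ℝ), s ^ (a - 1) * k s with hI0d
  set I1 := ∫ s in Ioi (0:ℝ), s ^ a * k s with hI1d
  set c := a * I0 / I1 with hc
  have hc0 : 0 < c := by positivity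
  have hGa : 0 < Real.Gamma a := Real.Gamma_pos_of_pos ha
  set G := I0 * c ^ a / Real.Gamma a with hG
  have hG0 : 0 < G := by positivity
  have hpow : ∀ s : ℝ, 0 < s → s ^ (a - 1) * s = s ^ a := by
    intro s hs
    rw [Real.rpow_sub_one hs.ne', div_mul_cancel₀ _ hs.ne']
  -- Gamma integrals
  have g1 : ∀ r : ℝ, 0 < r → ∀ b : ℝ, 0 < b →
      IntegrableOn (fun t : ℝ => t ^ (b - 1) * Real.exp (-(r * t))) (Ioi 0) := by
    intro r hr b hb
    have := integrableOn_rpow_mul_exp_neg_mul_rpow (p := 1) (s := b - 1) (by linarith) one_pos hr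
    refine this.congr_fun ?_ measurableSet_Ioi
    intro t ht
    simp only [Real.rpow_one, neg_mul]
  have g2 : ∀ r : ℝ, 0 < r → ∀ b : ℝ, 0 < b →
      ∫ t in Ioi (0:ℝ), t ^ (b - 1) * Real.exp (-(r * t)) = (1 / r) ^ b * Real.Gamma b := by
    intro r hr b hb
    exact Real.integral_rpow_mul_exp_neg_mul_Ioi hb hr
  -- integrals of the comparison density
  have j0 : IntegrableOn (fun s : ℝ => s ^ (a - 1) * (G * Real.exp (-(c * s)))) (Ioi 0) := by
    have := (g1 c hc0 a ha).const_mul G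
    refine IntegrableOn.congr_fun this ?_ measurableSet_Ioi
    intro t _
    simp only
    ring
  have e0 : ∫ s in Ioi (0:ℝ), s ^ (a - 1) * (G * Real.exp (-(c * s))) = I0 := by
    have : ∫ s in Ioi (0:ℝ), s ^ (a - 1) * (G * Real.exp (-(c * s))) =
        G * ∫ s in Ioi (0:ℝ), s ^ (a - 1) * Real.exp (-(c * s)) := by
      rw [← integral_const_mul]
      congr 1
      funext s
      ring
    rw [this, g2 c hc0 a ha, hG, one_div, Real.inv_rpow hc0.le]
    have h1 : c ^ a ≠ 0 := (Real.rpow_pos_of_pos hc0 a).ne'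
    field_simp
  have j1 : IntegrableOn (fun s : ℝ => s ^ a * (G * Real.exp (-(c * s)))) (Ioi 0) := by
    have := (g1 c hc0 (a + 1) (by linarith)).const_mul G
    refine IntegrableOn.congr_fun this ?_ measurableSet_Ioi
    intro t _
    simp only [add_sub_cancel_right]
    ring
  have e1 : ∫ s in Ioi (0:ℝ), s ^ a * (G * Real.exp (-(c * s))) = I1 := by
    have : ∫ s in Ioi (0:ℝ), s ^ a * (G * Real.exp (-(c * s))) =
        G * ∫ s in Ioi (0:ℝ), s ^ (a + 1 - 1) * Real.exp (-(c * s)) := by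
      rw [← integral_const_mul, add_sub_cancel_right]
      congr 1
      funext s
      ring
    rw [this, g2 c hc0 (a + 1) (by linarith), hG, one_div, Real.inv_rpow hc0.le,
      Real.rpow_add_one hc0.ne', Real.Gamma_add_one ha.ne']
    have h1 : c ^ a ≠ 0 := (Real.rpow_pos_of_pos hc0 a).ne'
    have h2 : I0 * c ^ a / Real.Gamma a * ((c ^ a * c)⁻¹ * (a * Real.Gamma a)) = I0 * a / c := by
      field_simp
    rw [h2, hc]
    field_simp
  have hcv : 0 < c + v := by linarith
  have jv : IntegrableOn (fun s : ℝ => Real.exp (-(v * s)) *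
      (s ^ (a - 1) * (G * Real.exp (-(c * s))))) (Ioi 0) := by
    have := (g1 (c + v) hcv a ha).const_mul G
    refine IntegrableOn.congr_fun this ?_ measurableSet_Ioi
    intro t _
    simp only
    rw [show -((c + v) * t) = -(v * t) + -(c * t) by ring, Real.exp_add]
    ring
  have ev : ∫ s in Ioi (0:ℝ), Real.exp (-(v * s)) * (s ^ (a - 1) * (G * Real.exp (-(c * s)))) =
      (1 + v * (I1 / I0) / a) ^ (-a) * I0 := by
    have : ∫ s in Ioi (0:ℝ), Real.exp (-(v * s)) * (s ^ (a - 1) * (G * Real.exp (-(c * s)))) =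
        G * ∫ s in Ioi (0:ℝ), s ^ (a - 1) * Real.exp (-((c + v) * s)) := by
      rw [← integral_const_mul]
      congr 1
      funext s
      rw [show -((c + v) * s) = -(v * s) + -(c * s) by ring, Real.exp_add]
      ring
    rw [this, g2 (c + v) hcv a ha, hG]
    have h1 : 1 + v * (I1 / I0) / a = (c + v) / c := by
      rw [hc]
      field_simp
    rw [h1, Real.rpow_neg (by positivity), Real.div_rpow hcv.le hc0.le, one_div,
      Real.inv_rpow hcv.le]
    have h2 : (c + v) ^ a ≠ 0 := (Real.rpow_pos_of_pos hcv a).ne'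
    have h3 : c ^ a ≠ 0 := (Real.rpow_pos_of_pos hc0 a).ne'
    field_simp
  have iv : IntegrableOn (fun s : ℝ => Real.exp (-(v * s)) * (s ^ (a - 1) * k s)) (Ioi 0) := by
    refine Integrable.mono' hi0 ?_ ?_
    · apply Measurable.aestronglyMeasurable
      fun_prop
    · filter_upwards [ae_restrict_mem measurableSet_Ioi] with s hs
      have h0 : 0 ≤ s ^ (a - 1) * k s := (mul_pos (Real.rpow_pos_of_pos hs _) (hk s hs)).le
      rw [Real.norm_of_nonneg (mul_nonneg (Real.exp_pos _).le h0)]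
      have h1 : Real.exp (-(v * s)) ≤ 1 := by
        apply Real.exp_le_one_iff.mpr
        have : 0 ≤ v * s := mul_nonneg hv (le_of_lt hs)
        linarith
      calc Real.exp (-(v * s)) * (s ^ (a - 1) * k s) ≤ 1 * (s ^ (a - 1) * k s) :=
            mul_le_mul_of_nonneg_right h1 h0
        _ = _ := one_mul _
  -- the set where `k` is above the comparison density
  set S : Set ℝ := {s ∈ Ioi (0:ℝ) | Real.log G ≤ Real.log (k s) + c * s} with hSd
  have hSiff : ∀ s, 0 < s → (s ∈ S ↔ G * Real.exp (-(c * s)) ≤ k s) := by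
    intro s hs
    have h1 : s ∈ S ↔ Real.log G ≤ Real.log (k s) + c * s :=
      ⟨fun h => h.2, fun h => ⟨hs, h⟩⟩
    rw [h1, ← Real.log_le_log_iff (by positivity) (hk s hs), Real.log_mul hG0.ne'
      (Real.exp_pos _).ne', Real.log_exp]
    constructor <;> intro h <;> linarith
  have hSc : S.OrdConnected := by
    have hlin : ConcaveOn ℝ (Ioi (0:ℝ)) (fun s => c * s) := by
      refine ⟨convex_Ioi 0, ?_⟩
      intro x _ y _ α β _ _ _
      simp only [smul_eq_mul]
      apply le_of_eq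
      ring
    exact ((hconc.add hlin).convex_ge (Real.log G)).ordConnected
  have hSne : S.Nonempty := by
    by_contra hcon
    rw [not_nonempty_iff_eq_empty] at hcon
    have hlt : ∀ s, 0 < s → 0 < s ^ (a - 1) * (G * Real.exp (-(c * s))) - s ^ (a - 1) * k s := by
      intro s hs
      have h1 : ¬ G * Real.exp (-(c * s)) ≤ k s := by
        rw [← hSiff s hs, hcon]
        exact notMem_empty s
      push Not at h1
      have h2 := Real.rpow_pos_of_pos hs (a - 1)
      have := mul_lt_mul_of_pos_left h1 h2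
      linarith
    have h3 := gc_int_pos _ hlt (j0.sub hi0)
    rw [integral_sub j0 hi0, e0] at h3
    linarith
  obtain ⟨A, B, hA, hB⟩ := gc_affine v hv S (fun s hs => hs.1) hSne hSc
  rw [← ev]
  -- the four integrals
  have d0 : IntegrableOn (fun s : ℝ => s ^ (a - 1) * k s -
      s ^ (a - 1) * (G * Real.exp (-(c * s)))) (Ioi 0) := hi0.sub j0
  have d1 : IntegrableOn (fun s : ℝ => s ^ a * k s -
      s ^ a * (G * Real.exp (-(c * s)))) (Ioi 0) := hi1.sub j1
  have dv : IntegrableOn (fun s : ℝ => Real.exp (-(v * s)) * (s ^ (a - 1) * k s) -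
      Real.exp (-(v * s)) * (s ^ (a - 1) * (G * Real.exp (-(c * s))))) (Ioi 0) := iv.sub jv
  have z0 : ∫ s in Ioi (0:ℝ), (s ^ (a - 1) * k s - s ^ (a - 1) * (G * Real.exp (-(c * s)))) = 0 := by
    rw [integral_sub hi0 j0, e0]; ring
  have z1 : ∫ s in Ioi (0:ℝ), (s ^ a * k s - s ^ a * (G * Real.exp (-(c * s)))) = 0 := by
    rw [integral_sub hi1 j1, e1]; ring
  have zv : ∫ s in Ioi (0:ℝ), (Real.exp (-(v * s)) * (s ^ (a - 1) * k s) -
      Real.exp (-(v * s)) * (s ^ (a - 1) * (G * Real.exp (-(c * s))))) ≤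
      ∫ s in Ioi (0:ℝ), (A * (s ^ (a - 1) * k s - s ^ (a - 1) * (G * Real.exp (-(c * s)))) +
        B * (s ^ a * k s - s ^ a * (G * Real.exp (-(c * s))))) := by
    apply setIntegral_mono_on dv ((d0.const_mul A).add (d1.const_mul B)) measurableSet_Ioi
    intro s hs
    have hs0 : 0 < s := hs
    have h2 := Real.rpow_pos_of_pos hs0 (a - 1)
    have key : (Real.exp (-(v * s)) - (A + B * s)) * (k s - G * Real.exp (-(c * s))) ≤ 0 := by
      by_cases hsS : s ∈ S
      · have h3 := hA s hsS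
        have h4 := (hSiff s hs0).mp hsS
        exact mul_nonpos_of_nonpos_of_nonneg (by linarith) (by linarith)
      · have h3 := hB s hs0 hsS
        have h4 : ¬ G * Real.exp (-(c * s)) ≤ k s := fun h => hsS ((hSiff s hs0).mpr h)
        push Not at h4
        exact mul_nonpos_of_nonneg_of_nonpos (by linarith) (by linarith)
    have h5 := mul_nonneg_of_nonpos_of_nonpos key (neg_nonpos.mpr h2.le)
    show Real.exp (-(v * s)) * (s ^ (a - 1) * k s) -
      Real.exp (-(v * s)) * (s ^ (a - 1) * (G * Real.exp (-(c * s)))) ≤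
      A * (s ^ (a - 1) * k s - s ^ (a - 1) * (G * Real.exp (-(c * s)))) +
        B * (s ^ a * k s - s ^ a * (G * Real.exp (-(c * s))))
    rw [← hpow s hs0]
    linarith [h5]
  have zz : ∫ s in Ioi (0:ℝ), (A * (s ^ (a - 1) * k s - s ^ (a - 1) * (G * Real.exp (-(c * s)))) +
        B * (s ^ a * k s - s ^ a * (G * Real.exp (-(c * s))))) = 0 := by
    rw [integral_add (d0.const_mul A) (d1.const_mul B), integral_const_mul, integral_const_mul,
      z0, z1]
    ring
  rw [integral_sub iv jv, zz] at zv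
  linarith

end S_gamma_compare

theorem gamma_compare : type_of% @S_gamma_compare.gamma_compare := @S_gamma_compare.gamma_compare
end

section
namespace S_even_compare

theorem ec_subst (p : ℝ) (hp : 1 < p) (h G : ℝ → ℝ) :
    ∫ s in Ioi (0:ℝ), s ^ (1 / p - 1) * h (s ^ (1 / p)) * G s =
      p * ∫ x in Ioi (0:ℝ), h x * G (x ^ p) := by
  have hp0 : 0 < p := by linarith
  have h1 := integral_comp_rpow_Ioi_of_pos
    (g := fun s : ℝ => s ^ (1 / p - 1) * h (s ^ (1 / p)) * G s) hp0
  rw [← h1, ← integral_const_mul]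
  refine setIntegral_congr_fun measurableSet_Ioi ?_
  intro x hx
  have hx0 : 0 < x := hx
  have e1 : (x ^ p) ^ (1 / p) = x := by
    rw [← Real.rpow_mul hx0.le, mul_one_div_cancel hp0.ne', Real.rpow_one]
  have e2 : x ^ (p - 1) * (x ^ p) ^ (1 / p - 1) = 1 := by
    rw [← Real.rpow_mul hx0.le, ← Real.rpow_add hx0]
    have : p - 1 + p * (1 / p - 1) = 0 := by
      field_simp
      ring
    rw [this, Real.rpow_zero]
  simp only [smul_eq_mul]
  rw [e1]
  calc p * x ^ (p - 1) * ((x ^ p) ^ (1 / p - 1) * h x * G (x ^ p))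
      = p * (x ^ (p - 1) * (x ^ p) ^ (1 / p - 1)) * (h x * G (x ^ p)) := by ring
    _ = p * (h x * G (x ^ p)) := by rw [e2, mul_one]

theorem ec_int (p : ℝ) (hp : 1 < p) (h G : ℝ → ℝ)
    (hi : IntegrableOn (fun x => h x * G (x ^ p)) (Ioi 0)) :
    IntegrableOn (fun s : ℝ => s ^ (1 / p - 1) * h (s ^ (1 / p)) * G s) (Ioi 0) := by
  have hp0 : 0 < p := by linarith
  rw [← integrableOn_Ioi_comp_rpow_iff' _ hp0.ne']
  refine hi.congr_fun ?_ measurableSet_Ioi
  intro x hx
  have hx0 : 0 < x := hx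
  have e1 : (x ^ p) ^ (1 / p) = x := by
    rw [← Real.rpow_mul hx0.le, mul_one_div_cancel hp0.ne', Real.rpow_one]
  have e2 : x ^ (p - 1) * (x ^ p) ^ (1 / p - 1) = 1 := by
    rw [← Real.rpow_mul hx0.le, ← Real.rpow_add hx0]
    have : p - 1 + p * (1 / p - 1) = 0 := by
      field_simp
      ring
    rw [this, Real.rpow_zero]
  simp only [smul_eq_mul]
  rw [e1]
  calc h x * G (x ^ p) = (x ^ (p - 1) * (x ^ p) ^ (1 / p - 1)) * (h x * G (x ^ p)) := by
        rw [e2, one_mul]
    _ = x ^ (p - 1) * ((x ^ p) ^ (1 / p - 1) * h x * G (x ^ p)) := by ring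

theorem ec_even (h G : ℝ → ℝ) (heven : ∀ t, h (-t) = h t) :
    ∫ t, G |t| * h t = 2 * ∫ x in Ioi (0:ℝ), G x * h x := by
  rw [← integral_comp_abs (f := fun x => G x * h x)]
  refine integral_congr_ae (Eventually.of_forall ?_)
  intro t
  have : h |t| = h t := by
    rcases abs_choice t with h1 | h1 <;> rw [h1]
    exact heven t
  simp only [this]

/-- E2: the version for an even density `h` on `ℝ`, log-concave in `|t|^p`. -/
theorem even_compare (p : ℝ) (hp : 1 < p) (h : ℝ → ℝ) (v : ℝ) (hv : 0 ≤ v) (hpos : ∀ t, 0 < h t)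
    (heven : ∀ t, h (-t) = h t) (hmeas : Measurable h)
    (hconc : ConcaveOn ℝ (Ioi 0) (fun s : ℝ => Real.log (h (s ^ (1 / p)))))
    (hi0 : Integrable h) (hi1 : Integrable (fun t => |t| ^ p * h t)) :
    ∫ t, Real.exp (-(v * |t| ^ p)) * h t ≤
      (1 + p * v * ((∫ t, |t| ^ p * h t) / ∫ t, h t)) ^ (-(1 / p)) * ∫ t, h t := by
  have hp0 : 0 < p := by linarith
  have ha : 0 < 1 / p := by positivity
  -- the half line integrals
  have I0 : ∫ t, h t = 2 * ∫ x in Ioi (0:ℝ), h x := by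
    have := ec_even h (fun _ => 1) heven
    simpa using this
  have I1 : ∫ t, |t| ^ p * h t = 2 * ∫ x in Ioi (0:ℝ), x ^ p * h x :=
    ec_even h (fun x => x ^ p) heven
  have Iv : ∫ t, Real.exp (-(v * |t| ^ p)) * h t =
      2 * ∫ x in Ioi (0:ℝ), Real.exp (-(v * x ^ p)) * h x :=
    ec_even h (fun x => Real.exp (-(v * x ^ p))) heven
  have J0 : ∫ s in Ioi (0:ℝ), s ^ (1 / p - 1) * h (s ^ (1 / p)) = p * ∫ x in Ioi (0:ℝ), h x := by
    have := ec_subst p hp h (fun _ => 1)
    simpa using this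
  have J1' : ∫ s in Ioi (0:ℝ), s ^ (1 / p - 1) * h (s ^ (1 / p)) * s =
      p * ∫ x in Ioi (0:ℝ), h x * x ^ p := ec_subst p hp h (fun s => s)
  have hsa : ∀ s ∈ Ioi (0:ℝ), s ^ (1 / p - 1) * h (s ^ (1 / p)) * s =
      s ^ (1 / p) * h (s ^ (1 / p)) := by
    intro s hs
    have hs0 : 0 < s := hs
    have : s ^ (1 / p) = s ^ (1 / p - 1) * s := by
      rw [← Real.rpow_add_one hs0.ne']
      congr 1
      ring
    calc s ^ (1 / p - 1) * h (s ^ (1 / p)) * s = (s ^ (1 / p - 1) * s) * h (s ^ (1 / p)) := by ring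
      _ = s ^ (1 / p) * h (s ^ (1 / p)) := by rw [← this]
  have J1 : ∫ s in Ioi (0:ℝ), s ^ (1 / p) * h (s ^ (1 / p)) =
      p * ∫ x in Ioi (0:ℝ), x ^ p * h x := by
    rw [← setIntegral_congr_fun measurableSet_Ioi hsa, J1']
    congr 1
    refine setIntegral_congr_fun measurableSet_Ioi ?_
    intro x _
    exact mul_comm _ _
  have Jv : ∫ s in Ioi (0:ℝ), Real.exp (-(v * s)) * (s ^ (1 / p - 1) * h (s ^ (1 / p))) =
      p * ∫ x in Ioi (0:ℝ), Real.exp (-(v * x ^ p)) * h x := by
    have := ec_subst p hp h (fun s => Real.exp (-(v * s)))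
    calc ∫ s in Ioi (0:ℝ), Real.exp (-(v * s)) * (s ^ (1 / p - 1) * h (s ^ (1 / p)))
        = ∫ s in Ioi (0:ℝ), s ^ (1 / p - 1) * h (s ^ (1 / p)) * Real.exp (-(v * s)) := by
          refine setIntegral_congr_fun measurableSet_Ioi ?_
          intro x _
          exact mul_comm _ _
      _ = p * ∫ x in Ioi (0:ℝ), h x * Real.exp (-(v * x ^ p)) := this
      _ = p * ∫ x in Ioi (0:ℝ), Real.exp (-(v * x ^ p)) * h x := by
          congr 1
          refine setIntegral_congr_fun measurableSet_Ioi ?_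
          intro x _
          exact mul_comm _ _
  have hint0 : IntegrableOn (fun s => s ^ (1 / p - 1) * h (s ^ (1 / p))) (Ioi 0) := by
    have := ec_int p hp h (fun _ => 1) (by simpa using hi0.integrableOn)
    simpa using this
  have hint1 : IntegrableOn (fun s => s ^ (1 / p) * h (s ^ (1 / p))) (Ioi 0) := by
    have h1 := ec_int p hp h (fun s => s) (by
      refine (hi1.integrableOn (s := Ioi 0)).congr_fun ?_ measurableSet_Ioi
      intro x hx
      have hx0 : 0 < x := hx
      simp only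
      rw [abs_of_pos hx0, mul_comm])
    exact h1.congr_fun hsa measurableSet_Ioi
  have key := gamma_compare (fun s => h (s ^ (1 / p))) (1 / p) v ha hv (fun s _ => hpos _) hconc
    (hmeas.comp (measurable_id.pow_const (1 / p))) hint0 hint1
  rw [Jv, J0, J1] at key
  rw [Iv, I1, I0]
  set X0 := ∫ x in Ioi (0:ℝ), h x
  set X1 := ∫ x in Ioi (0:ℝ), x ^ p * h x
  set Xv := ∫ x in Ioi (0:ℝ), Real.exp (-(v * x ^ p)) * h x
  have e1 : v * (p * X1 / (p * X0)) / (1 / p) = p * v * (2 * X1 / (2 * X0)) := by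
    rw [mul_div_mul_left _ _ hp0.ne', mul_div_mul_left _ _ (two_ne_zero)]
    field_simp
  rw [e1] at key
  have e2 : p * Xv ≤ p * ((1 + p * v * (2 * X1 / (2 * X0))) ^ (-(1 / p)) * X0) := by
    calc p * Xv ≤ _ := key
      _ = _ := by ring
  have e3 := le_of_mul_le_mul_left e2 hp0
  calc 2 * Xv ≤ 2 * ((1 + p * v * (2 * X1 / (2 * X0))) ^ (-(1 / p)) * X0) := by linarith
    _ = _ := by ring

end S_even_compare

theorem even_compare : type_of% @S_even_compare.even_compare := @S_even_compare.even_compare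
end

section
namespace S_spans_coercive

/-- coercivity -/
theorem spans_coercive {n N : ℕ} (v : Fin N → Fin n → ℝ) (hv : Spans v) :
    ∃ c : ℝ, 0 < c ∧ ∀ x : Fin n → ℝ, c * ∑ i, |x i| ≤ ∑ j, |v j ⬝ᵥ x| := by
  let L : (Fin n → ℝ) →ₗ[ℝ] (Fin N → ℝ) := Matrix.mulVecLin (Matrix.of v)
  have hL : ∀ x j, L x j = v j ⬝ᵥ x := fun x j => rfl
  have hinj : Function.Injective L := by
    rw [injective_iff_map_eq_zero]
    intro x hx
    apply hv
    intro j
    rw [← hL, hx]; rfl
  have hker : LinearMap.ker L = ⊥ := LinearMap.ker_eq_bot.2 hinj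
  obtain ⟨K, hK, hanti⟩ := LinearMap.exists_antilipschitzWith L hker
  have key : ∀ x : Fin n → ℝ, ‖x‖ ≤ K * ∑ j, |v j ⬝ᵥ x| := by
    intro x
    have h1 : ‖x‖ ≤ K * ‖L x‖ := by
      have := hanti.le_mul_dist x 0
      simpa [dist_eq_norm] using this
    refine h1.trans (mul_le_mul_of_nonneg_left ?_ K.2)
    rw [pi_norm_le_iff_of_nonneg (Finset.sum_nonneg fun j _ => abs_nonneg _)]
    intro j
    rw [Real.norm_eq_abs, hL]
    exact Finset.single_le_sum (f := fun j => |v j ⬝ᵥ x|) (fun j _ => abs_nonneg _) (Finset.mem_univ j)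
  refine ⟨1 / (n * K + 1), by positivity, fun x => ?_⟩
  have h2 : ∑ i, |x i| ≤ n * ‖x‖ := by
    calc ∑ i, |x i| ≤ ∑ i : Fin n, ‖x‖ := Finset.sum_le_sum fun i _ => by
          rw [← Real.norm_eq_abs]; exact norm_le_pi_norm x i
      _ = n * ‖x‖ := by simp
  have hpos : (0:ℝ) < n * K + 1 := by positivity
  have hS : 0 ≤ ∑ j, |v j ⬝ᵥ x| := Finset.sum_nonneg fun j _ => abs_nonneg _
  rw [div_mul_eq_mul_div, one_mul, div_le_iff₀ hpos]
  have h3 := mul_le_mul_of_nonneg_left (key x) (Nat.cast_nonneg (α := ℝ) n)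
  nlinarith

end S_spans_coercive

theorem spans_coercive : type_of% @S_spans_coercive.spans_coercive := @S_spans_coercive.spans_coercive
end

section
namespace S_NN_lower

lemma aux352_rpow_ge (t p : ℝ) (ht : 0 ≤ t) (hp : 1 ≤ p) : t - 1 ≤ t ^ p := by
  rcases le_or_gt 1 t with h | h
  · have h1 : t ^ (1 : ℝ) ≤ t ^ p := Real.rpow_le_rpow_of_exponent_le h hp
    rw [Real.rpow_one] at h1
    linarith
  · have := Real.rpow_nonneg ht p
    linarith

/-- uniform lower bound of `N` -/
theorem NN_lower {n N : ℕ} (v : Fin N → Fin n → ℝ) (hv : Spans v) :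
    ∃ c : ℝ, 0 < c ∧ ∀ p, 1 ≤ p → ∀ x : Fin n → ℝ, c * ∑ i, |x i| - N ≤ NN v p x := by
  obtain ⟨c, hc, h⟩ := spans_coercive v hv
  refine ⟨c, hc, fun p hp x => ?_⟩
  have h1 : ∑ j, (|v j ⬝ᵥ x| - 1) ≤ NN v p x :=
    Finset.sum_le_sum fun j _ => aux352_rpow_ge _ _ (abs_nonneg _) hp
  rw [Finset.sum_sub_distrib] at h1
  simp only [Finset.sum_const, Finset.card_univ, Fintype.card_fin, nsmul_eq_mul, mul_one] at h1
  linarith [h x]

end S_NN_lower

theorem NN_lower : type_of% @S_NN_lower.NN_lower := @S_NN_lower.NN_lower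
end

section
namespace S_ZZ_gl

/-- H1: behaviour under linear changes of coordinates -/
theorem ZZ_gl {n N : ℕ} (v : Fin N → Fin n → ℝ) (M : Matrix (Fin n) (Fin n) ℝ) (hM : M.det ≠ 0) (p : ℝ) :
    ZZ (fun j => v j ᵥ* M) p = |M.det|⁻¹ * ZZ v p := by
  have h1 : ∀ x, NN (fun j => v j ᵥ* M) p x = NN v p (M *ᵥ x) := by
    intro x
    unfold NN
    apply Finset.sum_congr rfl
    intro j _
    rw [← Matrix.dotProduct_mulVec]
  have hmeas : Measurable fun x : Fin n → ℝ => Real.exp (-NN v p x) := by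
    unfold NN
    apply Real.measurable_exp.comp
    apply Measurable.neg
    apply Finset.measurable_sum
    intro j _
    have h2 : Measurable fun x : Fin n → ℝ => v j ⬝ᵥ x := by
      unfold dotProduct
      exact Finset.measurable_sum _ fun i _ => (measurable_pi_apply i).const_mul _
    exact (h2.abs).pow_const p
  unfold ZZ
  have h3 : (∫ x : Fin n → ℝ, Real.exp (-NN (fun j => v j ᵥ* M) p x)) =
      ∫ x : Fin n → ℝ, (fun y => Real.exp (-NN v p y)) (Matrix.toLin' M x) := by
    apply integral_congr_ae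
    filter_upwards with x
    rw [h1 x, Matrix.toLin'_apply]
  have hM' : Measurable (Matrix.toLin' M) :=
    (LinearMap.continuous_on_pi (Matrix.toLin' M)).measurable
  rw [h3, ← integral_map hM'.aemeasurable hmeas.aestronglyMeasurable,
    Real.map_matrix_volume_pi_eq_smul_volume_pi hM, integral_smul_measure,
    ENNReal.toReal_ofReal (abs_nonneg _), smul_eq_mul, abs_inv]

end S_ZZ_gl

theorem ZZ_gl : type_of% @S_ZZ_gl.ZZ_gl := @S_ZZ_gl.ZZ_gl
end

section
namespace S_GG_gl

theorem GG_gl {n N : ℕ} (v : Fin N → Fin n → ℝ) (σ : Fin n → Fin N) (J : Finset (Fin n))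
    (M : Matrix (Fin n) (Fin n) ℝ) (hM : M.det ≠ 0) (p : ℝ) :
    GG (fun j => v j ᵥ* M) σ J p = |M.det|⁻¹ * GG v σ J p := by
  have h1 : ∀ x : Fin n → ℝ, wt (fun j => v j ᵥ* M) σ J p x * Real.exp (-NN (fun j => v j ᵥ* M) p x)
      = (fun y => wt v σ J p y * Real.exp (-NN v p y)) (Matrix.toLin' M x) := by
    intro x
    simp only [wt, NN, ← Matrix.dotProduct_mulVec, Matrix.toLin'_apply]
  unfold GG
  simp_rw [h1]
  have hdet : LinearMap.det (Matrix.toLin' M) ≠ 0 := by rwa [LinearMap.det_toLin']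
  have h2 : Measure.map (Matrix.toLin' M) (volume : Measure (Fin n → ℝ)) =
      ENNReal.ofReal |(LinearMap.det (Matrix.toLin' M))⁻¹| • volume :=
    Measure.map_linearMap_addHaar_eq_smul_addHaar volume hdet
  let L : (Fin n → ℝ) →L[ℝ] (Fin n → ℝ) := LinearMap.toContinuousLinearMap (Matrix.toLin' M)
  have hLdet : L.det ≠ 0 := hdet
  let e : (Fin n → ℝ) ≃L[ℝ] (Fin n → ℝ) := L.toContinuousLinearEquivOfDetNeZero hLdet
  have he : ∀ x, e x = Matrix.toLin' M x := fun x => by
    simp only [e]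
    rw [ContinuousLinearMap.toContinuousLinearEquivOfDetNeZero_apply]
    rfl
  have he' : (⇑(Matrix.toLin' M) : (Fin n → ℝ) → (Fin n → ℝ)) = e.toHomeomorph.toMeasurableEquiv := by
    funext x
    exact (he x).symm
  have h3 : ∫ x : Fin n → ℝ, (fun y => wt v σ J p y * Real.exp (-NN v p y)) (Matrix.toLin' M x) =
      ∫ y, (wt v σ J p y * Real.exp (-NN v p y)) ∂(Measure.map (Matrix.toLin' M) (volume : Measure (Fin n → ℝ))) := by
    rw [he', integral_map_equiv]
  rw [h3, h2, integral_smul_measure, LinearMap.det_toLin', ENNReal.toReal_ofReal (abs_nonneg _), abs_inv]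
  rfl

end S_GG_gl

theorem GG_gl : type_of% @S_GG_gl.GG_gl := @S_GG_gl.GG_gl
end

section
namespace S_VV_gl

theorem VV_gl {n N : ℕ} (v : Fin N → Fin n → ℝ) (M : Matrix (Fin n) (Fin n) ℝ) (hM : M.det ≠ 0) (p : ℝ) :
    VV (fun j => v j ᵥ* M) p = |M.det| * VV v p := by
  unfold VV
  have h1 : ∀ σ : Fin n → Fin N, (Matrix.det (Matrix.of fun j => v (σ j) ᵥ* M)) ^ 2 *
      GG (fun j => v j ᵥ* M) σ Finset.univ p =
      |M.det| * ((Matrix.det (Matrix.of fun j => v (σ j))) ^ 2 * GG v σ Finset.univ p) := by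
    intro σ
    rw [GG_gl v σ _ M hM p]
    have h2 : (Matrix.of fun j => v (σ j) ᵥ* M) = (Matrix.of fun j => v (σ j)) * M := by
      ext i k
      rfl
    rw [h2, Matrix.det_mul, mul_pow]
    have h3 : M.det ^ 2 = |M.det| * |M.det| := by rw [← sq, sq_abs]
    rw [h3]
    have h4 : |M.det| ≠ 0 := abs_ne_zero.2 hM
    field_simp
  simp only [h1]
  rw [← Finset.mul_sum, mul_div_assoc]

end S_VV_gl

theorem VV_gl : type_of% @S_VV_gl.VV_gl := @S_VV_gl.VV_gl
end

section
namespace S_scl_compare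

theorem scl_compare_NN {n N : ℕ} (v : Fin N → Fin n → ℝ) (p : ℝ) (hp : 1 < p) (i : Fin N) (t : ℝ)
    (ht : 0 ≤ t) (x : Fin n → ℝ) :
    NN (scl v p i t) p x = NN v p x + t * |v i ⬝ᵥ x| ^ p := by
  unfold NN scl
  rw [← Finset.add_sum_erase _ _ (Finset.mem_univ i),
    ← Finset.add_sum_erase Finset.univ (fun j => |v j ⬝ᵥ x| ^ p) (Finset.mem_univ i)]
  have h1 : ∑ j ∈ Finset.univ.erase i,
      |Function.update v i ((1 + t) ^ (1 / p) • v i) j ⬝ᵥ x| ^ p =
      ∑ j ∈ Finset.univ.erase i, |v j ⬝ᵥ x| ^ p := by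
    refine Finset.sum_congr rfl fun j hj => ?_
    rw [Function.update_of_ne (Finset.ne_of_mem_erase hj)]
  rw [h1]
  simp only [Function.update_self, smul_dotProduct, smul_eq_mul]
  rw [abs_mul, abs_of_nonneg (Real.rpow_nonneg (by linarith) _),
    Real.mul_rpow (Real.rpow_nonneg (by linarith) _) (abs_nonneg _),
    ← Real.rpow_mul (by linarith), one_div_mul_cancel (by linarith : p ≠ 0), Real.rpow_one]
  ring

theorem scl_compare_cont {n N : ℕ} (v : Fin N → Fin n → ℝ) (p : ℝ) (hp : 1 < p) :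
    Continuous (fun x : Fin n → ℝ => NN v p x) := by
  unfold NN
  refine continuous_finsetSum _ fun j _ => ?_
  refine Continuous.rpow_const ?_ (fun _ => Or.inr (by linarith))
  exact (continuous_const.dotProduct continuous_id).abs

theorem scl_compare_cont1 {n N : ℕ} (v : Fin N → Fin n → ℝ) (p : ℝ) (hp : 1 < p) (i : Fin N) :
    Continuous (fun x : Fin n → ℝ => |v i ⬝ᵥ x| ^ p) := by
  refine Continuous.rpow_const ?_ (fun _ => Or.inr (by linarith))
  exact (continuous_const.dotProduct continuous_id).abs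

theorem scl_compare_int1 (c : ℝ) (hc : 0 < c) : Integrable (fun x : ℝ => Real.exp (-(c * |x|))) := by
  rw [← integrableOn_univ, ← Iic_union_Ioi (a := (0 : ℝ))]
  refine IntegrableOn.union ?_ ?_
  · refine (integrableOn_exp_mul_Iic hc 0).congr_fun (fun x hx => ?_) measurableSet_Iic
    simp only [mem_Iic] at hx
    simp only [abs_of_nonpos hx]
    congr 1; ring
  · refine (exp_neg_integrableOn_Ioi 0 hc).congr_fun (fun x hx => ?_) measurableSet_Ioi
    simp only [mem_Ioi] at hx
    simp only [abs_of_pos hx]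
    congr 1; ring

theorem scl_compare_intn {n : ℕ} (c : ℝ) (hc : 0 < c) :
    Integrable (fun x : Fin n → ℝ => Real.exp (-(c * ∑ i, |x i|))) := by
  have h := Integrable.fintype_prod (ι := Fin n) (f := fun _ (x : ℝ) => Real.exp (-(c * |x|)))
    (μ := fun _ => volume) (fun _ => scl_compare_int1 c hc)
  refine h.congr (Eventually.of_forall fun x => ?_)
  simp only
  rw [← Real.exp_sum, Finset.mul_sum, Finset.sum_neg_distrib]

theorem scl_compare_intN {n N : ℕ} (v : Fin N → Fin n → ℝ) (hv : Spans v) (p : ℝ) (hp : 1 < p)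
    (a : ℝ) (ha : 0 < a) : Integrable (fun x : Fin n → ℝ => Real.exp (-(a * NN v p x))) := by
  obtain ⟨c, hc, h⟩ := NN_lower v hv
  have h1 := (scl_compare_intn (n := n) (a * c) (mul_pos ha hc)).const_mul (Real.exp (a * N))
  refine h1.mono' ?_ (Eventually.of_forall fun x => ?_)
  · exact (Real.continuous_exp.comp
      ((scl_compare_cont v p hp).const_mul a).neg).aestronglyMeasurable
  · rw [Real.norm_eq_abs, abs_of_pos (Real.exp_pos _), ← Real.exp_add]
    refine Real.exp_le_exp.2 ?_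
    have := h p hp.le x
    nlinarith

theorem scl_compare_nn {n N : ℕ} (v : Fin N → Fin n → ℝ) (p : ℝ) (i : Fin N) (x : Fin n → ℝ) :
    0 ≤ |v i ⬝ᵥ x| ^ p ∧ |v i ⬝ᵥ x| ^ p ≤ NN v p x := by
  refine ⟨Real.rpow_nonneg (abs_nonneg _) _, ?_⟩
  unfold NN
  exact Finset.single_le_sum (f := fun j => |v j ⬝ᵥ x| ^ p)
    (fun j _ => Real.rpow_nonneg (abs_nonneg _) _) (Finset.mem_univ i)

theorem scl_compare_intM {n N : ℕ} (v : Fin N → Fin n → ℝ) (hv : Spans v) (p : ℝ) (hp : 1 < p)
    (i : Fin N) : Integrable (fun x : Fin n → ℝ => |v i ⬝ᵥ x| ^ p * Real.exp (-NN v p x)) := by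
  refine (scl_compare_intN v hv p hp (1 / 2) (by norm_num)).mono' ?_
    (Eventually.of_forall fun x => ?_)
  · exact ((scl_compare_cont1 v p hp i).mul (Real.continuous_exp.comp
      (scl_compare_cont v p hp).neg)).aestronglyMeasurable
  · obtain ⟨h0, h1⟩ := scl_compare_nn v p i x
    rw [Real.norm_eq_abs, abs_of_nonneg (mul_nonneg h0 (Real.exp_pos _).le)]
    set y := NN v p x with hy
    have h2 : y ≤ Real.exp (1 / 2 * y) := by
      have h3 := Real.add_one_le_exp (1 / 4 * y)
      have h4 : Real.exp (1 / 2 * y) = Real.exp (1 / 4 * y) * Real.exp (1 / 4 * y) := by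
        rw [← Real.exp_add]; congr 1; ring
      have h5 : 0 ≤ y := h0.trans h1
      rw [h4]
      nlinarith [mul_le_mul h3 h3 (by linarith) (Real.exp_pos _).le, sq_nonneg (1 / 4 * y - 1)]
    have h6 : Real.exp (-(1 / 2 * y)) = Real.exp (1 / 2 * y) * Real.exp (-y) := by
      rw [← Real.exp_add]; congr 1; ring
    rw [h6]
    exact mul_le_mul_of_nonneg_right (h1.trans h2) (Real.exp_pos _).le

/-- change of variables -/
theorem scl_compare_cov {n : ℕ} (M : Matrix (Fin n) (Fin n) ℝ) (hM : M.det ≠ 0)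
    (F : (Fin n → ℝ) → ℝ) (hF : Continuous F) :
    ∫ x, F (M *ᵥ x) = |M.det|⁻¹ * ∫ x, F x := by
  have h1 := Real.map_matrix_volume_pi_eq_smul_volume_pi hM
  have h2 : ∫ x, F x ∂(Measure.map (toLin' M) volume) = ∫ x, F (M *ᵥ x) := by
    rw [integral_map]
    · simp only [toLin'_apply]
    · exact (LinearMap.continuous_on_pi _).aemeasurable
    · exact hF.aestronglyMeasurable
  rw [← h2, h1, integral_smul_measure, ENNReal.toReal_ofReal (abs_nonneg _), abs_inv, smul_eq_mul]

/-- reduced configurations -/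
theorem scl_compare_last {d N : ℕ} (v : Fin N → Fin (d + 1) → ℝ) (hv : Spans v) (p : ℝ) (hp : 1 < p)
    (hp2 : p < 2) (i : Fin N) (hi : v i = Pi.single (Fin.last d) 1) (t : ℝ) (ht : 0 ≤ t) :
    ZZ (scl v p i t) p ≤
      (1 + p * t * ((∫ x, |v i ⬝ᵥ x| ^ p * Real.exp (-NN v p x)) / ZZ v p)) ^ (-(1 / p)) * ZZ v p := by
  set w : Fin N → Fin d → ℝ := fun j k => v j k.castSucc with hw
  set b : Fin N → ℝ := fun j => v j (Fin.last d) with hb
  set h : ℝ → ℝ := fun s => ∫ y : Fin d → ℝ, Real.exp (-∑ j, |w j ⬝ᵥ y + b j * s| ^ p) with hh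
  have hdot : ∀ (s : ℝ) (y : Fin d → ℝ) (j : Fin N),
      v j ⬝ᵥ ((Fin.last d).insertNth (α := fun _ => ℝ) s y) = w j ⬝ᵥ y + b j * s := by
    intro s y j
    simp [dotProduct, Fin.sum_univ_castSucc, hw, hb, Fin.insertNth_last', Fin.snoc_castSucc,
      Fin.snoc_last]
  have hspan : ∀ y : Fin d → ℝ, (∀ j, w j ⬝ᵥ y = 0) → y = 0 := by
    intro y hy
    have h1 : ((Fin.last d).insertNth (α := fun _ => ℝ) 0 y : Fin (d + 1) → ℝ) = 0 := by
      refine hv _ fun j => ?_
      rw [hdot, hy j, mul_zero, add_zero]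
    ext k
    have := congrFun h1 k.castSucc
    simpa [Fin.insertNth_last'] using this
  have hNN : ∀ (s : ℝ) (y : Fin d → ℝ),
      NN v p ((Fin.last d).insertNth (α := fun _ => ℝ) s y) = ∑ j, |w j ⬝ᵥ y + b j * s| ^ p := by
    intro s y
    unfold NN
    simp only [hdot]
  have hvi : ∀ (s : ℝ) (y : Fin d → ℝ),
      v i ⬝ᵥ ((Fin.last d).insertNth (α := fun _ => ℝ) s y) = s := by
    intro s y
    rw [hi, single_one_dotProduct]
    simp
  -- Fubini
  have fub : ∀ F : (Fin (d + 1) → ℝ) → ℝ, Integrable F →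
      (∫ x, F x = ∫ s : ℝ, ∫ y : Fin d → ℝ, F ((Fin.last d).insertNth (α := fun _ => ℝ) s y)) ∧
      Integrable (fun s : ℝ => ∫ y : Fin d → ℝ, F ((Fin.last d).insertNth (α := fun _ => ℝ) s y)) := by
    intro F hF
    have hmp := (MeasureTheory.volume_preserving_piFinSuccAbove (fun _ : Fin (d + 1) => ℝ)
      (Fin.last d)).symm
    have hI : Integrable (fun z : ℝ × (Fin d → ℝ) =>
        F ((MeasurableEquiv.piFinSuccAbove (fun _ : Fin (d + 1) => ℝ) (Fin.last d)).symm z))
        (volume.prod volume) := by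
      have := (hmp.integrable_comp_emb (MeasurableEquiv.measurableEmbedding _)).2 hF
      exact this
    refine ⟨?_, hI.integral_prod_left⟩
    rw [← hmp.integral_comp' F]
    exact integral_prod _ hI
  have hexpm : Integrable (fun x : Fin (d + 1) → ℝ => Real.exp (-NN v p x)) := by
    simpa using scl_compare_intN v hv p hp 1 one_pos
  have hmom := scl_compare_intM v hv p hp i
  have hscl : Integrable (fun x : Fin (d + 1) → ℝ =>
      Real.exp (-(t * |v i ⬝ᵥ x| ^ p)) * Real.exp (-NN v p x)) := by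
    refine hexpm.mono' ?_ (Eventually.of_forall fun x => ?_)
    · exact ((Real.continuous_exp.comp ((scl_compare_cont1 v p hp i).const_mul t).neg).mul
        (Real.continuous_exp.comp (scl_compare_cont v p hp).neg)).aestronglyMeasurable
    · rw [Real.norm_eq_abs, abs_of_pos (by positivity)]
      refine mul_le_of_le_one_left (Real.exp_pos _).le ?_
      rw [Real.exp_le_one_iff]
      have := (scl_compare_nn v p i x).1
      nlinarith [mul_nonneg ht this]
  obtain ⟨f1, f1i⟩ := fub _ hexpm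
  obtain ⟨f2, f2i⟩ := fub _ hmom
  obtain ⟨f3, f3i⟩ := fub _ hscl
  simp only [hNN] at f1 f1i
  simp only [hNN, hvi, integral_const_mul] at f2 f2i f3 f3i
  have hpos : ∀ s, 0 < h s := by
    intro s
    refine integral_exp_pos ?_
    obtain ⟨c, hc, hcl⟩ := NN_lower v hv
    refine ((scl_compare_intn (n := d) c hc).const_mul (Real.exp N)).mono' ?_
      (Eventually.of_forall fun y => ?_)
    · refine (Real.continuous_exp.comp (Continuous.neg ?_)).aestronglyMeasurable
      refine continuous_finsetSum _ fun j _ => ?_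
      refine Continuous.rpow_const ?_ (fun _ => Or.inr (by linarith))
      exact ((continuous_const.dotProduct continuous_id).add continuous_const).abs
    · rw [Real.norm_eq_abs, abs_of_pos (Real.exp_pos _), ← Real.exp_add]
      refine Real.exp_le_exp.2 ?_
      have h1 := hcl p hp.le ((Fin.last d).insertNth (α := fun _ => ℝ) s y)
      rw [hNN] at h1
      have h2 : ∑ k : Fin (d + 1), |(Fin.last d).insertNth (α := fun _ => ℝ) s y k| =
          (∑ k, |y k|) + |s| := by
        simp [Fin.sum_univ_castSucc, Fin.insertNth_last']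
      rw [h2] at h1
      nlinarith [mul_nonneg hc.le (abs_nonneg s)]
  have heven : ∀ s, h (-s) = h s := by
    intro s
    simp only [hh]
    rw [← integral_neg_eq_self]
    refine integral_congr_ae (Eventually.of_forall fun y => ?_)
    simp only
    congr 2
    refine Finset.sum_congr rfl fun j _ => ?_
    rw [dotProduct_neg, ← abs_neg]
    congr 2
    ring
  have hmeas : Measurable h := by
    have hc : Continuous (Function.uncurry fun (s : ℝ) (y : Fin d → ℝ) =>
        Real.exp (-∑ j, |w j ⬝ᵥ y + b j * s| ^ p)) := by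
      refine Real.continuous_exp.comp (Continuous.neg ?_)
      refine continuous_finsetSum _ fun j _ => ?_
      refine Continuous.rpow_const ?_ (fun _ => Or.inr (by linarith))
      exact ((continuous_const.dotProduct continuous_snd).add
        (continuous_const.mul continuous_fst)).abs
    exact (hc.stronglyMeasurable.integral_prod_right (ν := volume)).measurable
  have hconc := marg_logconcave p hp hp2 d N w b hspan
  have key := even_compare p hp h t ht hpos heven hmeas hconc f1i f2i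
  have e1 : ZZ v p = ∫ s, h s := f1
  have e2 : ∫ x, |v i ⬝ᵥ x| ^ p * Real.exp (-NN v p x) = ∫ s, |s| ^ p * h s := f2
  have e3 : ZZ (scl v p i t) p = ∫ s, Real.exp (-(t * |s| ^ p)) * h s := by
    rw [← f3]
    unfold ZZ
    refine integral_congr_ae (Eventually.of_forall fun x => ?_)
    simp only
    rw [scl_compare_NN v p hp i t ht, ← Real.exp_add]
    congr 1; ring
  rw [e1, e2, e3]
  exact key

/-- E3: the comparison for configurations. -/
theorem scl_compare {n N : ℕ} (v : Fin N → Fin n → ℝ) (hv : Spans v) (p : ℝ) (hp : 1 < p)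
    (hp2 : p < 2) (i : Fin N) (t : ℝ) (ht : 0 ≤ t) :
    ZZ (scl v p i t) p ≤
      (1 + p * t * ((∫ x, |v i ⬝ᵥ x| ^ p * Real.exp (-NN v p x)) / ZZ v p)) ^ (-(1 / p)) * ZZ v p := by
  by_cases hi : v i = 0
  · have h1 : ∀ x : Fin n → ℝ, |v i ⬝ᵥ x| ^ p = 0 := by
      intro x
      rw [hi, zero_dotProduct, abs_zero, Real.zero_rpow (by linarith)]
    have h2 : ZZ (scl v p i t) p = ZZ v p := by
      unfold ZZ
      refine integral_congr_ae (Eventually.of_forall fun x => ?_)
      simp only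
      rw [scl_compare_NN v p hp i t ht, h1, mul_zero, add_zero]
    simp only [h1, h2, zero_mul, integral_zero, zero_div, mul_zero, add_zero, Real.one_rpow,
      one_mul, le_refl]
  · obtain _ | d := n
    · exact absurd (Subsingleton.elim _ _) hi
    have hne : (Pi.single (Fin.last d) 1 : Fin (d + 1) → ℝ) ≠ 0 := by
      intro h
      have := congrFun h (Fin.last d)
      simp at this
    obtain ⟨A, hA⟩ := SeparatingDual.exists_continuousLinearEquiv_apply_eq (R := ℝ) hi hne
    set B := LinearMap.toMatrix' (A.toLinearEquiv : (Fin (d + 1) → ℝ) →ₗ[ℝ] (Fin (d + 1) → ℝ)) with hB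
    set M := Bᵀ with hMdef
    have hM : M.det ≠ 0 := by
      rw [hMdef, det_transpose, hB, LinearMap.det_toMatrix']
      exact (LinearEquiv.isUnit_det' A.toLinearEquiv).ne_zero
    have hviM : v i ᵥ* M = Pi.single (Fin.last d) 1 := by
      rw [hMdef, vecMul_transpose, ← toLin'_apply, hB, toLin'_toMatrix']
      exact hA
    set w : Fin N → Fin (d + 1) → ℝ := fun j => v j ᵥ* M with hw
    have hNNw : ∀ x, NN w p x = NN v p (M *ᵥ x) := by
      intro x
      unfold NN
      simp only [hw, ← dotProduct_mulVec]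
    have hws : Spans w := by
      intro x hx
      have h1 : M *ᵥ x = 0 := by
        refine hv _ fun j => ?_
        rw [dotProduct_mulVec]
        exact hx j
      exact eq_zero_of_mulVec_eq_zero hM h1
    have hsc : scl w p i t = fun j => (scl v p i t) j ᵥ* M := by
      funext j
      unfold scl
      by_cases hj : j = i
      · subst hj
        simp only [Function.update_self, hw, smul_vecMul]
      · simp only [Function.update_of_ne hj, hw]
    have e1 : ZZ w p = |M.det|⁻¹ * ZZ v p := ZZ_gl v M hM p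
    have e2 : ZZ (scl w p i t) p = |M.det|⁻¹ * ZZ (scl v p i t) p := by
      rw [hsc]
      exact ZZ_gl _ M hM p
    have e3 : ∫ x, |w i ⬝ᵥ x| ^ p * Real.exp (-NN w p x) =
        |M.det|⁻¹ * ∫ x, |v i ⬝ᵥ x| ^ p * Real.exp (-NN v p x) := by
      rw [← scl_compare_cov M hM (fun x => |v i ⬝ᵥ x| ^ p * Real.exp (-NN v p x))
        ((scl_compare_cont1 v p hp i).mul (Real.continuous_exp.comp
          (scl_compare_cont v p hp).neg))]
      refine integral_congr_ae (Eventually.of_forall fun x => ?_)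
      simp only
      rw [hNNw, dotProduct_mulVec]
    have key := scl_compare_last w hws p hp hp2 i hviM t ht
    have hD : 0 < |M.det|⁻¹ := inv_pos.2 (abs_pos.2 hM)
    rw [e1, e2, e3, mul_div_mul_left _ _ hD.ne', ← mul_assoc, mul_comm _ (|M.det|⁻¹), mul_assoc] at key
    exact le_of_mul_le_mul_left key hD

end S_scl_compare

theorem scl_compare : type_of% @S_scl_compare.scl_compare := @S_scl_compare.scl_compare
end

section
namespace S_spans_iff

/-- a spanning configuration contains a basis -/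
theorem spans_iff {n N : ℕ} (v : Fin N → Fin n → ℝ) :
    Spans v ↔ ∃ σ : Fin n → Fin N, (Matrix.det (Matrix.of fun j => v (σ j))) ≠ 0 := by
  constructor
  · intro hv
    let L : (Fin n → ℝ) →ₗ[ℝ] (Fin N → ℝ) := Matrix.mulVecLin (Matrix.of v)
    have hL : ∀ x j, L x j = v j ⬝ᵥ x := fun x j => rfl
    have hker : LinearMap.ker L = ⊥ := by
      rw [LinearMap.ker_eq_bot']
      intro x hx
      apply hv
      intro j
      rw [← hL, hx]; rfl
    have hrank : (Matrix.of v).rank = n := by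
      have h1 := LinearMap.finrank_range_add_finrank_ker L
      rw [hker, finrank_bot, add_zero] at h1
      rw [Matrix.rank]
      rw [show Module.finrank ℝ (Fin n → ℝ) = n by simp] at h1
      exact h1
    have hspan : Module.finrank ℝ (Submodule.span ℝ (Set.range v)) = n := by
      rw [Matrix.rank_eq_finrank_span_row] at hrank
      exact hrank
    obtain ⟨f, hf, -, hli⟩ := Submodule.exists_fun_fin_finrank_span_eq ℝ (Set.range v)
    choose τ hτ using hf
    refine ⟨fun i => τ (Fin.cast hspan.symm i), ?_⟩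
    have hli2 : LinearIndependent ℝ (fun i : Fin n => v (τ (Fin.cast hspan.symm i))) := by
      have h2 : (fun i : Fin n => v (τ (Fin.cast hspan.symm i))) = f ∘ Fin.cast hspan.symm := by
        funext i; exact hτ _
      rw [h2]
      exact hli.comp _ (Fin.cast_injective _)
    have h3 : IsUnit (Matrix.of fun j => v (τ (Fin.cast hspan.symm j))) := by
      rw [← Matrix.linearIndependent_rows_iff_isUnit]
      exact hli2
    exact (Matrix.isUnit_iff_isUnit_det _).1 h3 |>.ne_zero
  · rintro ⟨σ, hσ⟩ x hx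
    refine Matrix.eq_zero_of_mulVec_eq_zero hσ ?_
    funext j
    exact hx (σ j)

end S_spans_iff

theorem spans_iff : type_of% @S_spans_iff.spans_iff := @S_spans_iff.spans_iff
end

section
namespace S_KK_compact

theorem KK_compact (n N : ℕ) : IsCompact (KK n N) := by
  have hbox : IsCompact (Set.pi Set.univ fun _ : Fin N => Set.pi Set.univ fun _ : Fin n => Icc (-1:ℝ) 1) :=
    isCompact_univ_pi fun _ => isCompact_univ_pi fun _ => isCompact_Icc
  have hcl : IsClosed {v : Fin N → Fin n → ℝ | ∃ σ : Fin n → Fin N, ∀ i, v (σ i) = Pi.single i 1} := by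
    have : {v : Fin N → Fin n → ℝ | ∃ σ : Fin n → Fin N, ∀ i, v (σ i) = Pi.single i 1}
        = ⋃ σ : Fin n → Fin N, ⋂ i : Fin n, {v | v (σ i) = Pi.single i 1} := by
      ext v; simp
    rw [this]
    exact isClosed_iUnion_of_finite fun σ => isClosed_iInter fun i =>
      isClosed_eq (continuous_apply _) continuous_const
  have : KK n N = (Set.pi Set.univ fun _ : Fin N => Set.pi Set.univ fun _ : Fin n => Icc (-1:ℝ) 1) ∩
      {v : Fin N → Fin n → ℝ | ∃ σ : Fin n → Fin N, ∀ i, v (σ i) = Pi.single i 1} := by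
    ext v
    simp only [KK, Set.mem_setOf_eq, Set.mem_inter_iff, Set.mem_pi, Set.mem_univ, true_imp_iff, Set.mem_Icc, abs_le]
  rw [this]
  exact hbox.inter_right hcl

end S_KK_compact

theorem KK_compact : type_of% @S_KK_compact.KK_compact := @S_KK_compact.KK_compact
end

section
namespace S_KK_spans

theorem KK_spans {n N : ℕ} (v : Fin N → Fin n → ℝ) (hv : v ∈ KK n N) : Spans v := by
  obtain ⟨_, σ, hσ⟩ := hv
  intro x hx
  funext i
  have := hx (σ i)
  rw [hσ, single_one_dotProduct] at this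
  simpa using this

end S_KK_spans

theorem KK_spans : type_of% @S_KK_spans.KK_spans := @S_KK_spans.KK_spans
end

section
namespace S_normal_form

theorem normal_form {n N : ℕ} (v : Fin N → Fin n → ℝ) (hv : Spans v) :
    ∃ M : Matrix (Fin n) (Fin n) ℝ, M.det ≠ 0 ∧ (fun j => v j ᵥ* M) ∈ KK n N := by
  obtain ⟨σ0, hσ0⟩ := (spans_iff v).1 hv
  have : Nonempty (Fin n → Fin N) := ⟨σ0⟩
  obtain ⟨σ, hσ⟩ := Finite.exists_max (fun σ : Fin n → Fin N => |(Matrix.of fun j => v (σ j)).det|)
  set W : Matrix (Fin n) (Fin n) ℝ := Matrix.of fun j => v (σ j) with hW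
  have hdet : W.det ≠ 0 := by
    have h1 := (abs_pos.2 hσ0).trans_le (hσ σ0)
    exact abs_pos.1 h1
  refine ⟨W⁻¹, ?_, ?_, σ, ?_⟩
  · rw [Matrix.det_nonsing_inv, Ring.inverse_eq_inv']
    exact inv_ne_zero hdet
  · intro j i
    have h1 : (v j ᵥ* W⁻¹) i = (W.updateRow i (v j)).det / W.det := by
      rw [Matrix.inv_def, Ring.inverse_eq_inv', Matrix.vecMul_smul, Pi.smul_apply, smul_eq_mul]
      have h2 : (v j ᵥ* W.adjugate) i = (W.updateRow i (v j)).det := by
        rw [← Matrix.cramer_transpose_apply, Matrix.cramer_eq_adjugate_mulVec, ← Matrix.adjugate_transpose,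
          Matrix.mulVec_transpose]
      rw [h2]; field_simp
    have h3 : W.updateRow i (v j) = Matrix.of fun k => v (Function.update σ i j k) := by
      ext k l
      by_cases hk : k = i
      · subst hk; simp
      · simp [hk, hW]
    show |(v j ᵥ* W⁻¹) i| ≤ 1
    rw [h1, abs_div, div_le_one (abs_pos.2 hdet), h3]
    exact hσ _
  · intro i
    have h1 : (fun j => v j ᵥ* W⁻¹) (σ i) = (W * W⁻¹) i := by
      ext k; rfl
    rw [h1, Matrix.mul_nonsing_inv _ (Ne.isUnit hdet)]
    ext k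
    rw [Matrix.one_apply, Pi.single_apply]
    simp [eq_comm]

end S_normal_form

theorem normal_form : type_of% @S_normal_form.normal_form := @S_normal_form.normal_form
end

section
namespace S_min_principle

/-- H5: abstract minimum principle -/
theorem min_principle {X : Type} [TopologicalSpace X] [T2Space X] (K : Set X) (hK : IsCompact K)
    (L : X → ℝ → ℝ) (p1 p2 : ℝ) (hp : p1 ≤ p2)
    (hlsc : LowerSemicontinuousOn (fun q : X × ℝ => L q.1 q.2) (K ×ˢ Icc p1 p2))
    (hend : ∀ x ∈ K, 0 ≤ L x p2)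
    (hder : ∀ p ∈ Ico p1 p2, ∀ x ∈ K, (∀ y ∈ K, L x p ≤ L y p) →
      ∃ d ≤ 0, HasDerivWithinAt (fun q => L x q) d (Ici p) p) :
    ∀ x ∈ K, 0 ≤ L x p1 := by
  intro x0 hx0
  by_contra hneg
  push Not at hneg
  -- epsilon
  set ε : ℝ := -(L x0 p1) / (2 * (p2 - p1 + 1)) with hε
  have hpp : 0 < p2 - p1 + 1 := by linarith
  have hεpos : 0 < ε := by rw [hε]; apply div_pos <;> linarith
  have hεle : ε * (p2 - p1) < -(L x0 p1) := by
    have h1 : ε * (p2 - p1 + 1) = -(L x0 p1) / 2 := by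
      rw [hε]; field_simp
    nlinarith
  let c : ℝ → ℝ := fun p => L x0 p1 + ε * (p - p1)
  have hc : Continuous c := by fun_prop
  -- compact set
  let M : Set (X × ℝ) := {q | q ∈ K ×ˢ Icc p1 p2 ∧ L q.1 q.2 ≤ c q.2}
  have hKI : IsCompact (K ×ˢ Icc p1 p2) := hK.prod isCompact_Icc
  have hM : IsCompact M := by
    have hl2 : LowerSemicontinuousOn (fun q : X × ℝ => L q.1 q.2 + (-(c q.2))) (K ×ˢ Icc p1 p2) := by
      apply hlsc.add
      exact (Continuous.continuousOn (by fun_prop)).lowerSemicontinuousOn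
    have hMc : M = (K ×ˢ Icc p1 p2) ∩ {q | L q.1 q.2 + (-(c q.2)) ≤ 0} := by
      ext q
      simp only [M, Set.mem_setOf_eq, Set.mem_inter_iff]
      constructor
      · rintro ⟨h1, h2⟩; exact ⟨h1, by linarith⟩
      · rintro ⟨h1, h2⟩; exact ⟨h1, by linarith⟩
    rw [lowerSemicontinuousOn_iff_preimage_Iic] at hl2
    obtain ⟨v, hv, hv2⟩ := hl2 0
    rw [hMc]
    have : (K ×ˢ Icc p1 p2) ∩ {q | L q.1 q.2 + (-(c q.2)) ≤ 0} = (K ×ˢ Icc p1 p2) ∩ v := hv2
    rw [this]
    exact hKI.inter_right hv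
  have hS : IsCompact (Prod.snd '' M) := hM.image continuous_snd
  have hSne : (Prod.snd '' M).Nonempty := by
    refine ⟨p1, (x0, p1), ⟨⟨hx0, left_mem_Icc.2 hp⟩, ?_⟩, rfl⟩
    simp [c]
  obtain ⟨ps, hps⟩ := hS.exists_isGreatest hSne
  obtain ⟨⟨⟨x, p⟩, ⟨⟨hxK, hpI⟩, hxle⟩, hpeq⟩, hub⟩ := hps
  simp only at hpeq hxK hpI hxle
  subst hpeq
  rcases eq_or_lt_of_le hpI.2 with h | hlt
  · -- p = p2
    rw [h] at hxle
    have := hend x hxK
    have h2 : c p2 < 0 := by simp only [c]; linarith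
    linarith
  · -- minimiser
    have hslice : LowerSemicontinuousOn (fun y => L y p) K := by
      intro y hy a ha
      have h1 := hlsc (y, p) ⟨hy, hpI⟩ a ha
      rw [nhdsWithin_prod_eq] at h1
      have h2 : Tendsto (fun y' : X => (y', p)) (𝓝[K] y) (𝓝[K] y ×ˢ 𝓝[Icc p1 p2] p) := by
        refine tendsto_id.prodMk ?_
        refine tendsto_nhdsWithin_iff.2 ⟨tendsto_const_nhds, Eventually.of_forall fun _ => hpI⟩
      exact h2.eventually h1
    obtain ⟨xs, hxs, hmin⟩ := hslice.exists_isMinOn ⟨x, hxK⟩ hK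
    have hmin' : ∀ y ∈ K, L xs p ≤ L y p := fun y hy => hmin hy
    obtain ⟨d, hd, hder'⟩ := hder p ⟨hpI.1, hlt⟩ xs hxs hmin'
    have hcp : L xs p ≤ c p := (hmin' x hxK).trans hxle
    -- small h
    have hev : ∀ᶠ z in 𝓝[>] p, slope (fun q => L xs q) p z < ε := by
      have h1 : HasDerivWithinAt (fun q => L xs q) d (Ioi p) p := hder'.mono Ioi_subset_Ici_self
      exact h1.limsup_slope_le' (by simp) (lt_of_le_of_lt hd hεpos)
    have hev2 : ∀ᶠ z in 𝓝[>] p, z ∈ Ioo p p2 := Ioo_mem_nhdsGT hlt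
    obtain ⟨z, hz1, hz2⟩ := (hev.and hev2).exists
    have hzs : L xs z ≤ c z := by
      have hzp : 0 < z - p := sub_pos.2 hz2.1
      rw [slope_def_field, div_lt_iff₀ hzp] at hz1
      have : c z = c p + ε * (z - p) := by simp only [c]; ring
      rw [this]
      linarith
    have hzM : z ∈ Prod.snd '' M := ⟨(xs, z), ⟨⟨hxs, ⟨hpI.1.trans hz2.1.le, hz2.2.le⟩⟩, hzs⟩, rfl⟩
    exact absurd (hub hzM) (not_le.2 hz2.1)

end S_min_principle

theorem min_principle : type_of% @S_min_principle.min_principle := @S_min_principle.min_principle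
end

section
namespace S_cauchy_binet

/-- Cauchy-Binet in tuple form -/
theorem cauchy_binet {n N : ℕ} (v : Fin N → Fin n → ℝ) (ω : Fin N → ℝ) :
    (∑ j, ω j • Matrix.vecMulVec (v j) (v j)).det =
      (∑ σ : Fin n → Fin N, (Matrix.det (Matrix.of fun j => v (σ j))) ^ 2 * ∏ j, ω (σ j)) /
        (n.factorial : ℝ) := by
  have hM : (∑ j, ω j • Matrix.vecMulVec (v j) (v j)) =
      Matrix.of (fun i => ∑ j, (ω j * v j i) • v j) := by
    ext i k
    simp only [Matrix.sum_apply, Matrix.smul_apply, Matrix.vecMulVec_apply, Matrix.of_apply,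
      Finset.sum_apply, Pi.smul_apply, smul_eq_mul]
    exact Finset.sum_congr rfl fun j _ => by ring
  have hexp : (∑ j, ω j • Matrix.vecMulVec (v j) (v j)).det =
      ∑ σ : Fin n → Fin N, (∏ i, ω (σ i) * v (σ i) i) * Matrix.det (Matrix.of fun j => v (σ j)) := by
    rw [hM]
    have h1 := (Matrix.detRowAlternating (n := Fin n) (R := ℝ)).toMultilinearMap.map_sum
      (fun (i : Fin n) (j : Fin N) => (ω j * v j i) • v j)
    have h2 : Matrix.det (Matrix.of (fun i => ∑ j, (ω j * v j i) • v j)) =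
        ∑ r : Fin n → Fin N, (Matrix.detRowAlternating (n := Fin n) (R := ℝ)).toMultilinearMap
          (fun i => (ω (r i) * v (r i) i) • v (r i)) := h1
    rw [h2]
    refine Finset.sum_congr rfl fun r _ => ?_
    rw [MultilinearMap.map_smul_univ]
    rfl
  have hsym : ∀ τ : Equiv.Perm (Fin n), (∑ j, ω j • Matrix.vecMulVec (v j) (v j)).det =
      ∑ σ : Fin n → Fin N, (∏ i, ω (σ i)) * ((Equiv.Perm.sign τ : ℤ) * ∏ i, v (σ (τ i)) i) *
        Matrix.det (Matrix.of fun j => v (σ j)) := by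
    intro τ
    rw [hexp]
    refine (Equiv.sum_comp (Equiv.arrowCongr τ (Equiv.refl (Fin N)) : (Fin n → Fin N) ≃ (Fin n → Fin N)).symm _).symm.trans ?_
    refine Finset.sum_congr rfl fun σ _ => ?_
    have h1 : (Equiv.arrowCongr τ (Equiv.refl (Fin N))).symm σ = σ ∘ τ := by
      ext i; rfl
    rw [h1]
    have h2 : Matrix.det (Matrix.of fun j => v ((σ ∘ τ) j)) =
        (Equiv.Perm.sign τ : ℤ) * Matrix.det (Matrix.of fun j => v (σ j)) := by
      have := Matrix.det_permute τ (Matrix.of fun j => v (σ j))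
      rw [← this]
      rfl
    rw [h2, Finset.prod_mul_distrib]
    have h3 : ∏ i, ω ((σ ∘ τ) i) = ∏ i, ω (σ i) := Equiv.prod_comp τ (fun i => ω (σ i))
    rw [h3]
    simp only [Function.comp_apply]
    ring
  have hfac : (n.factorial : ℝ) * (∑ j, ω j • Matrix.vecMulVec (v j) (v j)).det =
      ∑ σ : Fin n → Fin N, (Matrix.det (Matrix.of fun j => v (σ j))) ^ 2 * ∏ j, ω (σ j) := by
    have h1 : (n.factorial : ℝ) * (∑ j, ω j • Matrix.vecMulVec (v j) (v j)).det =
        ∑ τ : Equiv.Perm (Fin n), (∑ j, ω j • Matrix.vecMulVec (v j) (v j)).det := by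
      rw [Finset.sum_const, nsmul_eq_mul, Finset.card_univ, Fintype.card_perm, Fintype.card_fin]
    rw [h1]
    have h2 : ∑ τ : Equiv.Perm (Fin n), (∑ j, ω j • Matrix.vecMulVec (v j) (v j)).det =
        ∑ τ : Equiv.Perm (Fin n), ∑ σ : Fin n → Fin N, (∏ i, ω (σ i)) * ((Equiv.Perm.sign τ : ℤ) * ∏ i, v (σ (τ i)) i) *
        Matrix.det (Matrix.of fun j => v (σ j)) := Finset.sum_congr rfl fun τ _ => hsym τ
    rw [h2, Finset.sum_comm]
    refine Finset.sum_congr rfl fun σ _ => ?_
    have h3 : Matrix.det (Matrix.of fun j => v (σ j)) =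
        ∑ τ : Equiv.Perm (Fin n), ((Equiv.Perm.sign τ : ℤ) : ℝ) * ∏ i, v (σ (τ i)) i := by
      rw [Matrix.det_apply']
      rfl
    rw [← Finset.sum_mul, ← Finset.mul_sum, ← h3]
    ring
  have hn : (n.factorial : ℝ) ≠ 0 := by positivity
  field_simp
  linarith

end S_cauchy_binet

theorem cauchy_binet : type_of% @S_cauchy_binet.cauchy_binet := @S_cauchy_binet.cauchy_binet
end

section
namespace S_kap_value

theorem kv_int (f : ℝ → ℝ) : ∫ x : Fin 1 → ℝ, f (x 0) = ∫ t : ℝ, f t :=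
  (volume_preserving_funUnique (Fin 1) ℝ).integral_comp' f

theorem kv_dot (x : Fin 1 → ℝ) : (fun _ : Fin 1 => (1 : ℝ)) ⬝ᵥ x = x 0 := by
  simp [dotProduct]

theorem kv_NN (p : ℝ) (x : Fin 1 → ℝ) :
    NN (fun (_ : Fin 1) (_ : Fin 1) => (1 : ℝ)) p x = |x 0| ^ p := by
  unfold NN
  rw [Fin.sum_univ_one, kv_dot]

theorem kv_ZZ (p : ℝ) (hp : 1 < p) :
    ZZ (fun (_ : Fin 1) (_ : Fin 1) => (1 : ℝ)) p = 2 * Real.Gamma (1 / p + 1) := by
  unfold ZZ
  simp only [kv_NN]
  rw [kv_int (fun t => Real.exp (-|t| ^ p)), integral_comp_abs (f := fun t => Real.exp (-t ^ p)),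
    integral_exp_neg_rpow (by linarith)]

theorem kv_GG (p : ℝ) (hp : 1 < p) (σ : Fin 1 → Fin 1) :
    GG (fun (_ : Fin 1) (_ : Fin 1) => (1 : ℝ)) σ Finset.univ p =
      2 / p * Real.Gamma ((p - 1) / p) := by
  unfold GG wt
  have h1 : ∀ x : Fin 1 → ℝ, (∏ j ∈ (Finset.univ : Finset (Fin 1)),
      |(fun _ : Fin 1 => (1 : ℝ)) ⬝ᵥ x| ^ (p - 2)) *
      Real.exp (-NN (fun (_ : Fin 1) (_ : Fin 1) => (1 : ℝ)) p x) =
      |x 0| ^ (p - 2) * Real.exp (-|x 0| ^ p) := by
    intro x
    rw [kv_NN, Fin.prod_univ_one, kv_dot]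
  simp only [h1]
  rw [kv_int (fun t => |t| ^ (p - 2) * Real.exp (-|t| ^ p)),
    integral_comp_abs (f := fun t => t ^ (p - 2) * Real.exp (-t ^ p)),
    integral_rpow_mul_exp_neg_rpow (by linarith) (by linarith)]
  have h2 : (p - 2 + 1) / p = (p - 1) / p := by ring
  rw [h2]
  ring

theorem kap_value (p : ℝ) (hp : 1 < p) :
    kap p = (2 * Real.Gamma (1 / p + 1)) * (2 / p * Real.Gamma ((p - 1) / p)) := by
  unfold kap VV
  rw [kv_ZZ p hp]
  congr 1
  simp only [kv_GG p hp]
  rw [Fintype.sum_unique]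
  have h1 : Matrix.det (Matrix.of fun j : Fin 1 => (fun _ : Fin 1 => (1 : ℝ))) = 1 := by
    rw [Matrix.det_fin_one]
    rfl
  rw [h1]
  simp

end S_kap_value

theorem kap_value : type_of% @S_kap_value.kap_value := @S_kap_value.kap_value
end

section
namespace S_ZV_two

theorem ZV_two_quad {m : Type} [Fintype m] {n : ℕ} (A : Matrix m (Fin n) ℝ) (x : Fin n → ℝ) :
    x ⬝ᵥ ((Aᵀ * A) *ᵥ x) = ∑ i, ((A *ᵥ x) i) ^ 2 := by
  rw [← Matrix.mulVec_mulVec, Matrix.dotProduct_mulVec, Matrix.vecMul_transpose]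
  unfold dotProduct
  apply Finset.sum_congr rfl
  intro i _
  ring

open scoped MatrixOrder in
theorem ZV_two_fact {n N : ℕ} (v : Fin N → Fin n → ℝ) (hv : Spans v) :
    ∃ B : Matrix (Fin n) (Fin n) ℝ, (∑ j, Matrix.vecMulVec (v j) (v j)) = Bᵀ * B ∧ B.det ≠ 0 ∧
      ∀ x : Fin n → ℝ, ∑ j, (v j ⬝ᵥ x) ^ 2 = ∑ i, ((B *ᵥ x) i) ^ 2 := by
  have hM : (∑ j, Matrix.vecMulVec (v j) (v j)) = (Matrix.of v)ᵀ * (Matrix.of v) := by
    ext i k
    rw [Matrix.sum_apply, Matrix.mul_apply]
    rfl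
  have hpsd : ((Matrix.of v)ᵀ * (Matrix.of v)).PosSemidef := by
    have h := Matrix.posSemidef_conjTranspose_mul_self (Matrix.of v)
    rwa [Matrix.conjTranspose_eq_transpose_of_trivial] at h
  obtain ⟨B, hB⟩ := CStarAlgebra.nonneg_iff_eq_star_mul_self.mp hpsd.nonneg
  have hB' : (Matrix.of v)ᵀ * (Matrix.of v) = Bᵀ * B := by
    rw [hB, Matrix.star_eq_conjTranspose, Matrix.conjTranspose_eq_transpose_of_trivial]
  have hquad : ∀ x : Fin n → ℝ, ∑ j, (v j ⬝ᵥ x) ^ 2 = ∑ i, ((B *ᵥ x) i) ^ 2 := by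
    intro x
    rw [← ZV_two_quad B x, ← hB', ZV_two_quad]
    rfl
  refine ⟨B, hM.trans hB', ?_, hquad⟩
  intro hdet
  obtain ⟨x, hx0, hx⟩ := Matrix.exists_mulVec_eq_zero_iff.mpr hdet
  apply hx0
  apply hv
  have h0 : ∑ j, (v j ⬝ᵥ x) ^ 2 = 0 := by
    rw [hquad, hx]
    simp
  intro j
  have := (Finset.sum_eq_zero_iff_of_nonneg (fun j _ => sq_nonneg (v j ⬝ᵥ x))).mp h0 j (Finset.mem_univ j)
  exact pow_eq_zero_iff (two_ne_zero) |>.mp this

theorem ZV_two_NN {n N : ℕ} (v : Fin N → Fin n → ℝ) (x : Fin n → ℝ) :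
    NN v 2 x = ∑ j, (v j ⬝ᵥ x) ^ 2 := by
  unfold NN
  apply Finset.sum_congr rfl
  intro j _
  rw [Real.rpow_two, sq_abs]

theorem ZV_two_gauss (n : ℕ) : (∫ y : Fin n → ℝ, Real.exp (-∑ i, (y i) ^ 2)) = (√Real.pi) ^ n := by
  have h1 : ∀ y : Fin n → ℝ, Real.exp (-∑ i, (y i) ^ 2) = ∏ i, Real.exp (-1 * (y i) ^ 2) := by
    intro y
    rw [← Real.exp_sum, ← Finset.sum_neg_distrib]
    congr 1
    apply Finset.sum_congr rfl
    intro i _
    ring
  simp_rw [h1]
  rw [integral_fintype_prod_volume_eq_pow (fun t : ℝ => Real.exp (-1 * t ^ 2)), integral_gaussian]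
  simp

theorem ZV_two_ZZ {n N : ℕ} (v : Fin N → Fin n → ℝ) (B : Matrix (Fin n) (Fin n) ℝ) (hdet : B.det ≠ 0)
    (hq : ∀ x : Fin n → ℝ, ∑ j, (v j ⬝ᵥ x) ^ 2 = ∑ i, ((B *ᵥ x) i) ^ 2) :
    ZZ v 2 = |B.det|⁻¹ * (√Real.pi) ^ n := by
  unfold ZZ
  have h1 : ∀ x : Fin n → ℝ, Real.exp (-NN v 2 x) =
      (fun y : Fin n → ℝ => Real.exp (-∑ i, (y i) ^ 2)) (Matrix.toLin' B x) := by
    intro x
    rw [ZV_two_NN, hq]
    rfl
  simp_rw [h1]
  have hcont : Continuous (Matrix.toLin' B) := LinearMap.continuous_of_finiteDimensional _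
  have h2 := integral_map (μ := (volume : Measure (Fin n → ℝ))) hcont.aemeasurable
    (f := fun y : Fin n → ℝ => Real.exp (-∑ i, (y i) ^ 2))
    (Continuous.aestronglyMeasurable (by fun_prop))
  rw [← h2, Real.map_matrix_volume_pi_eq_smul_volume_pi hdet, integral_smul_measure, ZV_two_gauss,
    ENNReal.toReal_ofReal (abs_nonneg _), abs_inv, smul_eq_mul]

/-- H4: the Euclidean case -/
theorem ZV_two {n N : ℕ} (v : Fin N → Fin n → ℝ) (hv : Spans v) : ZZ v 2 * VV v 2 = Real.pi ^ n := by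
  obtain ⟨B, hM, hdet, hq⟩ := ZV_two_fact v hv
  have hG : ∀ σ : Fin n → Fin N, GG v σ Finset.univ 2 = ZZ v 2 := by
    intro σ
    unfold GG ZZ
    congr 1
    funext x
    unfold wt
    simp
  have hcb := cauchy_binet v (fun _ => 1)
  have hM2 : (∑ j, (fun _ : Fin N => (1:ℝ)) j • Matrix.vecMulVec (v j) (v j)) = Bᵀ * B := by
    rw [← hM]
    apply Finset.sum_congr rfl
    intro j _
    exact one_smul ℝ _
  rw [hM2, Matrix.det_mul, Matrix.det_transpose] at hcb
  have hV : VV v 2 = (B.det * B.det) * ZZ v 2 := by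
    unfold VV
    rw [hcb]
    simp_rw [hG]
    rw [← Finset.sum_mul]
    simp only [Finset.prod_const_one, mul_one]
    ring
  rw [hV, ZV_two_ZZ v B hdet hq]
  have hd : |B.det| ≠ 0 := abs_ne_zero.mpr hdet
  have h3 : B.det * B.det = |B.det| * |B.det| := (abs_mul_abs_self _).symm
  rw [h3]
  have h4 : (√Real.pi) ^ n * (√Real.pi) ^ n = Real.pi ^ n := by
    rw [← mul_pow, Real.mul_self_sqrt Real.pi_pos.le]
  calc |B.det|⁻¹ * (√Real.pi) ^ n * (|B.det| * |B.det| * (|B.det|⁻¹ * (√Real.pi) ^ n))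
      = (|B.det|⁻¹ * |B.det|) * (|B.det|⁻¹ * |B.det|) * ((√Real.pi) ^ n * (√Real.pi) ^ n) := by ring
    _ = Real.pi ^ n := by rw [inv_mul_cancel₀ hd, h4]; ring

end S_ZV_two

theorem ZV_two : type_of% @S_ZV_two.ZV_two := @S_ZV_two.ZV_two
end

end VPL
end
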