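import Mathlib
import Pool.Agent.VPL.Cmp

set_option autoImplicit false
open MeasureTheory Set Filter Topology Matrix

noncomputable section
namespace VPL

section
namespace S_levy1

theorem levy1_hlog (y : ℝ) (hy : 0 < y) :
    IntegrableOn (fun u : ℝ => ((if u ≤ y then (1:ℝ) else 0) - (if u ≤ 1 then (1:ℝ) else 0)) / u) (Ioi 0) ∧
    ∫ u in Ioi (0:ℝ), ((if u ≤ y then (1:ℝ) else 0) - (if u ≤ 1 then (1:ℝ) else 0)) / u = Real.log y := by
  have hint : ∀ a b : ℝ, 0 < a → IntegrableOn (fun u : ℝ => u⁻¹) (Ioc a b) := by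
    intro a b ha
    refine IntegrableOn.mono_set (t := Icc a b) ?_ Ioc_subset_Icc_self
    refine ContinuousOn.integrableOn_Icc ?_
    exact continuousOn_id.inv₀ (fun x hx => (ha.trans_le hx.1).ne')
  rcases le_total 1 y with h1 | h1
  · have heq : ∀ u ∈ Ioi (0:ℝ), ((if u ≤ y then (1:ℝ) else 0) - (if u ≤ 1 then (1:ℝ) else 0)) / u =
        (Ioc 1 y).indicator (fun u : ℝ => u⁻¹) u := by
      intro u _
      by_cases hu1 : u ≤ 1
      · have hu2 : u ≤ y := hu1.trans h1
        have : u ∉ Ioc 1 y := fun h => absurd h.1 (not_lt.2 hu1)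
        simp [hu1, hu2, this]
      · by_cases hu2 : u ≤ y
        · have : u ∈ Ioc 1 y := ⟨not_le.1 hu1, hu2⟩
          simp [hu1, hu2, this]
        · have : u ∉ Ioc 1 y := fun h => hu2 h.2
          simp [hu1, hu2, this]
    have hsub : Ioi (0:ℝ) ∩ Ioc 1 y = Ioc 1 y := by
      apply inter_eq_right.2
      intro u hu
      exact lt_trans one_pos hu.1
    constructor
    · rw [integrableOn_congr_fun heq measurableSet_Ioi, IntegrableOn, integrable_indicator_iff measurableSet_Ioc]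
      rw [IntegrableOn, Measure.restrict_restrict measurableSet_Ioc, inter_comm, hsub]
      exact hint 1 y one_pos
    · rw [setIntegral_congr_fun measurableSet_Ioi heq, setIntegral_indicator measurableSet_Ioc, hsub,
        ← intervalIntegral.integral_of_le h1, integral_inv_of_pos one_pos hy]
      simp
  · have heq : ∀ u ∈ Ioi (0:ℝ), ((if u ≤ y then (1:ℝ) else 0) - (if u ≤ 1 then (1:ℝ) else 0)) / u =
        (Ioc y 1).indicator (fun u : ℝ => -u⁻¹) u := by
      intro u _
      by_cases hu1 : u ≤ y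
      · have hu2 : u ≤ 1 := hu1.trans h1
        have : u ∉ Ioc y 1 := fun h => absurd h.1 (not_lt.2 hu1)
        simp [hu1, hu2, this]
      · by_cases hu2 : u ≤ 1
        · have : u ∈ Ioc y 1 := ⟨not_le.1 hu1, hu2⟩
          simp [hu1, hu2, this, neg_div]
        · have : u ∉ Ioc y 1 := fun h => hu2 h.2
          simp [hu1, hu2, this]
    have hsub : Ioi (0:ℝ) ∩ Ioc y 1 = Ioc y 1 := by
      apply inter_eq_right.2
      intro u hu
      exact lt_trans hy hu.1
    constructor
    · rw [integrableOn_congr_fun heq measurableSet_Ioi, IntegrableOn, integrable_indicator_iff measurableSet_Ioc]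
      rw [IntegrableOn, Measure.restrict_restrict measurableSet_Ioc, inter_comm, hsub]
      exact (hint y 1 hy).neg
    · rw [setIntegral_congr_fun measurableSet_Ioi heq, setIntegral_indicator measurableSet_Ioc, hsub,
        integral_neg, ← intervalIntegral.integral_of_le h1, integral_inv_of_pos hy one_pos]
      simp

/-- F1 -/
theorem levy1 : ∃ k0 : ℝ, ∀ y : ℝ, 0 < y →
    IntegrableOn (fun t : ℝ => (Real.exp (-(t * y)) - 1 + (if t ≤ 1 then t * y else 0)) / t ^ 2) (Ioi 0) ∧
    ∫ t in Ioi (0:ℝ), (Real.exp (-(t * y)) - 1 + (if t ≤ 1 then t * y else 0)) / t ^ 2 =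
      y * Real.log y + k0 * y := by
  have hmeas : Measurable (fun u : ℝ => (Real.exp (-u) - 1 + (if u ≤ 1 then u else 0)) / u ^ 2) :=
    (((Real.measurable_exp.comp measurable_neg).sub measurable_const).add
      (Measurable.ite measurableSet_Iic measurable_id measurable_const)).div (measurable_id.pow_const 2)
  have hI1 : IntegrableOn (fun u : ℝ => (Real.exp (-u) - 1 + (if u ≤ 1 then u else 0)) / u ^ 2) (Ioi 0) := by
    rw [← Ioc_union_Ioi_eq_Ioi (zero_le_one : (0:ℝ) ≤ 1), integrableOn_union]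
    constructor
    · refine Measure.integrableOn_of_bounded (M := 1) (by simp) hmeas.aestronglyMeasurable ?_
      refine (ae_restrict_iff' measurableSet_Ioc).2 (Eventually.of_forall (fun u hu => ?_))
      have h0 : 0 < u := hu.1
      have h1 := Real.abs_exp_sub_one_sub_id_le (x := -u) (by rw [abs_neg, abs_of_pos h0]; exact hu.2)
      rw [if_pos hu.2, Real.norm_eq_abs, abs_div, abs_of_pos (pow_pos h0 2), div_le_one (pow_pos h0 2)]
      simpa using h1
    · have hr : IntegrableOn (fun u : ℝ => u ^ (-2 : ℝ)) (Ioi 1) :=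
        integrableOn_Ioi_rpow_of_lt (by norm_num) one_pos
      refine Integrable.mono' hr hmeas.aestronglyMeasurable ?_
      refine (ae_restrict_iff' measurableSet_Ioi).2 (Eventually.of_forall (fun u hu => ?_))
      have hu' : (1:ℝ) < u := hu
      have h0 : (0:ℝ) < u := one_pos.trans hu'
      have h1 : Real.exp (-u) ≤ 1 := Real.exp_le_one_iff.2 (by linarith)
      have h2 := Real.exp_pos (-u)
      rw [if_neg (not_le.2 hu'), add_zero, Real.norm_eq_abs, abs_div, abs_of_pos (pow_pos h0 2),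
        Real.rpow_neg h0.le, show (2:ℝ) = ((2:ℕ):ℝ) by norm_num, Real.rpow_natCast, ← one_div]
      apply div_le_div_of_nonneg_right _ (pow_pos h0 2).le
      rw [abs_le]
      constructor <;> linarith
  refine ⟨∫ u in Ioi (0:ℝ), (Real.exp (-u) - 1 + (if u ≤ 1 then u else 0)) / u ^ 2, fun y hy => ?_⟩
  obtain ⟨hL1, hL2⟩ := levy1_hlog y hy
  have hpt : ∀ u ∈ Ioi (0:ℝ), (Real.exp (-u) - 1 + (if u ≤ 1 then u else 0)) / u ^ 2 +
      ((if u ≤ y then (1:ℝ) else 0) - (if u ≤ 1 then (1:ℝ) else 0)) / u =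
      (Real.exp (-u) - 1 + (if u ≤ y then u else 0)) / u ^ 2 := by
    intro u hu
    have h0 : (0:ℝ) < u := hu
    by_cases h1 : u ≤ 1 <;> by_cases h2 : u ≤ y <;> simp only [h1, h2, if_true, if_false] <;> field_simp <;> ring
  have hIy : IntegrableOn (fun u : ℝ => (Real.exp (-u) - 1 + (if u ≤ y then u else 0)) / u ^ 2) (Ioi 0) :=
    (hI1.add hL1).congr_fun hpt measurableSet_Ioi
  have hInt : ∫ u in Ioi (0:ℝ), (Real.exp (-u) - 1 + (if u ≤ y then u else 0)) / u ^ 2 =
      Real.log y + ∫ u in Ioi (0:ℝ), (Real.exp (-u) - 1 + (if u ≤ 1 then u else 0)) / u ^ 2 := by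
    rw [← setIntegral_congr_fun measurableSet_Ioi hpt, integral_add hI1 hL1, hL2]
    ring
  have hcomp : ∀ t : ℝ, (Real.exp (-(t * y)) - 1 + (if t ≤ 1 then t * y else 0)) / t ^ 2 =
      y ^ 2 * ((Real.exp (-(t * y)) - 1 + (if t * y ≤ y then t * y else 0)) / (t * y) ^ 2) := by
    intro t
    have : (t * y ≤ y) ↔ t ≤ 1 := by
      constructor
      · intro h
        by_contra hc
        push Not at hc
        nlinarith
      · intro h
        nlinarith
    simp only [this]
    field_simp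
  constructor
  · simp_rw [hcomp]
    refine Integrable.const_mul ?_ (y ^ 2)
    have := (integrableOn_Ioi_comp_mul_right_iff
      (fun u : ℝ => (Real.exp (-u) - 1 + (if u ≤ y then u else 0)) / u ^ 2) 0 hy).2 (by simpa using hIy)
    exact this
  · simp_rw [hcomp]
    rw [integral_const_mul]
    have := integral_comp_mul_right_Ioi
      (fun u : ℝ => (Real.exp (-u) - 1 + (if u ≤ y then u else 0)) / u ^ 2) 0 hy
    simp only [zero_mul, smul_eq_mul] at this
    rw [this, hInt]
    field_simp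

end S_levy1

theorem levy1 : type_of% @S_levy1.levy1 := @S_levy1.levy1
end

section
namespace S_levy2

theorem levy2_hlog (y : ℝ) (hy : 0 < y) :
    IntegrableOn (fun u : ℝ => ((if u ≤ y then (1:ℝ) else 0) - (if u ≤ 1 then (1:ℝ) else 0)) / u) (Ioi 0) ∧
    ∫ u in Ioi (0:ℝ), ((if u ≤ y then (1:ℝ) else 0) - (if u ≤ 1 then (1:ℝ) else 0)) / u = Real.log y := by
  have hint : ∀ a b : ℝ, 0 < a → IntegrableOn (fun u : ℝ => u⁻¹) (Ioc a b) := by
    intro a b ha
    refine IntegrableOn.mono_set (t := Icc a b) ?_ Ioc_subset_Icc_self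
    refine ContinuousOn.integrableOn_Icc ?_
    exact continuousOn_id.inv₀ (fun x hx => (ha.trans_le hx.1).ne')
  rcases le_total 1 y with h1 | h1
  · have heq : ∀ u ∈ Ioi (0:ℝ), ((if u ≤ y then (1:ℝ) else 0) - (if u ≤ 1 then (1:ℝ) else 0)) / u =
        (Ioc 1 y).indicator (fun u : ℝ => u⁻¹) u := by
      intro u _
      by_cases hu1 : u ≤ 1
      · have hu2 : u ≤ y := hu1.trans h1
        have : u ∉ Ioc 1 y := fun h => absurd h.1 (not_lt.2 hu1)
        simp [hu1, hu2, this]
      · by_cases hu2 : u ≤ y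
        · have : u ∈ Ioc 1 y := ⟨not_le.1 hu1, hu2⟩
          simp [hu1, hu2, this]
        · have : u ∉ Ioc 1 y := fun h => hu2 h.2
          simp [hu1, hu2, this]
    have hsub : Ioi (0:ℝ) ∩ Ioc 1 y = Ioc 1 y := by
      apply inter_eq_right.2
      intro u hu
      exact lt_trans one_pos hu.1
    constructor
    · rw [integrableOn_congr_fun heq measurableSet_Ioi, IntegrableOn, integrable_indicator_iff measurableSet_Ioc]
      rw [IntegrableOn, Measure.restrict_restrict measurableSet_Ioc, inter_comm, hsub]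
      exact hint 1 y one_pos
    · rw [setIntegral_congr_fun measurableSet_Ioi heq, setIntegral_indicator measurableSet_Ioc, hsub,
        ← intervalIntegral.integral_of_le h1, integral_inv_of_pos one_pos hy]
      simp
  · have heq : ∀ u ∈ Ioi (0:ℝ), ((if u ≤ y then (1:ℝ) else 0) - (if u ≤ 1 then (1:ℝ) else 0)) / u =
        (Ioc y 1).indicator (fun u : ℝ => -u⁻¹) u := by
      intro u _
      by_cases hu1 : u ≤ y
      · have hu2 : u ≤ 1 := hu1.trans h1
        have : u ∉ Ioc y 1 := fun h => absurd h.1 (not_lt.2 hu1)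
        simp [hu1, hu2, this]
      · by_cases hu2 : u ≤ 1
        · have : u ∈ Ioc y 1 := ⟨not_le.1 hu1, hu2⟩
          simp [hu1, hu2, this, neg_div]
        · have : u ∉ Ioc y 1 := fun h => hu2 h.2
          simp [hu1, hu2, this]
    have hsub : Ioi (0:ℝ) ∩ Ioc y 1 = Ioc y 1 := by
      apply inter_eq_right.2
      intro u hu
      exact lt_trans hy hu.1
    constructor
    · rw [integrableOn_congr_fun heq measurableSet_Ioi, IntegrableOn, integrable_indicator_iff measurableSet_Ioc]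
      rw [IntegrableOn, Measure.restrict_restrict measurableSet_Ioc, inter_comm, hsub]
      exact (hint y 1 hy).neg
    · rw [setIntegral_congr_fun measurableSet_Ioi heq, setIntegral_indicator measurableSet_Ioc, hsub,
        integral_neg, ← intervalIntegral.integral_of_le h1, integral_inv_of_pos hy one_pos]
      simp

/-- F2 -/
theorem levy2 : ∃ k1 : ℝ, ∀ y : ℝ, 0 < y →
    IntegrableOn (fun t : ℝ => (Real.exp (-(t * y)) - (if t ≤ 1 then 1 else 0)) / t) (Ioi 0) ∧
    ∫ t in Ioi (0:ℝ), (Real.exp (-(t * y)) - (if t ≤ 1 then 1 else 0)) / t =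
      - Real.log y + k1 := by
  have hmeas : Measurable (fun u : ℝ => (Real.exp (-u) - (if u ≤ 1 then (1:ℝ) else 0)) / u) :=
    ((Real.measurable_exp.comp measurable_neg).sub
      (Measurable.ite measurableSet_Iic measurable_const measurable_const)).div measurable_id
  have hI1 : IntegrableOn (fun u : ℝ => (Real.exp (-u) - (if u ≤ 1 then (1:ℝ) else 0)) / u) (Ioi 0) := by
    rw [← Ioc_union_Ioi_eq_Ioi (zero_le_one : (0:ℝ) ≤ 1), integrableOn_union]
    constructor
    · refine Measure.integrableOn_of_bounded (M := 1) (by simp) hmeas.aestronglyMeasurable ?_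
      refine (ae_restrict_iff' measurableSet_Ioc).2 (Eventually.of_forall (fun u hu => ?_))
      have h0 : 0 < u := hu.1
      have h1 : Real.exp (-u) ≤ 1 := Real.exp_le_one_iff.2 (by linarith)
      have h2 : 1 - u ≤ Real.exp (-u) := by
        have := Real.add_one_le_exp (-u)
        linarith
      rw [if_pos hu.2, Real.norm_eq_abs, abs_div, abs_of_pos h0, div_le_one h0, abs_le]
      constructor <;> linarith
    · refine Integrable.mono' (integrableOn_exp_neg_Ioi 1) hmeas.aestronglyMeasurable ?_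
      refine (ae_restrict_iff' measurableSet_Ioi).2 (Eventually.of_forall (fun u hu => ?_))
      have hu' : (1:ℝ) < u := hu
      rw [if_neg (not_le.2 hu'), sub_zero, Real.norm_eq_abs, abs_div, abs_of_pos (Real.exp_pos _),
        abs_of_pos (one_pos.trans hu')]
      exact div_le_self (Real.exp_pos _).le hu'.le
  refine ⟨∫ u in Ioi (0:ℝ), (Real.exp (-u) - (if u ≤ 1 then (1:ℝ) else 0)) / u, fun y hy => ?_⟩
  obtain ⟨hL1, hL2⟩ := levy2_hlog y hy
  have hIy : IntegrableOn (fun u : ℝ => (Real.exp (-u) - (if u ≤ y then (1:ℝ) else 0)) / u) (Ioi 0) := by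
    refine (hI1.sub hL1).congr_fun (fun u _ => ?_) measurableSet_Ioi
    simp only [Pi.sub_apply]
    ring
  have hInt : ∫ u in Ioi (0:ℝ), (Real.exp (-u) - (if u ≤ y then (1:ℝ) else 0)) / u =
      - Real.log y + ∫ u in Ioi (0:ℝ), (Real.exp (-u) - (if u ≤ 1 then (1:ℝ) else 0)) / u := by
    have h1 := integral_sub hI1 hL1
    rw [hL2] at h1
    have h2 : ∫ u in Ioi (0:ℝ), (Real.exp (-u) - (if u ≤ y then (1:ℝ) else 0)) / u =
        ∫ u in Ioi (0:ℝ), ((Real.exp (-u) - (if u ≤ 1 then (1:ℝ) else 0)) / u -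
          ((if u ≤ y then (1:ℝ) else 0) - (if u ≤ 1 then (1:ℝ) else 0)) / u) := by
      congr 1
      funext u
      ring
    rw [h2, h1]
    ring
  have hcomp : ∀ t : ℝ, (Real.exp (-(t * y)) - (if t ≤ 1 then (1:ℝ) else 0)) / t =
      y * ((Real.exp (-(t * y)) - (if t * y ≤ y then (1:ℝ) else 0)) / (t * y)) := by
    intro t
    have : (t * y ≤ y) ↔ t ≤ 1 := by
      constructor
      · intro h
        by_contra hc
        push Not at hc
        nlinarith
      · intro h
        nlinarith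
    simp only [this]
    field_simp
  constructor
  · simp_rw [hcomp]
    refine Integrable.const_mul ?_ y
    have := (integrableOn_Ioi_comp_mul_right_iff
      (fun u : ℝ => (Real.exp (-u) - (if u ≤ y then (1:ℝ) else 0)) / u) 0 hy).2 (by simpa using hIy)
    exact this
  · simp_rw [hcomp]
    rw [integral_const_mul]
    have := integral_comp_mul_right_Ioi
      (fun u : ℝ => (Real.exp (-u) - (if u ≤ y then (1:ℝ) else 0)) / u) 0 hy
    simp only [zero_mul, smul_eq_mul] at this
    rw [this, hInt]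
    field_simp

end S_levy2

theorem levy2 : type_of% @S_levy2.levy2 := @S_levy2.levy2
end

section
namespace S_dom_integrable

theorem dom_integrable_1d (a c : ℝ) (ha : -1 < a) (hc : 0 < c) :
    Integrable (fun z : ℝ => |z| ^ a * Real.exp (-(c * |z|))) := by
  have hf : IntegrableOn (fun x : ℝ => |x| ^ a * Real.exp (-(c * |x|))) (Ioi 0) := by
    refine (integrableOn_rpow_mul_exp_neg_mul_rpow ha one_pos hc).congr_fun (fun x hx => ?_)
      measurableSet_Ioi
    have hx' : (0:ℝ) < x := hx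
    simp only [Real.rpow_one, abs_of_pos hx', neg_mul]
  have int_Iic : IntegrableOn (fun x : ℝ => |x| ^ a * Real.exp (-(c * |x|))) (Iic 0) := by
    rw [← Measure.map_neg_eq_self (volume : Measure ℝ)]
    let m : MeasurableEmbedding fun x : ℝ => -x := (Homeomorph.neg ℝ).measurableEmbedding
    rw [m.integrableOn_map_iff]
    simp_rw [Function.comp_def, abs_neg, neg_preimage, neg_Iic, neg_zero]
    exact Iff.mpr integrableOn_Ici_iff_integrableOn_Ioi hf
  have := int_Iic.union hf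
  rwa [Iic_union_Ioi, integrableOn_univ] at this

/-- basic domination -/
theorem dom_integrable {n N : ℕ} (v : Fin N → Fin n → ℝ) (σ : Fin n → Fin N)
    (hσ : (Matrix.det (Matrix.of fun j => v (σ j))) ≠ 0) (a b c : ℝ) (ha : -1 < a) (hab : a ≤ b)
    (hc : 0 < c) (k : ℕ) :
    Integrable (fun x : Fin n → ℝ => (∏ j, (|v (σ j) ⬝ᵥ x| ^ a + |v (σ j) ⬝ᵥ x| ^ b)) *
      (1 + ∑ i, |x i|) ^ k * Real.exp (-(c * ∑ i, |x i|))) := by
  classical
  set W : Matrix (Fin n) (Fin n) ℝ := Matrix.of fun j => v (σ j) with hW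
  set K : ℝ := 1 + ∑ j, ∑ i, |v (σ j) i| with hK
  have hK1 : 1 ≤ K := by
    have : 0 ≤ ∑ j, ∑ i, |v (σ j) i| := Finset.sum_nonneg (fun j _ => Finset.sum_nonneg (fun i _ => abs_nonneg _))
    linarith
  have hK0 : 0 < K := by linarith
  set c' : ℝ := c / (2 * K) with hc'
  have hc'0 : 0 < c' := by positivity
  -- product function
  have h1 : Integrable (fun z : ℝ => (|z| ^ a + |z| ^ b) * Real.exp (-(c' * |z|))) := by
    have := (dom_integrable_1d a c' ha hc'0).add (dom_integrable_1d b c' (ha.trans_le hab) hc'0)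
    refine this.congr (Eventually.of_forall (fun z => ?_))
    simp only [Pi.add_apply]
    ring
  have h2 : Integrable (fun z : Fin n → ℝ => ∏ j, ((|z j| ^ a + |z j| ^ b) * Real.exp (-(c' * |z j|)))) := by
    exact Integrable.fintype_prod (f := fun _ z => (|z| ^ a + |z| ^ b) * Real.exp (-(c' * |z|))) (fun _ => h1)
  have h3 : Integrable (fun x : Fin n → ℝ => ∏ j, ((|v (σ j) ⬝ᵥ x| ^ a + |v (σ j) ⬝ᵥ x| ^ b) *
      Real.exp (-(c' * |v (σ j) ⬝ᵥ x|)))) := by
    have hm : Integrable (fun z : Fin n → ℝ => ∏ j, ((|z j| ^ a + |z j| ^ b) * Real.exp (-(c' * |z j|))))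
        (Measure.map (Matrix.toLin' W) volume) := by
      rw [Real.map_matrix_volume_pi_eq_smul_volume_pi hσ]
      exact h2.smul_measure ENNReal.ofReal_ne_top
    have hcont : Continuous (Matrix.toLin' W) := LinearMap.continuous_of_finiteDimensional _
    have := (integrable_map_measure hm.aestronglyMeasurable hcont.measurable.aemeasurable).1 hm
    exact this
  -- constant
  set C : ℝ := (k.factorial : ℝ) * (2 / c) ^ k * Real.exp (c / 2) with hC
  have hC0 : 0 ≤ C := by positivity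
  refine Integrable.mono' (h3.const_mul C) ?_ (Eventually.of_forall (fun x => ?_))
  · refine Measurable.aestronglyMeasurable ?_
    have hd : ∀ j, Measurable (fun x : Fin n → ℝ => |v (σ j) ⬝ᵥ x|) := by
      intro j
      have h9 : Measurable (fun x : Fin n → ℝ => ∑ i, v (σ j) i * x i) := by fun_prop
      exact (continuous_abs.measurable).comp h9
    have hs : Measurable (fun x : Fin n → ℝ => ∑ i, |x i|) := by fun_prop
    refine ((Finset.measurable_prod _ (fun j _ => ((hd j).pow_const a).add ((hd j).pow_const b))).mul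
      ((measurable_const.add hs).pow_const k)).mul ?_
    exact Real.measurable_exp.comp ((measurable_const.mul hs).neg)
  · set S : ℝ := ∑ i, |x i| with hS
    have hS0 : 0 ≤ S := Finset.sum_nonneg (fun i _ => abs_nonneg _)
    have hP0 : 0 ≤ ∏ j, (|v (σ j) ⬝ᵥ x| ^ a + |v (σ j) ⬝ᵥ x| ^ b) :=
      Finset.prod_nonneg (fun j _ => add_nonneg (Real.rpow_nonneg (abs_nonneg _) _)
        (Real.rpow_nonneg (abs_nonneg _) _))
    rw [Real.norm_eq_abs, abs_of_nonneg (by positivity), Finset.prod_mul_distrib]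
    have hz : ∑ j, |v (σ j) ⬝ᵥ x| ≤ K * S := by
      calc ∑ j, |v (σ j) ⬝ᵥ x| ≤ ∑ j, (∑ i, |v (σ j) i|) * S := by
            refine Finset.sum_le_sum (fun j _ => ?_)
            simp only [dotProduct]
            refine (Finset.abs_sum_le_sum_abs _ _).trans ?_
            rw [Finset.sum_mul]
            refine Finset.sum_le_sum (fun i _ => ?_)
            rw [abs_mul]
            refine mul_le_mul_of_nonneg_left ?_ (abs_nonneg _)
            exact Finset.single_le_sum (f := fun i => |x i|) (fun i _ => abs_nonneg _) (Finset.mem_univ i)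
        _ = (∑ j, ∑ i, |v (σ j) i|) * S := by rw [Finset.sum_mul]
        _ ≤ K * S := by
            refine mul_le_mul_of_nonneg_right ?_ hS0
            linarith
    have hexp1 : (1 + S) ^ k ≤ C * Real.exp (c / 2 * S) := by
      have h4 := Real.pow_div_factorial_le_exp (x := c / 2 * (1 + S)) (by positivity) k
      rw [div_le_iff₀ (by positivity), mul_pow] at h4
      have h5 : (1 + S) ^ k = (2 / c) ^ k * ((c / 2) ^ k * (1 + S) ^ k) := by
        rw [← mul_assoc, ← mul_pow]
        have : 2 / c * (c / 2) = 1 := by field_simp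
        rw [this, one_pow, one_mul]
      rw [h5, hC]
      have h6 : Real.exp (c / 2 * (1 + S)) = Real.exp (c / 2) * Real.exp (c / 2 * S) := by
        rw [← Real.exp_add]; ring_nf
      rw [h6] at h4
      calc (2 / c) ^ k * ((c / 2) ^ k * (1 + S) ^ k)
          ≤ (2 / c) ^ k * (Real.exp (c / 2) * Real.exp (c / 2 * S) * k.factorial) :=
            mul_le_mul_of_nonneg_left h4 (by positivity)
        _ = _ := by ring
    have hexp2 : Real.exp (c / 2 * S) * Real.exp (-(c * S)) ≤ ∏ j, Real.exp (-(c' * |v (σ j) ⬝ᵥ x|)) := by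
      rw [← Real.exp_add, ← Real.exp_sum]
      apply Real.exp_le_exp.2
      rw [Finset.sum_neg_distrib, ← Finset.mul_sum]
      have : c' * ∑ j, |v (σ j) ⬝ᵥ x| ≤ c' * (K * S) := mul_le_mul_of_nonneg_left hz hc'0.le
      have h7 : c' * (K * S) = c / 2 * S := by rw [hc']; field_simp
      linarith
    calc (∏ j, (|v (σ j) ⬝ᵥ x| ^ a + |v (σ j) ⬝ᵥ x| ^ b)) * (1 + S) ^ k * Real.exp (-(c * S))
        ≤ (∏ j, (|v (σ j) ⬝ᵥ x| ^ a + |v (σ j) ⬝ᵥ x| ^ b)) * (C * Real.exp (c / 2 * S)) * Real.exp (-(c * S)) := by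
          gcongr
      _ = C * ((∏ j, (|v (σ j) ⬝ᵥ x| ^ a + |v (σ j) ⬝ᵥ x| ^ b)) *
          (Real.exp (c / 2 * S) * Real.exp (-(c * S)))) := by ring
      _ ≤ C * ((∏ j, (|v (σ j) ⬝ᵥ x| ^ a + |v (σ j) ⬝ᵥ x| ^ b)) *
          ∏ j, Real.exp (-(c' * |v (σ j) ⬝ᵥ x|))) := by
          gcongr

end S_dom_integrable

theorem dom_integrable : type_of% @S_dom_integrable.dom_integrable := @S_dom_integrable.dom_integrable
end

section
namespace S_wt_integrable

theorem wt_integrable_dot_meas {n N : ℕ} (v : Fin N → Fin n → ℝ) (j : Fin N) :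
    Measurable (fun x : Fin n → ℝ => |v j ⬝ᵥ x|) := by
  have h : Measurable (fun x : Fin n → ℝ => v j ⬝ᵥ x) := by
    unfold dotProduct
    exact Finset.measurable_sum _ fun i _ => (measurable_pi_apply i).const_mul _
  exact h.norm

theorem wt_integrable_meas {n N : ℕ} (v : Fin N → Fin n → ℝ) (σ : Fin n → Fin N)
    (J : Finset (Fin n)) (p : ℝ) (k : ℕ) :
    Measurable (fun x : Fin n → ℝ => wt v σ J p x * (1 + NN v p x) ^ k *
      Real.exp (-NN v p x)) := by
  have h1 : Measurable (fun x : Fin n → ℝ => wt v σ J p x) := by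
    unfold wt
    exact Finset.measurable_prod _ fun j _ => (wt_integrable_dot_meas v (σ j)).pow_const _
  have h2 : Measurable (fun x : Fin n → ℝ => NN v p x) := by
    unfold NN
    exact Finset.measurable_sum _ fun j _ => (wt_integrable_dot_meas v j).pow_const _
  exact (h1.mul ((h2.const_add 1).pow_const k)).mul h2.neg.exp

theorem wt_integrable_rpow (t p : ℝ) (ht : 0 ≤ t) :
    t ^ (p - 2) ≤ t ^ (min (p - 2) 0) + t ^ (max (p - 2) 0) ∧
    1 ≤ t ^ (min (p - 2) 0) + t ^ (max (p - 2) 0) := by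
  have h1 := Real.rpow_nonneg ht (p - 2)
  rcases le_total (p - 2) 0 with h | h
  · rw [min_eq_left h, max_eq_right h, Real.rpow_zero]
    constructor <;> linarith
  · rw [min_eq_right h, max_eq_left h, Real.rpow_zero]
    constructor <;> linarith

theorem wt_integrable_wt {n N : ℕ} (v : Fin N → Fin n → ℝ) (σ : Fin n → Fin N)
    (J : Finset (Fin n)) (p : ℝ) (x : Fin n → ℝ) :
    0 ≤ wt v σ J p x ∧ wt v σ J p x ≤
      ∏ j, (|v (σ j) ⬝ᵥ x| ^ (min (p - 2) 0) + |v (σ j) ⬝ᵥ x| ^ (max (p - 2) 0)) := by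
  classical
  unfold wt
  constructor
  · exact Finset.prod_nonneg fun j _ => Real.rpow_nonneg (abs_nonneg _) _
  · rw [← Finset.prod_sdiff (Finset.subset_univ J)]
    have h1 : ∏ j ∈ J, |v (σ j) ⬝ᵥ x| ^ (p - 2) ≤
        ∏ j ∈ J, (|v (σ j) ⬝ᵥ x| ^ (min (p - 2) 0) + |v (σ j) ⬝ᵥ x| ^ (max (p - 2) 0)) :=
      Finset.prod_le_prod (fun j _ => Real.rpow_nonneg (abs_nonneg _) _)
        (fun j _ => (wt_integrable_rpow _ p (abs_nonneg _)).1)
    have h2 : 1 ≤ ∏ j ∈ Finset.univ \ J,
        (|v (σ j) ⬝ᵥ x| ^ (min (p - 2) 0) + |v (σ j) ⬝ᵥ x| ^ (max (p - 2) 0)) := by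
      have := Finset.prod_le_prod (s := Finset.univ \ J) (f := fun _ => (1 : ℝ))
        (g := fun j => (|v (σ j) ⬝ᵥ x| ^ (min (p - 2) 0) + |v (σ j) ⬝ᵥ x| ^ (max (p - 2) 0)))
        (fun j _ => zero_le_one) (fun j _ => (wt_integrable_rpow _ p (abs_nonneg _)).2)
      rwa [Finset.prod_const_one] at this
    have h3 : 0 ≤ ∏ j ∈ J, |v (σ j) ⬝ᵥ x| ^ (p - 2) :=
      Finset.prod_nonneg fun j _ => Real.rpow_nonneg (abs_nonneg _) _
    calc ∏ j ∈ J, |v (σ j) ⬝ᵥ x| ^ (p - 2) = 1 * ∏ j ∈ J, |v (σ j) ⬝ᵥ x| ^ (p - 2) :=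
          (one_mul _).symm
      _ ≤ _ := mul_le_mul h2 h1 h3 (by linarith)

theorem wt_integrable_NN {n N : ℕ} (v : Fin N → Fin n → ℝ) (p : ℝ) (hp : 1 < p) :
    ∃ (B : ℝ) (m : ℕ), 0 ≤ B ∧ ∀ x : Fin n → ℝ, 0 ≤ NN v p x ∧
      1 + NN v p x ≤ B * (1 + ∑ i, |x i|) ^ m := by
  set K : ℝ := ∑ j, ∑ i, |v j i| with hK
  have hK0 : 0 ≤ K := Finset.sum_nonneg fun j _ => Finset.sum_nonneg fun i _ => abs_nonneg _
  set m : ℕ := ⌈p⌉₊ with hm
  refine ⟨1 + N * (1 + K) ^ m, m, by positivity, fun x => ⟨?_, ?_⟩⟩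
  · exact Finset.sum_nonneg fun j _ => Real.rpow_nonneg (abs_nonneg _) _
  · set S : ℝ := ∑ i, |x i| with hS
    have hS0 : 0 ≤ S := Finset.sum_nonneg fun i _ => abs_nonneg _
    have h1 : ∀ j, |v j ⬝ᵥ x| ≤ K * S := by
      intro j
      calc |v j ⬝ᵥ x| ≤ ∑ i, |v j i * x i| := Finset.abs_sum_le_sum_abs _ _
        _ = ∑ i, |v j i| * |x i| := by simp_rw [abs_mul]
        _ ≤ ∑ i, K * |x i| := by
            refine Finset.sum_le_sum fun i _ => ?_
            refine mul_le_mul_of_nonneg_right ?_ (abs_nonneg _)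
            calc |v j i| ≤ ∑ i, |v j i| :=
                  Finset.single_le_sum (fun i _ => abs_nonneg (v j i)) (Finset.mem_univ i)
              _ ≤ K := Finset.single_le_sum
                  (fun j _ => Finset.sum_nonneg fun i _ => abs_nonneg (v j i)) (Finset.mem_univ j)
        _ = K * S := by rw [Finset.mul_sum]
    have h2 : ∀ j, |v j ⬝ᵥ x| ^ p ≤ (1 + K) ^ m * (1 + S) ^ m := by
      intro j
      have hb : 1 ≤ (1 + K) * (1 + S) := by nlinarith [mul_nonneg hK0 hS0]
      calc |v j ⬝ᵥ x| ^ p ≤ ((1 + K) * (1 + S)) ^ p := by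
            refine Real.rpow_le_rpow (abs_nonneg _) ?_ (by linarith)
            refine (h1 j).trans ?_
            nlinarith [mul_nonneg hK0 hS0]
        _ ≤ ((1 + K) * (1 + S)) ^ (m : ℝ) :=
            Real.rpow_le_rpow_of_exponent_le hb (Nat.le_ceil p)
        _ = (1 + K) ^ m * (1 + S) ^ m := by rw [Real.rpow_natCast, mul_pow]
    have h3 : NN v p x ≤ N * ((1 + K) ^ m * (1 + S) ^ m) := by
      unfold NN
      calc ∑ j, |v j ⬝ᵥ x| ^ p ≤ ∑ _j : Fin N, (1 + K) ^ m * (1 + S) ^ m :=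
            Finset.sum_le_sum fun j _ => h2 j
        _ = N * ((1 + K) ^ m * (1 + S) ^ m) := by
            rw [Finset.sum_const, Finset.card_univ, Fintype.card_fin, nsmul_eq_mul]
    have h4 : (1 : ℝ) ≤ (1 + S) ^ m := one_le_pow₀ (by linarith)
    calc 1 + NN v p x ≤ (1 + S) ^ m + N * ((1 + K) ^ m * (1 + S) ^ m) := add_le_add h4 h3
      _ = (1 + N * (1 + K) ^ m) * (1 + S) ^ m := by ring

/-- integrability of the singular weights, with room for logarithms -/
theorem wt_integrable {n N : ℕ} (v : Fin N → Fin n → ℝ) (σ : Fin n → Fin N)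
    (hσ : (Matrix.det (Matrix.of fun j => v (σ j))) ≠ 0) (J : Finset (Fin n)) (p : ℝ) (hp : 1 < p) (k : ℕ) :
    Integrable (fun x : Fin n → ℝ => wt v σ J p x * (1 + NN v p x) ^ k * Real.exp (-NN v p x)) := by
  obtain ⟨c, hc, hlow⟩ := NN_lower v ((spans_iff v).2 ⟨σ, hσ⟩)
  obtain ⟨B, m, hB, hNN⟩ := wt_integrable_NN v p hp
  have ha : -1 < min (p - 2) 0 := lt_min (by linarith) (by norm_num)
  have hab : min (p - 2) 0 ≤ max (p - 2) 0 := min_le_max
  have hdom := dom_integrable v σ hσ _ _ c ha hab hc (m * k)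
  have hdom2 := hdom.const_mul (B ^ k * Real.exp N)
  refine hdom2.mono' (wt_integrable_meas v σ J p k).aestronglyMeasurable
    (Filter.Eventually.of_forall fun x => ?_)
  obtain ⟨hw0, hw1⟩ := wt_integrable_wt v σ J p x
  obtain ⟨hN0, hN1⟩ := hNN x
  have hl := hlow p hp.le x
  have he : Real.exp (-NN v p x) ≤ Real.exp N * Real.exp (-(c * ∑ i, |x i|)) := by
    rw [← Real.exp_add]
    apply Real.exp_le_exp.2
    linarith
  have hpow : (1 + NN v p x) ^ k ≤ B ^ k * (1 + ∑ i, |x i|) ^ (m * k) := by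
    rw [pow_mul, ← mul_pow]
    exact pow_le_pow_left₀ (by linarith) hN1 k
  have hk0 : 0 ≤ (1 + NN v p x) ^ k := by positivity
  rw [Real.norm_eq_abs, abs_of_nonneg (by positivity)]
  calc wt v σ J p x * (1 + NN v p x) ^ k * Real.exp (-NN v p x)
      ≤ (∏ j, (|v (σ j) ⬝ᵥ x| ^ (min (p - 2) 0) + |v (σ j) ⬝ᵥ x| ^ (max (p - 2) 0))) *
          (B ^ k * (1 + ∑ i, |x i|) ^ (m * k)) *
          (Real.exp N * Real.exp (-(c * ∑ i, |x i|))) := by
        have hP0 : 0 ≤ ∏ j, (|v (σ j) ⬝ᵥ x| ^ (min (p - 2) 0) +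
            |v (σ j) ⬝ᵥ x| ^ (max (p - 2) 0)) := hw0.trans hw1
        have hQ0 : 0 ≤ B ^ k * (1 + ∑ i, |x i|) ^ (m * k) := hk0.trans hpow
        exact mul_le_mul (mul_le_mul hw1 hpow hk0 hP0) he (Real.exp_pos _).le
          (mul_nonneg hP0 hQ0)
    _ = _ := by ring

end S_wt_integrable

theorem wt_integrable : type_of% @S_wt_integrable.wt_integrable := @S_wt_integrable.wt_integrable
end

section
namespace S_wt_log_integrable

theorem wli_rpow_between (t a b q : ℝ) (ht : 0 < t) (h1 : a ≤ q) (h2 : q ≤ b) :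
    t ^ q ≤ t ^ a + t ^ b := by
  have ha : 0 ≤ t ^ a := Real.rpow_nonneg ht.le _
  have hb : 0 ≤ t ^ b := Real.rpow_nonneg ht.le _
  rcases le_total 1 t with h | h
  · have := Real.rpow_le_rpow_of_exponent_le h h2
    linarith
  · have := Real.rpow_le_rpow_of_exponent_ge ht h h1
    linarith

theorem wli_log (t ε : ℝ) (ht : 0 < t) (hε : 0 < ε) :
    |Real.log t| ≤ (t ^ (-ε) + t ^ ε) / ε := by
  have h0 : 0 ≤ t ^ (-ε) := Real.rpow_nonneg ht.le _
  have h1 : 0 ≤ t ^ ε := Real.rpow_nonneg ht.le _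
  have h2 : Real.log t ≤ t ^ ε / ε := Real.log_le_rpow_div ht.le hε
  have h3 : - Real.log t ≤ t ^ (-ε) / ε := by
    have := Real.log_le_rpow_div (inv_pos.2 ht).le hε
    rwa [Real.log_inv, Real.inv_rpow ht.le, ← Real.rpow_neg ht.le] at this
  have h4 : 0 ≤ t ^ (-ε) / ε := div_nonneg h0 hε.le
  have h5 : 0 ≤ t ^ ε / ε := div_nonneg h1 hε.le
  rw [add_div, abs_le]
  constructor <;> linarith

theorem wli_log_mul (t ε a b q : ℝ) (ht : 0 < t) (hε : 0 < ε) (h1 : a ≤ q - ε) (h2 : q + ε ≤ b) :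
    |Real.log t| * t ^ q ≤ 2 / ε * (t ^ a + t ^ b) := by
  have hq : 0 ≤ t ^ q := Real.rpow_nonneg ht.le _
  have h3 := mul_le_mul_of_nonneg_right (wli_log t ε ht hε) hq
  have e1 : t ^ (-ε) * t ^ q = t ^ (q - ε) := by
    rw [← Real.rpow_add ht]; congr 1; ring
  have e2 : t ^ ε * t ^ q = t ^ (q + ε) := by
    rw [← Real.rpow_add ht]; congr 1; ring
  have h4 := wli_rpow_between t a b (q - ε) ht h1 (by linarith)
  have h5 := wli_rpow_between t a b (q + ε) ht (by linarith) h2
  have e3 : (t ^ (-ε) + t ^ ε) / ε * t ^ q = (t ^ (-ε) * t ^ q + t ^ ε * t ^ q) / ε := by ring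
  rw [e3, e1, e2] at h3
  refine h3.trans ?_
  have e4 : 2 / ε * (t ^ a + t ^ b) = (2 * (t ^ a + t ^ b)) / ε := by ring
  rw [e4]
  exact div_le_div_of_nonneg_right (by linarith) hε.le

theorem wli_ae {n N : ℕ} (v : Fin N → Fin n → ℝ) (σ : Fin n → Fin N)
    (hσ : (Matrix.det (Matrix.of fun j => v (σ j))) ≠ 0) :
    ∀ᵐ x : Fin n → ℝ, ∀ i, v (σ i) ⬝ᵥ x ≠ 0 := by
  rw [ae_all_iff]
  intro i
  set L : (Fin n → ℝ) →ₗ[ℝ] ℝ := dotProductBilin ℝ ℝ (v (σ i)) with hL
  have hLx : ∀ x, L x = v (σ i) ⬝ᵥ x := fun x => rfl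
  have hne : LinearMap.ker L ≠ ⊤ := by
    intro htop
    apply hσ
    apply Matrix.det_eq_zero_of_row_eq_zero i
    intro k
    have h1 : (Pi.single k (1:ℝ) : Fin n → ℝ) ∈ LinearMap.ker L := by rw [htop]; trivial
    rw [LinearMap.mem_ker, hLx] at h1
    simpa using h1
  have h2 := Measure.addHaar_submodule (volume : Measure (Fin n → ℝ)) (LinearMap.ker L) hne
  rw [ae_iff]
  convert h2 using 2
  ext x
  simp only [not_not, mem_ofPred_eq, SetLike.mem_coe, LinearMap.mem_ker, hLx, ne_eq]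

/-- logarithmic integrability -/
theorem wt_log_integrable {n N : ℕ} (v : Fin N → Fin n → ℝ) (σ : Fin n → Fin N)
    (hσ : (Matrix.det (Matrix.of fun j => v (σ j))) ≠ 0) (J : Finset (Fin n)) (p : ℝ) (hp : 1 < p)
    (j : Fin n) :
    Integrable (fun x : Fin n → ℝ => abs (Real.log |v (σ j) ⬝ᵥ x|) * (wt v σ J p x * Real.exp (-NN v p x))) := by
  classical
  set ε : ℝ := min ((p - 1) / 2) (1 / 2) with hε
  have hε0 : 0 < ε := lt_min (by linarith) (by norm_num)
  have hε1 : ε ≤ (p - 1) / 2 := min_le_left _ _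
  have hε2 : ε ≤ 1 / 2 := min_le_right _ _
  set a : ℝ := min (p - 2) 0 - ε with ha
  set b : ℝ := max (p - 2) 0 + ε with hb
  have ha1 : -1 < a := by
    rw [ha]
    rcases le_total (p - 2) 0 with h | h
    · rw [min_eq_left h]; linarith
    · rw [min_eq_right h]; linarith
  have ha2 : a ≤ p - 2 - ε := by
    rw [ha]; linarith [min_le_left (p - 2) 0]
  have ha3 : a ≤ 0 - ε := by
    rw [ha]; linarith [min_le_right (p - 2) 0]
  have hb2 : p - 2 + ε ≤ b := by
    rw [hb]; linarith [le_max_left (p - 2) 0]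
  have hb3 : 0 + ε ≤ b := by
    rw [hb]; linarith [le_max_right (p - 2) 0]
  obtain ⟨c, hc, hN⟩ := NN_lower v ((spans_iff v).2 ⟨σ, hσ⟩)
  have hdom := (dom_integrable v σ hσ a b c ha1 (by linarith) hc 0).const_mul
    (2 / ε * Real.exp N)
  have hm : ∀ w : Fin n → ℝ, Measurable (fun x : Fin n → ℝ => w ⬝ᵥ x) := by
    intro w
    simp only [dotProduct]
    exact Finset.measurable_fun_sum _ fun i _ => (measurable_pi_apply i).const_mul _
  refine hdom.mono' ?_ ?_
  · refine Measurable.aestronglyMeasurable ?_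
    have m1 : Measurable fun x : Fin n → ℝ => abs (Real.log |v (σ j) ⬝ᵥ x|) :=
      measurable_norm.comp (Real.measurable_log.comp (measurable_norm.comp (hm _)))
    have m2 : Measurable fun x : Fin n → ℝ => wt v σ J p x := by
      unfold wt
      exact Finset.measurable_fun_prod _ fun i _ =>
        (measurable_norm.comp (hm (v (σ i)))).pow_const _
    have m3 : Measurable fun x : Fin n → ℝ => Real.exp (-NN v p x) := by
      unfold NN
      refine Real.measurable_exp.comp (Measurable.neg ?_)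
      exact Finset.measurable_fun_sum _ fun i _ =>
        (measurable_norm.comp (hm (v i))).pow_const _
    exact m1.mul (m2.mul m3)
  · filter_upwards [wli_ae v σ hσ] with x hx
    have hpos : ∀ i, 0 < |v (σ i) ⬝ᵥ x| := fun i => abs_pos.2 (hx i)
    have hwt0 : 0 ≤ wt v σ J p x := Finset.prod_nonneg fun i _ => Real.rpow_nonneg (abs_nonneg _) _
    rw [Real.norm_eq_abs, abs_of_nonneg (mul_nonneg (abs_nonneg _)
      (mul_nonneg hwt0 (Real.exp_pos _).le))]
    -- the product bound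
    have hprod : abs (Real.log |v (σ j) ⬝ᵥ x|) * wt v σ J p x ≤
        2 / ε * ∏ i, (|v (σ i) ⬝ᵥ x| ^ a + |v (σ i) ⬝ᵥ x| ^ b) := by
      set F : Fin n → ℝ := fun i => if i ∈ J then |v (σ i) ⬝ᵥ x| ^ (p - 2) else 1 with hF
      have hwt : wt v σ J p x = ∏ i, F i := by
        unfold wt
        rw [hF, Finset.prod_ite_mem, Finset.univ_inter]
      have hF0 : ∀ i, 0 ≤ F i := fun i => by
        simp only [hF]; split_ifs
        · exact Real.rpow_nonneg (abs_nonneg _) _
        · exact zero_le_one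
      have hFle : ∀ i, F i ≤ |v (σ i) ⬝ᵥ x| ^ a + |v (σ i) ⬝ᵥ x| ^ b := fun i => by
        simp only [hF]; split_ifs
        · exact wli_rpow_between _ a b _ (hpos i) (by linarith) (by linarith)
        · have := wli_rpow_between _ a b 0 (hpos i) (by linarith) (by linarith)
          rwa [Real.rpow_zero] at this
      have hFj : abs (Real.log |v (σ j) ⬝ᵥ x|) * F j ≤
          2 / ε * (|v (σ j) ⬝ᵥ x| ^ a + |v (σ j) ⬝ᵥ x| ^ b) := by
        simp only [hF]; split_ifs
        · exact wli_log_mul _ ε a b _ (hpos j) hε0 ha2 hb2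
        · have := wli_log_mul _ ε a b 0 (hpos j) hε0 ha3 hb3
          rwa [Real.rpow_zero] at this
      rw [hwt, ← Finset.mul_prod_erase Finset.univ F (Finset.mem_univ j),
        ← Finset.mul_prod_erase Finset.univ
          (fun i => |v (σ i) ⬝ᵥ x| ^ a + |v (σ i) ⬝ᵥ x| ^ b) (Finset.mem_univ j),
        ← mul_assoc, ← mul_assoc]
      apply mul_le_mul hFj _ (Finset.prod_nonneg fun i _ => hF0 i) (by positivity)
      exact Finset.prod_le_prod (fun i _ => hF0 i) fun i _ => hFle i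
    have hexp : Real.exp (-NN v p x) ≤ Real.exp N * Real.exp (-(c * ∑ i, |x i|)) := by
      rw [← Real.exp_add]
      apply Real.exp_le_exp.2
      have := hN p hp.le x
      linarith
    calc abs (Real.log |v (σ j) ⬝ᵥ x|) * (wt v σ J p x * Real.exp (-NN v p x))
        = (abs (Real.log |v (σ j) ⬝ᵥ x|) * wt v σ J p x) * Real.exp (-NN v p x) := by ring
      _ ≤ (2 / ε * ∏ i, (|v (σ i) ⬝ᵥ x| ^ a + |v (σ i) ⬝ᵥ x| ^ b)) *
          (Real.exp N * Real.exp (-(c * ∑ i, |x i|))) :=
          mul_le_mul hprod hexp (Real.exp_pos _).le (by positivity)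
      _ = 2 / ε * Real.exp N * ((∏ i, (|v (σ i) ⬝ᵥ x| ^ a + |v (σ i) ⬝ᵥ x| ^ b)) *
          (1 + ∑ i, |x i|) ^ 0 * Real.exp (-(c * ∑ i, |x i|))) := by
          rw [pow_zero]; ring

end S_wt_log_integrable

theorem wt_log_integrable : type_of% @S_wt_log_integrable.wt_log_integrable := @S_wt_log_integrable.wt_log_integrable
end

section
namespace S_GG_hasDerivAt

theorem h170_phi_one {a b w : ℝ} (ha : a ≤ 0) (hb : 0 ≤ b) (hw : 0 < w) : 1 ≤ w ^ a + w ^ b := by
  rcases le_total w 1 with h | h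
  · have h1 := Real.one_le_rpow_of_pos_of_le_one_of_nonpos hw h ha
    have h2 := (Real.rpow_pos_of_pos hw b).le
    linarith
  · have h1 := Real.one_le_rpow h hb
    have h2 := (Real.rpow_pos_of_pos hw a).le
    linarith

theorem h170_phi_le {a b q w : ℝ} (h1 : a ≤ q) (h2 : q ≤ b) (hw : 0 < w) : w ^ q ≤ w ^ a + w ^ b := by
  have h3 := (Real.rpow_pos_of_pos hw a).le
  have h4 := (Real.rpow_pos_of_pos hw b).le
  rcases le_total w 1 with h | h
  · have := Real.rpow_le_rpow_of_exponent_ge hw h h1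
    linarith
  · have := Real.rpow_le_rpow_of_exponent_le h h2
    linarith

theorem h170_log_phi {ε a b q w : ℝ} (hε : 0 < ε) (h1 : a + ε ≤ q) (h2 : q + ε ≤ b) (hw : 0 < w) :
    |Real.log w| * w ^ q ≤ (1 / ε) * (w ^ a + w ^ b) := by
  have h3 := (Real.rpow_pos_of_pos hw a).le
  have h4 := (Real.rpow_pos_of_pos hw b).le
  have h5 := (Real.rpow_pos_of_pos hw q).le
  rcases le_total w 1 with h | h
  · have hl : |Real.log w| ≤ w ^ (-ε) / ε := by
      rw [abs_of_nonpos (Real.log_nonpos hw.le h), ← Real.log_inv, Real.rpow_neg hw.le, ← Real.inv_rpow hw.le]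
      exact Real.log_le_rpow_div (inv_nonneg.2 hw.le) hε
    have h6 : w ^ q ≤ w ^ (a + ε) := Real.rpow_le_rpow_of_exponent_ge hw h h1
    calc |Real.log w| * w ^ q ≤ w ^ (-ε) / ε * w ^ (a + ε) :=
          mul_le_mul hl h6 h5 (div_nonneg (Real.rpow_pos_of_pos hw _).le hε.le)
      _ = (1 / ε) * w ^ a := by
          have : w ^ a = w ^ (-ε) * w ^ (a + ε) := by rw [← Real.rpow_add hw]; congr 1; ring
          rw [this]; ring
      _ ≤ (1 / ε) * (w ^ a + w ^ b) := mul_le_mul_of_nonneg_left (by linarith) (by positivity)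
  · have hl : |Real.log w| ≤ w ^ ε / ε := by
      rw [abs_of_nonneg (Real.log_nonneg h)]
      exact Real.log_le_rpow_div hw.le hε
    calc |Real.log w| * w ^ q ≤ w ^ ε / ε * w ^ q := mul_le_mul_of_nonneg_right hl h5
      _ = (1 / ε) * w ^ (q + ε) := by
          have : w ^ (q + ε) = w ^ ε * w ^ q := by rw [← Real.rpow_add hw]; congr 1; ring
          rw [this]; ring
      _ ≤ (1 / ε) * w ^ b := mul_le_mul_of_nonneg_left (Real.rpow_le_rpow_of_exponent_le h h2) (by positivity)
      _ ≤ (1 / ε) * (w ^ a + w ^ b) := mul_le_mul_of_nonneg_left (by linarith) (by positivity)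

theorem h170_zlog {ε q : ℝ} (hε : 0 < ε) (hq : ε ≤ q) (m : ℕ) (hm : q + ε ≤ m) (z : ℝ) (hz : 0 ≤ z) :
    |z ^ q * Real.log z| ≤ (2 / ε) * (1 + z) ^ m := by
  rcases hz.eq_or_lt with h | h
  · rw [← h, Real.log_zero, mul_zero, abs_zero]
    positivity
  · rw [abs_mul, abs_of_nonneg (Real.rpow_pos_of_pos h q).le, mul_comm]
    have h1 := h170_log_phi (a := 0) (b := (m : ℝ)) hε (by linarith) hm h
    rw [Real.rpow_zero, Real.rpow_natCast] at h1
    refine h1.trans ?_
    have h2 : (1:ℝ) ≤ (1 + z) ^ m := one_le_pow₀ (by linarith)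
    have h3 : z ^ m ≤ (1 + z) ^ m := pow_le_pow_left₀ hz (by linarith) m
    calc 1 / ε * (1 + z ^ m) ≤ 1 / ε * (2 * (1 + z) ^ m) := mul_le_mul_of_nonneg_left (by linarith) (by positivity)
      _ = (2 / ε) * (1 + z) ^ m := by ring

theorem h170_dot_le {n : ℕ} (v x : Fin n → ℝ) : |v ⬝ᵥ x| ≤ (∑ k, |v k|) * ∑ k, |x k| := by
  unfold dotProduct
  refine (Finset.abs_sum_le_sum_abs _ _).trans ?_
  rw [Finset.sum_mul]
  refine Finset.sum_le_sum fun k _ => ?_
  rw [abs_mul]
  exact mul_le_mul_of_nonneg_left (Finset.single_le_sum (f := fun k => |x k|) (fun i _ => abs_nonneg _) (Finset.mem_univ k))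
    (abs_nonneg _)

theorem h170_null {n : ℕ} (v : Fin n → ℝ) (hv : v ≠ 0) : ∀ᵐ x : Fin n → ℝ, v ⬝ᵥ x ≠ 0 := by
  let s : Submodule ℝ (Fin n → ℝ) :=
    { carrier := {x | v ⬝ᵥ x = 0}
      add_mem' := by
        intro a b ha hb
        show v ⬝ᵥ (a + b) = 0
        have ha' : v ⬝ᵥ a = 0 := ha
        have hb' : v ⬝ᵥ b = 0 := hb
        rw [dotProduct_add, ha', hb', add_zero]
      zero_mem' := by
        show v ⬝ᵥ 0 = 0
        simp
      smul_mem' := by
        intro c a ha
        show v ⬝ᵥ (c • a) = 0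
        have ha' : v ⬝ᵥ a = 0 := ha
        rw [dotProduct_smul, ha', smul_zero] }
  have hs : s ≠ ⊤ := by
    intro h
    apply hv
    have h1 : v ∈ s := by rw [h]; trivial
    have h2 : v ⬝ᵥ v = 0 := h1
    exact dotProduct_self_eq_zero.1 h2
  have h1 : (volume : Measure (Fin n → ℝ)) (s : Set (Fin n → ℝ)) = 0 := Measure.addHaar_submodule volume s hs
  rw [ae_iff]
  simp only [not_not]
  exact h1

theorem h170_deriv_rpow {z q : ℝ} (hz : 0 ≤ z) (hq : 0 < q) : HasDerivAt (fun q : ℝ => z ^ q) (z ^ q * Real.log z) q := by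
  rcases hz.eq_or_lt with h | h
  · rw [← h, Real.log_zero, mul_zero]
    refine (hasDerivAt_const q (0:ℝ)).congr_of_eventuallyEq ?_
    filter_upwards [lt_mem_nhds hq] with r hr
    rw [Real.zero_rpow hr.ne']
  · have := (hasDerivAt_id q).const_rpow h
    simpa [mul_comm] using this

/-- G1: derivative in `p` -/
theorem GG_hasDerivAt {n N : ℕ} (v : Fin N → Fin n → ℝ) (σ : Fin n → Fin N)
    (hσ : (Matrix.det (Matrix.of fun j => v (σ j))) ≠ 0) (J : Finset (Fin n)) (p : ℝ) (hp : 1 < p) :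
    Integrable (fun x : Fin n → ℝ => (∑ j ∈ J, Real.log |v (σ j) ⬝ᵥ x| -
        ∑ i, |v i ⬝ᵥ x| ^ p * Real.log |v i ⬝ᵥ x|) * (wt v σ J p x * Real.exp (-NN v p x))) ∧
    HasDerivAt (fun q => GG v σ J q)
      (∫ x : Fin n → ℝ, (∑ j ∈ J, Real.log |v (σ j) ⬝ᵥ x| -
        ∑ i, |v i ⬝ᵥ x| ^ p * Real.log |v i ⬝ᵥ x|) * (wt v σ J p x * Real.exp (-NN v p x))) p := by
  obtain ⟨c, hc, hNN⟩ := NN_lower v ((spans_iff v).2 ⟨σ, hσ⟩)
  obtain ⟨ε, hεdef⟩ : ∃ ε : ℝ, ε = min ((p - 1) / 4) (1 / 2) := ⟨_, rfl⟩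
  have hε : 0 < ε := by rw [hεdef]; exact lt_min (by linarith) (by norm_num)
  have hε1 : 4 * ε ≤ p - 1 := by
    have : ε ≤ (p - 1) / 4 := by rw [hεdef]; exact min_le_left _ _
    linarith
  have hε2 : ε ≤ 1 / 2 := by rw [hεdef]; exact min_le_right _ _
  obtain ⟨a, hadef⟩ : ∃ a : ℝ, a = min (p - ε - 2) 0 - ε := ⟨_, rfl⟩
  obtain ⟨b, hbdef⟩ : ∃ b : ℝ, b = max (p + ε - 2) 0 + ε := ⟨_, rfl⟩
  have ha1 : a + ε ≤ p - ε - 2 := by rw [hadef]; have := min_le_left (p - ε - 2) 0; linarith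
  have ha0 : a ≤ 0 := by rw [hadef]; have := min_le_right (p - ε - 2) 0; linarith
  have ham : -1 < a := by
    rw [hadef]
    rcases min_choice (p - ε - 2) 0 with h | h <;> rw [h] <;> linarith
  have hb1 : p + ε - 2 + ε ≤ b := by rw [hbdef]; have := le_max_left (p + ε - 2) 0; linarith
  have hb0 : 0 ≤ b := by rw [hbdef]; have := le_max_right (p + ε - 2) 0; linarith
  obtain ⟨m, hm⟩ := exists_nat_ge (p + 2 * ε)
  -- the domination
  set P : (Fin n → ℝ) → ℝ := fun x => ∏ j, (|v (σ j) ⬝ᵥ x| ^ a + |v (σ j) ⬝ᵥ x| ^ b) with hP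
  have hdom := dom_integrable v σ hσ a b c ham (ha0.trans hb0) hc m
  set K : ℝ := (J.card : ℝ) * (1 / ε) + ∑ i, (2 / ε) * (1 + ∑ k, |v i k|) ^ m with hK
  have hK0 : 0 ≤ K := by
    rw [hK]
    refine add_nonneg (by positivity) (Finset.sum_nonneg fun i _ => ?_)
    have : 0 ≤ ∑ k, |v i k| := Finset.sum_nonneg fun k _ => abs_nonneg _
    positivity
  set bd : (Fin n → ℝ) → ℝ := fun x => (K * Real.exp N) * (P x * (1 + ∑ i, |x i|) ^ m * Real.exp (-(c * ∑ i, |x i|))) with hbd
  have hbdi : Integrable bd := hdom.const_mul _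
  have hS0 : ∀ x : Fin n → ℝ, 0 ≤ ∑ i, |x i| := fun x => Finset.sum_nonneg fun i _ => abs_nonneg _
  have hP0 : ∀ x, 0 ≤ P x := fun x => Finset.prod_nonneg fun j _ => by positivity
  have hvne : ∀ j, v (σ j) ≠ 0 := by
    intro j h
    apply hσ
    refine Matrix.det_eq_zero_of_row_eq_zero j fun k => ?_
    rw [Matrix.of_apply, h]
    rfl
  have hae : ∀ᵐ x : Fin n → ℝ, ∀ j, v (σ j) ⬝ᵥ x ≠ 0 := ae_all_iff.2 fun j => h170_null _ (hvne j)
  have hball : ∀ q ∈ Metric.ball p ε, p - ε < q ∧ q < p + ε := by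
    intro q hq
    rw [Metric.mem_ball, Real.dist_eq, abs_lt] at hq
    constructor <;> linarith [hq.1, hq.2]
  have hexp : ∀ q, 1 ≤ q → ∀ x : Fin n → ℝ, Real.exp (-NN v q x) ≤ Real.exp N * Real.exp (-(c * ∑ i, |x i|)) := by
    intro q hq x
    rw [← Real.exp_add]
    refine Real.exp_le_exp.2 ?_
    have := hNN q hq x
    linarith
  -- products
  have hprod : ∀ x : Fin n → ℝ, (∀ j, v (σ j) ⬝ᵥ x ≠ 0) → ∀ q ∈ Metric.ball p ε,
      wt v σ J q x ≤ P x ∧ 0 ≤ wt v σ J q x ∧ ∀ j ∈ J, |(Real.log |v (σ j) ⬝ᵥ x|)| * wt v σ J q x ≤ (1 / ε) * P x := by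
    intro x hx q hq
    obtain ⟨hq1, hq2⟩ := hball q hq
    have hw : ∀ j, 0 < |v (σ j) ⬝ᵥ x| := fun j => abs_pos.2 (hx j)
    have hf : ∀ j, |v (σ j) ⬝ᵥ x| ^ (q - 2) ≤ |v (σ j) ⬝ᵥ x| ^ a + |v (σ j) ⬝ᵥ x| ^ b := fun j =>
      h170_phi_le (by linarith) (by linarith) (hw j)
    have hf0 : ∀ j, 0 ≤ |v (σ j) ⬝ᵥ x| ^ (q - 2) := fun j => (Real.rpow_pos_of_pos (hw j) _).le
    have hone : ∀ j, 1 ≤ |v (σ j) ⬝ᵥ x| ^ a + |v (σ j) ⬝ᵥ x| ^ b := fun j => h170_phi_one ha0 hb0 (hw j)
    have hPJ : ∀ T : Finset (Fin n), ∏ j ∈ T, (|v (σ j) ⬝ᵥ x| ^ a + |v (σ j) ⬝ᵥ x| ^ b) ≤ P x := by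
      intro T
      rw [hP]
      simp only
      rw [← Finset.prod_sdiff (Finset.subset_univ T)]
      have h1 : (1:ℝ) ≤ ∏ j ∈ Finset.univ \ T, (|v (σ j) ⬝ᵥ x| ^ a + |v (σ j) ⬝ᵥ x| ^ b) := by
        have := Finset.prod_le_prod (s := Finset.univ \ T) (f := fun _ => (1:ℝ)) (fun _ _ => zero_le_one) (fun j _ => hone j)
        rwa [Finset.prod_const_one] at this
      have h2 : 0 ≤ ∏ j ∈ T, (|v (σ j) ⬝ᵥ x| ^ a + |v (σ j) ⬝ᵥ x| ^ b) :=
        Finset.prod_nonneg fun j _ => le_trans zero_le_one (hone j)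
      exact le_mul_of_one_le_left h2 h1
    refine ⟨?_, Finset.prod_nonneg fun j _ => hf0 j, ?_⟩
    · unfold wt
      exact (Finset.prod_le_prod (fun j _ => hf0 j) (fun j _ => hf j)).trans (hPJ J)
    · intro j hj
      unfold wt
      rw [← Finset.mul_prod_erase J _ hj, ← mul_assoc]
      have h1 := h170_log_phi (a := a) (b := b) (q := q - 2) hε (by linarith) (by linarith) (hw j)
      have h2 : ∏ i ∈ J.erase j, |v (σ i) ⬝ᵥ x| ^ (q - 2) ≤ ∏ i ∈ J.erase j, (|v (σ i) ⬝ᵥ x| ^ a + |v (σ i) ⬝ᵥ x| ^ b) :=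
        Finset.prod_le_prod (fun i _ => hf0 i) (fun i _ => hf i)
      have h3 : 0 ≤ ∏ i ∈ J.erase j, |v (σ i) ⬝ᵥ x| ^ (q - 2) := Finset.prod_nonneg fun i _ => hf0 i
      have h4 : 0 ≤ (1 / ε) * (|v (σ j) ⬝ᵥ x| ^ a + |v (σ j) ⬝ᵥ x| ^ b) := by
        have := hone j
        positivity
      refine (mul_le_mul h1 h2 h3 h4).trans ?_
      rw [mul_assoc, Finset.mul_prod_erase J (fun i => |v (σ i) ⬝ᵥ x| ^ a + |v (σ i) ⬝ᵥ x| ^ b) hj]
      exact mul_le_mul_of_nonneg_left (hPJ J) (by positivity)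
  have hzl : ∀ x : Fin n → ℝ, ∀ q ∈ Metric.ball p ε, ∀ i,
      |(|v i ⬝ᵥ x| ^ q * Real.log |v i ⬝ᵥ x|)| ≤ (2 / ε) * (1 + ∑ k, |v i k|) ^ m * (1 + ∑ k, |x k|) ^ m := by
    intro x q hq i
    obtain ⟨hq1, hq2⟩ := hball q hq
    have h1 := h170_zlog (ε := ε) (q := q) hε (by linarith) m (by linarith) |v i ⬝ᵥ x| (abs_nonneg _)
    refine h1.trans ?_
    rw [mul_assoc, ← mul_pow]
    refine mul_le_mul_of_nonneg_left (pow_le_pow_left₀ (by positivity) ?_ m) (by positivity)
    have h2 := h170_dot_le (v i) x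
    have h3 := hS0 x
    have h4 := hS0 (v i)
    nlinarith
  -- measurability
  have hmd : ∀ i, Measurable (fun x : Fin n → ℝ => |v i ⬝ᵥ x|) := by
    intro i
    have : Continuous (fun x : Fin n → ℝ => |v i ⬝ᵥ x|) := by
      unfold dotProduct
      fun_prop
    exact this.measurable
  have hmF : ∀ q, Measurable (fun x : Fin n → ℝ => wt v σ J q x * Real.exp (-NN v q x)) := by
    intro q
    have h1 : Measurable (fun x : Fin n → ℝ => wt v σ J q x) := by
      unfold wt
      exact Finset.measurable_prod _ fun j _ => (hmd (σ j)).pow_const _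
    have h2 : Measurable (fun x : Fin n → ℝ => NN v q x) := by
      unfold NN
      exact Finset.measurable_sum _ fun j _ => (hmd j).pow_const _
    exact h1.mul h2.neg.exp
  have hmF' : ∀ q, Measurable (fun x : Fin n → ℝ => (∑ j ∈ J, Real.log |v (σ j) ⬝ᵥ x| -
        ∑ i, |v i ⬝ᵥ x| ^ q * Real.log |v i ⬝ᵥ x|) * (wt v σ J q x * Real.exp (-NN v q x))) := by
    intro q
    refine Measurable.mul ?_ (hmF q)
    refine Measurable.sub ?_ ?_
    · exact Finset.measurable_sum _ fun j _ => Real.measurable_log.comp (hmd (σ j))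
    · exact Finset.measurable_sum _ fun j _ => ((hmd j).pow_const _).mul (Real.measurable_log.comp (hmd j))
  have hpb : p ∈ Metric.ball p ε := Metric.mem_ball_self hε
  have hFint : Integrable (fun x : Fin n → ℝ => wt v σ J p x * Real.exp (-NN v p x)) := by
    refine (hdom.const_mul (Real.exp N)).mono' (hmF p).aestronglyMeasurable ?_
    filter_upwards [hae] with x hx
    obtain ⟨h1, h2, -⟩ := hprod x hx p hpb
    rw [Real.norm_of_nonneg (mul_nonneg h2 (Real.exp_pos _).le)]
    have h3 := hexp p hp.le x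
    have h4 : (1:ℝ) ≤ (1 + ∑ i, |x i|) ^ m := one_le_pow₀ (by linarith [hS0 x])
    calc wt v σ J p x * Real.exp (-NN v p x) ≤ P x * (Real.exp N * Real.exp (-(c * ∑ i, |x i|))) :=
          mul_le_mul h1 h3 (Real.exp_pos _).le (hP0 x)
      _ = Real.exp N * (P x * 1 * Real.exp (-(c * ∑ i, |x i|))) := by ring
      _ ≤ Real.exp N * (P x * (1 + ∑ i, |x i|) ^ m * Real.exp (-(c * ∑ i, |x i|))) := by
          refine mul_le_mul_of_nonneg_left ?_ (Real.exp_pos _).le
          exact mul_le_mul_of_nonneg_right (mul_le_mul_of_nonneg_left h4 (hP0 x)) (Real.exp_pos _).le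
  have hmain := hasDerivAt_integral_of_dominated_loc_of_deriv_le (μ := (volume : Measure (Fin n → ℝ))) (𝕜 := ℝ)
    (F := fun q x => wt v σ J q x * Real.exp (-NN v q x))
    (F' := fun q x => (∑ j ∈ J, Real.log |v (σ j) ⬝ᵥ x| -
        ∑ i, |v i ⬝ᵥ x| ^ q * Real.log |v i ⬝ᵥ x|) * (wt v σ J q x * Real.exp (-NN v q x)))
    (x₀ := p) (s := Metric.ball p ε) (bound := bd) (Metric.ball_mem_nhds p hε)
    (Filter.Eventually.of_forall fun q => (hmF q).aestronglyMeasurable) hFint (hmF' p).aestronglyMeasurable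
    (by
      filter_upwards [hae] with x hx q hq
      obtain ⟨hq1, hq2⟩ := hball q hq
      obtain ⟨h1, h2, h3⟩ := hprod x hx q hq
      have h4 := hexp q (by linarith) x
      have h5 : (1:ℝ) ≤ (1 + ∑ i, |x i|) ^ m := one_le_pow₀ (by linarith [hS0 x])
      have h6 : |(∑ j ∈ J, Real.log |v (σ j) ⬝ᵥ x| - ∑ i, |v i ⬝ᵥ x| ^ q * Real.log |v i ⬝ᵥ x|)| * wt v σ J q x ≤
          K * (P x * (1 + ∑ i, |x i|) ^ m) := by
        have h7 : |(∑ j ∈ J, Real.log |v (σ j) ⬝ᵥ x| - ∑ i, |v i ⬝ᵥ x| ^ q * Real.log |v i ⬝ᵥ x|)| ≤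
            ∑ j ∈ J, |(Real.log |v (σ j) ⬝ᵥ x|)| + ∑ i, |(|v i ⬝ᵥ x| ^ q * Real.log |v i ⬝ᵥ x|)| := by
          refine (abs_sub _ _).trans (add_le_add (Finset.abs_sum_le_sum_abs _ _) (Finset.abs_sum_le_sum_abs _ _))
        refine (mul_le_mul_of_nonneg_right h7 h2).trans ?_
        rw [add_mul, Finset.sum_mul, Finset.sum_mul, hK, add_mul]
        refine add_le_add ?_ ?_
        · calc ∑ j ∈ J, |(Real.log |v (σ j) ⬝ᵥ x|)| * wt v σ J q x ≤ ∑ j ∈ J, (1 / ε) * P x :=
                Finset.sum_le_sum fun j hj => h3 j hj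
            _ = (J.card : ℝ) * (1 / ε) * (P x * 1) := by
                rw [Finset.sum_const, nsmul_eq_mul]; ring
            _ ≤ (J.card : ℝ) * (1 / ε) * (P x * (1 + ∑ i, |x i|) ^ m) :=
                mul_le_mul_of_nonneg_left (mul_le_mul_of_nonneg_left h5 (hP0 x)) (by positivity)
        · rw [Finset.sum_mul]
          refine Finset.sum_le_sum fun i _ => ?_
          have h8 := hzl x q hq i
          calc |(|v i ⬝ᵥ x| ^ q * Real.log |v i ⬝ᵥ x|)| * wt v σ J q x
              ≤ ((2 / ε) * (1 + ∑ k, |v i k|) ^ m * (1 + ∑ k, |x k|) ^ m) * P x :=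
                mul_le_mul h8 h1 h2 ((abs_nonneg _).trans h8)
            _ = (2 / ε) * (1 + ∑ k, |v i k|) ^ m * (P x * (1 + ∑ k, |x k|) ^ m) := by ring
      rw [Real.norm_eq_abs, abs_mul, abs_mul, abs_of_nonneg h2, Real.abs_exp, ← mul_assoc, hbd]
      simp only
      calc |(∑ j ∈ J, Real.log |v (σ j) ⬝ᵥ x| - ∑ i, |v i ⬝ᵥ x| ^ q * Real.log |v i ⬝ᵥ x|)| * wt v σ J q x *
            Real.exp (-NN v q x) ≤ K * (P x * (1 + ∑ i, |x i|) ^ m) * (Real.exp N * Real.exp (-(c * ∑ i, |x i|))) :=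
            mul_le_mul h6 h4 (Real.exp_pos _).le (mul_nonneg hK0 (mul_nonneg (hP0 x) (by linarith)))
        _ = (K * Real.exp N) * (P x * (1 + ∑ i, |x i|) ^ m * Real.exp (-(c * ∑ i, |x i|))) := by ring)
    hbdi
    (by
      filter_upwards [hae] with x hx q hq
      obtain ⟨hq1, hq2⟩ := hball q hq
      have hw : ∀ j, 0 < |v (σ j) ⬝ᵥ x| := fun j => abs_pos.2 (hx j)
      have hd1 : HasDerivAt (fun q => wt v σ J q x) ((∑ j ∈ J, Real.log |v (σ j) ⬝ᵥ x|) * wt v σ J q x) q := by
        have hfun : (fun q => wt v σ J q x) = fun q => Real.exp ((q - 2) * ∑ j ∈ J, Real.log |v (σ j) ⬝ᵥ x|) := by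
          funext q
          unfold wt
          rw [Finset.mul_sum, Real.exp_sum]
          refine Finset.prod_congr rfl fun j _ => ?_
          rw [Real.rpow_def_of_pos (hw j), mul_comm]
        have hval := congrFun hfun q
        rw [hfun, hval]
        have h1 : HasDerivAt (fun q : ℝ => (q - 2) * ∑ j ∈ J, Real.log |v (σ j) ⬝ᵥ x|)
            (∑ j ∈ J, Real.log |v (σ j) ⬝ᵥ x|) q := by
          have := ((hasDerivAt_id q).sub_const 2).mul_const (∑ j ∈ J, Real.log |v (σ j) ⬝ᵥ x|)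
          simpa using this
        have h2 := h1.exp
        rw [mul_comm] at h2
        exact h2
      have hd2 : HasDerivAt (fun q => NN v q x) (∑ i, |v i ⬝ᵥ x| ^ q * Real.log |v i ⬝ᵥ x|) q := by
        unfold NN
        exact HasDerivAt.fun_sum fun i _ => h170_deriv_rpow (abs_nonneg _) (by linarith)
      have h3 := hd1.mul (hd2.neg.exp)
      refine h3.congr_deriv ?_
      show (∑ j ∈ J, Real.log |v (σ j) ⬝ᵥ x|) * wt v σ J q x * Real.exp (-NN v q x) +
        wt v σ J q x * (Real.exp (-NN v q x) * (-∑ i, |v i ⬝ᵥ x| ^ q * Real.log |v i ⬝ᵥ x|)) = _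
      ring)
  exact ⟨hmain.1, hmain.2⟩

end S_GG_hasDerivAt

theorem GG_hasDerivAt : type_of% @S_GG_hasDerivAt.GG_hasDerivAt := @S_GG_hasDerivAt.GG_hasDerivAt
end

section
namespace S_GG_euler

lemma ge_NN_smul {n N : ℕ} (v : Fin N → Fin n → ℝ) (p : ℝ) {c : ℝ} (hc : 0 < c) (x : Fin n → ℝ) :
    NN v p (c • x) = c ^ p * NN v p x := by
  unfold NN
  rw [Finset.mul_sum]
  refine Finset.sum_congr rfl fun j _ => ?_
  rw [dotProduct_smul, smul_eq_mul, abs_mul, abs_of_pos hc, Real.mul_rpow hc.le (abs_nonneg _)]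

lemma ge_wt_smul {n N : ℕ} (v : Fin N → Fin n → ℝ) (σ : Fin n → Fin N) (J : Finset (Fin n))
    (p : ℝ) {c : ℝ} (hc : 0 < c) (x : Fin n → ℝ) :
    wt v σ J p (c • x) = (c ^ (p - 2)) ^ J.card * wt v σ J p x := by
  unfold wt
  rw [← Finset.prod_const, ← Finset.prod_mul_distrib]
  refine Finset.prod_congr rfl fun j _ => ?_
  rw [dotProduct_smul, smul_eq_mul, abs_mul, abs_of_pos hc, Real.mul_rpow hc.le (abs_nonneg _)]

lemma ge_NN_nonneg {n N : ℕ} (v : Fin N → Fin n → ℝ) (p : ℝ) (x : Fin n → ℝ) : 0 ≤ NN v p x :=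
  Finset.sum_nonneg fun _ _ => Real.rpow_nonneg (abs_nonneg _) _

lemma ge_wt_nonneg {n N : ℕ} (v : Fin N → Fin n → ℝ) (σ : Fin n → Fin N) (J : Finset (Fin n))
    (p : ℝ) (x : Fin n → ℝ) : 0 ≤ wt v σ J p x :=
  Finset.prod_nonneg fun _ _ => Real.rpow_nonneg (abs_nonneg _) _

lemma ge_dot_meas {n : ℕ} (w : Fin n → ℝ) : Measurable (fun x : Fin n → ℝ => w ⬝ᵥ x) := by
  unfold dotProduct
  fun_prop

lemma ge_NN_meas {n N : ℕ} (v : Fin N → Fin n → ℝ) (p : ℝ) : Measurable (NN v p) := by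
  unfold NN
  exact Finset.measurable_sum _ fun j _ => (ge_dot_meas (v j)).abs.pow_const p

lemma ge_wt_meas {n N : ℕ} (v : Fin N → Fin n → ℝ) (σ : Fin n → Fin N) (J : Finset (Fin n))
    (p : ℝ) : Measurable (wt v σ J p) := by
  unfold wt
  exact Finset.measurable_prod _ fun j _ => (ge_dot_meas (v (σ j))).abs.pow_const (p - 2)

/-- G2: Euler identity -/
theorem GG_euler {n N : ℕ} (v : Fin N → Fin n → ℝ) (σ : Fin n → Fin N)
    (hσ : (Matrix.det (Matrix.of fun j => v (σ j))) ≠ 0) (J : Finset (Fin n)) (p : ℝ) (hp : 1 < p) :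
    ∫ x : Fin n → ℝ, NN v p x * (wt v σ J p x * Real.exp (-NN v p x)) =
      ((n - J.card * (2 - p)) / p) * GG v σ J p := by
  have hp0 : 0 < p := by linarith
  set b : ℝ := (n + J.card * (p - 2)) / p with hb
  -- the scaling identity
  have hscale : ∀ s : ℝ, 0 < s → (∫ x : Fin n → ℝ, wt v σ J p x * Real.exp (-(s * NN v p x))) =
      s ^ (-b) * GG v σ J p := by
    intro s hs
    set R : ℝ := s ^ (1 / p) with hR
    have hR0 : 0 < R := Real.rpow_pos_of_pos hs _
    have hRp : R ^ p = s := by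
      rw [hR, ← Real.rpow_mul hs.le, one_div, inv_mul_cancel₀ hp0.ne', Real.rpow_one]
    have h1 := Measure.integral_comp_smul (volume : Measure (Fin n → ℝ))
      (fun x => wt v σ J p x * Real.exp (-NN v p x)) R
    rw [Module.finrank_fin_fun, smul_eq_mul] at h1
    have h2 : (fun x : Fin n → ℝ => wt v σ J p (R • x) * Real.exp (-NN v p (R • x))) =
        fun x => (R ^ (p - 2)) ^ J.card * (wt v σ J p x * Real.exp (-(s * NN v p x))) := by
      funext x
      rw [ge_wt_smul v σ J p hR0, ge_NN_smul v p hR0, hRp]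
      ring
    rw [h2, integral_const_mul, abs_of_pos (by positivity)] at h1
    have h3 : (0 : ℝ) < (R ^ (p - 2)) ^ J.card := by positivity
    have h4 : (∫ x : Fin n → ℝ, wt v σ J p x * Real.exp (-(s * NN v p x))) =
        ((R ^ (p - 2)) ^ J.card)⁻¹ * ((R ^ n)⁻¹ * GG v σ J p) := by
      unfold GG
      rw [← h1, inv_mul_cancel_left₀ h3.ne']
    rw [h4, ← mul_assoc]
    congr 1
    rw [← Real.rpow_natCast, ← Real.rpow_natCast, ← Real.rpow_mul hR0.le, ← Real.rpow_neg hR0.le,
      ← Real.rpow_neg hR0.le, ← Real.rpow_add hR0, hR, ← Real.rpow_mul hs.le]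
    congr 1
    rw [hb]
    field_simp
    ring
  -- integrability
  have hint0 : Integrable (fun x : Fin n → ℝ => wt v σ J p x * Real.exp (-(1 * NN v p x))) := by
    have := wt_integrable v σ hσ J p hp 0
    simpa using this
  have hbd : Integrable (fun x : Fin n → ℝ =>
      NN v p x * (wt v σ J p x * Real.exp (-((1 / 2) * NN v p x)))) := by
    set c : ℝ := (1 / 2) ^ (1 / p) with hc
    have hc0 : 0 < c := Real.rpow_pos_of_pos (by norm_num) _
    have hcp : c ^ p = 1 / 2 := by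
      rw [hc, ← Real.rpow_mul (by norm_num), one_div p, inv_mul_cancel₀ hp0.ne', Real.rpow_one]
    have h1 := (wt_integrable v σ hσ J p hp 1).comp_smul hc0.ne'
    have h2 := h1.const_mul (2 * ((c ^ (p - 2)) ^ J.card)⁻¹)
    have h3 : (0 : ℝ) < (c ^ (p - 2)) ^ J.card := by positivity
    refine h2.mono' ?_ (Filter.Eventually.of_forall fun x => ?_)
    · exact ((ge_NN_meas v p).mul ((ge_wt_meas v σ J p).mul
        (((ge_NN_meas v p).const_mul _).neg.exp))).aestronglyMeasurable
    · have hN := ge_NN_nonneg v p x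
      have hw := ge_wt_nonneg v σ J p x
      rw [Real.norm_eq_abs, abs_of_nonneg (by positivity)]
      rw [ge_wt_smul v σ J p hc0, ge_NN_smul v p hc0, hcp, pow_one]
      have h4 : 2 * ((c ^ (p - 2)) ^ J.card)⁻¹ * ((c ^ (p - 2)) ^ J.card * wt v σ J p x *
          (1 + 1 / 2 * NN v p x) * Real.exp (-(1 / 2 * NN v p x))) =
          (2 + NN v p x) * (wt v σ J p x * Real.exp (-(1 / 2 * NN v p x))) := by
        field_simp
      rw [h4]
      have h5 : 0 ≤ wt v σ J p x * Real.exp (-(1 / 2 * NN v p x)) := by positivity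
      nlinarith
  -- differentiate under the integral sign
  have hder := hasDerivAt_integral_of_dominated_loc_of_deriv_le (μ := (volume : Measure (Fin n → ℝ)))
    (F := fun (s : ℝ) (x : Fin n → ℝ) => wt v σ J p x * Real.exp (-(s * NN v p x)))
    (F' := fun (s : ℝ) (x : Fin n → ℝ) => -(NN v p x * (wt v σ J p x *
      Real.exp (-(s * NN v p x))))) (x₀ := 1) (s := Set.Ioi (1 / 2 : ℝ))
    (bound := fun x => NN v p x * (wt v σ J p x * Real.exp (-((1 / 2) * NN v p x))))
    (Ioi_mem_nhds (by norm_num))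
    (Filter.Eventually.of_forall fun s => ((ge_wt_meas v σ J p).mul
        (((ge_NN_meas v p).const_mul s).neg.exp)).aestronglyMeasurable)
    hint0
    (((ge_NN_meas v p).mul ((ge_wt_meas v σ J p).mul
        (((ge_NN_meas v p).const_mul _).neg.exp))).neg.aestronglyMeasurable)
    (Filter.Eventually.of_forall fun x s hs => by
      have hN := ge_NN_nonneg v p x
      have hw := ge_wt_nonneg v σ J p x
      rw [norm_neg, Real.norm_eq_abs, abs_of_nonneg (by positivity)]
      apply mul_le_mul_of_nonneg_left _ hN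
      apply mul_le_mul_of_nonneg_left _ hw
      apply Real.exp_le_exp.mpr
      have : (1 / 2 : ℝ) * NN v p x ≤ s * NN v p x :=
        mul_le_mul_of_nonneg_right (le_of_lt hs) hN
      linarith)
    hbd
    (Filter.Eventually.of_forall fun x s _ => by
      have h1 : HasDerivAt (fun s : ℝ => -(s * NN v p x)) (-(1 * NN v p x)) s :=
        ((hasDerivAt_id s).mul_const _).neg
      have h2 := (h1.exp).const_mul (wt v σ J p x)
      have h3 : wt v σ J p x * (Real.exp (-(s * NN v p x)) * -(1 * NN v p x)) =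
          -(NN v p x * (wt v σ J p x * Real.exp (-(s * NN v p x)))) := by ring
      rw [h3] at h2
      exact h2)
  have hd1 := hder.2
  have hd2 : HasDerivAt (fun s : ℝ => ∫ x : Fin n → ℝ, wt v σ J p x *
      Real.exp (-(s * NN v p x))) ((-b) * (1 : ℝ) ^ (-b - 1) * GG v σ J p) 1 := by
    have h1 : HasDerivAt (fun s : ℝ => s ^ (-b) * GG v σ J p)
        ((-b) * (1 : ℝ) ^ (-b - 1) * GG v σ J p) 1 :=
      (Real.hasDerivAt_rpow_const (Or.inl one_ne_zero)).mul_const _
    refine h1.congr_of_eventuallyEq ?_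
    filter_upwards [Ioi_mem_nhds (show (0 : ℝ) < 1 by norm_num)] with s hs
    exact hscale s hs
  have heq := hd1.unique hd2
  rw [integral_neg, Real.one_rpow, mul_one] at heq
  have h6 : (∫ x : Fin n → ℝ, NN v p x * (wt v σ J p x * Real.exp (-(1 * NN v p x)))) =
      b * GG v σ J p := by linarith
  simp only [one_mul] at h6
  rw [h6, hb]
  ring

end S_GG_euler

theorem GG_euler : type_of% @S_GG_euler.GG_euler := @S_GG_euler.GG_euler
end

section
namespace S_fub1

/-- Fubini for the first Levy integral -/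
theorem fub1 {X : Type} [MeasurableSpace X] (μ : Measure X) [SFinite μ] (k0 : ℝ)
    (hk0 : ∀ y : ℝ, 0 < y →
      IntegrableOn (fun t : ℝ => (Real.exp (-(t * y)) - 1 + (if t ≤ 1 then t * y else 0)) / t ^ 2) (Ioi 0) ∧
      ∫ t in Ioi (0:ℝ), (Real.exp (-(t * y)) - 1 + (if t ≤ 1 then t * y else 0)) / t ^ 2 =
        y * Real.log y + k0 * y)
    (y w : X → ℝ) (hy : Measurable y) (hw : Measurable w) (hy0 : ∀ x, 0 ≤ y x) (hw0 : ∀ x, 0 ≤ w x)
    (hint : Integrable (fun x => (1 + y x ^ 2) * w x) μ) :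
    IntegrableOn (fun t : ℝ => ∫ x, (Real.exp (-(t * y x)) - 1 + (if t ≤ 1 then t * y x else 0)) / t ^ 2 * w x ∂μ)
      (Ioi 0) ∧
    ∫ t in Ioi (0:ℝ), (∫ x, (Real.exp (-(t * y x)) - 1 + (if t ≤ 1 then t * y x else 0)) / t ^ 2 * w x ∂μ) =
      ∫ x, (y x * Real.log (y x) + k0 * y x) * w x ∂μ := by
  have hexp : ∀ u : ℝ, 0 ≤ u → |Real.exp (-u) - 1 + u| ≤ u ^ 2 := by
    intro u hu
    have h1 : -u + 1 ≤ Real.exp (-u) := Real.add_one_le_exp (-u)
    have h2 : 1 + u + u ^ 2 / 2 ≤ Real.exp u := Real.quadratic_le_exp_of_nonneg hu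
    have h3 : Real.exp (-u) ≤ 1 - u + u ^ 2 := by
      rw [Real.exp_neg]
      have h4 : 0 < Real.exp u := Real.exp_pos u
      rw [inv_eq_one_div, div_le_iff₀ h4]
      have h5 : 0 ≤ 1 - u + u ^ 2 := by nlinarith [sq_nonneg (u - 1)]
      nlinarith [mul_le_mul_of_nonneg_left h2 h5, mul_nonneg hu hu,
        mul_nonneg (mul_nonneg hu hu) hu, mul_nonneg (mul_nonneg (mul_nonneg hu hu) hu) hu]
    rw [abs_le]
    constructor <;> nlinarith
  obtain ⟨F, hF⟩ : ∃ F : ℝ → X → ℝ, F = fun t x =>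
      (Real.exp (-(t * y x)) - 1 + (if t ≤ 1 then t * y x else 0)) / t ^ 2 * w x := ⟨_, rfl⟩
  have hbound : ∀ t : ℝ, 0 < t → ∀ x, ‖F t x‖ ≤ 2 * (1 + t ^ 2)⁻¹ * ((1 + y x ^ 2) * w x) := by
    intro t ht x
    have ht2 : 0 < t ^ 2 := by positivity
    have hyx := hy0 x
    have hwx := hw0 x
    rw [hF]
    simp only
    rw [norm_mul, Real.norm_of_nonneg hwx, norm_div, Real.norm_of_nonneg ht2.le, Real.norm_eq_abs,
      ← mul_assoc]
    apply mul_le_mul_of_nonneg_right _ hwx
    rw [div_le_iff₀ ht2]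
    have h1t : 0 < 1 + t ^ 2 := by positivity
    split_ifs with h
    · have h1 := hexp (t * y x) (mul_nonneg ht.le hyx)
      have h2 : (1:ℝ) ≤ 2 * (1 + t ^ 2)⁻¹ := by
        rw [← div_eq_mul_inv, le_div_iff₀ h1t]
        nlinarith
      calc |Real.exp (-(t * y x)) - 1 + t * y x| ≤ (t * y x) ^ 2 := h1
        _ = 1 * (y x ^ 2 * t ^ 2) := by ring
        _ ≤ (2 * (1 + t ^ 2)⁻¹) * ((1 + y x ^ 2) * t ^ 2) := by
          apply mul_le_mul h2 _ (by positivity) (by positivity)
          nlinarith [sq_nonneg (y x)]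
        _ = _ := by ring
    · push Not at h
      have h1 : |Real.exp (-(t * y x)) - 1 + 0| ≤ 1 := by
        have h3 : Real.exp (-(t * y x)) ≤ 1 := Real.exp_le_one_iff.2 (by
          have := mul_nonneg ht.le hyx
          linarith)
        have h4 := Real.exp_pos (-(t * y x))
        rw [abs_le]
        constructor <;> linarith
      have h2 : (1:ℝ) ≤ 2 * (1 + t ^ 2)⁻¹ * t ^ 2 := by
        rw [← div_eq_mul_inv, div_mul_eq_mul_div, le_div_iff₀ h1t]
        nlinarith
      calc |Real.exp (-(t * y x)) - 1 + 0| ≤ 1 * 1 := by rw [one_mul]; exact h1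
        _ ≤ (2 * (1 + t ^ 2)⁻¹ * t ^ 2) * (1 + y x ^ 2) := by
          apply mul_le_mul h2 _ (by norm_num) (by positivity)
          nlinarith [sq_nonneg (y x)]
        _ = _ := by ring
  have hmeas : Measurable (Function.uncurry F) := by
    rw [hF]
    have h1 : Measurable fun p : ℝ × X => y p.2 := hy.comp measurable_snd
    have h2 : Measurable fun p : ℝ × X => w p.2 := hw.comp measurable_snd
    have h3 : Measurable fun p : ℝ × X => (if p.1 ≤ 1 then p.1 * y p.2 else 0 : ℝ) :=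
      Measurable.ite (measurableSet_le measurable_fst measurable_const)
        (measurable_fst.mul h1) measurable_const
    have h4 : Measurable fun p : ℝ × X => Real.exp (-(p.1 * y p.2)) :=
      Real.measurable_exp.comp (measurable_fst.mul h1).neg
    exact (((h4.sub measurable_const).add h3).div (measurable_fst.pow_const 2)).mul h2
  have hprod : Integrable (Function.uncurry F) ((volume.restrict (Ioi (0:ℝ))).prod μ) := by
    have h1 : Integrable (fun t : ℝ => 2 * (1 + t ^ 2)⁻¹) (volume.restrict (Ioi (0:ℝ))) :=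
      (integrable_inv_one_add_sq.const_mul 2).integrableOn
    have h2 : Integrable (fun p : ℝ × X => (2 * (1 + p.1 ^ 2)⁻¹) * ((1 + y p.2 ^ 2) * w p.2))
        ((volume.restrict (Ioi (0:ℝ))).prod μ) := h1.mul_prod hint
    refine h2.mono' hmeas.aestronglyMeasurable ?_
    have h3 : ∀ᵐ p ∂((volume.restrict (Ioi (0:ℝ))).prod μ), 0 < p.1 := by
      have h4 : ∀ᵐ t ∂(volume.restrict (Ioi (0:ℝ))), 0 < t := ae_restrict_mem measurableSet_Ioi
      exact Measure.quasiMeasurePreserving_fst.ae h4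
    filter_upwards [h3] with p hp
    exact hbound p.1 hp p.2
  have hg1 : ∀ t : ℝ, (fun x => (Real.exp (-(t * y x)) - 1 + (if t ≤ 1 then t * y x else 0)) /
      t ^ 2 * w x) = F t := by
    intro t; rw [hF]
  simp only [hg1]
  constructor
  · exact hprod.integral_prod_left
  · have hsw := integral_integral_swap (f := F) (μ := volume.restrict (Ioi (0:ℝ))) (ν := μ) hprod
    refine Eq.trans hsw ?_
    apply integral_congr_ae
    refine Filter.Eventually.of_forall fun x => ?_
    simp only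
    have e2 : ∀ t, F t x = (Real.exp (-(t * y x)) - 1 + (if t ≤ 1 then t * y x else 0)) / t ^ 2 *
        w x := by
      intro t; rw [hF]
    simp only [e2]
    rw [integral_mul_const]
    rcases (hy0 x).lt_or_eq with h | h
    · rw [(hk0 (y x) h).2]
    · rw [← h]
      simp

end S_fub1

theorem fub1 : type_of% @S_fub1.fub1 := @S_fub1.fub1
end

section
namespace S_fub2

theorem fub2_pt (y t : ℝ) (hy : 0 < y) (ht : 0 < t) :
    ‖(Real.exp (-(t * y)) - (if t ≤ 1 then 1 else 0)) / t‖ ≤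
      (Real.exp (-(t * y)) - (if t ≤ 1 then 1 else 0)) / t + (Ioc (0:ℝ) 1).indicator (fun _ => 2 * y) t := by
  by_cases h : t ≤ 1
  · rw [indicator_of_mem (show t ∈ Ioc (0:ℝ) 1 from ⟨ht, h⟩), if_pos h]
    have h1 : Real.exp (-(t * y)) ≤ 1 := by
      rw [Real.exp_le_one_iff]; nlinarith
    have h2 : (Real.exp (-(t * y)) - 1) / t ≤ 0 := div_nonpos_of_nonpos_of_nonneg (by linarith) ht.le
    have h3 : -y ≤ (Real.exp (-(t * y)) - 1) / t := by
      rw [le_div_iff₀ ht]
      have := Real.add_one_le_exp (-(t * y))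
      linarith
    rw [Real.norm_eq_abs, abs_of_nonpos h2]
    linarith
  · rw [indicator_of_notMem (fun h' => h h'.2), if_neg h, add_zero, sub_zero]
    rw [Real.norm_eq_abs, abs_of_nonneg (by positivity)]

theorem fub2_bd (k1 : ℝ) (y : ℝ) (hy : 0 < y)
    (h1 : IntegrableOn (fun t : ℝ => (Real.exp (-(t * y)) - (if t ≤ 1 then 1 else 0)) / t) (Ioi 0))
    (h2 : ∫ t in Ioi (0:ℝ), (Real.exp (-(t * y)) - (if t ≤ 1 then 1 else 0)) / t = - Real.log y + k1) :
    ∫ t in Ioi (0:ℝ), ‖(Real.exp (-(t * y)) - (if t ≤ 1 then 1 else 0)) / t‖ ≤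
      (2 + |k1|) * (1 + y + |Real.log y|) := by
  have hi : IntegrableOn ((Ioc (0:ℝ) 1).indicator (fun _ => 2 * y)) (Ioi 0) := by
    refine Integrable.integrableOn ?_
    rw [integrable_indicator_iff measurableSet_Ioc]
    exact integrableOn_const (by simp)
  have hv : ∫ t in Ioi (0:ℝ), (Ioc (0:ℝ) 1).indicator (fun _ => 2 * y) t = 2 * y := by
    rw [setIntegral_indicator measurableSet_Ioc]
    have : Ioi (0:ℝ) ∩ Ioc 0 1 = Ioc 0 1 := by
      ext t; simp only [mem_inter_iff, mem_Ioi, mem_Ioc]; tauto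
    rw [this, setIntegral_const]
    simp
  have hle : ∫ t in Ioi (0:ℝ), ‖(Real.exp (-(t * y)) - (if t ≤ 1 then 1 else 0)) / t‖ ≤
      ∫ t in Ioi (0:ℝ), ((Real.exp (-(t * y)) - (if t ≤ 1 then 1 else 0)) / t +
        (Ioc (0:ℝ) 1).indicator (fun _ => 2 * y) t) := by
    refine setIntegral_mono_on h1.norm (h1.add hi) measurableSet_Ioi fun t ht => ?_
    exact fub2_pt y t hy ht
  rw [integral_add h1 hi, h2, hv] at hle
  refine hle.trans ?_
  have a1 := neg_abs_le (Real.log y)
  have a2 := le_abs_self k1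
  have a3 := abs_nonneg (Real.log y)
  have a4 := abs_nonneg k1
  nlinarith [mul_nonneg a4 a3, mul_nonneg a4 hy.le]

/-- Fubini for the second Levy integral -/
theorem fub2 {X : Type} [MeasurableSpace X] (μ : Measure X) [SFinite μ] (k1 : ℝ)
    (hk1 : ∀ y : ℝ, 0 < y →
      IntegrableOn (fun t : ℝ => (Real.exp (-(t * y)) - (if t ≤ 1 then 1 else 0)) / t) (Ioi 0) ∧
      ∫ t in Ioi (0:ℝ), (Real.exp (-(t * y)) - (if t ≤ 1 then 1 else 0)) / t = - Real.log y + k1)
    (y w : X → ℝ) (hy : Measurable y) (hw : Measurable w) (hy0 : ∀ᵐ x ∂μ, 0 < y x) (hw0 : ∀ x, 0 ≤ w x)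
    (hint : Integrable (fun x => (1 + y x + |Real.log (y x)|) * w x) μ) :
    IntegrableOn (fun t : ℝ => ∫ x, (Real.exp (-(t * y x)) - (if t ≤ 1 then 1 else 0)) / t * w x ∂μ)
      (Ioi 0) ∧
    ∫ t in Ioi (0:ℝ), (∫ x, (Real.exp (-(t * y x)) - (if t ≤ 1 then 1 else 0)) / t * w x ∂μ) =
      ∫ x, (- Real.log (y x) + k1) * w x ∂μ := by
  let F : X → ℝ → ℝ := fun x t => (Real.exp (-(t * y x)) - (if t ≤ 1 then 1 else 0)) / t * w x
  have hF : Measurable (Function.uncurry F) := by
    have m1 : Measurable fun q : X × ℝ => Real.exp (-(q.2 * y q.1)) := by fun_prop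
    have m2 : Measurable fun q : X × ℝ => (if q.2 ≤ 1 then (1:ℝ) else 0) :=
      Measurable.ite (measurableSet_le measurable_snd measurable_const) measurable_const
        measurable_const
    exact ((m1.sub m2).div measurable_snd).mul (hw.comp measurable_fst)
  have hI : Integrable (Function.uncurry F) (μ.prod (volume.restrict (Ioi (0:ℝ)))) := by
    rw [integrable_prod_iff hF.aestronglyMeasurable]
    constructor
    · filter_upwards [hy0] with x hx
      exact (hk1 (y x) hx).1.mul_const (w x)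
    · refine Integrable.mono' (hint.const_mul (2 + |k1|))
        hF.aestronglyMeasurable.norm.integral_prod_right' ?_
      filter_upwards [hy0] with x hx
      rw [Real.norm_eq_abs, abs_of_nonneg (integral_nonneg fun t => norm_nonneg _)]
      have e1 : ∀ t, ‖Function.uncurry F (x, t)‖ =
          ‖(Real.exp (-(t * y x)) - (if t ≤ 1 then 1 else 0)) / t‖ * w x := by
        intro t
        show ‖(Real.exp (-(t * y x)) - (if t ≤ 1 then 1 else 0)) / t * w x‖ = _
        rw [norm_mul, Real.norm_eq_abs (w x), abs_of_nonneg (hw0 x)]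
      simp only [e1]
      rw [integral_mul_const]
      have := fub2_bd k1 (y x) hx (hk1 (y x) hx).1 (hk1 (y x) hx).2
      calc _ ≤ ((2 + |k1|) * (1 + y x + |Real.log (y x)|)) * w x :=
            mul_le_mul_of_nonneg_right this (hw0 x)
        _ = _ := by ring
  constructor
  · exact hI.integral_prod_right
  · have hs := integral_integral_swap (f := F) hI
    show ∫ t in Ioi (0:ℝ), (∫ x, F x t ∂μ) = _
    rw [← hs]
    refine integral_congr_ae ?_
    filter_upwards [hy0] with x hx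
    show ∫ t in Ioi (0:ℝ), (Real.exp (-(t * y x)) - (if t ≤ 1 then 1 else 0)) / t * w x = _
    rw [integral_mul_const, (hk1 (y x) hx).2]

end S_fub2

theorem fub2 : type_of% @S_fub2.fub2 := @S_fub2.fub2
end

section
namespace S_GG_levy

/-! auxiliary lemmas -/

theorem levy_meas_y {n N : ℕ} (v : Fin N → Fin n → ℝ) (p : ℝ) (i : Fin N) :
    Measurable (fun x : Fin n → ℝ => |v i ⬝ᵥ x| ^ p) := by
  have h : Continuous (fun x : Fin n → ℝ => v i ⬝ᵥ x) := by
    unfold dotProduct
    fun_prop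
  exact h.abs.measurable.pow_const p

theorem levy_meas_N {n N : ℕ} (v : Fin N → Fin n → ℝ) (p : ℝ) : Measurable (NN v p) := by
  unfold NN
  exact Finset.measurable_sum _ (fun i _ => levy_meas_y v p i)

theorem levy_meas_wt {n N : ℕ} (v : Fin N → Fin n → ℝ) (σ : Fin n → Fin N) (J : Finset (Fin n))
    (p : ℝ) : Measurable (wt v σ J p) := by
  unfold wt
  exact Finset.measurable_prod _ (fun j _ => levy_meas_y v (p - 2) (σ j))

theorem levy_wt_nonneg {n N : ℕ} (v : Fin N → Fin n → ℝ) (σ : Fin n → Fin N) (J : Finset (Fin n))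
    (p : ℝ) (x : Fin n → ℝ) : 0 ≤ wt v σ J p x := by
  unfold wt
  exact Finset.prod_nonneg fun j _ => Real.rpow_nonneg (abs_nonneg _) _

theorem levy_y_le {n N : ℕ} (v : Fin N → Fin n → ℝ) (p : ℝ) (i : Fin N) (x : Fin n → ℝ) :
    |v i ⬝ᵥ x| ^ p ≤ NN v p x := by
  unfold NN
  exact Finset.single_le_sum (f := fun j => |v j ⬝ᵥ x| ^ p)
    (fun j _ => Real.rpow_nonneg (abs_nonneg _) _) (Finset.mem_univ i)

theorem levy_NN_nonneg {n N : ℕ} (v : Fin N → Fin n → ℝ) (p : ℝ) (x : Fin n → ℝ) :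
    0 ≤ NN v p x := by
  unfold NN
  exact Finset.sum_nonneg fun j _ => Real.rpow_nonneg (abs_nonneg _) _

theorem levy_log {p : ℝ} (hp : 1 < p) (z : ℝ) : Real.log (|z| ^ p) = p * Real.log |z| := by
  rcases eq_or_ne z 0 with rfl | hz
  · rw [abs_zero, Real.zero_rpow (by linarith), Real.log_zero, mul_zero]
  · exact Real.log_rpow (abs_pos.2 hz) p

theorem levy_ylog (y : ℝ) (hy : 0 ≤ y) : |y * Real.log y| ≤ 1 + y ^ 2 := by
  rcases eq_or_lt_of_le hy with rfl | hy0
  · simp
  rcases le_or_gt 1 y with h | h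
  · have h1 := Real.log_le_sub_one_of_pos hy0
    have h2 := Real.log_nonneg h
    rw [abs_of_nonneg (by positivity)]
    nlinarith
  · have h1 := Real.abs_log_mul_self_lt y hy0 h.le
    rw [mul_comm] at h1
    nlinarith [sq_nonneg y]

/-- G3: the Levy-Fubini identity -/
theorem GG_levy (k0 k1 : ℝ)
    (hk0 : ∀ y : ℝ, 0 < y →
      IntegrableOn (fun t : ℝ => (Real.exp (-(t * y)) - 1 + (if t ≤ 1 then t * y else 0)) / t ^ 2) (Ioi 0) ∧
      ∫ t in Ioi (0:ℝ), (Real.exp (-(t * y)) - 1 + (if t ≤ 1 then t * y else 0)) / t ^ 2 =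
        y * Real.log y + k0 * y)
    (hk1 : ∀ y : ℝ, 0 < y →
      IntegrableOn (fun t : ℝ => (Real.exp (-(t * y)) - (if t ≤ 1 then 1 else 0)) / t) (Ioi 0) ∧
      ∫ t in Ioi (0:ℝ), (Real.exp (-(t * y)) - (if t ≤ 1 then 1 else 0)) / t = - Real.log y + k1)
    {n N : ℕ} (v : Fin N → Fin n → ℝ) (σ : Fin n → Fin N)
    (hσ : (Matrix.det (Matrix.of fun j => v (σ j))) ≠ 0) (J : Finset (Fin n)) (p : ℝ) (hp : 1 < p)
    (hp2 : p < 2) :
    IntegrableOn (fun t : ℝ => ((∑ i, (AA v σ J p i t - GG v σ J p)) -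
      (if t ≤ 1 then t * ((J.card - (n - J.card * (2 - p)) / p) * GG v σ J p) else 0)) / t ^ 2) (Ioi 0) ∧
    ∫ t in Ioi (0:ℝ), ((∑ i, (AA v σ J p i t - GG v σ J p)) -
      (if t ≤ 1 then t * ((J.card - (n - J.card * (2 - p)) / p) * GG v σ J p) else 0)) / t ^ 2 =
    ∫ x : Fin n → ℝ, (∑ i, |v i ⬝ᵥ x| ^ p * Real.log (|v i ⬝ᵥ x| ^ p) + k0 * NN v p x +
      ∑ j ∈ J, (- Real.log (|v (σ j) ⬝ᵥ x| ^ p) + k1)) * (wt v σ J p x * Real.exp (-NN v p x)) := by
  classical
  -- notation
  set W : (Fin n → ℝ) → ℝ := fun x => wt v σ J p x * Real.exp (-NN v p x) with hWdef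
  have hWm : Measurable W := (levy_meas_wt v σ J p).mul ((levy_meas_N v p).neg.exp)
  have hW0 : ∀ x, 0 ≤ W x := fun x => mul_nonneg (levy_wt_nonneg v σ J p x) (Real.exp_pos _).le
  set y : Fin N → (Fin n → ℝ) → ℝ := fun i x => |v i ⬝ᵥ x| ^ p with hydef
  have hym : ∀ i, Measurable (y i) := fun i => levy_meas_y v p i
  have hy0 : ∀ i x, 0 ≤ y i x := fun i x => Real.rpow_nonneg (abs_nonneg _) _
  have hyN : ∀ i x, y i x ≤ NN v p x := fun i x => levy_y_le v p i x
  have hN0 : ∀ x, 0 ≤ NN v p x := fun x => levy_NN_nonneg v p x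
  have hWi : Integrable W := by
    have := wt_integrable v σ hσ J p hp 0
    simpa only [pow_zero, mul_one] using this
  have hWi1 : Integrable (fun x => (1 + NN v p x) * W x) := by
    have := wt_integrable v σ hσ J p hp 1
    refine this.congr (Filter.Eventually.of_forall fun x => ?_)
    simp only [pow_one, hWdef]; ring
  have hWi2 : Integrable (fun x => (1 + NN v p x) ^ 2 * W x) := by
    have := wt_integrable v σ hσ J p hp 2
    refine this.congr (Filter.Eventually.of_forall fun x => ?_)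
    simp only [hWdef]; ring
  have hyW : ∀ i, Integrable (fun x => y i x * W x) := by
    intro i
    refine hWi1.mono' ((hym i).mul hWm).aestronglyMeasurable (Filter.Eventually.of_forall fun x => ?_)
    rw [Real.norm_eq_abs, abs_of_nonneg (mul_nonneg (hy0 i x) (hW0 x))]
    exact mul_le_mul_of_nonneg_right (by linarith [hyN i x]) (hW0 x)
  have hint1 : ∀ i, Integrable (fun x => (1 + y i x ^ 2) * W x) := by
    intro i
    refine hWi2.mono' (((hym i).pow_const 2).const_add 1 |>.mul hWm).aestronglyMeasurable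
      (Filter.Eventually.of_forall fun x => ?_)
    rw [Real.norm_eq_abs, abs_of_nonneg (mul_nonneg (by positivity) (hW0 x))]
    apply mul_le_mul_of_nonneg_right _ (hW0 x)
    nlinarith [hyN i x, hy0 i x, hN0 x]
  have hlogW : ∀ j : Fin n, Integrable (fun x => |Real.log (y (σ j) x)| * W x) := by
    intro j
    have := (wt_log_integrable v σ hσ J p hp j).const_mul p
    refine this.congr (Filter.Eventually.of_forall fun x => ?_)
    simp only [hydef, hWdef]
    rw [levy_log hp, abs_mul, abs_of_pos (by linarith : (0 : ℝ) < p)]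
    ring
  have hint2 : ∀ j : Fin n, Integrable (fun x => (1 + y (σ j) x + |Real.log (y (σ j) x)|) * W x) := by
    intro j
    refine ((hWi.add (hyW (σ j))).add (hlogW j)).congr (Filter.Eventually.of_forall fun x => ?_)
    simp only [Pi.add_apply]
    ring
  have hlogm : ∀ i, Measurable (fun x => Real.log (y i x)) := fun i => (hym i).log
  have hlogW' : ∀ j : Fin n, Integrable (fun x => Real.log (y (σ j) x) * W x) := by
    intro j
    refine (hlogW j).mono' ((hlogm _).mul hWm).aestronglyMeasurable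
      (Filter.Eventually.of_forall fun x => ?_)
    rw [Real.norm_eq_abs, abs_mul, abs_of_nonneg (hW0 x)]
  have hpos : ∀ j : Fin n, ∀ᵐ x, 0 < y (σ j) x := by
    intro j
    have hv : v (σ j) ≠ 0 := by
      intro h
      apply hσ
      apply Matrix.det_eq_zero_of_row_eq_zero j
      intro k
      simp only [Matrix.of_apply, h, Pi.zero_apply]
    let f : (Fin n → ℝ) →ₗ[ℝ] ℝ :=
      { toFun := fun x => v (σ j) ⬝ᵥ x
        map_add' := fun a b => dotProduct_add _ _ _
        map_smul' := fun c a => dotProduct_smul _ _ _ }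
    have hker : LinearMap.ker f ≠ ⊤ := by
      intro htop
      apply hv
      have h1 : f (v (σ j)) = 0 := by
        have : v (σ j) ∈ LinearMap.ker f := by rw [htop]; trivial
        exact this
      exact dotProduct_self_eq_zero.1 h1
    have hnull := Measure.addHaar_submodule (volume : Measure (Fin n → ℝ)) (LinearMap.ker f) hker
    have hae : ∀ᵐ x : Fin n → ℝ, x ∉ (LinearMap.ker f : Set (Fin n → ℝ)) :=
      measure_eq_zero_iff_ae_notMem.1 hnull
    filter_upwards [hae] with x hx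
    have hx' : v (σ j) ⬝ᵥ x ≠ 0 := fun h => hx h
    exact Real.rpow_pos_of_pos (abs_pos.2 hx') p
  have hσinj : Function.Injective σ := by
    intro a b hab
    by_contra hne
    apply hσ
    apply Matrix.det_zero_of_row_eq hne
    show v (σ a) = v (σ b)
    rw [hab]
  -- the two families
  set F : Fin N → ℝ → ℝ := fun i t =>
    ∫ x, (Real.exp (-(t * y i x)) - 1 + (if t ≤ 1 then t * y i x else 0)) / t ^ 2 * W x with hF
  set Gj : Fin n → ℝ → ℝ := fun j t =>
    ∫ x, (Real.exp (-(t * y (σ j) x)) - (if t ≤ 1 then 1 else 0)) / t * W x with hGj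
  have hf1 : ∀ i, IntegrableOn (F i) (Ioi 0) ∧
      ∫ t in Ioi (0:ℝ), F i t = ∫ x, (y i x * Real.log (y i x) + k0 * y i x) * W x := fun i =>
    fub1 volume k0 hk0 (y i) W (hym i) hWm (hy0 i) hW0 (hint1 i)
  have hf2 : ∀ j, IntegrableOn (Gj j) (Ioi 0) ∧
      ∫ t in Ioi (0:ℝ), Gj j t = ∫ x, (- Real.log (y (σ j) x) + k1) * W x := fun j =>
    fub2 volume k1 hk1 (y (σ j)) W (hym _) hWm (hpos j) hW0 (hint2 j)
  have hEul : ∑ i, ∫ x, y i x * W x = ((n - J.card * (2 - p)) / p) * GG v σ J p := by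
    rw [← GG_euler v σ hσ J p hp, ← integral_finset_sum _ (fun i _ => hyW i)]
    refine integral_congr_ae (Filter.Eventually.of_forall fun x => ?_)
    simp only [NN, Finset.sum_mul, hydef, hWdef]
  have hGG : GG v σ J p = ∫ x, W x := rfl
  -- pointwise identity
  have hpt : ∀ t ∈ Ioi (0 : ℝ), ((∑ i, (AA v σ J p i t - GG v σ J p)) -
      (if t ≤ 1 then t * ((J.card - (n - J.card * (2 - p)) / p) * GG v σ J p) else 0)) / t ^ 2
      = ∑ i, F i t + ∑ j ∈ J, Gj j t := by
    intro t ht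
    have ht0 : (0 : ℝ) < t := ht
    have hAi : ∀ i, Integrable (fun x => Real.exp (-(t * y i x)) * W x) := by
      intro i
      refine hWi.mono' (((hym i).const_mul t).neg.exp.mul hWm).aestronglyMeasurable
        (Filter.Eventually.of_forall fun x => ?_)
      rw [Real.norm_eq_abs, abs_of_nonneg (mul_nonneg (Real.exp_pos _).le (hW0 x))]
      have : Real.exp (-(t * y i x)) ≤ 1 := by
        rw [Real.exp_le_one_iff]
        have := mul_nonneg ht0.le (hy0 i x)
        linarith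
      calc Real.exp (-(t * y i x)) * W x ≤ 1 * W x := mul_le_mul_of_nonneg_right this (hW0 x)
        _ = W x := one_mul _
    set A : Fin N → ℝ := fun i => ∫ x, Real.exp (-(t * y i x)) * W x with hA
    have hAA : ∀ i, AA v σ J p i t = (if i ∈ J.image σ then 1 + t else 1) * A i := by
      intro i
      rw [hA, ← integral_const_mul]
      unfold AA
      refine integral_congr_ae (Filter.Eventually.of_forall fun x => ?_)
      simp only [hydef, hWdef]
      split_ifs <;> ring
    have hFe : ∀ i, F i t = (A i - GG v σ J p + (if t ≤ 1 then t else 0) * ∫ x, y i x * W x) / t ^ 2 := by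
      intro i
      have hs : Integrable (fun x => Real.exp (-(t * y i x)) * W x - W x) := (hAi i).sub hWi
      have hc : Integrable (fun x => (if t ≤ 1 then t else 0) * (y i x * W x)) := (hyW i).const_mul _
      have h1 : F i t = ∫ x, ((Real.exp (-(t * y i x)) * W x - W x) +
          (if t ≤ 1 then t else 0) * (y i x * W x)) / t ^ 2 := by
        refine integral_congr_ae (Filter.Eventually.of_forall fun x => ?_)
        simp only
        split_ifs <;> ring
      rw [h1, integral_div, integral_add hs hc, integral_sub (hAi i) hWi, integral_const_mul, hGG]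
    have hGe : ∀ j, Gj j t = (A (σ j) - (if t ≤ 1 then 1 else 0) * GG v σ J p) / t := by
      intro j
      have hc : Integrable (fun x => (if t ≤ 1 then (1:ℝ) else 0) * W x) := hWi.const_mul _
      have h1 : Gj j t = ∫ x, (Real.exp (-(t * y (σ j) x)) * W x -
          (if t ≤ 1 then (1:ℝ) else 0) * W x) / t := by
        refine integral_congr_ae (Filter.Eventually.of_forall fun x => ?_)
        simp only
        split_ifs <;> ring
      rw [h1, integral_div, integral_sub (hAi (σ j)) hc, integral_const_mul, hGG]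
    have hsumA : ∑ i, (AA v σ J p i t - GG v σ J p)
        = ∑ i, (A i - GG v σ J p) + t * ∑ j ∈ J, A (σ j) := by
      have h1 : ∀ i, AA v σ J p i t - GG v σ J p
          = (A i - GG v σ J p) + (if i ∈ J.image σ then t * A i else 0) := by
        intro i
        rw [hAA]
        split_ifs <;> ring
      simp only [h1]
      rw [Finset.sum_add_distrib, Finset.sum_ite_mem, Finset.univ_inter,
        Finset.sum_image (fun a _ b _ h => hσinj h), Finset.mul_sum]
    rw [hsumA]
    simp only [hFe, hGe]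
    rw [← Finset.sum_div, ← Finset.sum_div, Finset.sum_add_distrib, ← Finset.mul_sum, hEul,
      Finset.sum_sub_distrib (fun j => A (σ j)), Finset.sum_const, nsmul_eq_mul]
    by_cases h1 : t ≤ 1
    · simp only [if_pos h1]
      field_simp
      ring
    · simp only [if_neg h1]
      field_simp
      ring
  have hRint : IntegrableOn (fun t => ∑ i, F i t + ∑ j ∈ J, Gj j t) (Ioi 0) :=
    (integrable_finset_sum _ fun i _ => (hf1 i).1).add
      (integrable_finset_sum _ fun j _ => (hf2 j).1)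
  refine ⟨hRint.congr_fun (fun t ht => (hpt t ht).symm) measurableSet_Ioi, ?_⟩
  rw [setIntegral_congr_fun measurableSet_Ioi hpt,
    integral_add (integrable_finset_sum _ fun i _ => (hf1 i).1)
      (integrable_finset_sum _ fun j _ => (hf2 j).1),
    integral_finset_sum _ (fun i _ => (hf1 i).1), integral_finset_sum _ (fun j _ => (hf2 j).1)]
  simp only [(hf1 _).2, (hf2 _).2]
  have hI1 : ∀ i, Integrable (fun x => (y i x * Real.log (y i x) + k0 * y i x) * W x) := by
    intro i
    have h1 : Integrable (fun x => y i x * Real.log (y i x) * W x) := by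
      refine (hint1 i).mono' (((hym i).mul (hlogm i)).mul hWm).aestronglyMeasurable
        (Filter.Eventually.of_forall fun x => ?_)
      rw [Real.norm_eq_abs, abs_mul, abs_of_nonneg (hW0 x)]
      exact mul_le_mul_of_nonneg_right (levy_ylog _ (hy0 i x)) (hW0 x)
    refine (h1.add ((hyW i).const_mul k0)).congr (Filter.Eventually.of_forall fun x => ?_)
    simp only [Pi.add_apply]
    ring
  have hI2 : ∀ j, Integrable (fun x => (- Real.log (y (σ j) x) + k1) * W x) := by
    intro j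
    refine ((hlogW' j).neg.add (hWi.const_mul k1)).congr (Filter.Eventually.of_forall fun x => ?_)
    simp only [Pi.add_apply, Pi.neg_apply]
    ring
  rw [← integral_finset_sum _ (fun i _ => hI1 i), ← integral_finset_sum _ (fun j _ => hI2 j),
    ← integral_add (integrable_finset_sum _ fun i _ => hI1 i)
      (integrable_finset_sum _ fun j _ => hI2 j)]
  refine integral_congr_ae (Filter.Eventually.of_forall fun x => ?_)
  simp only [NN, hydef]
  rw [← Finset.sum_mul, ← Finset.sum_mul, ← add_mul, Finset.sum_add_distrib, ← Finset.mul_sum]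
  rfl

end S_GG_levy

theorem GG_levy : type_of% @S_GG_levy.GG_levy := @S_GG_levy.GG_levy
end

section
namespace S_GG_deriv

/-- G4: derivative formula in Levy form -/
theorem GG_deriv (k0 k1 : ℝ)
    (hk0 : ∀ y : ℝ, 0 < y →
      IntegrableOn (fun t : ℝ => (Real.exp (-(t * y)) - 1 + (if t ≤ 1 then t * y else 0)) / t ^ 2) (Ioi 0) ∧
      ∫ t in Ioi (0:ℝ), (Real.exp (-(t * y)) - 1 + (if t ≤ 1 then t * y else 0)) / t ^ 2 =
        y * Real.log y + k0 * y)
    (hk1 : ∀ y : ℝ, 0 < y →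
      IntegrableOn (fun t : ℝ => (Real.exp (-(t * y)) - (if t ≤ 1 then 1 else 0)) / t) (Ioi 0) ∧
      ∫ t in Ioi (0:ℝ), (Real.exp (-(t * y)) - (if t ≤ 1 then 1 else 0)) / t = - Real.log y + k1)
    {n N : ℕ} (v : Fin N → Fin n → ℝ) (σ : Fin n → Fin N)
    (hσ : (Matrix.det (Matrix.of fun j => v (σ j))) ≠ 0) (J : Finset (Fin n)) (p : ℝ) (hp : 1 < p)
    (hp2 : p < 2) :
    IntegrableOn (fun t : ℝ => ((∑ i, (AA v σ J p i t - GG v σ J p)) -
      (if t ≤ 1 then t * ((J.card - (n - J.card * (2 - p)) / p) * GG v σ J p) else 0)) / t ^ 2) (Ioi 0) ∧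
    HasDerivAt (fun q => GG v σ J q)
      (-(1 / p) * ((∫ t in Ioi (0:ℝ), ((∑ i, (AA v σ J p i t - GG v σ J p)) -
      (if t ≤ 1 then t * ((J.card - (n - J.card * (2 - p)) / p) * GG v σ J p) else 0)) / t ^ 2) -
      (k0 * ((n - J.card * (2 - p)) / p) + J.card * k1) * GG v σ J p)) p := by
  obtain ⟨hI, hL⟩ := GG_levy k0 k1 hk0 hk1 v σ hσ J p hp hp2
  obtain ⟨hD1, hD⟩ := GG_hasDerivAt v σ hσ J p hp
  refine ⟨hI, ?_⟩
  rw [hL]
  refine hD.congr_deriv ?_
  have hp0 : p ≠ 0 := by linarith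
  have hlog : ∀ a : ℝ, Real.log (|a| ^ p) = p * Real.log |a| := by
    intro a
    rcases eq_or_ne a 0 with rfl | ha
    · rw [abs_zero, Real.zero_rpow hp0, Real.log_zero, mul_zero]
    · exact Real.log_rpow (abs_pos.2 ha) p
  have hW0 : Integrable (fun x => wt v σ J p x * Real.exp (-NN v p x)) := by
    have := wt_integrable v σ hσ J p hp 0
    simpa using this
  have hW1 : Integrable (fun x => NN v p x * (wt v σ J p x * Real.exp (-NN v p x))) := by
    have := (wt_integrable v σ hσ J p hp 1).sub hW0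
    refine this.congr (ae_of_all _ fun x => ?_)
    change wt v σ J p x * (1 + NN v p x) ^ 1 * Real.exp (-NN v p x) -
      wt v σ J p x * Real.exp (-NN v p x) = NN v p x * (wt v σ J p x * Real.exp (-NN v p x))
    ring
  have hE := GG_euler v σ hσ J p hp
  have e1 : ∀ x : Fin n → ℝ, (∑ i, |v i ⬝ᵥ x| ^ p * Real.log (|v i ⬝ᵥ x| ^ p) + k0 * NN v p x +
      ∑ j ∈ J, (- Real.log (|v (σ j) ⬝ᵥ x| ^ p) + k1)) * (wt v σ J p x * Real.exp (-NN v p x)) =
      (-p) * ((∑ j ∈ J, Real.log |v (σ j) ⬝ᵥ x| -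
        ∑ i, |v i ⬝ᵥ x| ^ p * Real.log |v i ⬝ᵥ x|) * (wt v σ J p x * Real.exp (-NN v p x))) +
      k0 * (NN v p x * (wt v σ J p x * Real.exp (-NN v p x))) +
      (J.card * k1) * (wt v σ J p x * Real.exp (-NN v p x)) := by
    intro x
    have s1 : ∑ i, |v i ⬝ᵥ x| ^ p * Real.log (|v i ⬝ᵥ x| ^ p) =
        p * ∑ i, |v i ⬝ᵥ x| ^ p * Real.log |v i ⬝ᵥ x| := by
      rw [Finset.mul_sum]
      apply Finset.sum_congr rfl
      intro i _
      rw [hlog]; ring
    have s2 : ∑ j ∈ J, (- Real.log (|v (σ j) ⬝ᵥ x| ^ p) + k1) =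
        -p * (∑ j ∈ J, Real.log |v (σ j) ⬝ᵥ x|) + J.card * k1 := by
      rw [Finset.sum_add_distrib, Finset.sum_const, nsmul_eq_mul, Finset.mul_sum]
      congr 1
      apply Finset.sum_congr rfl
      intro j _
      rw [hlog]; ring
    rw [s1, s2]
    ring
  have e2 : ∫ x : Fin n → ℝ, (∑ i, |v i ⬝ᵥ x| ^ p * Real.log (|v i ⬝ᵥ x| ^ p) + k0 * NN v p x +
      ∑ j ∈ J, (- Real.log (|v (σ j) ⬝ᵥ x| ^ p) + k1)) * (wt v σ J p x * Real.exp (-NN v p x)) =
      (-p) * (∫ x : Fin n → ℝ, (∑ j ∈ J, Real.log |v (σ j) ⬝ᵥ x| -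
        ∑ i, |v i ⬝ᵥ x| ^ p * Real.log |v i ⬝ᵥ x|) * (wt v σ J p x * Real.exp (-NN v p x))) +
      k0 * (((n - J.card * (2 - p)) / p) * GG v σ J p) + (J.card * k1) * GG v σ J p := by
    have i1 := hD1.const_mul (-p)
    have i2 := hW1.const_mul k0
    have i3 := hW0.const_mul ((J.card : ℝ) * k1)
    calc _ = ∫ x : Fin n → ℝ, ((-p) * ((∑ j ∈ J, Real.log |v (σ j) ⬝ᵥ x| -
          ∑ i, |v i ⬝ᵥ x| ^ p * Real.log |v i ⬝ᵥ x|) * (wt v σ J p x * Real.exp (-NN v p x))) +
          k0 * (NN v p x * (wt v σ J p x * Real.exp (-NN v p x)))) +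
          (J.card * k1) * (wt v σ J p x * Real.exp (-NN v p x)) :=
          integral_congr_ae (ae_of_all _ e1)
      _ = (∫ x : Fin n → ℝ, ((-p) * ((∑ j ∈ J, Real.log |v (σ j) ⬝ᵥ x| -
          ∑ i, |v i ⬝ᵥ x| ^ p * Real.log |v i ⬝ᵥ x|) * (wt v σ J p x * Real.exp (-NN v p x))) +
          k0 * (NN v p x * (wt v σ J p x * Real.exp (-NN v p x))))) +
          ∫ x : Fin n → ℝ, (J.card * k1) * (wt v σ J p x * Real.exp (-NN v p x)) :=
          integral_add (i1.add i2) i3
      _ = ((∫ x : Fin n → ℝ, (-p) * ((∑ j ∈ J, Real.log |v (σ j) ⬝ᵥ x| -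
          ∑ i, |v i ⬝ᵥ x| ^ p * Real.log |v i ⬝ᵥ x|) * (wt v σ J p x * Real.exp (-NN v p x)))) +
          ∫ x : Fin n → ℝ, k0 * (NN v p x * (wt v σ J p x * Real.exp (-NN v p x)))) +
          ∫ x : Fin n → ℝ, (J.card * k1) * (wt v σ J p x * Real.exp (-NN v p x)) := by
          rw [integral_add i1 i2]
      _ = _ := by
          rw [integral_const_mul, integral_const_mul, integral_const_mul, hE]
          rfl
  rw [e2]
  field_simp
  ring

end S_GG_deriv

theorem GG_deriv : type_of% @S_GG_deriv.GG_deriv := @S_GG_deriv.GG_deriv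
end

section
namespace S_GG_pos

theorem GG_pos_hyper {n : ℕ} (w : Fin n → ℝ) (hw : w ≠ 0) :
    ∀ᵐ x : Fin n → ℝ, w ⬝ᵥ x ≠ 0 := by
  obtain ⟨L, hL⟩ : ∃ L : (Fin n → ℝ) →ₗ[ℝ] ℝ, ∀ x, L x = w ⬝ᵥ x :=
    ⟨{ toFun := fun x => w ⬝ᵥ x
       map_add' := fun x y => dotProduct_add w x y
       map_smul' := fun c x => by rw [dotProduct_smul]; rfl }, fun x => rfl⟩
  have hne : LinearMap.ker L ≠ ⊤ := by
    intro h
    apply hw
    have h1 : w ∈ LinearMap.ker L := by
      rw [h]
      exact Submodule.mem_top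
    rw [LinearMap.mem_ker, hL] at h1
    exact dotProduct_self_eq_zero.1 h1
  have h0 : volume (LinearMap.ker L : Set (Fin n → ℝ)) = 0 :=
    Measure.addHaar_submodule volume _ hne
  have h1 : ∀ᵐ x : Fin n → ℝ, x ∉ (LinearMap.ker L : Set (Fin n → ℝ)) :=
    measure_eq_zero_iff_ae_notMem.1 h0
  filter_upwards [h1] with x hx h
  apply hx
  show x ∈ LinearMap.ker L
  rw [LinearMap.mem_ker, hL, h]

/-- positivity -/
theorem GG_pos {n N : ℕ} (v : Fin N → Fin n → ℝ) (σ : Fin n → Fin N)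
    (hσ : (Matrix.det (Matrix.of fun j => v (σ j))) ≠ 0) (J : Finset (Fin n)) (p : ℝ) (hp : 1 < p) :
    0 < GG v σ J p := by
  have hint : Integrable (fun x : Fin n → ℝ => wt v σ J p x * Real.exp (-NN v p x)) := by
    have := wt_integrable v σ hσ J p hp 0
    simpa using this
  have hv : ∀ j, v (σ j) ≠ 0 := by
    intro j hj
    apply hσ
    apply Matrix.det_eq_zero_of_row_eq_zero j
    intro i
    show v (σ j) i = 0
    rw [hj]
    rfl
  have hae : ∀ᵐ x : Fin n → ℝ, ∀ j, v (σ j) ⬝ᵥ x ≠ 0 :=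
    ae_all_iff.2 fun j => GG_pos_hyper _ (hv j)
  unfold GG
  have hnn : 0 ≤ fun x : Fin n → ℝ => wt v σ J p x * Real.exp (-NN v p x) := by
    intro x
    exact mul_nonneg (Finset.prod_nonneg fun j _ => Real.rpow_nonneg (abs_nonneg _) _)
      (Real.exp_nonneg _)
  rw [integral_pos_iff_support_of_nonneg hnn hint]
  by_contra hcon
  have h0 : volume (Function.support
      fun x : Fin n → ℝ => wt v σ J p x * Real.exp (-NN v p x)) = 0 :=
    le_antisymm (not_lt.1 hcon) zero_le
  have h1 : ∀ᵐ x : Fin n → ℝ, x ∉ Function.support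
      (fun x : Fin n → ℝ => wt v σ J p x * Real.exp (-NN v p x)) :=
    measure_eq_zero_iff_ae_notMem.1 h0
  obtain ⟨x, hx1, hx2⟩ := (h1.and hae).exists
  apply hx1
  rw [Function.mem_support]
  apply ne_of_gt
  apply mul_pos _ (Real.exp_pos _)
  exact Finset.prod_pos fun j _ => Real.rpow_pos_of_pos (abs_pos.2 (hx2 j)) _

end S_GG_pos

theorem GG_pos : type_of% @S_GG_pos.GG_pos := @S_GG_pos.GG_pos
end

section
namespace S_ZZ_scl

theorem NN_scl {n N : ℕ} (v : Fin N → Fin n → ℝ) (p : ℝ) (hp : 1 < p)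
    (i : Fin N) (t : ℝ) (ht : 0 ≤ t) (x : Fin n → ℝ) :
    NN (scl v p i t) p x = NN v p x + t * |v i ⬝ᵥ x| ^ p := by
  unfold NN scl
  rw [← Finset.add_sum_erase Finset.univ _ (Finset.mem_univ i),
    ← Finset.add_sum_erase Finset.univ (fun j => |v j ⬝ᵥ x| ^ p) (Finset.mem_univ i)]
  have h1 : ∑ j ∈ Finset.univ.erase i,
      |Function.update v i ((1 + t) ^ (1 / p) • v i) j ⬝ᵥ x| ^ p =
      ∑ j ∈ Finset.univ.erase i, |v j ⬝ᵥ x| ^ p := by
    refine Finset.sum_congr rfl (fun j hj => ?_)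
    rw [Function.update_of_ne (Finset.ne_of_mem_erase hj)]
  have h2 : |Function.update v i ((1 + t) ^ (1 / p) • v i) i ⬝ᵥ x| ^ p =
      (1 + t) * |v i ⬝ᵥ x| ^ p := by
    rw [Function.update_self, smul_dotProduct, smul_eq_mul, abs_mul,
      Real.mul_rpow (abs_nonneg _) (abs_nonneg _),
      abs_of_nonneg (Real.rpow_nonneg (by linarith) _), ← Real.rpow_mul (by linarith),
      one_div_mul_cancel (by linarith), Real.rpow_one]
  rw [h1, h2]
  ring

/-- G5: `Z` and `V` of the scaled configuration -/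
theorem ZZ_scl {n N : ℕ} (v : Fin N → Fin n → ℝ) (σ : Fin n → Fin N) (p : ℝ) (hp : 1 < p)
    (i : Fin N) (t : ℝ) (ht : 0 ≤ t) : ZZ (scl v p i t) p = AA v σ ∅ p i t := by
  unfold ZZ AA
  congr 1
  funext x
  rw [NN_scl v p hp i t ht x]
  unfold wt
  rw [Finset.image_empty, if_neg (Finset.notMem_empty i), Finset.prod_empty, one_mul, one_mul,
    ← Real.exp_add]
  congr 1
  ring

end S_ZZ_scl

theorem ZZ_scl : type_of% @S_ZZ_scl.ZZ_scl := @S_ZZ_scl.ZZ_scl
end

section
namespace S_VV_scl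

theorem VV_scl {n N : ℕ} (v : Fin N → Fin n → ℝ) (p : ℝ) (hp : 1 < p)
    (i : Fin N) (t : ℝ) (ht : 0 ≤ t) : VV (scl v p i t) p =
      (∑ σ : Fin n → Fin N, (Matrix.det (Matrix.of fun j => v (σ j))) ^ 2 * AA v σ Finset.univ p i t) /
        (n.factorial : ℝ) := by
  classical
  unfold VV
  congr 1
  refine Finset.sum_congr rfl fun σ _ => ?_
  set c : ℝ := (1 + t) ^ (1 / p) with hc
  have hc0 : 0 < c := Real.rpow_pos_of_pos (by linarith) _
  have hcp : c ^ p = 1 + t := by
    rw [hc, ← Real.rpow_mul (by linarith), one_div_mul_cancel (by linarith), Real.rpow_one]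
  have hself : scl v p i t i = c • v i := by simp [scl, hc]
  have hother : ∀ j, j ≠ i → scl v p i t j = v j := by
    intro j hj
    simp [scl, hj]
  have hNN : ∀ x, NN (scl v p i t) p x = NN v p x + t * |v i ⬝ᵥ x| ^ p := by
    intro x
    unfold NN
    have h1 : ∀ j, |scl v p i t j ⬝ᵥ x| ^ p =
        |v j ⬝ᵥ x| ^ p + if j = i then t * |v i ⬝ᵥ x| ^ p else 0 := by
      intro j
      by_cases hj : j = i
      · subst hj
        rw [if_pos rfl, hself, smul_dotProduct, smul_eq_mul, abs_mul, abs_of_pos hc0,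
          Real.mul_rpow hc0.le (abs_nonneg _), hcp]
        ring
      · rw [if_neg hj, hother j hj, add_zero]
    simp only [h1, Finset.sum_add_distrib, Finset.sum_ite_eq', Finset.mem_univ, if_true]
  have hexp : ∀ x, Real.exp (-NN (scl v p i t) p x) =
      Real.exp (-(t * |v i ⬝ᵥ x| ^ p)) * Real.exp (-NN v p x) := by
    intro x
    rw [hNN, ← Real.exp_add]
    congr 1
    ring
  by_cases hinj : Function.Injective σ
  · by_cases hi : ∃ j0, σ j0 = i
    · obtain ⟨j0, hj0⟩ := hi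
      have hmem : i ∈ Finset.univ.image σ := Finset.mem_image.2 ⟨j0, Finset.mem_univ _, hj0⟩
      have hdet : Matrix.det (Matrix.of fun j => scl v p i t (σ j)) =
          c * Matrix.det (Matrix.of fun j => v (σ j)) := by
        have h1 : (Matrix.of fun j => scl v p i t (σ j)) =
            Matrix.updateRow (Matrix.of fun j => v (σ j)) j0
              (c • (Matrix.of fun j => v (σ j)) j0) := by
          ext a b
          by_cases ha : a = j0
          · subst ha
            rw [Matrix.updateRow_self, Matrix.of_apply, hj0, hself]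
            simp [hj0]
          · rw [Matrix.updateRow_ne ha, Matrix.of_apply, Matrix.of_apply,
              hother (σ a) (fun h => ha (hinj (h.trans hj0.symm)))]
        rw [h1, Matrix.det_updateRow_smul, Matrix.updateRow_eq_self]
      have hwt : ∀ x, wt (scl v p i t) σ Finset.univ p x =
          c ^ (p - 2) * wt v σ Finset.univ p x := by
        intro x
        unfold wt
        have h1 : ∀ j, |scl v p i t (σ j) ⬝ᵥ x| ^ (p - 2) =
            (if j = j0 then c ^ (p - 2) else 1) * |v (σ j) ⬝ᵥ x| ^ (p - 2) := by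
          intro j
          by_cases hj : j = j0
          · subst hj
            rw [if_pos rfl, hj0, hself, smul_dotProduct, smul_eq_mul, abs_mul, abs_of_pos hc0,
              Real.mul_rpow hc0.le (abs_nonneg _)]
          · rw [if_neg hj, hother (σ j) (fun h => hj (hinj (h.trans hj0.symm))), one_mul]
        simp only [h1, Finset.prod_mul_distrib, Finset.prod_ite_eq', Finset.mem_univ, if_true]
      have hG : GG (scl v p i t) σ Finset.univ p = c ^ (p - 2) *
          ∫ x : Fin n → ℝ, Real.exp (-(t * |v i ⬝ᵥ x| ^ p)) *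
            (wt v σ Finset.univ p x * Real.exp (-NN v p x)) := by
        unfold GG
        rw [← integral_const_mul]
        congr 1
        funext x
        rw [hwt, hexp]
        ring
      have hA : AA v σ Finset.univ p i t = (1 + t) *
          ∫ x : Fin n → ℝ, Real.exp (-(t * |v i ⬝ᵥ x| ^ p)) *
            (wt v σ Finset.univ p x * Real.exp (-NN v p x)) := by
        unfold AA
        rw [← integral_const_mul]
        congr 1
        funext x
        rw [if_pos hmem]
        ring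
      have hcc : c ^ 2 * c ^ (p - 2) = 1 + t := by
        rw [← hcp, ← Real.rpow_natCast c 2, ← Real.rpow_add hc0]
        congr 1
        push_cast
        ring
      rw [hdet, hG, hA, ← hcc]
      ring
    · have hmem : i ∉ Finset.univ.image σ := by
        intro h
        obtain ⟨j0, -, hj0⟩ := Finset.mem_image.1 h
        exact hi ⟨j0, hj0⟩
      have hσ : ∀ j, scl v p i t (σ j) = v (σ j) := fun j => hother _ (fun h => hi ⟨j, h⟩)
      have hdet : Matrix.det (Matrix.of fun j => scl v p i t (σ j)) =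
          Matrix.det (Matrix.of fun j => v (σ j)) := by
        simp only [hσ]
      have hG : GG (scl v p i t) σ Finset.univ p = AA v σ Finset.univ p i t := by
        unfold GG AA
        congr 1
        funext x
        rw [if_neg hmem, hexp]
        unfold wt
        simp only [hσ]
        ring
      rw [hdet, hG]
  · have h0 : ∀ w : Fin N → Fin n → ℝ, Matrix.det (Matrix.of fun j => w (σ j)) = 0 := by
      intro w
      obtain ⟨a, b, hab, hne⟩ : ∃ a b, σ a = σ b ∧ a ≠ b := by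
        simpa [Function.Injective] using hinj
      refine Matrix.det_zero_of_row_eq hne ?_
      show w (σ a) = w (σ b)
      rw [hab]
    rw [h0, h0]
    ring

end S_VV_scl

theorem VV_scl : type_of% @S_VV_scl.VV_scl := @S_VV_scl.VV_scl
end

section
namespace S_logZV_deriv

/-- G6: logarithmic derivative of `Z * V` -/
theorem logZV_deriv : ∃ K : ℝ, ∀ (n N : ℕ) (v : Fin N → Fin n → ℝ), Spans v → ∀ p : ℝ, 1 < p → p < 2 →
    0 < ZZ v p ∧ 0 < VV v p ∧
    IntegrableOn (fun t : ℝ => (∑ i, (ZZ (scl v p i t) p / ZZ v p + VV (scl v p i t) p / VV v p - 2)) / t ^ 2)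
      (Ioi 0) ∧
    HasDerivAt (fun q => Real.log (ZZ v q * VV v q))
      (-(1 / p) * ((∫ t in Ioi (0:ℝ),
        (∑ i, (ZZ (scl v p i t) p / ZZ v p + VV (scl v p i t) p / VV v p - 2)) / t ^ 2) - K * n)) p := by
  obtain ⟨k0, hk0⟩ := levy1
  obtain ⟨k1, hk1⟩ := levy2
  refine ⟨k0 + k1, ?_⟩
  intro n N v hv p hp hp2
  have hp0 : 0 < p := by linarith
  obtain ⟨σ0, hσ0⟩ := (spans_iff v).1 hv
  have hZG : ∀ q, ZZ v q = GG v σ0 ∅ q := by
    intro q
    unfold ZZ GG wt
    simp
  have hZpos : 0 < ZZ v p := by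
    rw [hZG]
    exact GG_pos v σ0 hσ0 ∅ p hp
  -- the weights
  set W : (Fin n → Fin N) → ℝ := fun σ =>
    (Matrix.det (Matrix.of fun j => v (σ j))) ^ 2 / (n.factorial : ℝ) with hW
  have hfac : (0 : ℝ) < (n.factorial : ℝ) := by exact_mod_cast n.factorial_pos
  have hWnn : ∀ σ, 0 ≤ W σ := fun σ => by
    rw [hW]
    positivity
  have hVW : ∀ q, VV v q = ∑ σ, W σ * GG v σ Finset.univ q := by
    intro q
    unfold VV
    rw [Finset.sum_div]
    apply Finset.sum_congr rfl
    intro σ _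
    rw [hW]
    ring
  have hVpos : 0 < VV v p := by
    rw [hVW]
    apply Finset.sum_pos'
    · intro σ _
      by_cases hσ : (Matrix.det (Matrix.of fun j => v (σ j))) = 0
      · have : W σ = 0 := by
          rw [hW]
          simp [hσ]
        rw [this, zero_mul]
      · exact mul_nonneg (hWnn σ) (GG_pos v σ hσ Finset.univ p hp).le
    · refine ⟨σ0, Finset.mem_univ _, ?_⟩
      apply mul_pos _ (GG_pos v σ0 hσ0 Finset.univ p hp)
      rw [hW]
      positivity
  -- the integrands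
  obtain ⟨hZi, hZd⟩ := GG_deriv k0 k1 hk0 hk1 v σ0 hσ0 ∅ p hp hp2
  set F0 : ℝ → ℝ := fun t => ((∑ i, (AA v σ0 ∅ p i t - GG v σ0 ∅ p)) -
      (if t ≤ 1 then t * (((∅ : Finset (Fin n)).card - (n - (∅ : Finset (Fin n)).card * (2 - p)) / p) *
        GG v σ0 ∅ p) else 0)) / t ^ 2 with hF0
  set Fs : (Fin n → Fin N) → ℝ → ℝ := fun σ t => ((∑ i, (AA v σ Finset.univ p i t - GG v σ Finset.univ p)) -
      (if t ≤ 1 then t * (((Finset.univ : Finset (Fin n)).card -
        (n - (Finset.univ : Finset (Fin n)).card * (2 - p)) / p) *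
        GG v σ Finset.univ p) else 0)) / t ^ 2 with hFs
  have hcard : ((Finset.univ : Finset (Fin n)).card : ℝ) = n := by simp
  have hcard0 : ((∅ : Finset (Fin n)).card : ℝ) = 0 := by simp
  have hsd : ∀ σ, (Matrix.det (Matrix.of fun j => v (σ j))) ≠ 0 →
      IntegrableOn (Fs σ) (Ioi 0) ∧ HasDerivAt (fun q => GG v σ Finset.univ q)
      (-(1 / p) * ((∫ t in Ioi (0:ℝ), Fs σ t) -
        (k0 * ((n - n * (2 - p)) / p) + n * k1) * GG v σ Finset.univ p)) p := by
    intro σ hσ
    obtain ⟨h1, h2⟩ := GG_deriv k0 k1 hk0 hk1 v σ hσ Finset.univ p hp hp2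
    refine ⟨h1, h2.congr_deriv ?_⟩
    simp only [hFs, hcard]
  -- derivative of `VV`
  have hVd : HasDerivAt (fun q => VV v q) (-(1 / p) * ((∑ σ, W σ * ∫ t in Ioi (0:ℝ), Fs σ t) -
      (k0 * ((n - n * (2 - p)) / p) + n * k1) * VV v p)) p := by
    have h1 : ∀ σ ∈ (Finset.univ : Finset (Fin n → Fin N)),
        HasDerivAt (fun q => W σ * GG v σ Finset.univ q)
        (W σ * (-(1 / p) * ((∫ t in Ioi (0:ℝ), Fs σ t) -
        (k0 * ((n - n * (2 - p)) / p) + n * k1) * GG v σ Finset.univ p))) p := by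
      intro σ _
      by_cases hσ : (Matrix.det (Matrix.of fun j => v (σ j))) = 0
      · have : W σ = 0 := by
          rw [hW]
          simp [hσ]
        simp only [this, zero_mul]
        exact hasDerivAt_const _ _
      · exact (hsd σ hσ).2.const_mul _
    have h2 := HasDerivAt.fun_sum h1
    have h3 : (fun q => VV v q) = fun q => ∑ σ, W σ * GG v σ Finset.univ q := by
      funext q
      exact hVW q
    rw [h3]
    refine h2.congr_deriv ?_
    rw [hVW p, Finset.mul_sum, ← Finset.sum_sub_distrib, Finset.mul_sum]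
    apply Finset.sum_congr rfl
    intro σ _
    ring
  -- derivative of `ZZ`
  have hZd' : HasDerivAt (fun q => ZZ v q) (-(1 / p) * ((∫ t in Ioi (0:ℝ), F0 t) -
      (k0 * (n / p)) * ZZ v p)) p := by
    have h3 : (fun q => ZZ v q) = fun q => GG v σ0 ∅ q := by
      funext q
      exact hZG q
    rw [h3, hZG p]
    refine hZd.congr_deriv ?_
    rw [hcard0]
    ring
  -- pointwise identity
  have hpt : ∀ t ∈ Ioi (0:ℝ),
      (∑ i, (ZZ (scl v p i t) p / ZZ v p + VV (scl v p i t) p / VV v p - 2)) / t ^ 2 =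
      F0 t / ZZ v p + ∑ σ, (W σ / VV v p) * Fs σ t := by
    intro t ht
    have ht0 : 0 < t := ht
    set cV : ℝ := if t ≤ 1 then t * (n / p) else 0 with hcV
    have hZt : F0 t = ((∑ i, (ZZ (scl v p i t) p - ZZ v p)) + cV * ZZ v p) / t ^ 2 := by
      rw [hF0]
      simp only [ZZ_scl v σ0 p hp _ t ht0.le, hZG p, hcard0]
      congr 1
      rw [sub_eq_add_neg]
      congr 1
      rw [hcV]
      split_ifs
      · ring
      · ring
    have hVt : ∑ σ, W σ * Fs σ t =
        ((∑ i, (VV (scl v p i t) p - VV v p)) - cV * VV v p) / t ^ 2 := by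
      have h1 : ∀ i, VV (scl v p i t) p = ∑ σ, W σ * AA v σ Finset.univ p i t := by
        intro i
        rw [VV_scl v p hp i t ht0.le, Finset.sum_div]
        apply Finset.sum_congr rfl
        intro σ _
        rw [hW]
        ring
      have h2 : ∀ σ, W σ * Fs σ t = ((∑ i, (W σ * AA v σ Finset.univ p i t -
          W σ * GG v σ Finset.univ p)) - cV * (W σ * GG v σ Finset.univ p)) / t ^ 2 := by
        intro σ
        rw [hFs]
        simp only [hcard]
        rw [← mul_div_assoc, mul_sub, Finset.mul_sum]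
        congr 2
        · apply Finset.sum_congr rfl
          intro i _
          ring
        · rw [hcV]
          split_ifs
          · field_simp
            ring
          · ring
      simp only [h2]
      rw [← Finset.sum_div, Finset.sum_sub_distrib, Finset.sum_comm, ← Finset.mul_sum, ← hVW]
      congr 2
      apply Finset.sum_congr rfl
      intro i _
      rw [Finset.sum_sub_distrib, ← h1, ← hVW]
    have hVt' : ∑ σ, (W σ / VV v p) * Fs σ t =
        (((∑ i, (VV (scl v p i t) p - VV v p)) - cV * VV v p) / t ^ 2) / VV v p := by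
      rw [← hVt, Finset.sum_div]
      apply Finset.sum_congr rfl
      intro σ _
      ring
    rw [hZt, hVt']
    have h5 : ∑ i, (ZZ (scl v p i t) p / ZZ v p + VV (scl v p i t) p / VV v p - 2) =
        (∑ i, (ZZ (scl v p i t) p - ZZ v p)) / ZZ v p +
          (∑ i, (VV (scl v p i t) p - VV v p)) / VV v p := by
      rw [Finset.sum_div, Finset.sum_div, ← Finset.sum_add_distrib]
      apply Finset.sum_congr rfl
      intro i _
      field_simp
      ring
    rw [h5]
    field_simp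
    ring
  -- integrability
  have hIs : ∀ σ, IntegrableOn (fun t => (W σ / VV v p) * Fs σ t) (Ioi 0) := by
    intro σ
    by_cases hσ : (Matrix.det (Matrix.of fun j => v (σ j))) = 0
    · have : W σ = 0 := by
        rw [hW]
        simp [hσ]
      simp only [this, zero_div, zero_mul]
      exact integrableOn_zero
    · exact (hsd σ hσ).1.const_mul _
  have hI0 : IntegrableOn (fun t => F0 t / ZZ v p) (Ioi 0) := hZi.div_const _
  have hIsum : IntegrableOn (fun t => ∑ σ, (W σ / VV v p) * Fs σ t) (Ioi 0) :=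
    integrable_finsetSum _ (fun σ _ => hIs σ)
  have hIall : IntegrableOn (fun t => F0 t / ZZ v p + ∑ σ, (W σ / VV v p) * Fs σ t) (Ioi 0) :=
    hI0.add hIsum
  refine ⟨hZpos, hVpos, ?_, ?_⟩
  · exact hIall.congr_fun (fun t ht => (hpt t ht).symm) measurableSet_Ioi
  · have hint : (∫ t in Ioi (0:ℝ),
        (∑ i, (ZZ (scl v p i t) p / ZZ v p + VV (scl v p i t) p / VV v p - 2)) / t ^ 2) =
        (∫ t in Ioi (0:ℝ), F0 t) / ZZ v p + (∑ σ, W σ * ∫ t in Ioi (0:ℝ), Fs σ t) / VV v p := by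
      rw [setIntegral_congr_fun measurableSet_Ioi hpt, integral_add hI0 hIsum, integral_div,
        integral_finsetSum _ (fun σ _ => hIs σ), Finset.sum_div]
      congr 1
      apply Finset.sum_congr rfl
      intro σ _
      rw [integral_const_mul]
      ring
    rw [hint]
    have h1 := (hZd'.mul hVd).log (mul_pos hZpos hVpos).ne'
    refine h1.congr_deriv ?_
    show _ / (ZZ v p * VV v p) = _
    have hZ0 := hZpos.ne'
    have hV0 := hVpos.ne'
    field_simp
    ring

end S_logZV_deriv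

theorem logZV_deriv : type_of% @S_logZV_deriv.logZV_deriv := @S_logZV_deriv.logZV_deriv
end

end VPL
end
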