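import Mathlib
import Pool.Agent.VPL.Der

set_option autoImplicit false
open MeasureTheory Set Filter Topology Matrix

noncomputable section
namespace VPL

section
namespace S_ZV_lsc

def FF {n N : ℕ} (σ : Fin n → Fin N) (J : Finset (Fin n)) (q : (Fin N → Fin n → ℝ) × ℝ)
    (x : Fin n → ℝ) : ℝ := wt q.1 σ J q.2 x * Real.exp (-NN q.1 q.2 x)

theorem FF_nonneg {n N : ℕ} (σ : Fin n → Fin N) (J : Finset (Fin n))
    (q : (Fin N → Fin n → ℝ) × ℝ) (x : Fin n → ℝ) : 0 ≤ FF σ J q x := by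
  unfold FF wt
  exact mul_nonneg (Finset.prod_nonneg fun j _ => Real.rpow_nonneg (abs_nonneg _) _)
    (Real.exp_pos _).le

theorem FF_meas {n N : ℕ} (σ : Fin n → Fin N) (J : Finset (Fin n))
    (q : (Fin N → Fin n → ℝ) × ℝ) : Measurable (FF σ J q) := by
  unfold FF wt NN
  have h1 : ∀ (w : Fin n → ℝ), Measurable fun x : Fin n → ℝ => |w ⬝ᵥ x| := by
    intro w
    have : Continuous fun x : Fin n → ℝ => |w ⬝ᵥ x| := by
      unfold dotProduct
      fun_prop
    exact this.measurable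
  refine Measurable.mul ?_ ?_
  · exact Finset.measurable_fun_prod _ fun j _ => (h1 _).pow_const _
  · refine Real.measurable_exp.comp (Measurable.neg ?_)
    exact Finset.measurable_fun_sum _ fun j _ => (h1 _).pow_const _

theorem GG_eq {n N : ℕ} (σ : Fin n → Fin N) (J : Finset (Fin n))
    (q : (Fin N → Fin n → ℝ) × ℝ) : GG q.1 σ J q.2 = ∫ x, FF σ J q x := rfl

theorem GG_lint {n N : ℕ} (σ : Fin n → Fin N) (J : Finset (Fin n))
    (q : (Fin N → Fin n → ℝ) × ℝ) (hσ : (Matrix.det (Matrix.of fun j => q.1 (σ j))) ≠ 0)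
    (hp : 1 < q.2) : ENNReal.ofReal (GG q.1 σ J q.2) = ∫⁻ x, ENNReal.ofReal (FF σ J q x) := by
  have hpos := GG_pos q.1 σ hσ J q.2 hp
  have hint : Integrable (FF σ J q) := by
    by_contra h
    rw [GG_eq, integral_undef h] at hpos
    exact lt_irrefl _ hpos
  rw [GG_eq, ofReal_integral_eq_lintegral_ofReal hint (Eventually.of_forall (FF_nonneg σ J q))]

theorem ae_ne {n : ℕ} (w : Fin n → ℝ) (hw : w ≠ 0) : ∀ᵐ x : Fin n → ℝ, w ⬝ᵥ x ≠ 0 := by
  let f : (Fin n → ℝ) →ₗ[ℝ] ℝ :=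
    { toFun := fun x => w ⬝ᵥ x
      map_add' := fun x y => dotProduct_add w x y
      map_smul' := fun c x => dotProduct_smul c w x }
  have hk : LinearMap.ker f ≠ ⊤ := by
    intro h
    apply hw
    have h1 : f w = 0 := by
      have : w ∈ LinearMap.ker f := by rw [h]; trivial
      exact this
    exact dotProduct_self_eq_zero.mp h1
  have h2 := Measure.addHaar_submodule (volume : Measure (Fin n → ℝ)) (LinearMap.ker f) hk
  rw [ae_iff]
  refine measure_mono_null ?_ h2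
  intro x hx
  simp only [not_not] at hx
  exact hx

theorem FF_tendsto {n N : ℕ} (σ : Fin n → Fin N) (J : Finset (Fin n))
    (q : (Fin N → Fin n → ℝ) × ℝ) (hp : 0 < q.2) (x : Fin n → ℝ)
    (hx : ∀ j, q.1 (σ j) ⬝ᵥ x ≠ 0) : ContinuousAt (fun q' => FF σ J q' x) q := by
  unfold FF wt NN
  have h1 : ∀ i : Fin N, Continuous fun q' : (Fin N → Fin n → ℝ) × ℝ => |q'.1 i ⬝ᵥ x| := by
    intro i
    unfold dotProduct
    fun_prop
  refine ContinuousAt.mul ?_ ?_
  · refine tendsto_finsetProd _ fun j _ => ?_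
    refine ContinuousAt.rpow (h1 (σ j)).continuousAt (by fun_prop) (Or.inl ?_)
    exact abs_ne_zero.mpr (hx j)
  · refine Real.continuous_exp.continuousAt.comp (ContinuousAt.neg ?_)
    refine tendsto_finsetSum _ fun j _ => ?_
    exact ContinuousAt.rpow (h1 j).continuousAt (by fun_prop) (Or.inr hp)

theorem GG_lsc {n N : ℕ} (σ : Fin n → Fin N) (J : Finset (Fin n)) (p1 : ℝ) (hp1 : 1 < p1)
    (S : Set ((Fin N → Fin n → ℝ) × ℝ)) (hS : ∀ q ∈ S, p1 ≤ q.2)
    (q0 : (Fin N → Fin n → ℝ) × ℝ) (hq0 : q0 ∈ S)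
    (hσ : (Matrix.det (Matrix.of fun j => q0.1 (σ j))) ≠ 0) :
    LowerSemicontinuousWithinAt (fun q : (Fin N → Fin n → ℝ) × ℝ => GG q.1 σ J q.2) S q0 := by
  intro y hy
  by_contra hcon
  rw [Filter.not_eventually] at hcon
  have hdet : ∀ᶠ q : (Fin N → Fin n → ℝ) × ℝ in 𝓝[S] q0,
      (Matrix.det (Matrix.of fun j => q.1 (σ j))) ≠ 0 := by
    have hc : Continuous fun q : (Fin N → Fin n → ℝ) × ℝ =>
        (Matrix.det (Matrix.of fun j => q.1 (σ j))) := by
      refine Continuous.matrix_det ?_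
      refine continuous_matrix fun i j => ?_
      simp only [Matrix.of_apply]
      fun_prop
    exact (hc.continuousAt.eventually_ne hσ).filter_mono nhdsWithin_le_nhds
  have h1 := (hcon.and_eventually hdet).and_eventually (self_mem_nhdsWithin (s := S) (a := q0))
  obtain ⟨qs, hqs, hprop⟩ := Filter.exists_seq_forall_of_frequently h1
  have hq0p : 1 < q0.2 := lt_of_lt_of_le hp1 (hS q0 hq0)
  have hae : ∀ᵐ x : Fin n → ℝ, ∀ j, q0.1 (σ j) ⬝ᵥ x ≠ 0 := by
    rw [ae_all_iff]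
    intro j
    apply ae_ne
    intro h0
    apply hσ
    apply Matrix.det_eq_zero_of_row_eq_zero j
    intro i
    simp [h0]
  have hqs' : Tendsto qs atTop (𝓝 q0) := hqs.mono_right nhdsWithin_le_nhds
  have hle : ENNReal.ofReal (GG q0.1 σ J q0.2) ≤ ENNReal.ofReal y := by
    calc ENNReal.ofReal (GG q0.1 σ J q0.2) = ∫⁻ x, ENNReal.ofReal (FF σ J q0 x) :=
          GG_lint σ J q0 hσ hq0p
      _ = ∫⁻ x, liminf (fun k => ENNReal.ofReal (FF σ J (qs k) x)) atTop := by
          apply lintegral_congr_ae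
          filter_upwards [hae] with x hx
          have h2 := (FF_tendsto σ J q0 (by linarith) x hx).tendsto.comp hqs'
          exact ((ENNReal.continuous_ofReal.tendsto _).comp h2).liminf_eq.symm
      _ ≤ liminf (fun k => ∫⁻ x, ENNReal.ofReal (FF σ J (qs k) x)) atTop :=
          lintegral_liminf_le fun k => (FF_meas σ J (qs k)).ennreal_ofReal
      _ ≤ liminf (fun _ : ℕ => ENNReal.ofReal y) atTop := by
          refine liminf_le_liminf (Eventually.of_forall fun k => ?_)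
          obtain ⟨⟨h3, h4⟩, h5⟩ := hprop k
          rw [← GG_lint σ J (qs k) h4 (lt_of_lt_of_le hp1 (hS _ h5))]
          exact ENNReal.ofReal_le_ofReal (not_lt.mp h3)
      _ = ENNReal.ofReal y := by simp
  have hpos := GG_pos q0.1 σ hσ J q0.2 hq0p
  rcases ENNReal.ofReal_le_ofReal_iff'.mp hle with h | h
  · exact absurd hy (not_lt.mpr h)
  · linarith

theorem lsc_mul {X : Type*} [TopologicalSpace X] {f g : X → ℝ} {S : Set X} {x : X}
    (hf : LowerSemicontinuousWithinAt f S x) (hg : LowerSemicontinuousWithinAt g S x)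
    (hf0 : ∀ᶠ y in 𝓝[S] x, 0 ≤ f y) (hg0 : ∀ᶠ y in 𝓝[S] x, 0 ≤ g y)
    (hfx : 0 ≤ f x) (hgx : 0 ≤ g x) : LowerSemicontinuousWithinAt (fun y => f y * g y) S x := by
  intro y hy
  simp only at hy
  by_cases hy0 : y < 0
  · filter_upwards [hf0, hg0] with z h1 h2
    exact lt_of_lt_of_le hy0 (mul_nonneg h1 h2)
  · push Not at hy0
    have hfg : 0 < f x * g x := lt_of_le_of_lt hy0 hy
    have hf1 : 0 < f x := by
      rcases hfx.lt_or_eq with h | h
      · exact h
      · rw [← h, zero_mul] at hfg; exact absurd hfg (lt_irrefl _)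
    have hg1 : 0 < g x := by
      rcases hgx.lt_or_eq with h | h
      · exact h
      · rw [← h, mul_zero] at hfg; exact absurd hfg (lt_irrefl _)
    have hcont : Tendsto (fun s : ℝ => (f x - s) * (g x - s)) (𝓝[>] 0) (𝓝 (f x * g x)) := by
      have : Continuous fun s : ℝ => (f x - s) * (g x - s) := by fun_prop
      have h1 := this.tendsto 0
      simp only [sub_zero] at h1
      exact h1.mono_left nhdsWithin_le_nhds
    have h1 := hcont.eventually (lt_mem_nhds hy)
    have h2 : ∀ᶠ s : ℝ in 𝓝[>] 0, s < f x :=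
      (eventually_lt_nhds hf1).filter_mono nhdsWithin_le_nhds
    have h3 : ∀ᶠ s : ℝ in 𝓝[>] 0, s < g x :=
      (eventually_lt_nhds hg1).filter_mono nhdsWithin_le_nhds
    obtain ⟨s, ⟨⟨h4, h5⟩, h6⟩, h7⟩ :=
      (((h1.and h2).and h3).and (self_mem_nhdsWithin (s := Ioi (0 : ℝ)) (a := 0))).exists
    have h7' : 0 < s := h7
    filter_upwards [hf (f x - s) (by linarith), hg (g x - s) (by linarith)] with z h8 h9
    calc y < (f x - s) * (g x - s) := h4
      _ ≤ f z * g z := mul_le_mul h8.le h9.le (by linarith) (by linarith)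

/-- H3: lower semicontinuity -/
theorem ZV_lsc (n N : ℕ) (p1 : ℝ) (hp1 : 1 < p1) :
    LowerSemicontinuousOn (fun q : (Fin N → Fin n → ℝ) × ℝ => ZZ q.1 q.2 * VV q.1 q.2)
      (KK n N ×ˢ Icc p1 2) := by
  intro q0 hq0
  set S : Set ((Fin N → Fin n → ℝ) × ℝ) := KK n N ×ˢ Icc p1 2 with hSdef
  have hS : ∀ q ∈ S, p1 ≤ q.2 := fun q hq => hq.2.1
  have hGG0 : ∀ (q : (Fin N → Fin n → ℝ) × ℝ) (σ : Fin n → Fin N) (J : Finset (Fin n)),
      0 ≤ GG q.1 σ J q.2 := fun q σ J => integral_nonneg (FF_nonneg σ J q)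
  obtain ⟨σ0, hσ0⟩ := hq0.1.2
  have hdet0 : (Matrix.det (Matrix.of fun j => q0.1 (σ0 j))) ≠ 0 := by
    have : (Matrix.of fun j => q0.1 (σ0 j)) = (1 : Matrix (Fin n) (Fin n) ℝ) := by
      ext i j
      rw [Matrix.of_apply, hσ0, Matrix.one_apply, Pi.single_apply]
      simp [eq_comm]
    rw [this, Matrix.det_one]
    exact one_ne_zero
  have hZ : (fun q : (Fin N → Fin n → ℝ) × ℝ => ZZ q.1 q.2) = fun q => GG q.1 σ0 ∅ q.2 := by
    funext q
    unfold ZZ GG wt
    simp
  have hZlsc : LowerSemicontinuousWithinAt (fun q : (Fin N → Fin n → ℝ) × ℝ => ZZ q.1 q.2) S q0 := by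
    rw [hZ]
    exact GG_lsc σ0 ∅ p1 hp1 S hS q0 hq0 hdet0
  have hZ0 : ∀ q : (Fin N → Fin n → ℝ) × ℝ, 0 ≤ ZZ q.1 q.2 := fun q =>
    integral_nonneg fun x => (Real.exp_pos _).le
  have hterm : ∀ σ : Fin n → Fin N, LowerSemicontinuousWithinAt
      (fun q : (Fin N → Fin n → ℝ) × ℝ =>
        (Matrix.det (Matrix.of fun j => q.1 (σ j))) ^ 2 * GG q.1 σ Finset.univ q.2) S q0 := by
    intro σ
    by_cases hσ : (Matrix.det (Matrix.of fun j => q0.1 (σ j))) = 0
    · intro y hy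
      simp only [hσ] at hy
      have hy0 : y < 0 := by simpa using hy
      exact Eventually.of_forall fun q => lt_of_lt_of_le hy0 (mul_nonneg (sq_nonneg _) (hGG0 q σ _))
    · refine lsc_mul ?_ (GG_lsc σ Finset.univ p1 hp1 S hS q0 hq0 hσ)
        (Eventually.of_forall fun q => sq_nonneg _) (Eventually.of_forall fun q => hGG0 q σ _)
        (sq_nonneg _) (hGG0 q0 σ _)
      have hc : Continuous fun q : (Fin N → Fin n → ℝ) × ℝ =>
          (Matrix.det (Matrix.of fun j => q.1 (σ j))) ^ 2 := by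
        refine Continuous.pow (Continuous.matrix_det ?_) 2
        refine continuous_matrix fun i j => ?_
        simp only [Matrix.of_apply]
        fun_prop
      exact hc.continuousWithinAt.lowerSemicontinuousWithinAt
  have hsum : LowerSemicontinuousWithinAt (fun q : (Fin N → Fin n → ℝ) × ℝ =>
      ∑ σ : Fin n → Fin N, (Matrix.det (Matrix.of fun j => q.1 (σ j))) ^ 2 *
        GG q.1 σ Finset.univ q.2) S q0 :=
    lowerSemicontinuousWithinAt_sum fun σ _ => hterm σ
  have hsum0 : ∀ q : (Fin N → Fin n → ℝ) × ℝ, 0 ≤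
      ∑ σ : Fin n → Fin N, (Matrix.det (Matrix.of fun j => q.1 (σ j))) ^ 2 *
        GG q.1 σ Finset.univ q.2 := fun q =>
    Finset.sum_nonneg fun σ _ => mul_nonneg (sq_nonneg _) (hGG0 q σ _)
  have hf : (0 : ℝ) ≤ ((n.factorial : ℝ))⁻¹ := by positivity
  have hV : LowerSemicontinuousWithinAt (fun q : (Fin N → Fin n → ℝ) × ℝ => VV q.1 q.2) S q0 := by
    have h1 : (fun q : (Fin N → Fin n → ℝ) × ℝ => VV q.1 q.2) = fun q =>
        (∑ σ : Fin n → Fin N, (Matrix.det (Matrix.of fun j => q.1 (σ j))) ^ 2 *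
        GG q.1 σ Finset.univ q.2) * ((n.factorial : ℝ))⁻¹ := by
      funext q
      unfold VV
      rw [div_eq_mul_inv]
    rw [h1]
    refine lsc_mul hsum ?_ (Eventually.of_forall hsum0) (Eventually.of_forall fun _ => hf)
      (hsum0 q0) hf
    exact continuous_const.continuousWithinAt.lowerSemicontinuousWithinAt
  have hV0 : ∀ q : (Fin N → Fin n → ℝ) × ℝ, 0 ≤ VV q.1 q.2 := fun q =>
    div_nonneg (hsum0 q) (by positivity)
  exact lsc_mul hZlsc hV (Eventually.of_forall hZ0) (Eventually.of_forall hV0) (hZ0 q0) (hV0 q0)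

end S_ZV_lsc

theorem ZV_lsc : type_of% @S_ZV_lsc.ZV_lsc := @S_ZV_lsc.ZV_lsc
end

section
namespace S_vol_ball

/-- I1 -/
theorem vol_ball {n N : ℕ} (hn : 0 < n) (v : Fin N → Fin n → ℝ) (hv : Spans v) (p : ℝ) (hp : 1 < p) :
    volume {x : Fin n → ℝ | NN v p x ≤ 1} = ENNReal.ofReal (ZZ v p / Real.Gamma (n / p + 1)) := by
  have hp0 : 0 < p := by linarith
  have hpne : p ≠ 0 := hp0.ne'
  have hNN0 : ∀ x : Fin n → ℝ, 0 ≤ NN v p x := fun x =>
    Finset.sum_nonneg fun j _ => Real.rpow_nonneg (abs_nonneg _) _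
  let g : (Fin n → ℝ) → ℝ := fun x => (NN v p x) ^ (1 / p)
  have hg0 : ∀ x, 0 ≤ g x := fun x => Real.rpow_nonneg (hNN0 x) _
  have hgp : ∀ x, (g x) ^ p = NN v p x := fun x => by
    simp only [g]
    rw [← Real.rpow_mul (hNN0 x), one_div_mul_cancel hpne, Real.rpow_one]
  have g1 : g 0 = 0 := by
    have : NN v p 0 = 0 := by simp [NN, Real.zero_rpow hpne]
    simp only [g, this]
    exact Real.zero_rpow (by positivity)
  have g2 : ∀ x, g (-x) = g x := fun x => by simp [g, NN]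
  have g3 : ∀ x y, g (x + y) ≤ g x + g y := fun x y => by
    have h1 := Real.Lp_add_le (Finset.univ) (fun j => v j ⬝ᵥ x) (fun j => v j ⬝ᵥ y) hp.le
    have h2 : NN v p (x + y) = ∑ j, |v j ⬝ᵥ x + v j ⬝ᵥ y| ^ p := by
      simp only [NN, dotProduct_add]
    simp only [g, h2]
    exact h1
  have g4 : ∀ {x}, g x = 0 → x = 0 := by
    intro x hx
    have h1 : NN v p x = 0 := by rw [← hgp, hx]; exact Real.zero_rpow hpne
    apply hv
    intro j
    have h2 := (Finset.sum_eq_zero_iff_of_nonneg (fun j _ => Real.rpow_nonneg (abs_nonneg (v j ⬝ᵥ x)) p)).1 h1 j (Finset.mem_univ j)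
    have h3 := (Real.rpow_eq_zero (abs_nonneg _) hpne).1 h2
    exact abs_eq_zero.1 h3
  have g5 : ∀ (r : ℝ) (x : Fin n → ℝ), g (r • x) ≤ |r| * g x := by
    intro r x
    have h1 : NN v p (r • x) = |r| ^ p * NN v p x := by
      simp only [NN, dotProduct_smul, smul_eq_mul, abs_mul]
      rw [Finset.mul_sum]
      exact Finset.sum_congr rfl fun j _ => Real.mul_rpow (abs_nonneg _) (abs_nonneg _)
    simp only [g, h1]
    rw [Real.mul_rpow (Real.rpow_nonneg (abs_nonneg _) _) (hNN0 x), ← Real.rpow_mul (abs_nonneg _),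
      mul_one_div_cancel hpne, Real.rpow_one]
  haveI : Nonempty (Fin n) := ⟨⟨0, hn⟩⟩
  have hset : {x : Fin n → ℝ | NN v p x ≤ 1} = {x | g x ≤ 1} := by
    ext x
    simp only [Set.mem_setOf_eq]
    constructor
    · intro h; exact Real.rpow_le_one (hNN0 x) h (by positivity)
    · intro h
      rw [← hgp]; exact Real.rpow_le_one (hg0 x) h hp0.le
  rw [hset, MeasureTheory.measure_le_eq_lt volume g1 g2 g3 g4 g5,
    MeasureTheory.measure_lt_one_eq_integral_div_gamma volume g1 g2 g3 g4 g5 hp0]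
  simp only [hgp, Module.finrank_fin_fun, ZZ]

end S_vol_ball

theorem vol_ball : type_of% @S_vol_ball.vol_ball := @S_vol_ball.vol_ball
end

section
namespace S_layer_hom

/-- homogeneous layer cake -/
theorem layer_hom {n N : ℕ} (v : Fin N → Fin n → ℝ) (hv : Spans v) (p : ℝ) (hp : 1 < p)
    (g : (Fin n → ℝ) → ℝ) (hg : Measurable g) (hg0 : ∀ x, 0 ≤ g x) (r : ℝ) (hr : -(n : ℝ) < r)
    (hhom : ∀ (s : ℝ) (x : Fin n → ℝ), 0 < s → g (s • x) = s ^ r * g x)
    (hint : Integrable (fun x => g x * Real.exp (-NN v p x))) :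
    ∫⁻ x in {x : Fin n → ℝ | NN v p x ≤ 1}, ENNReal.ofReal (g x) =
      ENNReal.ofReal ((∫ x, g x * Real.exp (-NN v p x)) / Real.Gamma ((n + r) / p + 1)) := by
  have hp0 : 0 < p := by linarith
  have hpne : p ≠ 0 := hp0.ne'
  have hNN0 : ∀ x : Fin n → ℝ, 0 ≤ NN v p x := fun x =>
    Finset.sum_nonneg fun j _ => Real.rpow_nonneg (abs_nonneg _) _
  have hNNm : Measurable (NN v p) := by
    unfold NN
    refine Finset.measurable_sum _ fun j _ => ?_
    have h1 : Measurable fun x : Fin n → ℝ => v j ⬝ᵥ x := by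
      unfold dotProduct
      exact Finset.measurable_sum _ fun i _ => (measurable_pi_apply i).const_mul _
    exact (h1.norm).pow_const p
  set a : ℝ := (n + r) / p with ha
  have ha0 : 0 < a := by rw [ha]; apply div_pos _ hp0; linarith
  set J : ENNReal := ∫⁻ x in {x : Fin n → ℝ | NN v p x ≤ 1}, ENNReal.ofReal (g x) with hJ
  have hset : ∀ s : ℝ, MeasurableSet {x : Fin n → ℝ | NN v p x ≤ s} := fun s =>
    measurableSet_le hNNm measurable_const
  have hscale : ∀ s : ℝ, 0 < s → ∫⁻ x in {x : Fin n → ℝ | NN v p x ≤ s}, ENNReal.ofReal (g x) =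
      ENNReal.ofReal (s ^ a) * J := by
    intro s hs
    set c : ℝ := s ^ (1 / p) with hc
    have hc0 : 0 < c := Real.rpow_pos_of_pos hs _
    have hcp : c ^ p = s := by
      rw [hc, ← Real.rpow_mul hs.le, one_div_mul_cancel hpne, Real.rpow_one]
    have hNNc : ∀ y : Fin n → ℝ, NN v p (c • y) = s * NN v p y := by
      intro y
      simp only [NN, dotProduct_smul, smul_eq_mul, abs_mul]
      rw [Finset.mul_sum]
      refine Finset.sum_congr rfl fun j _ => ?_
      rw [Real.mul_rpow (abs_nonneg _) (abs_nonneg _), abs_of_pos hc0, hcp]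
    have hmap := Measure.map_addHaar_smul (volume : Measure (Fin n → ℝ)) hc0.ne'
    have hmeasF : Measurable (Set.indicator {x : Fin n → ℝ | NN v p x ≤ s} fun x => ENNReal.ofReal (g x)) :=
      (hg.ennreal_ofReal).indicator (hset s)
    have h1 : ∫⁻ y, (Set.indicator {x : Fin n → ℝ | NN v p x ≤ s} fun x => ENNReal.ofReal (g x)) (c • y) =
        ENNReal.ofReal |(c ^ n)⁻¹| * ∫⁻ x in {x : Fin n → ℝ | NN v p x ≤ s}, ENNReal.ofReal (g x) := by
      rw [← lintegral_map hmeasF (measurable_const_smul c), hmap, lintegral_smul_measure,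
        lintegral_indicator (hset s), Module.finrank_fin_fun]
      rfl
    have h2 : ∫⁻ y, (Set.indicator {x : Fin n → ℝ | NN v p x ≤ s} fun x => ENNReal.ofReal (g x)) (c • y) =
        ENNReal.ofReal (c ^ r) * J := by
      rw [hJ, ← lintegral_indicator (hset 1), ← lintegral_const_mul _ ((hg.ennreal_ofReal).indicator (hset 1))]
      refine lintegral_congr fun y => ?_
      by_cases hy : NN v p y ≤ 1
      · have hy2 : NN v p (c • y) ≤ s := by rw [hNNc]; nlinarith
        rw [Set.indicator_of_mem (show c • y ∈ {x : Fin n → ℝ | NN v p x ≤ s} from hy2),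
          Set.indicator_of_mem (show y ∈ {x : Fin n → ℝ | NN v p x ≤ 1} from hy), hhom c y hc0,
          ENNReal.ofReal_mul (Real.rpow_nonneg hc0.le _)]
      · have hy2 : ¬ NN v p (c • y) ≤ s := by rw [hNNc]; push Not at hy ⊢; nlinarith
        rw [Set.indicator_of_notMem (show c • y ∉ {x : Fin n → ℝ | NN v p x ≤ s} from hy2),
          Set.indicator_of_notMem (show y ∉ {x : Fin n → ℝ | NN v p x ≤ 1} from hy), mul_zero]
    have h3 := h1.symm.trans h2
    have hcn : 0 < c ^ n := pow_pos hc0 n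
    have h4 : ENNReal.ofReal (c ^ n) * (ENNReal.ofReal |(c ^ n)⁻¹| * ∫⁻ x in {x : Fin n → ℝ | NN v p x ≤ s}, ENNReal.ofReal (g x))
        = ENNReal.ofReal (c ^ n) * (ENNReal.ofReal (c ^ r) * J) := by rw [h3]
    rw [← mul_assoc, ← mul_assoc, ← ENNReal.ofReal_mul hcn.le, ← ENNReal.ofReal_mul hcn.le,
      abs_of_pos (inv_pos.2 hcn), mul_inv_cancel₀ hcn.ne', ENNReal.ofReal_one, one_mul] at h4
    rw [h4]
    congr 2
    rw [← Real.rpow_natCast, ← Real.rpow_add hc0, hc, ← Real.rpow_mul hs.le, ha]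
    congr 1
    field_simp
  have hexp : ∀ b : ℝ, 0 ≤ b → ∫⁻ s in Ioi (0:ℝ), (Set.indicator (Ici b) (fun s => ENNReal.ofReal (Real.exp (-s)))) s =
      ENNReal.ofReal (Real.exp (-b)) := by
    intro b hb
    rw [setLIntegral_indicator measurableSet_Ici]
    have h1 : (Ici b ∩ Ioi (0:ℝ) : Set ℝ) =ᵐ[volume] Ioi b := by
      have h2 : (Ici b : Set ℝ) =ᵐ[volume] Ioi b := Ioi_ae_eq_Ici.symm
      have h3 : Ioi b ∩ Ioi (0:ℝ) = Ioi b := Set.inter_eq_left.2 (Ioi_subset_Ioi hb)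
      have h4 : (Ici b ∩ Ioi (0:ℝ) : Set ℝ) =ᵐ[volume] (Ioi b ∩ Ioi (0:ℝ) : Set ℝ) := h2.inter (ae_eq_refl _)
      rw [h3] at h4
      exact h4
    rw [setLIntegral_congr h1, ← ofReal_integral_eq_lintegral_ofReal (integrableOn_exp_neg_Ioi b)
      (Eventually.of_forall fun _ => (Real.exp_pos _).le), integral_exp_neg_Ioi]
  have hT : ∫⁻ x, ENNReal.ofReal (g x * Real.exp (-NN v p x)) =
      ∫⁻ s in Ioi (0:ℝ), ENNReal.ofReal (Real.exp (-s)) * ∫⁻ x in {x : Fin n → ℝ | NN v p x ≤ s}, ENNReal.ofReal (g x) := by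
    have h1 : ∀ x, ENNReal.ofReal (g x * Real.exp (-NN v p x)) =
        ∫⁻ s in Ioi (0:ℝ), ENNReal.ofReal (g x) * (Set.indicator {q : (Fin n → ℝ) × ℝ | NN v p q.1 ≤ q.2} (fun q => ENNReal.ofReal (Real.exp (-q.2)))) (x, s) := by
      intro x
      rw [lintegral_const_mul' _ _ ENNReal.ofReal_ne_top, ENNReal.ofReal_mul (hg0 x), ← hexp _ (hNN0 x)]
      rfl
    simp_rw [h1]
    have hms : MeasurableSet {q : (Fin n → ℝ) × ℝ | NN v p q.1 ≤ q.2} :=
      measurableSet_le (hNNm.comp measurable_fst) measurable_snd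
    have hme : Measurable (Set.indicator {q : (Fin n → ℝ) × ℝ | NN v p q.1 ≤ q.2} (fun q => ENNReal.ofReal (Real.exp (-q.2)))) :=
      Measurable.indicator (by fun_prop) hms
    rw [lintegral_lintegral_swap]
    · refine lintegral_congr fun s => ?_
      rw [← lintegral_indicator (hset s), ← lintegral_const_mul' _ _ ENNReal.ofReal_ne_top]
      refine lintegral_congr fun x => ?_
      by_cases hx : NN v p x ≤ s
      · rw [Set.indicator_of_mem (show (x, s) ∈ {q : (Fin n → ℝ) × ℝ | NN v p q.1 ≤ q.2} from hx),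
          Set.indicator_of_mem (show x ∈ {x : Fin n → ℝ | NN v p x ≤ s} from hx), mul_comm]
      · rw [Set.indicator_of_notMem (show (x, s) ∉ {q : (Fin n → ℝ) × ℝ | NN v p q.1 ≤ q.2} from hx),
          Set.indicator_of_notMem (show x ∉ {x : Fin n → ℝ | NN v p x ≤ s} from hx), mul_zero, mul_zero]
    · exact ((hg.ennreal_ofReal.comp measurable_fst).mul hme).aemeasurable
  have hG : ∫⁻ s in Ioi (0:ℝ), ENNReal.ofReal (Real.exp (-s)) * ∫⁻ x in {x : Fin n → ℝ | NN v p x ≤ s}, ENNReal.ofReal (g x) =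
      ENNReal.ofReal (Real.Gamma (a + 1)) * J := by
    have h1 : ∫⁻ s in Ioi (0:ℝ), ENNReal.ofReal (Real.exp (-s)) * ∫⁻ x in {x : Fin n → ℝ | NN v p x ≤ s}, ENNReal.ofReal (g x) =
        ∫⁻ s in Ioi (0:ℝ), ENNReal.ofReal (Real.exp (-s) * s ^ (a + 1 - 1)) * J := by
      refine setLIntegral_congr_fun measurableSet_Ioi fun s hs => ?_
      show ENNReal.ofReal (Real.exp (-s)) * ∫⁻ x in {x : Fin n → ℝ | NN v p x ≤ s}, ENNReal.ofReal (g x) = _
      rw [hscale s hs, ← mul_assoc, ENNReal.ofReal_mul (Real.exp_pos _).le, add_sub_cancel_right]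
    rw [h1, lintegral_mul_const _ (by fun_prop), ← ofReal_integral_eq_lintegral_ofReal (Real.GammaIntegral_convergent (by linarith)),
      Real.Gamma_eq_integral (by linarith)]
    exact (ae_restrict_iff' measurableSet_Ioi).2 (Eventually.of_forall fun s hs =>
      mul_nonneg (Real.exp_pos _).le (Real.rpow_nonneg (le_of_lt hs) _))
  have hfin : ENNReal.ofReal (∫ x, g x * Real.exp (-NN v p x)) = ENNReal.ofReal (Real.Gamma (a + 1)) * J := by
    rw [ofReal_integral_eq_lintegral_ofReal hint (Eventually.of_forall fun x => mul_nonneg (hg0 x) (Real.exp_pos _).le),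
      hT, hG]
  have hGpos : 0 < Real.Gamma (a + 1) := Real.Gamma_pos_of_pos (by linarith)
  rw [ENNReal.ofReal_div_of_pos hGpos, hfin, mul_comm, ENNReal.mul_div_cancel_right]
  · exact (ENNReal.ofReal_pos.2 hGpos).ne'
  · exact ENNReal.ofReal_ne_top

end S_layer_hom

theorem layer_hom : type_of% @S_layer_hom.layer_hom := @S_layer_hom.layer_hom
end

section
namespace S_vol_polar_ge

/-- gradient of `|z|^p/p` -/
def vpg_f (p z : ℝ) : ℝ := z * |z| ^ (p - 2)

theorem vpg_f_nonneg_eq (p : ℝ) (hp : 1 < p) {z : ℝ} (hz : 0 ≤ z) : vpg_f p z = z ^ (p - 1) := by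
  unfold vpg_f
  rcases hz.eq_or_lt with h | h
  · rw [← h, zero_mul, Real.zero_rpow (by linarith)]
  · rw [abs_of_pos h]
    nth_rewrite 1 [← Real.rpow_one z]
    rw [← Real.rpow_add h]
    congr 1; ring

theorem vpg_f_odd (p z : ℝ) : vpg_f p (-z) = -vpg_f p z := by
  unfold vpg_f
  rw [abs_neg, neg_mul]

theorem vpg_f_mono (p : ℝ) (hp : 1 < p) : StrictMono (vpg_f p) := by
  apply strictMono_of_odd_strictMonoOn_nonneg (vpg_f_odd p)
  intro x hx y hy hxy
  rw [vpg_f_nonneg_eq p hp hx, vpg_f_nonneg_eq p hp hy]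
  exact Real.rpow_lt_rpow hx hxy (by linarith)

theorem vpg_f_abs (p : ℝ) (hp : 1 < p) (z : ℝ) : |vpg_f p z| = |z| ^ (p - 1) := by
  rcases le_total 0 z with h | h
  · rw [vpg_f_nonneg_eq p hp h, abs_of_nonneg h, abs_of_nonneg (Real.rpow_nonneg h _)]
  · have h1 := vpg_f_odd p z
    have h2 : 0 ≤ -z := by linarith
    rw [vpg_f_nonneg_eq p hp h2] at h1
    have h3 : vpg_f p z = -((-z) ^ (p - 1)) := by linarith
    rw [h3, abs_neg, abs_of_nonneg (Real.rpow_nonneg h2 _), abs_of_nonpos h]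

theorem vpg_f_deriv (p : ℝ) (hp : 1 < p) {z : ℝ} (hz : z ≠ 0) :
    HasDerivAt (vpg_f p) ((p - 1) * |z| ^ (p - 2)) z := by
  rcases lt_or_gt_of_ne hz with h | h
  · have h1 : HasDerivAt (fun x : ℝ => -((-x) ^ (p - 1))) ((p - 1) * |z| ^ (p - 2)) z := by
      have h2 : HasDerivAt (fun x : ℝ => -x) (-1) z := hasDerivAt_neg z
      have h3 := (h2.rpow_const (p := p - 1) (Or.inl (by linarith))).fun_neg
      refine h3.congr_deriv ?_
      rw [abs_of_neg h]
      have : p - 1 - 1 = p - 2 := by ring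
      rw [this]; ring
    apply h1.congr_of_eventuallyEq
    filter_upwards [Iio_mem_nhds h] with x hx
    have hx' : 0 ≤ -x := by
      have : x < 0 := hx
      linarith
    have h4 := vpg_f_odd p x
    rw [vpg_f_nonneg_eq p hp hx'] at h4
    linarith
  · have h1 : HasDerivAt (fun x : ℝ => x ^ (p - 1)) ((p - 1) * |z| ^ (p - 2)) z := by
      have h3 := Real.hasDerivAt_rpow_const (x := z) (p := p - 1) (Or.inl hz)
      refine h3.congr_deriv ?_
      rw [abs_of_pos h]
      have : p - 1 - 1 = p - 2 := by ring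
      rw [this]
    apply h1.congr_of_eventuallyEq
    filter_upwards [Ioi_mem_nhds h] with x hx
    exact vpg_f_nonneg_eq p hp (le_of_lt hx)

/-- dot product as a continuous linear map -/
def vpg_dot {n : ℕ} (v : Fin n → ℝ) : (Fin n → ℝ) →L[ℝ] ℝ :=
  ∑ i, v i • ContinuousLinearMap.proj (R := ℝ) (φ := fun _ : Fin n => ℝ) i

theorem vpg_dot_apply {n : ℕ} (v x : Fin n → ℝ) : vpg_dot v x = v ⬝ᵥ x := by
  unfold vpg_dot
  rw [ContinuousLinearMap.sum_apply]
  rfl

/-- the gradient map -/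
def vpg_G {n N : ℕ} (v : Fin N → Fin n → ℝ) (p : ℝ) (x : Fin n → ℝ) : Fin n → ℝ :=
  ∑ j, vpg_f p (v j ⬝ᵥ x) • v j

/-- derivative of the gradient map -/
def vpg_D {n N : ℕ} (v : Fin N → Fin n → ℝ) (p : ℝ) (x : Fin n → ℝ) :
    (Fin n → ℝ) →L[ℝ] (Fin n → ℝ) :=
  ∑ j, ((p - 1) * |v j ⬝ᵥ x| ^ (p - 2)) • (vpg_dot (v j)).smulRight (v j)

theorem vpg_G_inner {n N : ℕ} (v : Fin N → Fin n → ℝ) (p : ℝ) (x y : Fin n → ℝ) :
    ∑ i, y i * vpg_G v p x i = ∑ j, (v j ⬝ᵥ y) * vpg_f p (v j ⬝ᵥ x) := by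
  unfold vpg_G
  simp only [Finset.sum_apply, Pi.smul_apply, smul_eq_mul, Finset.mul_sum]
  rw [Finset.sum_comm]
  apply Finset.sum_congr rfl
  intro j _
  have e1 : v j ⬝ᵥ y = ∑ i, v j i * y i := rfl
  rw [e1, Finset.sum_mul]
  apply Finset.sum_congr rfl
  intro i _
  ring

theorem vpg_G_deriv {n N : ℕ} (v : Fin N → Fin n → ℝ) (p : ℝ) (hp : 1 < p) (x : Fin n → ℝ)
    (hx : ∀ j, v j ≠ 0 → v j ⬝ᵥ x ≠ 0) : HasFDerivAt (vpg_G v p) (vpg_D v p x) x := by
  unfold vpg_G vpg_D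
  apply HasFDerivAt.fun_sum
  intro j _
  by_cases hv : v j = 0
  · have h1 : ((p - 1) * |v j ⬝ᵥ x| ^ (p - 2)) • (vpg_dot (v j)).smulRight (v j) = 0 := by
      ext h i
      rw [hv]
      simp
    rw [h1]
    have h2 : (fun y : Fin n → ℝ => vpg_f p (v j ⬝ᵥ y) • v j) = fun _ => 0 := by
      funext y
      rw [hv, smul_zero]
    rw [h2]
    exact hasFDerivAt_const _ _
  · have h1 : HasFDerivAt (fun y : Fin n → ℝ => v j ⬝ᵥ y) (vpg_dot (v j)) x := by
      have h2 : (fun y : Fin n → ℝ => v j ⬝ᵥ y) = vpg_dot (v j) := by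
        funext y; rw [vpg_dot_apply]
      rw [h2]
      exact (vpg_dot (v j)).hasFDerivAt
    have h3 := (vpg_f_deriv p hp (hx j hv)).comp_hasFDerivAt x h1
    have h4 := h3.smul_const (v j)
    have h5 : ((p - 1) * |v j ⬝ᵥ x| ^ (p - 2)) • (vpg_dot (v j)).smulRight (v j) =
        (((p - 1) * |v j ⬝ᵥ x| ^ (p - 2)) • vpg_dot (v j)).smulRight (v j) := by
      apply ContinuousLinearMap.ext
      intro h
      funext i
      simp [mul_assoc]
    rw [h5]
    exact h4

theorem vpg_D_det {n N : ℕ} (v : Fin N → Fin n → ℝ) (p : ℝ) (x : Fin n → ℝ) :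
    (vpg_D v p x).det = ∑ σ : Fin n → Fin N,
      ((p - 1) ^ n / (n.factorial : ℝ) * (Matrix.det (Matrix.of fun j => v (σ j))) ^ 2) *
        wt v σ Finset.univ p x := by
  have h1 : ((vpg_D v p x : (Fin n → ℝ) →L[ℝ] (Fin n → ℝ)) : (Fin n → ℝ) →ₗ[ℝ] (Fin n → ℝ)) =
      Matrix.toLin' (∑ j, ((p - 1) * |v j ⬝ᵥ x| ^ (p - 2)) • Matrix.vecMulVec (v j) (v j)) := by
    apply LinearMap.ext
    intro h
    funext i
    rw [Matrix.toLin'_apply]
    have h2 : (vpg_D v p x) h i =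
        ∑ j, ((p - 1) * |v j ⬝ᵥ x| ^ (p - 2)) * ((v j ⬝ᵥ h) * v j i) := by
      unfold vpg_D
      rw [ContinuousLinearMap.sum_apply, Finset.sum_apply]
      apply Finset.sum_congr rfl
      intro j _
      rw [ContinuousLinearMap.smul_apply, ContinuousLinearMap.smulRight_apply, vpg_dot_apply]
      rfl
    have h3 : ((∑ j, ((p - 1) * |v j ⬝ᵥ x| ^ (p - 2)) •
        Matrix.vecMulVec (v j) (v j)) *ᵥ h) i =
        ∑ j, ((p - 1) * |v j ⬝ᵥ x| ^ (p - 2)) * ((v j ⬝ᵥ h) * v j i) := by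
      rw [Matrix.sum_mulVec, Finset.sum_apply]
      apply Finset.sum_congr rfl
      intro j _
      rw [Matrix.smul_mulVec, Pi.smul_apply, smul_eq_mul]
      congr 1
      simp only [Matrix.mulVec, dotProduct, Matrix.vecMulVec_apply]
      rw [Finset.sum_mul]
      apply Finset.sum_congr rfl
      intro k _
      ring
    rw [h3]
    exact h2
  rw [ContinuousLinearMap.det, h1, LinearMap.det_toLin', cauchy_binet, Finset.sum_div]
  apply Finset.sum_congr rfl
  intro σ _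
  rw [Finset.prod_mul_distrib, Finset.prod_const, Finset.card_univ, Fintype.card_fin]
  unfold wt
  ring

theorem vpg_polar {n N : ℕ} (v : Fin N → Fin n → ℝ) (p : ℝ) (hp : 1 < p) (x : Fin n → ℝ)
    (hx : NN v p x ≤ 1) (y : Fin n → ℝ) (hy : NN v p y ≤ 1) :
    ∑ i, y i * vpg_G v p x i ≤ 1 := by
  rw [vpg_G_inner]
  have hpq : p.HolderConjugate (p / (p - 1)) := Real.HolderConjugate.conjExponent hp
  refine (Real.inner_le_Lp_mul_Lq Finset.univ (fun j => v j ⬝ᵥ y)
    (fun j => vpg_f p (v j ⬝ᵥ x)) hpq).trans ?_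
  have h1 : ∑ j, |vpg_f p (v j ⬝ᵥ x)| ^ (p / (p - 1)) = NN v p x := by
    unfold NN
    apply Finset.sum_congr rfl
    intro j _
    rw [vpg_f_abs p hp, ← Real.rpow_mul (abs_nonneg _)]
    congr 1
    have : p - 1 ≠ 0 := by linarith
    field_simp
  have hnn : ∀ z, 0 ≤ NN v p z := fun z =>
    Finset.sum_nonneg fun j _ => Real.rpow_nonneg (abs_nonneg _) _
  have h2 : ∑ j, |v j ⬝ᵥ y| ^ p = NN v p y := rfl
  rw [h1, h2]
  have h3 : NN v p y ^ (1 / p) ≤ 1 := Real.rpow_le_one (hnn y) hy (by positivity)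
  have h4 : NN v p x ^ (1 / (p / (p - 1))) ≤ 1 := by
    apply Real.rpow_le_one (hnn x) hx
    have : 0 < p - 1 := by linarith
    positivity
  exact mul_le_one₀ h3 (Real.rpow_nonneg (hnn x) _) h4

theorem vpg_inj {n N : ℕ} (v : Fin N → Fin n → ℝ) (hv : Spans v) (p : ℝ) (hp : 1 < p) :
    Function.Injective (vpg_G v p) := by
  intro x y hxy
  have h1 : ∑ i, (x - y) i * (vpg_G v p x i - vpg_G v p y i) = 0 := by
    rw [hxy]; simp
  have h2 : ∑ i, (x - y) i * (vpg_G v p x i - vpg_G v p y i) =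
      ∑ j, (v j ⬝ᵥ x - v j ⬝ᵥ y) * (vpg_f p (v j ⬝ᵥ x) - vpg_f p (v j ⬝ᵥ y)) := by
    have h3 := vpg_G_inner v p x (x - y)
    have h4 := vpg_G_inner v p y (x - y)
    simp only [mul_sub, Finset.sum_sub_distrib]
    simp only [dotProduct_sub] at h3 h4
    rw [h3, h4]
  rw [h2] at h1
  have hm := vpg_f_mono p hp
  have h5 : ∀ j ∈ Finset.univ, 0 ≤
      (v j ⬝ᵥ x - v j ⬝ᵥ y) * (vpg_f p (v j ⬝ᵥ x) - vpg_f p (v j ⬝ᵥ y)) := by
    intro j _
    rcases le_total (v j ⬝ᵥ x) (v j ⬝ᵥ y) with h | h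
    · have := hm.monotone h
      exact mul_nonneg_of_nonpos_of_nonpos (by linarith) (by linarith)
    · have := hm.monotone h
      exact mul_nonneg (by linarith) (by linarith)
  rw [Finset.sum_eq_zero_iff_of_nonneg h5] at h1
  have h6 : ∀ j, v j ⬝ᵥ (x - y) = 0 := by
    intro j
    rw [dotProduct_sub]
    rcases mul_eq_zero.mp (h1 j (Finset.mem_univ j)) with h | h
    · exact h
    · have : vpg_f p (v j ⬝ᵥ x) = vpg_f p (v j ⬝ᵥ y) := by linarith
      rw [hm.injective this, sub_self]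
  exact sub_eq_zero.mp (hv _ h6)

theorem vpg_null {n : ℕ} (v : Fin n → ℝ) (hv : v ≠ 0) :
    ∀ᵐ x : Fin n → ℝ, v ⬝ᵥ x ≠ 0 := by
  have h1 : volume ((LinearMap.ker (vpg_dot v : (Fin n → ℝ) →ₗ[ℝ] ℝ) :
      Submodule ℝ (Fin n → ℝ)) : Set (Fin n → ℝ)) = 0 := by
    apply Measure.addHaar_submodule
    intro h
    apply hv
    have h2 : v ∈ LinearMap.ker (vpg_dot v : (Fin n → ℝ) →ₗ[ℝ] ℝ) := by
      rw [h]; exact Submodule.mem_top
    have h3 : vpg_dot v v = 0 := h2
    rw [vpg_dot_apply] at h3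
    exact dotProduct_self_eq_zero.mp h3
  rw [ae_iff]
  convert h1 using 2
  ext x
  simp only [ne_eq, not_not, mem_ofPred_eq, SetLike.mem_coe, LinearMap.mem_ker]
  rw [← vpg_dot_apply]
  rfl

theorem vol_polar_ge {n N : ℕ} (hn : 0 < n) (v : Fin N → Fin n → ℝ) (hv : Spans v) (p : ℝ) (hp : 1 < p)
    (hp2 : p < 2) :
    ENNReal.ofReal ((p - 1) ^ n * VV v p / Real.Gamma (n * (p - 1) / p + 1)) ≤
      volume {y : Fin n → ℝ | ∀ x : Fin n → ℝ, NN v p x ≤ 1 → ∑ i, x i * y i ≤ 1} := by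
  have hp1 : 0 < p - 1 := by linarith
  have hnR : (0 : ℝ) < n := by exact_mod_cast hn
  have hmdot : ∀ w : Fin n → ℝ, Measurable fun x : Fin n → ℝ => w ⬝ᵥ x := by
    intro w
    have h2 : (fun y : Fin n → ℝ => w ⬝ᵥ y) = vpg_dot w := by
      funext y; rw [vpg_dot_apply]
    rw [h2]
    exact (vpg_dot w).continuous.measurable
  have hmN : Measurable (NN v p) := by
    unfold NN
    apply Finset.measurable_fun_sum
    intro j _
    exact ((hmdot (v j)).abs).pow_const p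
  have hmw : ∀ σ : Fin n → Fin N, Measurable (wt v σ Finset.univ p) := by
    intro σ
    unfold wt
    apply Finset.measurable_fun_prod
    intro j _
    exact ((hmdot _).abs).pow_const _
  have hwnn : ∀ (σ : Fin n → Fin N) (x : Fin n → ℝ), 0 ≤ wt v σ Finset.univ p x := by
    intro σ x
    exact Finset.prod_nonneg fun j _ => Real.rpow_nonneg (abs_nonneg _) _
  have hGnn : ∀ σ : Fin n → Fin N, 0 ≤ GG v σ Finset.univ p := by
    intro σ
    exact integral_nonneg fun x => mul_nonneg (hwnn σ x) (Real.exp_pos _).le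
  have hΓ : 0 < Real.Gamma (n * (p - 1) / p + 1) := by
    apply Real.Gamma_pos_of_pos
    positivity
  -- the good set
  obtain ⟨B', hB'⟩ : ∃ B' : Set (Fin n → ℝ),
      B' = {x | NN v p x ≤ 1 ∧ ∀ j, v j ≠ 0 → v j ⬝ᵥ x ≠ 0} := ⟨_, rfl⟩
  have hBm : MeasurableSet {x : Fin n → ℝ | NN v p x ≤ 1} := measurableSet_le hmN measurable_const
  have hB'm : MeasurableSet B' := by
    have h1 : B' = {x : Fin n → ℝ | NN v p x ≤ 1} ∩
        ⋂ j, {x : Fin n → ℝ | v j ≠ 0 → v j ⬝ᵥ x ≠ 0} := by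
      rw [hB']
      ext x
      simp only [mem_ofPred_eq, mem_inter_iff, mem_iInter]
    rw [h1]
    apply hBm.inter
    apply MeasurableSet.iInter
    intro j
    by_cases hj : v j = 0
    · have : {x : Fin n → ℝ | v j ≠ 0 → v j ⬝ᵥ x ≠ 0} = univ := by
        ext x; simp [hj]
      rw [this]; exact MeasurableSet.univ
    · have : {x : Fin n → ℝ | v j ≠ 0 → v j ⬝ᵥ x ≠ 0} = {x | v j ⬝ᵥ x = 0}ᶜ := by
        ext x; simp [hj]
      rw [this]
      exact (measurableSet_eq_fun (hmdot _) measurable_const).compl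
  have hae : ({x : Fin n → ℝ | NN v p x ≤ 1} : Set (Fin n → ℝ)) =ᵐ[volume] B' := by
    have h1 : ∀ᵐ x : Fin n → ℝ, ∀ j, v j ≠ 0 → v j ⬝ᵥ x ≠ 0 := by
      rw [ae_all_iff]
      intro j
      by_cases hj : v j = 0
      · exact Filter.Eventually.of_forall fun x h => absurd hj h
      · filter_upwards [vpg_null (v j) hj] with x hx _
        exact hx
    filter_upwards [h1] with x hx
    rw [hB']
    apply propext
    exact ⟨fun h => ⟨h, hx⟩, fun h => h.1⟩
  have himg : vpg_G v p '' B' ⊆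
      {y : Fin n → ℝ | ∀ x : Fin n → ℝ, NN v p x ≤ 1 → ∑ i, x i * y i ≤ 1} := by
    rintro _ ⟨x, hx, rfl⟩ y hy
    rw [hB'] at hx
    exact vpg_polar v p hp x hx.1 y hy
  refine le_trans (le_of_eq ?_) (measure_mono himg)
  rw [← lintegral_abs_det_fderiv_eq_addHaar_image volume hB'm (f' := vpg_D v p)
    (fun x hx => by
      rw [hB'] at hx
      exact (vpg_G_deriv v p hp x hx.2).hasFDerivWithinAt)
    (vpg_inj v hv p hp).injOn, ← setLIntegral_congr hae]
  have hann : ∀ σ : Fin n → Fin N, 0 ≤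
      (p - 1) ^ n / (n.factorial : ℝ) * (Matrix.det (Matrix.of fun j => v (σ j))) ^ 2 := by
    intro σ
    positivity
  have h1 : ∀ x : Fin n → ℝ, ENNReal.ofReal |(vpg_D v p x).det| =
      ∑ σ : Fin n → Fin N, ENNReal.ofReal ((p - 1) ^ n / (n.factorial : ℝ) *
        (Matrix.det (Matrix.of fun j => v (σ j))) ^ 2) *
        ENNReal.ofReal (wt v σ Finset.univ p x) := by
    intro x
    rw [vpg_D_det, abs_of_nonneg (Finset.sum_nonneg fun σ _ =>
      mul_nonneg (hann σ) (hwnn σ x)), ENNReal.ofReal_sum_of_nonneg (fun σ _ =>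
      mul_nonneg (hann σ) (hwnn σ x))]
    apply Finset.sum_congr rfl
    intro σ _
    rw [ENNReal.ofReal_mul (hann σ)]
  simp only [h1]
  rw [lintegral_finset_sum _ (fun σ _ => ((hmw σ).ennreal_ofReal).const_mul _)]
  have h2 : ∀ σ : Fin n → Fin N,
      ∫⁻ x in {x : Fin n → ℝ | NN v p x ≤ 1}, ENNReal.ofReal ((p - 1) ^ n / (n.factorial : ℝ) *
        (Matrix.det (Matrix.of fun j => v (σ j))) ^ 2) *
        ENNReal.ofReal (wt v σ Finset.univ p x) =
      ENNReal.ofReal ((p - 1) ^ n / (n.factorial : ℝ) *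
        (Matrix.det (Matrix.of fun j => v (σ j))) ^ 2 *
        (GG v σ Finset.univ p / Real.Gamma (n * (p - 1) / p + 1))) := by
    intro σ
    rw [lintegral_const_mul _ (hmw σ).ennreal_ofReal]
    by_cases hdet : (Matrix.det (Matrix.of fun j => v (σ j))) = 0
    · rw [hdet]; simp
    · have hr : -(n : ℝ) < n * (p - 2) := by nlinarith
      have hint : Integrable (fun x => wt v σ Finset.univ p x * Real.exp (-NN v p x)) := by
        have := wt_integrable v σ hdet Finset.univ p hp 0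
        simpa using this
      have h3 := layer_hom v hv p hp (wt v σ Finset.univ p) (hmw σ) (hwnn σ) (n * (p - 2)) hr
        (by
          intro s x hs
          unfold wt
          have h4 : ∀ j : Fin n, |v (σ j) ⬝ᵥ (s • x)| ^ (p - 2) =
              s ^ (p - 2) * |v (σ j) ⬝ᵥ x| ^ (p - 2) := by
            intro j
            rw [dotProduct_smul, smul_eq_mul, abs_mul, abs_of_pos hs,
              Real.mul_rpow hs.le (abs_nonneg _)]
          simp only [h4]
          rw [Finset.prod_mul_distrib, Finset.prod_const, Finset.card_univ, Fintype.card_fin,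
            ← Real.rpow_natCast, ← Real.rpow_mul hs.le]
          congr 2
          ring) hint
      have h5 : ((n : ℝ) + n * (p - 2)) / p + 1 = n * (p - 1) / p + 1 := by ring
      rw [h3, h5, ← ENNReal.ofReal_mul (hann σ)]
      rfl
  rw [Finset.sum_congr rfl (fun σ _ => h2 σ), ← ENNReal.ofReal_sum_of_nonneg (fun σ _ =>
    mul_nonneg (hann σ) (div_nonneg (hGnn σ) hΓ.le))]
  congr 1
  unfold VV
  rw [Finset.sum_div, Finset.mul_sum, Finset.sum_div]
  apply Finset.sum_congr rfl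
  intro σ _
  ring

end S_vol_polar_ge

theorem vol_polar_ge : type_of% @S_vol_polar_ge.vol_polar_ge := @S_vol_polar_ge.vol_polar_ge
end

section
namespace S_lp_product

theorem lp_aux_ball {n : ℕ} (hn : 0 < n) (p : ℝ) (hp : 1 ≤ p) :
    volume {x : Fin n → ℝ | ∑ i, |x i| ^ p ≤ 1} =
      ENNReal.ofReal ((2 * Real.Gamma (1 / p + 1)) ^ n / Real.Gamma (n / p + 1)) := by
  have : Nonempty (Fin n) := ⟨⟨0, hn⟩⟩
  have h := MeasureTheory.volume_sum_rpow_le (Fin n) hp 1
  rw [ENNReal.ofReal_one, one_pow, one_mul, Fintype.card_fin] at h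
  rw [← h]
  congr 1
  ext x
  have hs : 0 ≤ ∑ i, |x i| ^ p := Finset.sum_nonneg fun i _ => Real.rpow_nonneg (abs_nonneg _) _
  have h1 := Real.rpow_le_rpow_iff hs zero_le_one (z := 1 / p) (by positivity)
  rw [Real.one_rpow] at h1
  exact h1.symm

theorem lp_aux_polar {n : ℕ} (p q : ℝ) (hpq : p.HolderConjugate q) (y : Fin n → ℝ) :
    (∀ x : Fin n → ℝ, ∑ i, |x i| ^ p ≤ 1 → ∑ i, x i * y i ≤ 1) ↔ ∑ i, |y i| ^ q ≤ 1 := by
  have hp0 := hpq.pos
  have hq0 := hpq.symm.pos
  have hS : 0 ≤ ∑ i, |y i| ^ q := Finset.sum_nonneg fun i _ => Real.rpow_nonneg (abs_nonneg _) _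
  constructor
  · intro H
    rcases hS.eq_or_lt with h0 | h0
    · rw [← h0]; exact zero_le_one
    set S := ∑ i, |y i| ^ q with hSd
    have hSp : 0 < S ^ (1 / p) := Real.rpow_pos_of_pos h0 _
    have e1 : ∀ i, |SignType.sign (y i) * |y i| ^ (q - 1) / S ^ (1 / p)| ^ p = |y i| ^ q / S := by
      intro i
      by_cases hy : y i = 0
      · rw [hy]
        simp only [sign_zero, SignType.coe_zero, zero_mul, zero_div, abs_zero]
        rw [Real.zero_rpow hp0.ne', Real.zero_rpow hq0.ne', zero_div]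
      · have hs : |((SignType.sign (y i) : SignType) : ℝ)| = 1 := by
          rcases lt_or_gt_of_ne hy with h | h
          · rw [sign_neg h]; simp
          · rw [sign_pos h]; simp
        have hy' : 0 ≤ |y i| := abs_nonneg _
        rw [abs_div, abs_mul, hs, one_mul, abs_of_nonneg (Real.rpow_nonneg hy' _),
          abs_of_pos hSp, Real.div_rpow (Real.rpow_nonneg hy' _) hSp.le, ← Real.rpow_mul hy',
          ← Real.rpow_mul hS]
        have e2 : (q - 1) * p = q := by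
          have := hpq.mul_eq_add
          linarith
        rw [e2, one_div_mul_cancel hp0.ne', Real.rpow_one]
    have h1 := H (fun i => SignType.sign (y i) * |y i| ^ (q - 1) / S ^ (1 / p)) (by
      simp only [e1]
      rw [← Finset.sum_div, ← hSd, div_self h0.ne'])
    have e3 : ∀ i, (SignType.sign (y i) * |y i| ^ (q - 1) / S ^ (1 / p)) * y i =
        |y i| ^ q / S ^ (1 / p) := by
      intro i
      by_cases hy : y i = 0
      · rw [hy]
        simp only [mul_zero, abs_zero]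
        rw [Real.zero_rpow hq0.ne', zero_div]
      · have hy' : 0 < |y i| := abs_pos.2 hy
        have e4 : |y i| ^ q = |y i| ^ (q - 1) * |y i| := by
          rw [← Real.rpow_add_one hy'.ne']; congr 1; ring
        rw [e4, div_mul_eq_mul_div]
        congr 1
        have e5 := sign_mul_self (y i)
        calc (SignType.sign (y i) : ℝ) * |y i| ^ (q - 1) * y i
            = |y i| ^ (q - 1) * ((SignType.sign (y i) : ℝ) * y i) := by ring
          _ = _ := by rw [e5]
    simp only [e3] at h1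
    rw [← Finset.sum_div, ← hSd] at h1
    have e6 : S / S ^ (1 / p) = S ^ (1 / q) := by
      have e7 : (1 : ℝ) / q = 1 - 1 / p := by
        have := hpq.inv_add_inv_eq_one
        rw [one_div, one_div]; linarith
      rw [e7, Real.rpow_sub h0, Real.rpow_one]
    rw [e6] at h1
    have h2 := Real.rpow_le_rpow_iff hS zero_le_one (z := 1 / q) (by positivity)
    rw [Real.one_rpow] at h2
    exact h2.1 h1
  · intro hy x hx
    refine (Real.inner_le_Lp_mul_Lq Finset.univ x y hpq).trans ?_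
    have h1 : (∑ i, |x i| ^ p) ^ (1 / p) ≤ 1 :=
      Real.rpow_le_one (Finset.sum_nonneg fun i _ => Real.rpow_nonneg (abs_nonneg _) _) hx
        (by positivity)
    have h2 : (∑ i, |y i| ^ q) ^ (1 / q) ≤ 1 := Real.rpow_le_one hS hy (by positivity)
    exact mul_le_one₀ h1 (Real.rpow_nonneg hS _) h2

theorem lp_product {n : ℕ} (hn : 0 < n) (p : ℝ) (hp : 1 < p) (hp2 : p < 2) :
    volume {x : Fin n → ℝ | ∑ i, |x i| ^ p ≤ 1} *
    volume {y : Fin n → ℝ | ∀ x : Fin n → ℝ, ∑ i, |x i| ^ p ≤ 1 → ∑ i, x i * y i ≤ 1} =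
      ENNReal.ofReal (((2 * Real.Gamma (1 / p + 1)) * (2 / p * Real.Gamma ((p - 1) / p))) ^ n * (p - 1) ^ n /
        (Real.Gamma (n / p + 1) * Real.Gamma (n * (p - 1) / p + 1))) := by
  have hp0 : 0 < p := by linarith
  have hp1 : 0 < p - 1 := by linarith
  have hpq : p.HolderConjugate (p / (p - 1)) := Real.HolderConjugate.conjExponent hp
  have hset : {y : Fin n → ℝ | ∀ x : Fin n → ℝ, ∑ i, |x i| ^ p ≤ 1 → ∑ i, x i * y i ≤ 1} =
      {y : Fin n → ℝ | ∑ i, |y i| ^ (p / (p - 1)) ≤ 1} := by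
    ext y
    exact lp_aux_polar p _ hpq y
  rw [hset, lp_aux_ball hn p hp.le, lp_aux_ball hn _ (by rw [le_div_iff₀ hp1]; linarith)]
  have hG : 0 < Real.Gamma (1 / p + 1) := Real.Gamma_pos_of_pos (by positivity)
  have hG2 : 0 < Real.Gamma (n / p + 1) := Real.Gamma_pos_of_pos (by positivity)
  rw [← ENNReal.ofReal_mul (by positivity)]
  congr 1
  have e1 : 1 / (p / (p - 1)) = (p - 1) / p := by rw [one_div_div]
  have e2 : (n : ℝ) / (p / (p - 1)) = n * (p - 1) / p := by rw [div_div_eq_mul_div]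
  have e3 : Real.Gamma ((p - 1) / p + 1) = (p - 1) / p * Real.Gamma ((p - 1) / p) :=
    Real.Gamma_add_one (by positivity)
  rw [e1, e2, e3, div_mul_div_comm, ← mul_pow, ← mul_pow]
  congr 2
  ring

end S_lp_product

theorem lp_product : type_of% @S_lp_product.lp_product := @S_lp_product.lp_product
end

section
namespace S_lp_approx

/-- pairing of finitely many simple functions -/
def piSF {n : ℕ} (g : Fin n → SimpleFunc ℝ ℝ) : SimpleFunc ℝ (Fin n → ℝ) where
  toFun u := fun i => g i u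
  measurableSet_fiber' c := by
    have : (fun u => fun i => g i u) ⁻¹' {c} = ⋂ i, (g i) ⁻¹' {c i} := by
      ext u
      simp [funext_iff]
    rw [this]
    exact MeasurableSet.iInter fun i => (g i).measurableSet_fiber (c i)
  finite_range' := by
    refine (Set.Finite.pi' (fun i => (g i).finite_range)).subset ?_
    rintro _ ⟨u, rfl⟩ i
    exact ⟨u, rfl⟩

theorem simple_norm (n : ℕ) (p : ℝ) (hp : 1 < p) (μ : Measure ℝ) [IsFiniteMeasure μ]
    (h : SimpleFunc ℝ (Fin n → ℝ)) :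
    ∃ (N : ℕ) (v : Fin N → Fin n → ℝ), ∀ x : Fin n → ℝ,
      (eLpNorm (fun u => h u ⬝ᵥ x) (ENNReal.ofReal p) μ).toReal = (NN v p x) ^ (1 / p) := by
  have hp0 : 0 < p := by linarith
  have hpne : p ≠ 0 := hp0.ne'
  refine ⟨h.range.card, fun k => ((μ (h ⁻¹' {(h.range.equivFin.symm k : Fin n → ℝ)})).toReal ^ (1 / p)) •
    (h.range.equivFin.symm k : Fin n → ℝ), fun x => ?_⟩
  have hpR : (ENNReal.ofReal p).toReal = p := ENNReal.toReal_ofReal hp0.le
  rw [eLpNorm_eq_lintegral_rpow_enorm_toReal (by simpa using hp0) ENNReal.ofReal_ne_top, hpR,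
    ← ENNReal.toReal_rpow]
  congr 1
  have h1 : ∫⁻ u, ‖h u ⬝ᵥ x‖ₑ ^ p ∂μ = ∑ c ∈ h.range, ‖c ⬝ᵥ x‖ₑ ^ p * μ (h ⁻¹' {c}) := by
    rw [← SimpleFunc.map_lintegral (fun c => ‖c ⬝ᵥ x‖ₑ ^ p) h, ← SimpleFunc.lintegral_eq_lintegral]
    rfl
  rw [h1, ENNReal.toReal_sum (fun c _ => ENNReal.mul_ne_top
    (ENNReal.rpow_ne_top_of_nonneg hp0.le (by simp)) (measure_ne_top μ _))]
  unfold NN
  rw [← Finset.sum_coe_sort h.range, ← h.range.equivFin.symm.sum_comp]
  refine Finset.sum_congr rfl fun k _ => ?_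
  rw [smul_dotProduct, smul_eq_mul, abs_mul, Real.mul_rpow (abs_nonneg _) (abs_nonneg _),
    abs_of_nonneg (Real.rpow_nonneg ENNReal.toReal_nonneg _), ← Real.rpow_mul ENNReal.toReal_nonneg,
    one_div_mul_cancel hpne, Real.rpow_one, ENNReal.toReal_mul, mul_comm]
  congr 1
  rw [← ENNReal.toReal_rpow]
  simp

theorem coeFn_sum_fin {n : ℕ} {q : ENNReal} {μ : Measure ℝ} (F : Fin n → Lp ℝ q μ) :
    (⇑(∑ i, F i) : ℝ → ℝ) =ᵐ[μ] ∑ i, ⇑(F i) := by
  classical
  have key : ∀ s : Finset (Fin n), (⇑(∑ i ∈ s, F i) : ℝ → ℝ) =ᵐ[μ] ∑ i ∈ s, ⇑(F i) := by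
    intro s
    induction s using Finset.induction_on with
    | empty => simpa using Lp.coeFn_zero ℝ q μ
    | insert a s ha ih =>
      rw [Finset.sum_insert ha, Finset.sum_insert ha]
      exact (Lp.coeFn_add _ _).trans ((ae_eq_refl _).add ih)
  exact key Finset.univ

theorem lp_approx_gen (n : ℕ) (p : ℝ) (hp : 1 < p) (μ : Measure ℝ) [IsFiniteMeasure μ]
    (f : Fin n → MeasureTheory.Lp ℝ (ENNReal.ofReal p) μ)
    (ε : ℝ) (hε : 0 < ε) :
    ∃ (N : ℕ) (v : Fin N → Fin n → ℝ), ∀ x : Fin n → ℝ,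
      |‖∑ i, x i • f i‖ - (NN v p x) ^ (1 / p)| ≤ ε * ∑ i, |x i| := by
  have hp0 : 0 < p := by linarith
  have : Fact (1 ≤ ENNReal.ofReal p) := ⟨by rw [← ENNReal.ofReal_one]; exact ENNReal.ofReal_le_ofReal hp.le⟩
  have hg : ∀ i, ∃ g : SimpleFunc ℝ ℝ, eLpNorm (⇑(f i) - ⇑g) (ENNReal.ofReal p) μ < ENNReal.ofReal ε ∧ MemLp g (ENNReal.ofReal p) μ :=
    fun i => (Lp.memLp (f i)).exists_simpleFunc_eLpNorm_sub_lt ENNReal.ofReal_ne_top (by simpa using hε)
  choose g hg1 hg2 using hg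
  obtain ⟨N, v, hv⟩ := simple_norm n p hp μ (piSF g)
  refine ⟨N, v, fun x => ?_⟩
  let G : Fin n → Lp ℝ (ENNReal.ofReal p) μ := fun i => (hg2 i).toLp
  have hG : ∀ i, ‖f i - G i‖ ≤ ε := by
    intro i
    rw [Lp.norm_def]
    have h1 : eLpNorm (⇑(f i - G i)) (ENNReal.ofReal p) μ = eLpNorm (⇑(f i) - ⇑(g i)) (ENNReal.ofReal p) μ := by
      refine eLpNorm_congr_ae ?_
      filter_upwards [Lp.coeFn_sub (f i) (G i), (hg2 i).coeFn_toLp] with u h1 h2
      rw [h1, Pi.sub_apply, Pi.sub_apply, h2]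
    rw [h1]
    exact ENNReal.toReal_le_of_le_ofReal hε.le (hg1 i).le
  have hnorm : ‖∑ i, x i • G i‖ = (NN v p x) ^ (1 / p) := by
    rw [Lp.norm_def, ← hv x]
    congr 1
    refine eLpNorm_congr_ae ?_
    have h1 : ∀ i : Fin n, ∀ᵐ u ∂μ, (x i • G i : Lp ℝ (ENNReal.ofReal p) μ) u = x i * g i u := by
      intro i
      filter_upwards [Lp.coeFn_smul (x i) (G i), (hg2 i).coeFn_toLp] with u h1 h2
      rw [h1, Pi.smul_apply, h2]; rfl
    have h3 : (⇑(∑ i, x i • G i) : ℝ → ℝ) =ᵐ[μ] ∑ i, ⇑(x i • G i) := by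
      exact coeFn_sum_fin _
    filter_upwards [ae_all_iff.2 h1, h3] with u h1 h3
    rw [h3, Finset.sum_apply]
    simp only [h1]
    show _ = (fun i => g i u) ⬝ᵥ x
    simp only [dotProduct]
    exact Finset.sum_congr rfl fun i _ => mul_comm _ _
  rw [← hnorm]
  refine (abs_norm_sub_norm_le _ _).trans ?_
  have h2 : ∑ i, x i • f i - ∑ i, x i • G i = ∑ i, x i • (f i - G i) := by
    rw [← Finset.sum_sub_distrib]
    exact Finset.sum_congr rfl fun i _ => (smul_sub _ _ _).symm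
  rw [h2]
  refine (norm_sum_le _ _).trans ?_
  rw [Finset.mul_sum]
  refine Finset.sum_le_sum fun i _ => ?_
  rw [norm_smul, Real.norm_eq_abs, mul_comm]
  exact mul_le_mul_of_nonneg_right (hG i) (abs_nonneg _)

/-- J2: discrete approximation of the norm -/
theorem lp_approx (n : ℕ) (p : ℝ) (hp : 1 < p)
    (f : Fin n → MeasureTheory.Lp ℝ (ENNReal.ofReal p) ((volume : Measure ℝ).restrict (Set.Icc (0:ℝ) 1)))
    (ε : ℝ) (hε : 0 < ε) :
    ∃ (N : ℕ) (v : Fin N → Fin n → ℝ), ∀ x : Fin n → ℝ,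
      |‖∑ i, x i • f i‖ - (NN v p x) ^ (1 / p)| ≤ ε * ∑ i, |x i| := by
  exact lp_approx_gen n p hp _ f ε hε

end S_lp_approx

theorem lp_approx : type_of% @S_lp_approx.lp_approx := @S_lp_approx.lp_approx
end

section
namespace S_limit_vp

/-- J3: passage to the limit -/
theorem limit_vp (n : ℕ) (hn : 0 < n) (p : ℝ) (hp : 1 < p) (c : ENNReal)
    (f : Fin n → MeasureTheory.Lp ℝ (ENNReal.ofReal p) ((volume : Measure ℝ).restrict (Set.Icc (0:ℝ) 1)))
    (hf : LinearIndependent ℝ f)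
    (happ : ∀ ε : ℝ, 0 < ε → ∃ (N : ℕ) (v : Fin N → Fin n → ℝ), ∀ x : Fin n → ℝ,
      |‖∑ i, x i • f i‖ - (NN v p x) ^ (1 / p)| ≤ ε * ∑ i, |x i|)
    (hdisc : ∀ (N : ℕ) (v : Fin N → Fin n → ℝ), Spans v →
      c ≤ volume {x : Fin n → ℝ | NN v p x ≤ 1} *
        volume {y : Fin n → ℝ | ∀ x : Fin n → ℝ, NN v p x ≤ 1 → ∑ i, x i * y i ≤ 1}) :
    c ≤ volume {x : Fin n → ℝ | ‖∑ i, x i • f i‖ ≤ 1} *
      volume {y : Fin n → ℝ | ∀ x : Fin n → ℝ, ‖∑ i, x i • f i‖ ≤ 1 → ∑ i, x i * y i ≤ 1} := by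
  classical
  have hfact : Fact (1 ≤ ENNReal.ofReal p) := ⟨by
    rw [← ENNReal.ofReal_one]; exact ENNReal.ofReal_le_ofReal hp.le⟩
  have hp0 : 0 < p := by linarith
  let X := MeasureTheory.Lp ℝ (ENNReal.ofReal p) ((volume : Measure ℝ).restrict (Set.Icc (0:ℝ) 1))
  let T : (Fin n → ℝ) →ₗ[ℝ] X := Fintype.linearCombination ℝ f
  have hT : ∀ x, T x = ∑ i, x i • f i := fun x => Fintype.linearCombination_apply ℝ f x
  have hker : LinearMap.ker T = ⊥ := by
    rw [LinearMap.ker_eq_bot]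
    exact hf.fintypeLinearCombination_injective
  obtain ⟨K, hK, hanti⟩ := T.exists_antilipschitzWith hker
  have hνK : ∀ x, ∑ i, |x i| ≤ (n * K : ℝ) * ‖T x‖ := by
    intro x
    have h1 : ‖x‖ ≤ K * ‖T x‖ := by
      have := hanti.le_mul_dist x 0
      simpa using this
    have h2 : ∑ i, |x i| ≤ n * ‖x‖ := by
      have : ∑ i, |x i| ≤ ∑ _i : Fin n, ‖x‖ := Finset.sum_le_sum fun i _ => norm_le_pi_norm x i
      simpa using this
    have h3 : (n : ℝ) * ‖x‖ ≤ n * (K * ‖T x‖) := mul_le_mul_of_nonneg_left h1 (by positivity)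
    linarith
  have hnK : 0 < (n * K : ℝ) := by positivity
  simp only [← hT] at happ ⊢
  set B := {x : Fin n → ℝ | ‖T x‖ ≤ 1} with hB
  set B' := {y : Fin n → ℝ | ∀ x : Fin n → ℝ, ‖T x‖ ≤ 1 → ∑ i, x i * y i ≤ 1} with hB'
  -- the inequality for every `η`
  have key : ∀ η : ℝ, 0 < η → η < 1 / 2 →
      c ≤ (ENNReal.ofReal |((1 - η)⁻¹) ^ n| * ENNReal.ofReal |(1 + η) ^ n|) * (volume B * volume B') := by
    intro η hη hη2
    obtain ⟨N, v, hv⟩ := happ (η / (n * K)) (by positivity)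
    have hv' : ∀ x, |‖T x‖ - (NN v p x) ^ (1 / p)| ≤ η * ‖T x‖ := by
      intro x
      refine le_trans (hv x) ?_
      have := mul_le_mul_of_nonneg_left (hνK x) (show 0 ≤ η / (n * K) by positivity)
      have e : η / (n * K) * ((n * K : ℝ) * ‖T x‖) = η * ‖T x‖ := by field_simp
      linarith
    have hlow : ∀ x, (1 - η) * ‖T x‖ ≤ (NN v p x) ^ (1 / p) := by
      intro x
      have := (abs_le.mp (hv' x)).2
      linarith
    have hup : ∀ x, (NN v p x) ^ (1 / p) ≤ (1 + η) * ‖T x‖ := by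
      intro x
      have := (abs_le.mp (hv' x)).1
      linarith
    have hNN : ∀ x, 0 ≤ NN v p x := fun x => Finset.sum_nonneg fun j _ => by positivity
    have hN1 : ∀ x, NN v p x ≤ 1 ↔ (NN v p x) ^ (1 / p) ≤ 1 := by
      intro x
      constructor
      · intro h; exact Real.rpow_le_one (hNN x) h (by positivity)
      · intro h
        by_contra h2
        push Not at h2
        have := Real.one_lt_rpow h2 (show 0 < 1 / p by positivity)
        linarith
    have hspan : Spans v := by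
      intro x hx
      have h1 : NN v p x = 0 := by
        unfold NN
        refine Finset.sum_eq_zero fun j _ => ?_
        rw [hx j, abs_zero, Real.zero_rpow hp0.ne']
      have h2 := hlow x
      rw [h1, Real.zero_rpow (by positivity)] at h2
      have h3 : ‖T x‖ = 0 := by
        have := norm_nonneg (T x)
        nlinarith
      have h4 : T x = 0 := norm_eq_zero.mp h3
      have : x ∈ LinearMap.ker T := h4
      rw [hker] at this
      simpa using this
    have hc := hdisc N v hspan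
    have hs1 : open scoped Pointwise in {x : Fin n → ℝ | NN v p x ≤ 1} ⊆ ((1 - η)⁻¹) • B := by
      intro x hx
      rw [Set.mem_smul_set_iff_inv_smul_mem₀ (inv_ne_zero (by linarith)), inv_inv]
      change ‖T ((1 - η) • x)‖ ≤ 1
      rw [map_smul, norm_smul, Real.norm_eq_abs, abs_of_pos (by linarith)]
      exact le_trans (hlow x) ((hN1 x).mp hx)
    have hs2 : open scoped Pointwise in {y : Fin n → ℝ | ∀ x : Fin n → ℝ, NN v p x ≤ 1 → ∑ i, x i * y i ≤ 1} ⊆ (1 + η) • B' := by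
      intro y hy
      rw [Set.mem_smul_set_iff_inv_smul_mem₀ (by linarith)]
      intro x hx
      have h1 : NN v p ((1 + η)⁻¹ • x) ≤ 1 := by
        rw [hN1]
        refine le_trans (hup _) ?_
        rw [map_smul, norm_smul, Real.norm_eq_abs, abs_of_pos (by positivity), ← mul_assoc,
          mul_inv_cancel₀ (by linarith), one_mul]
        exact hx
      have h2 := hy _ h1
      refine le_trans (le_of_eq ?_) h2
      refine Finset.sum_congr rfl fun i _ => ?_
      simp only [Pi.smul_apply, smul_eq_mul]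
      ring
    have hfr : Module.finrank ℝ (Fin n → ℝ) = n := by simp
    have hv1 := measure_mono (μ := (volume : Measure (Fin n → ℝ))) hs1
    rw [Measure.addHaar_smul, hfr] at hv1
    have hv2 := measure_mono (μ := (volume : Measure (Fin n → ℝ))) hs2
    rw [Measure.addHaar_smul, hfr] at hv2
    calc c ≤ _ := hc
      _ ≤ (ENNReal.ofReal |((1 - η)⁻¹) ^ n| * volume B) * (ENNReal.ofReal |(1 + η) ^ n| * volume B') :=
          mul_le_mul' hv1 hv2
      _ = _ := by ring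
  -- the limit
  have hlim : Tendsto (fun η : ℝ => ENNReal.ofReal |((1 - η)⁻¹) ^ n| * ENNReal.ofReal |(1 + η) ^ n|)
      (𝓝[>] 0) (𝓝 1) := by
    have e1 : Tendsto (fun η : ℝ => |((1 - η)⁻¹) ^ n|) (𝓝[>] 0) (𝓝 1) := by
      have : ContinuousAt (fun η : ℝ => |((1 - η)⁻¹) ^ n|) 0 := by
        apply ContinuousAt.abs
        apply ContinuousAt.pow
        apply ContinuousAt.inv₀ (by fun_prop) (by norm_num)
      have h := this.tendsto
      simp only [sub_zero, inv_one, one_pow, abs_one] at h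
      exact h.mono_left nhdsWithin_le_nhds
    have e2 : Tendsto (fun η : ℝ => |(1 + η) ^ n|) (𝓝[>] 0) (𝓝 1) := by
      have : ContinuousAt (fun η : ℝ => |(1 + η) ^ n|) 0 := by fun_prop
      have h := this.tendsto
      simp only [add_zero, one_pow, abs_one] at h
      exact h.mono_left nhdsWithin_le_nhds
    have e3 := ENNReal.tendsto_ofReal e1
    have e4 := ENNReal.tendsto_ofReal e2
    rw [ENNReal.ofReal_one] at e3 e4
    have := ENNReal.Tendsto.mul e3 (Or.inl one_ne_zero) e4 (Or.inl one_ne_zero)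
    simpa using this
  have hlim2 := ENNReal.Tendsto.mul_const (b := volume B * volume B') hlim (Or.inl one_ne_zero)
  rw [one_mul] at hlim2
  refine ge_of_tendsto hlim2 ?_
  have h0 : ∀ᶠ η : ℝ in 𝓝[>] 0, 0 < η := self_mem_nhdsWithin
  have h1 : ∀ᶠ η : ℝ in 𝓝[>] 0, η < 1 / 2 :=
    nhdsWithin_le_nhds (Iio_mem_nhds (by norm_num))
  filter_upwards [h0, h1] with η a1 a2
  exact key η a1 a2

end S_limit_vp

theorem limit_vp : type_of% @S_limit_vp.limit_vp := @S_limit_vp.limit_vp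
end

end VPL
end
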