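import Mathlib
import Pool.Agent.VPL.Vol

set_option autoImplicit false
open MeasureTheory Set Filter Topology Matrix

noncomputable section
namespace VPL

theorem lsc_log {X : Type*} [TopologicalSpace X] (f : X → ℝ) (S : Set X)
    (hf : LowerSemicontinuousOn f S) (hpos : ∀ x ∈ S, 0 < f x) :
    LowerSemicontinuousOn (fun x => Real.log (f x)) S := by
  intro x hx y hy
  have h1 : Real.exp y < f x := (Real.lt_log_iff_exp_lt (hpos x hx)).1 hy
  have h2 := hf x hx (Real.exp y) h1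
  filter_upwards [h2, self_mem_nhdsWithin] with z hz hzS
  exact (Real.lt_log_iff_exp_lt (hpos z hzS)).2 hz

theorem one_spans : Spans (fun (_ : Fin 1) (_ : Fin 1) => (1:ℝ)) := by
  intro x hx
  have := hx 0
  simp [dotProduct] at this
  funext i
  rw [Subsingleton.elim i 0]
  simpa using this

theorem scl_spans {n N : ℕ} (v : Fin N → Fin n → ℝ) (hv : Spans v) (p : ℝ) (i : Fin N) (t : ℝ)
    (ht : 0 ≤ t) : Spans (scl v p i t) := by
  intro x hx
  apply hv
  intro j
  have h := hx j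
  unfold scl at h
  by_cases hj : j = i
  · subst hj
    rw [Function.update_self, smul_dotProduct, smul_eq_mul] at h
    have hc : (1 + t) ^ (1 / p) ≠ 0 := (Real.rpow_pos_of_pos (by linarith) _).ne'
    exact (mul_eq_zero.1 h).resolve_left hc
  · rwa [Function.update_of_ne hj] at h

theorem ZV_gl {n N : ℕ} (v : Fin N → Fin n → ℝ) (M : Matrix (Fin n) (Fin n) ℝ) (hM : M.det ≠ 0)
    (p : ℝ) : ZZ (fun j => v j ᵥ* M) p * VV (fun j => v j ᵥ* M) p = ZZ v p * VV v p := by
  rw [ZZ_gl v M hM p, VV_gl v M hM p]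
  have : |M.det| ≠ 0 := abs_ne_zero.2 hM
  field_simp

/-- the scaled one-dimensional configuration -/
theorem one_scl (p t : ℝ) (_ht : 0 ≤ t) (i : Fin 1) :
    scl (fun (_ : Fin 1) (_ : Fin 1) => (1:ℝ)) p i t =
      fun j => (fun (_ : Fin 1) (_ : Fin 1) => (1:ℝ)) j ᵥ* (Matrix.of fun _ _ => (1 + t) ^ (1 / p)) := by
  funext j k
  rw [Subsingleton.elim j i]
  simp [scl, vecMul, dotProduct]

theorem one_ratio (p t : ℝ) (ht : 0 ≤ t) (i : Fin 1)
    (hZ : 0 < ZZ (fun (_ : Fin 1) (_ : Fin 1) => (1:ℝ)) p)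
    (hV : 0 < VV (fun (_ : Fin 1) (_ : Fin 1) => (1:ℝ)) p) :
    ZZ (scl (fun (_ : Fin 1) (_ : Fin 1) => (1:ℝ)) p i t) p / ZZ (fun (_ : Fin 1) (_ : Fin 1) => (1:ℝ)) p +
      VV (scl (fun (_ : Fin 1) (_ : Fin 1) => (1:ℝ)) p i t) p / VV (fun (_ : Fin 1) (_ : Fin 1) => (1:ℝ)) p - 2
    = (1 + t) ^ (1 / p) + ((1 + t) ^ (1 / p))⁻¹ - 2 := by
  have hc : 0 < (1 + t) ^ (1 / p) := Real.rpow_pos_of_pos (by linarith) _
  have hdet : (Matrix.of fun (_ _ : Fin 1) => (1 + t) ^ (1 / p)).det = (1 + t) ^ (1 / p) := by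
    simp
  have hdet' : (Matrix.of fun (_ _ : Fin 1) => (1 + t) ^ (1 / p)).det ≠ 0 := by rw [hdet]; exact hc.ne'
  rw [one_scl p t ht i, ZZ_gl _ _ hdet' p, VV_gl _ _ hdet' p, hdet, abs_of_pos hc]
  field_simp
  ring

/-- the function `g` -/
def gg (p u : ℝ) : ℝ := (1 + u) ^ (1 / p) + ((1 + u) ^ (1 / p))⁻¹ - 2

theorem gg_scale (p c : ℝ) (hc : 0 ≤ c) (hint : IntegrableOn (fun t => gg p t / t ^ 2) (Ioi 0)) :
    IntegrableOn (fun t => gg p (c * t) / t ^ 2) (Ioi 0) ∧
    ∫ t in Ioi (0:ℝ), gg p (c * t) / t ^ 2 = c * ∫ t in Ioi (0:ℝ), gg p t / t ^ 2 := by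
  rcases hc.eq_or_lt with rfl | hc
  · have : ∀ t : ℝ, gg p (0 * t) / t ^ 2 = 0 := by intro t; simp [gg]; norm_num
    constructor
    · simp only [this]; exact integrableOn_zero
    · simp only [this]; simp
  have hfun : (fun t => gg p (c * t) / t ^ 2) = fun t => c ^ 2 * (fun u => gg p u / u ^ 2) (c * t) := by
    funext t
    by_cases ht : t = 0
    · subst ht; simp
    · simp only []
      field_simp
  rw [hfun]
  constructor
  · have := (integrableOn_Ioi_comp_mul_left_iff (fun u => gg p u / u ^ 2) 0 hc).2 (by simpa using hint)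
    exact this.const_mul _
  · rw [integral_const_mul, integral_comp_mul_left_Ioi (fun u => gg p u / u ^ 2) 0 hc]
    simp only [mul_zero, smul_eq_mul]
    field_simp

theorem inv_add_anti (b B : ℝ) (hb : 0 < b) (hbB : b ≤ B) (hB : B ≤ 1) : B + B⁻¹ ≤ b + b⁻¹ := by
  have hBp : 0 < B := lt_of_lt_of_le hb hbB
  have : b + b⁻¹ - (B + B⁻¹) = (B - b) * (1 - b * B) / (b * B) := by
    field_simp
    ring
  have h2 : 0 ≤ (B - b) * (1 - b * B) / (b * B) := by
    apply div_nonneg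
    · apply mul_nonneg (by linarith)
      nlinarith
    · positivity
  linarith

/-- the mean of `y_i` -/
def Em {n N : ℕ} (v : Fin N → Fin n → ℝ) (p : ℝ) (i : Fin N) : ℝ :=
  (∫ x, |v i ⬝ᵥ x| ^ p * Real.exp (-NN v p x)) / ZZ v p

theorem Em_nonneg {n N : ℕ} (v : Fin N → Fin n → ℝ) (p : ℝ) (i : Fin N) (hZ : 0 < ZZ v p) :
    0 ≤ Em v p i := by
  unfold Em
  apply div_nonneg _ hZ.le
  apply integral_nonneg
  intro x
  exact mul_nonneg (Real.rpow_nonneg (abs_nonneg _) _) (Real.exp_nonneg _)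

theorem Em_sum {n N : ℕ} (v : Fin N → Fin n → ℝ) (hv : Spans v) (p : ℝ) (hp : 1 < p)
    (hZ : 0 < ZZ v p) : ∑ i, Em v p i = n / p := by
  obtain ⟨σ, hσ⟩ := (spans_iff v).1 hv
  have h1 := GG_euler v σ hσ ∅ p hp
  have hG : GG v σ ∅ p = ZZ v p := by simp [GG, wt, ZZ]
  have hi := wt_integrable v σ hσ ∅ p hp 1
  have hint : ∀ i : Fin N, Integrable (fun x : Fin n → ℝ => |v i ⬝ᵥ x| ^ p * Real.exp (-NN v p x)) := by
    intro i
    refine Integrable.mono' hi ?_ ?_
    · apply Measurable.aestronglyMeasurable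
      unfold NN
      simp only [dotProduct]
      fun_prop
    · refine Filter.Eventually.of_forall fun x => ?_
      have hy : 0 ≤ |v i ⬝ᵥ x| ^ p := Real.rpow_nonneg (abs_nonneg _) _
      have hle : |v i ⬝ᵥ x| ^ p ≤ NN v p x := by
        unfold NN
        exact Finset.single_le_sum (f := fun j => |v j ⬝ᵥ x| ^ p)
          (fun j _ => Real.rpow_nonneg (abs_nonneg _) _) (Finset.mem_univ i)
      rw [Real.norm_eq_abs, abs_of_nonneg (mul_nonneg hy (Real.exp_nonneg _))]
      simp only [wt, Finset.prod_empty, one_mul, pow_one]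
      exact mul_le_mul_of_nonneg_right (by linarith) (Real.exp_nonneg _)
  have h2 : ∑ i, Em v p i = (∫ x : Fin n → ℝ, NN v p x * (wt v σ ∅ p x * Real.exp (-NN v p x))) / ZZ v p := by
    unfold Em
    rw [← Finset.sum_div, ← integral_finsetSum _ (fun i _ => hint i)]
    congr 1
    apply integral_congr_ae
    refine Filter.Eventually.of_forall fun x => ?_
    simp only [wt, Finset.prod_empty, one_mul]
    rw [← Finset.sum_mul]
    rfl
  rw [h2, h1, hG]
  simp only [Finset.card_empty, Nat.cast_zero, zero_mul, sub_zero]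
  field_simp

/-- lower bound of the Levy integral at a point where `a_i b_i ≥ 1` -/
theorem levy_lower {n N : ℕ} (v : Fin N → Fin n → ℝ) (hv : Spans v) (p : ℝ) (hp : 1 < p)
    (hp2 : p < 2) (hZ : 0 < ZZ v p) (hV : 0 < VV v p)
    (hpos : ∀ i t, 0 ≤ t → 0 < ZZ (scl v p i t) p ∧ 0 < VV (scl v p i t) p)
    (hmin : ∀ i t, 0 ≤ t → ZZ v p * VV v p ≤ ZZ (scl v p i t) p * VV (scl v p i t) p)
    (hint : IntegrableOn (fun t : ℝ =>
      (∑ i, (ZZ (scl v p i t) p / ZZ v p + VV (scl v p i t) p / VV v p - 2)) / t ^ 2) (Ioi 0))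
    (hg : IntegrableOn (fun t => gg p t / t ^ 2) (Ioi 0)) :
    n * ∫ t in Ioi (0:ℝ), gg p t / t ^ 2 ≤ ∫ t in Ioi (0:ℝ),
      (∑ i, (ZZ (scl v p i t) p / ZZ v p + VV (scl v p i t) p / VV v p - 2)) / t ^ 2 := by
  have hE : ∀ i, 0 ≤ p * Em v p i := fun i => mul_nonneg (by linarith) (Em_nonneg v p i hZ)
  have h1 : n * ∫ t in Ioi (0:ℝ), gg p t / t ^ 2 =
      ∫ t in Ioi (0:ℝ), ∑ i, gg p (p * Em v p i * t) / t ^ 2 := by
    rw [integral_finsetSum _ (fun i _ => (gg_scale p _ (hE i) hg).1)]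
    rw [Finset.sum_congr rfl (fun i _ => (gg_scale p _ (hE i) hg).2), ← Finset.sum_mul,
      ← Finset.mul_sum, Em_sum v hv p hp hZ]
    field_simp
  rw [h1]
  apply setIntegral_mono_on _ hint measurableSet_Ioi
  · intro t ht
    have ht0 : 0 ≤ t := le_of_lt ht
    rw [← Finset.sum_div]
    apply div_le_div_of_nonneg_right _ (by positivity)
    apply Finset.sum_le_sum
    intro i _
    obtain ⟨hZ', hV'⟩ := hpos i t ht0
    set b := ZZ (scl v p i t) p / ZZ v p with hb
    set a := VV (scl v p i t) p / VV v p with ha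
    have hbpos : 0 < b := div_pos hZ' hZ
    have hapos : 0 < a := div_pos hV' hV
    have hab : 1 ≤ b * a := by
      rw [hb, ha, div_mul_div_comm, le_div_iff₀ (mul_pos hZ hV), one_mul]
      exact hmin i t ht0
    have hainv : b⁻¹ ≤ a := by
      rw [inv_le_iff_one_le_mul₀ hbpos]
      linarith [mul_comm a b]
    have hcmp := scl_compare v hv p hp hp2 i t ht0
    have hu : 0 ≤ p * Em v p i * t := mul_nonneg (hE i) ht0
    have hbase : 0 < (1 + p * Em v p i * t) ^ (1 / p) := Real.rpow_pos_of_pos (by linarith) _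
    have hB1 : 1 ≤ (1 + p * Em v p i * t) ^ (1 / p) :=
      Real.one_le_rpow (by linarith) (by positivity)
    have hbB : b ≤ ((1 + p * Em v p i * t) ^ (1 / p))⁻¹ := by
      rw [hb, div_le_iff₀ hZ, ← Real.rpow_neg (by linarith)]
      have : 1 + p * t * ((∫ x, |v i ⬝ᵥ x| ^ p * Real.exp (-NN v p x)) / ZZ v p) =
          1 + p * Em v p i * t := by unfold Em; ring
      rw [this] at hcmp
      exact hcmp
    have hanti := inv_add_anti b _ hbpos hbB (inv_le_one_of_one_le₀ hB1)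
    rw [inv_inv] at hanti
    unfold gg
    linarith
  · exact integrable_finsetSum _ (fun i _ => (gg_scale p _ (hE i) hg).1)

theorem kap_two : kap 2 = Real.pi := by
  unfold kap
  rw [ZV_two _ one_spans]
  simp

theorem kap_cont (p : ℝ) (hp : 1 < p) : ContinuousAt kap p := by
  have h : kap =ᶠ[𝓝 p] fun p => (2 * Real.Gamma (1 / p + 1)) * (2 / p * Real.Gamma ((p - 1) / p)) := by
    filter_upwards [lt_mem_nhds hp] with q hq
    exact kap_value q hq
  rw [continuousAt_congr h]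
  have hp0 : p ≠ 0 := by linarith
  have h1 : ContinuousAt (fun p : ℝ => Real.Gamma (1 / p + 1)) p := by
    apply ContinuousAt.comp (g := Real.Gamma) (f := fun p : ℝ => 1 / p + 1)
    · exact (Real.differentiableAt_Gamma (fun m => by
        have : (0:ℝ) < 1 / p + 1 := by positivity
        have h2 : (0:ℝ) ≤ m := Nat.cast_nonneg m
        linarith)).continuousAt
    · fun_prop (disch := assumption)
  have h2 : ContinuousAt (fun p : ℝ => Real.Gamma ((p - 1) / p)) p := by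
    apply ContinuousAt.comp (g := Real.Gamma) (f := fun p : ℝ => (p - 1) / p)
    · exact (Real.differentiableAt_Gamma (fun m => by
        have : (0:ℝ) < (p - 1) / p := div_pos (by linarith) (by linarith)
        have h2 : (0:ℝ) ≤ m := Nat.cast_nonneg m
        linarith)).continuousAt
    · fun_prop (disch := assumption)
  have h3 : ContinuousAt (fun p : ℝ => 2 / p) p := by fun_prop (disch := assumption)
  exact (continuousAt_const.mul h1).mul (h3.mul h2)

/-- MAIN inequality -/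
theorem main_ineq {n N : ℕ} (v : Fin N → Fin n → ℝ) (hv : Spans v) (p : ℝ) (hp : 1 < p) (hp2 : p < 2) :
    kap p ^ n ≤ ZZ v p * VV v p := by
  obtain ⟨K, hK⟩ := logZV_deriv
  have hpos : ∀ w : Fin N → Fin n → ℝ, Spans w → ∀ q, 1 < q → q ≤ 2 → 0 < ZZ w q * VV w q := by
    intro w hw q hq hq2
    rcases hq2.eq_or_lt with rfl | hq2
    · rw [ZV_two w hw]; positivity
    · obtain ⟨h1, h2, _⟩ := hK n N w hw q hq hq2
      exact mul_pos h1 h2
  have hkpos : ∀ q, 1 < q → q ≤ 2 → 0 < kap q := by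
    intro q hq hq2
    rcases hq2.eq_or_lt with rfl | hq2
    · rw [kap_two]; positivity
    · obtain ⟨h1, h2, _⟩ := hK 1 1 _ one_spans q hq hq2
      exact mul_pos h1 h2
  have key : ∀ w ∈ KK n N, 0 ≤ Real.log (ZZ w p * VV w p) + -(n * Real.log (kap p)) := by
    refine min_principle (KK n N) (KK_compact n N)
      (fun w q => Real.log (ZZ w q * VV w q) + -(n * Real.log (kap q))) p 2 hp2.le ?_ ?_ ?_
    · apply LowerSemicontinuousOn.add
      · exact lsc_log _ _ (ZV_lsc n N p hp) (fun q hq =>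
          hpos q.1 (KK_spans _ hq.1) q.2 (lt_of_lt_of_le hp hq.2.1) hq.2.2)
      · apply ContinuousOn.lowerSemicontinuousOn
        intro q hq
        apply ContinuousAt.continuousWithinAt
        have hq1 : 1 < q.2 := lt_of_lt_of_le hp hq.2.1
        have hk : ContinuousAt (fun q : (Fin N → Fin n → ℝ) × ℝ => kap q.2) q :=
          ContinuousAt.comp (g := kap) (kap_cont q.2 hq1) continuousAt_snd
        exact (continuousAt_const.mul (hk.log (hkpos q.2 hq1 hq.2.2).ne')).neg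
    · intro w hw
      show 0 ≤ Real.log (ZZ w 2 * VV w 2) + -(n * Real.log (kap 2))
      rw [ZV_two w (KK_spans w hw), kap_two, Real.log_pow]
      linarith
    · intro q hq w hw hmin
      have hq1 : 1 < q := lt_of_lt_of_le hp hq.1
      have hq2 : q < 2 := hq.2
      have hws := KK_spans w hw
      obtain ⟨hZ, hV, hint, hder⟩ := hK n N w hws q hq1 hq2
      obtain ⟨hZ1, hV1, hint1, hder1⟩ := hK 1 1 _ one_spans q hq1 hq2
      have hgeq : ∀ t ∈ Ioi (0:ℝ), (∑ i, (ZZ (scl (fun (_ : Fin 1) (_ : Fin 1) => (1:ℝ)) q i t) q /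
          ZZ (fun (_ : Fin 1) (_ : Fin 1) => (1:ℝ)) q +
          VV (scl (fun (_ : Fin 1) (_ : Fin 1) => (1:ℝ)) q i t) q /
          VV (fun (_ : Fin 1) (_ : Fin 1) => (1:ℝ)) q - 2)) / t ^ 2 = gg q t / t ^ 2 := by
        intro t ht
        simp only [Finset.univ_unique, Finset.sum_singleton]
        rw [one_ratio q t (le_of_lt ht) _ hZ1 hV1]
        rfl
      have hg : IntegrableOn (fun t => gg q t / t ^ 2) (Ioi 0) :=
        hint1.congr_fun hgeq measurableSet_Ioi
      rw [setIntegral_congr_fun measurableSet_Ioi hgeq] at hder1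
      have hmin' : ∀ w' : Fin N → Fin n → ℝ, Spans w' → ZZ w q * VV w q ≤ ZZ w' q * VV w' q := by
        intro w' hw'
        obtain ⟨M, hM, hMK⟩ := normal_form w' hw'
        have h := hmin _ hMK
        rw [ZV_gl w' M hM q] at h
        have h2 : Real.log (ZZ w q * VV w q) ≤ Real.log (ZZ w' q * VV w' q) := by linarith
        exact (Real.log_le_log_iff (hpos w hws q hq1 hq2.le) (hpos w' hw' q hq1 hq2.le)).1 h2
      have hlow := levy_lower w hws q hq1 hq2 hZ hV
        (fun i t ht => ⟨(hK n N _ (scl_spans w hws q i t ht) q hq1 hq2).1,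
          (hK n N _ (scl_spans w hws q i t ht) q hq1 hq2).2.1⟩)
        (fun i t ht => hmin' _ (scl_spans w hws q i t ht)) hint hg
      have hq0 : 0 < 1 / q := by positivity
      have hd2 : HasDerivAt (fun q => n * Real.log (kap q))
          (n * (-(1 / q) * ((∫ t in Ioi (0:ℝ), gg q t / t ^ 2) - K * (1:ℕ)))) q := hder1.const_mul _
      refine ⟨_, ?_, (hder.add hd2.neg).hasDerivWithinAt⟩
      have : -(1 / q) * ((∫ t in Ioi (0:ℝ), (∑ i, (ZZ (scl w q i t) q / ZZ w q +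
          VV (scl w q i t) q / VV w q - 2)) / t ^ 2) - K * n) +
          -(n * (-(1 / q) * ((∫ t in Ioi (0:ℝ), gg q t / t ^ 2) - K * (1:ℕ)))) =
          -(1 / q) * ((∫ t in Ioi (0:ℝ), (∑ i, (ZZ (scl w q i t) q / ZZ w q +
          VV (scl w q i t) q / VV w q - 2)) / t ^ 2) - n * ∫ t in Ioi (0:ℝ), gg q t / t ^ 2) := by
        push_cast
        ring
      rw [this]
      have h3 : 0 ≤ (∫ t in Ioi (0:ℝ), (∑ i, (ZZ (scl w q i t) q / ZZ w q +
          VV (scl w q i t) q / VV w q - 2)) / t ^ 2) - n * ∫ t in Ioi (0:ℝ), gg q t / t ^ 2 := by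
        linarith
      nlinarith
  obtain ⟨M, hM, hMK⟩ := normal_form v hv
  have h := key _ hMK
  rw [ZV_gl v M hM p] at h
  have hZV := hpos v hv p hp hp2.le
  have hk := hkpos p hp hp2.le
  have h2 : Real.log (kap p ^ n) ≤ Real.log (ZZ v p * VV v p) := by
    rw [Real.log_pow]; linarith
  exact (Real.log_le_log_iff (pow_pos hk n) hZV).1 h2


theorem Gpos1 (n : ℕ) (p : ℝ) (hp : 1 < p) : 0 < Real.Gamma (n / p + 1) :=
  Real.Gamma_pos_of_pos (by positivity)

theorem Gpos2 (n : ℕ) (p : ℝ) (hp : 1 < p) : 0 < Real.Gamma (n * (p - 1) / p + 1) := by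
  apply Real.Gamma_pos_of_pos
  have h1 : 0 ≤ p - 1 := by linarith
  positivity

theorem discrete_vp {n N : ℕ} (hn : 0 < n) (v : Fin N → Fin n → ℝ) (hv : Spans v) (p : ℝ) (hp : 1 < p)
    (hp2 : p < 2) :
    volume {x : Fin n → ℝ | ∑ i, |x i| ^ p ≤ 1} *
      volume {y : Fin n → ℝ | ∀ x : Fin n → ℝ, ∑ i, |x i| ^ p ≤ 1 → ∑ i, x i * y i ≤ 1} ≤
    volume {x : Fin n → ℝ | NN v p x ≤ 1} *
      volume {y : Fin n → ℝ | ∀ x : Fin n → ℝ, NN v p x ≤ 1 → ∑ i, x i * y i ≤ 1} := by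
  have h1 := Gpos1 n p hp
  have h2 := Gpos2 n p hp
  have hm := main_ineq v hv p hp hp2
  have hZ : 0 ≤ ZZ v p := integral_nonneg fun x => Real.exp_nonneg _
  rw [lp_product hn p hp hp2, vol_ball hn v hv p hp, ← kap_value p hp]
  refine le_trans ?_ (mul_le_mul_right (vol_polar_ge hn v hv p hp hp2) _)
  rw [← ENNReal.ofReal_mul (div_nonneg hZ h1.le)]
  apply ENNReal.ofReal_le_ofReal
  rw [div_mul_div_comm]
  apply div_le_div_of_nonneg_right _ (mul_pos h1 h2).le
  have h3 : 0 ≤ (p - 1) ^ n := pow_nonneg (by linarith) n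
  calc kap p ^ n * (p - 1) ^ n ≤ (ZZ v p * VV v p) * (p - 1) ^ n := mul_le_mul_of_nonneg_right hm h3
    _ = ZZ v p * ((p - 1) ^ n * VV v p) := by ring

theorem final_result :
  ∀ (n : ℕ) (p : ℝ), 1 < p → p < 2 →
  ∀ f : Fin n → MeasureTheory.Lp ℝ (ENNReal.ofReal p)
      ((MeasureTheory.volume : MeasureTheory.Measure ℝ).restrict (Set.Icc (0:ℝ) 1)),
  LinearIndependent ℝ f →
  MeasureTheory.volume {x : Fin n → ℝ | ∑ i, |x i| ^ p ≤ 1} *
    MeasureTheory.volume {y : Fin n → ℝ | ∀ x : Fin n → ℝ,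
      ∑ i, |x i| ^ p ≤ 1 → ∑ i, x i * y i ≤ 1}
  ≤ MeasureTheory.volume {x : Fin n → ℝ | ‖∑ i, x i • f i‖ ≤ 1} *
    MeasureTheory.volume {y : Fin n → ℝ | ∀ x : Fin n → ℝ,
      ‖∑ i, x i • f i‖ ≤ 1 → ∑ i, x i * y i ≤ 1} := by
  intro n p hp hp2 f hf
  rcases Nat.eq_zero_or_pos n with rfl | hn
  · simp
  · exact limit_vp n hn p hp _ f hf (fun ε hε => lp_approx n p hp f ε hε)
      (fun N v hv => discrete_vp hn v hv p hp hp2)

end VPL
end
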